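import Mathlib

/-!
Hexagonal norm on `ℤ²` and the lattices attached to points of `P¹(ℤ/N)`.
Used for small Farey sequences of `Γ₀(pⁿ)`.
-/

namespace R319F

/-- hexagonal norm -/
def hn (x y : ℤ) : ℕ := max (max x.natAbs y.natAbs) (x + y).natAbs

/-- `(x,y)` lies in the lattice of vectors proportional to `(c,d)` modulo `N`. -/
def Lt (N c d x y : ℤ) : Prop := N ∣ c * y - d * x

/-- both coordinates divisible by `p`. -/
def Imp (p x y : ℤ) : Prop := p ∣ x ∧ p ∣ y

/-- shortest nonzero vectors of the lattice of `(c,d)`. -/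
def Short (N c d x y : ℤ) : Prop :=
  Lt N c d x y ∧ (x ≠ 0 ∨ y ≠ 0) ∧
    ∀ s t : ℤ, Lt N c d s t → (s ≠ 0 ∨ t ≠ 0) → hn x y ≤ hn s t

/-- good vectors -/
def Good (p N c d : ℤ) : Prop :=
  Short N c d c d ∨
  ((∀ x y, Short N c d x y → Imp p x y) ∧
    ∃ x y, Short N c d x y ∧ |c * y - d * x| = N ∧
      (c.natAbs < hn c d ∨ x.natAbs < hn x y) ∧ (d.natAbs < hn c d ∨ y.natAbs < hn x y) ∧
      ((c + d).natAbs < hn c d ∨ (x + y).natAbs < hn x y))

lemma hn_rot (x y : ℤ) : hn y (-x - y) = hn x y := by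
  unfold hn; omega

lemma hn_neg (x y : ℤ) : hn (-x) (-y) = hn x y := by
  unfold hn; omega

lemma hn_pos {x y : ℤ} (h : x ≠ 0 ∨ y ≠ 0) : 0 < hn x y := by
  unfold hn; omega

lemma hn_add (x y s t : ℤ) : hn (x + s) (y + t) ≤ hn x y + hn s t := by
  have e : x + s + (y + t) = (x + y) + (s + t) := by ring
  have h1 := Int.natAbs_add_le x s
  have h2 := Int.natAbs_add_le y t
  have h3 := Int.natAbs_add_le (x + y) (s + t)
  unfold hn
  rw [e]
  refine max_le (max_le ?_ ?_) ?_
  · exact h1.trans (Nat.add_le_add ((le_max_left _ _).trans (le_max_left _ _))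
      ((le_max_left _ _).trans (le_max_left _ _)))
  · exact h2.trans (Nat.add_le_add ((le_max_right _ _).trans (le_max_left _ _))
      ((le_max_right _ _).trans (le_max_left _ _)))
  · exact h3.trans (Nat.add_le_add (le_max_right _ _) (le_max_right _ _))

lemma hn_smul (m x y : ℤ) : hn (m * x) (m * y) = m.natAbs * hn x y := by
  unfold hn
  rw [← mul_add, Int.natAbs_mul, Int.natAbs_mul, Int.natAbs_mul, Nat.mul_max_mul_left,
    Nat.mul_max_mul_left]

lemma lt_rot {N c d x y : ℤ} : Lt N d (-c - d) y (-x - y) ↔ Lt N c d x y := by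
  unfold Lt
  have : d * (-x - y) - (-c - d) * y = c * y - d * x := by ring
  rw [this]

lemma lt_neg_left {N c d x y : ℤ} : Lt N (-c) (-d) x y ↔ Lt N c d x y := by
  unfold Lt
  have : -c * y - -d * x = -(c * y - d * x) := by ring
  rw [this, dvd_neg]

lemma lt_neg_right {N c d x y : ℤ} : Lt N c d (-x) (-y) ↔ Lt N c d x y := by
  unfold Lt
  have : c * (-y) - d * (-x) = -(c * y - d * x) := by ring
  rw [this, dvd_neg]

lemma lt_symm {N c d x y : ℤ} (h : Lt N c d x y) : Lt N x y c d := by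
  unfold Lt at *
  have : x * d - y * c = -(c * y - d * x) := by ring
  rw [this, dvd_neg]; exact h

lemma lt_refl (N c d : ℤ) : Lt N c d c d := by
  unfold Lt
  have : c * d - d * c = 0 := by ring
  rw [this]; exact dvd_zero _

lemma lt_trans' {N a b c d x y : ℤ} (h : IsCoprime a b) (h1 : Lt N a b c d)
    (h2 : Lt N a b x y) : Lt N c d x y := by
  unfold Lt at *
  obtain ⟨s, t, hst⟩ := h
  have : c * y - d * x = s * (c * (a * y - b * x) - x * (a * d - b * c)) +
      t * (d * (a * y - b * x) - y * (a * d - b * c)) := by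
    linear_combination (-(c * y - d * x)) * hst
  rw [this]
  exact dvd_add (Dvd.dvd.mul_left (dvd_sub (Dvd.dvd.mul_left h2 _) (Dvd.dvd.mul_left h1 _)) _)
    (Dvd.dvd.mul_left (dvd_sub (Dvd.dvd.mul_left h2 _) (Dvd.dvd.mul_left h1 _)) _)

lemma lt_congr {N a b c d x y : ℤ} (h : IsCoprime a b) (h' : IsCoprime c d)
    (h1 : Lt N a b c d) : Lt N a b x y ↔ Lt N c d x y :=
  ⟨fun h2 => lt_trans' h h1 h2, fun h2 => lt_trans' h' (lt_symm h1) h2⟩

/-- the quarter turn preserves everything -/
lemma lt_J {N c d x y : ℤ} : Lt N d (-c) y (-x) ↔ Lt N c d x y := by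
  unfold Lt
  have : d * (-x) - (-c) * y = c * y - d * x := by ring
  rw [this]

lemma lt_add {N c d x y s t : ℤ} (h1 : Lt N c d x y) (h2 : Lt N c d s t) :
    Lt N c d (x + s) (y + t) := by
  unfold Lt at *
  have : c * (y + t) - d * (x + s) = (c * y - d * x) + (c * t - d * s) := by ring
  rw [this]; exact dvd_add h1 h2

lemma lt_sub {N c d x y s t : ℤ} (h1 : Lt N c d x y) (h2 : Lt N c d s t) :
    Lt N c d (x - s) (y - t) := by
  unfold Lt at *
  have : c * (y - t) - d * (x - s) = (c * y - d * x) - (c * t - d * s) := by ring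
  rw [this]; exact dvd_sub h1 h2

lemma lt_smul {N c d x y : ℤ} (m : ℤ) (h1 : Lt N c d x y) :
    Lt N c d (m * x) (m * y) := by
  unfold Lt at *
  have : c * (m * y) - d * (m * x) = m * (c * y - d * x) := by ring
  rw [this]; exact Dvd.dvd.mul_left h1 _

lemma short_rot {N c d x y : ℤ} (h : Short N c d x y) : Short N d (-c - d) y (-x - y) := by
  obtain ⟨h1, h2, h3⟩ := h
  refine ⟨lt_rot.2 h1, by omega, ?_⟩
  intro s t hst hne
  rw [hn_rot]
  have h4 : Lt N c d (-s - t) s := by
    have h5 : Lt N d (-c - d) s (-(-s - t) - s) := by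
      have : -(-s - t) - s = t := by ring
      rw [this]; exact hst
    exact lt_rot.1 h5
  have := h3 _ _ h4 (by omega)
  refine this.trans (le_of_eq ?_)
  unfold hn; omega

lemma short_neg_right {N c d x y : ℤ} (h : Short N c d x y) : Short N c d (-x) (-y) := by
  obtain ⟨h1, h2, h3⟩ := h
  refine ⟨lt_neg_right.2 h1, by omega, ?_⟩
  intro s t hst hne
  rw [hn_neg]
  exact h3 _ _ hst hne

lemma short_neg_left {N c d x y : ℤ} (h : Short N c d x y) : Short N (-c) (-d) x y := by
  obtain ⟨h1, h2, h3⟩ := h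
  exact ⟨lt_neg_left.2 h1, h2, fun s t hst hne => h3 _ _ (lt_neg_left.1 hst) hne⟩

lemma short_congr {N a b c d x y : ℤ} (h : IsCoprime a b) (h' : IsCoprime c d)
    (h1 : Lt N a b c d) : Short N a b x y ↔ Short N c d x y := by
  unfold Short
  constructor
  · rintro ⟨h2, h3, h4⟩
    exact ⟨(lt_congr h h' h1).1 h2, h3, fun s t hst => h4 s t ((lt_congr h h' h1).2 hst)⟩
  · rintro ⟨h2, h3, h4⟩
    exact ⟨(lt_congr h h' h1).2 h2, h3, fun s t hst => h4 s t ((lt_congr h h' h1).1 hst)⟩

lemma imp_rot {p x y : ℤ} : Imp p y (-x - y) ↔ Imp p x y := by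
  unfold Imp
  constructor
  · rintro ⟨h1, h2⟩
    refine ⟨?_, h1⟩
    have : x = -((-x - y) + y) := by ring
    rw [this]; exact (dvd_add h2 h1).neg_right
  · rintro ⟨h1, h2⟩
    exact ⟨h2, dvd_sub h1.neg_right h2⟩

lemma imp_neg {p x y : ℤ} : Imp p (-x) (-y) ↔ Imp p x y := by
  unfold Imp; rw [dvd_neg, dvd_neg]

lemma good_rot {p N c d : ℤ} (h : Good p N c d) : Good p N d (-c - d) := by
  rcases h with h | ⟨h1, x, y, h2, h3, h4, h5, h6⟩
  · left
    exact short_rot h
  · right
    refine ⟨?_, y, -x - y, short_rot h2, ?_, ?_, ?_, ?_⟩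
    · intro s t hst
      have h7 := short_rot (short_rot hst)
      have e1 : -d - (-c - d) = c := by ring
      have e2 : -s - t - (-(t) - (-s - t)) = -s - t - s := by ring
      rw [e1] at h7
      have e3 : -(-c - d) - c = d := by ring
      rw [e3] at h7
      have h8 := h1 _ _ h7
      have e4 : -t - (-s - t) = s := by ring
      rw [e4] at h8
      have h9 : Imp p s (-(-s - t) - s) := imp_rot.2 h8
      have e5 : -(-s - t) - s = t := by ring
      rw [e5] at h9
      exact h9
    · have : d * (-x - y) - (-c - d) * y = c * y - d * x := by ring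
      rw [this]; exact h3
    · rw [hn_rot, hn_rot]; exact h5
    · rw [hn_rot, hn_rot]
      have e1 : (-c - d).natAbs = (c + d).natAbs := by omega
      have e2 : (-x - y).natAbs = (x + y).natAbs := by omega
      rw [e1, e2]; exact h6
    · rw [hn_rot, hn_rot]
      have e1 : (d + (-c - d)).natAbs = c.natAbs := by omega
      have e2 : (y + (-x - y)).natAbs = x.natAbs := by omega
      rw [e1, e2]; exact h4

lemma good_neg {p N c d : ℤ} (h : Good p N c d) : Good p N (-c) (-d) := by
  rcases h with h | ⟨h1, x, y, h2, h3, h4, h5, h6⟩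
  · left
    exact short_neg_left (short_neg_right h)
  · right
    refine ⟨?_, x, y, short_neg_left h2, ?_, ?_, ?_, ?_⟩
    · intro s t hst
      have h7 := short_neg_left hst
      rw [neg_neg, neg_neg] at h7
      exact h1 _ _ h7
    · have : -c * y - -d * x = -(c * y - d * x) := by ring
      rw [this, abs_neg]; exact h3
    · rw [hn_neg, Int.natAbs_neg]; exact h4
    · rw [hn_neg, Int.natAbs_neg]; exact h5
    · have e1 : (-c + -d).natAbs = (c + d).natAbs := by omega
      rw [hn_neg, e1]; exact h6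

lemma good_root {p N : ℤ} : Good p N 0 1 := by
  left
  refine ⟨lt_refl _ _ _, by right; norm_num, ?_⟩
  intro s t _ hne
  have := hn_pos hne
  have h2 : hn 0 1 = 1 := by unfold hn; norm_num
  omega

/-- existence of shortest vectors -/
lemma exists_short {N c d : ℤ} (h : c ≠ 0 ∨ d ≠ 0) : ∃ x y, Short N c d x y := by
  classical
  have hex : ∃ m : ℕ, ∃ x y : ℤ, Lt N c d x y ∧ (x ≠ 0 ∨ y ≠ 0) ∧ hn x y = m :=
    ⟨hn c d, c, d, lt_refl _ _ _, h, rfl⟩
  obtain ⟨x, y, h1, h2, h3⟩ := Nat.find_spec hex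
  refine ⟨x, y, h1, h2, ?_⟩
  intro s t hst hne
  rw [h3]
  exact Nat.find_min' hex ⟨s, t, hst, hne, rfl⟩

end R319F
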