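import Pool.Agent.R319.F1

/-!
Core step: good vectors propagate across minimal vectors.
-/

namespace R319F

lemma exists_cross {N c d u1 u2 : ℤ} (hcd : IsCoprime c d)
    (hu : Short N c d u1 u2) : ∃ w1 w2, Lt N c d w1 w2 ∧ w1 * u2 - w2 * u1 = N := by
  obtain ⟨α, β, hαβ⟩ := hcd
  obtain ⟨h1, h2, h3⟩ := hu
  obtain ⟨k, hk⟩ := h1
  set i := α * u1 + β * u2 with hi
  have e1 : u1 = i * c - N * k * β := by
    rw [hi]; linear_combination (-u1) * hαβ + (-β) * hk
  have e2 : u2 = i * d + N * k * α := by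
    rw [hi]; linear_combination (-u2) * hαβ + (α) * hk
  have hgpos : 0 < Int.gcd i k := by
    rcases Nat.eq_zero_or_pos (Int.gcd i k) with h | h
    · exfalso
      rw [Int.gcd_eq_zero_iff] at h
      rw [h.1, h.2] at e1 e2
      simp at e1 e2
      rcases h2 with h2 | h2
      · exact h2 e1
      · exact h2 e2
    · exact h
  obtain ⟨i', k', hg1, hi', hk'⟩ := Int.exists_gcd_one hgpos
  set g := Int.gcd i k with hg
  have hu' : Lt N c d (i' * c - N * k' * β) (i' * d + N * k' * α) := by
    refine ⟨k', ?_⟩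
    linear_combination (N * k') * hαβ
  have f1 : u1 = g * (i' * c - N * k' * β) := by
    rw [e1, hk', hi']; ring
  have f2 : u2 = g * (i' * d + N * k' * α) := by
    rw [e2, hk', hi']; ring
  have hne : (i' * c - N * k' * β) ≠ 0 ∨ (i' * d + N * k' * α) ≠ 0 := by
    by_contra hcon
    push Not at hcon
    rw [hcon.1] at f1
    rw [hcon.2] at f2
    simp at f1 f2
    rcases h2 with h2 | h2
    · exact h2 f1
    · exact h2 f2
  have h4 := h3 _ _ hu' hne
  rw [f1, f2, hn_smul] at h4
  have h5 := hn_pos hne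
  have hg1' : g = 1 := by
    have : g ≤ 1 := by
      rw [Int.natAbs_natCast] at h4
      by_contra hcon
      push Not at hcon
      nlinarith
    omega
  have hco : IsCoprime i' k' := Int.isCoprime_iff_gcd_eq_one.2 hg1
  obtain ⟨r, s, hrs⟩ := hco
  refine ⟨s * c + N * r * β, s * d - N * r * α, ⟨-r, ?_⟩, ?_⟩
  · linear_combination (-N * r) * hαβ
  · rw [f1, f2, hg1']
    push_cast
    linear_combination (N * s * k' + N * r * i') * hαβ + N * hrs

lemma basis {N c d u1 u2 w1 w2 x y : ℤ} (hN : 0 < N) (hcd : IsCoprime c d)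
    (hu : Lt N c d u1 u2) (hw : Lt N c d w1 w2) (hx : Lt N c d x y)
    (hwu : w1 * u2 - w2 * u1 = N) :
    ∃ m j, x = m * w1 + j * u1 ∧ y = m * w2 + j * u2 ∧ x * u2 - y * u1 = m * N := by
  obtain ⟨m, hm⟩ := lt_trans' hcd hx hu
  obtain ⟨j, hj⟩ := lt_trans' hcd hw hx
  refine ⟨m, j, ?_, ?_, ?_⟩
  · have : N * x = N * (m * w1 + j * u1) := by
      linear_combination (-x) * hwu + w1 * hm + u1 * hj
    exact mul_left_cancel₀ hN.ne' this
  · have : N * y = N * (m * w2 + j * u2) := by
      linear_combination (-y) * hwu + w2 * hm + u2 * hj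
    exact mul_left_cancel₀ hN.ne' this
  · linear_combination hm

lemma short_bound_aux {N c d α β : ℤ} (hN : 0 < N) (hcd : IsCoprime c d)
    (hu : Short N c d α β) (hα : 0 ≤ α) (hβ : 0 ≤ β) : 3 * (α + β) ^ 2 ≤ 4 * N := by
  obtain ⟨v1, v2, hv, hvu⟩ := exists_cross hcd hu
  obtain ⟨h1, h2, h3⟩ := hu
  have hl : 0 < α + β := by omega
  have hhn : (hn α β : ℤ) = α + β := by unfold hn; omega
  set l := α + β with hl'
  set θ := (v1 + v2) % l with hθ
  set t := (v1 + v2) / l with ht
  have hθ0 : 0 ≤ θ := Int.emod_nonneg _ hl.ne'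
  have hθ1 : θ < l := Int.emod_lt_of_pos _ hl
  have hdiv : l * t + θ = v1 + v2 := Int.mul_ediv_add_emod _ _
  set w1 := v1 - t * α with hw1
  set w2 := v2 - t * β with hw2
  have hwlt : Lt N c d w1 w2 := lt_sub hv (lt_smul t h1)
  have hwu : w1 * β - w2 * α = N := by rw [hw1, hw2]; linear_combination hvu
  have hsum : w1 + w2 = θ := by
    rw [hw1, hw2]; linear_combination -hdiv + t * hl'
  have hw1l : w1 * l = N + θ * α := by
    rw [hl']; linear_combination hwu + α * hsum
  have hw2l : w2 * l = θ * β - N := by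
    rw [hl']; linear_combination -hwu + β * hsum
  clear_value w1 w2 θ t
  by_contra hcon
  push Not at hcon
  have hne : w1 ≠ 0 ∨ w2 ≠ 0 := by
    by_contra hc
    push Not at hc
    rw [hc.1, hc.2] at hwu
    simp at hwu
    omega
  have hH1 := h3 _ _ hwlt hne
  have hlow1 : l ≤ w1 ∨ w1 ≤ -l ∨ l ≤ w2 ∨ w2 ≤ -l := by
    have : l ≤ (hn w1 w2 : ℤ) := by rw [← hhn]; exact_mod_cast hH1
    unfold hn at this
    omega
  have hαl : α ≤ l := by omega
  have hβl : β ≤ l := by omega
  have key1 : l ^ 2 ≤ N + θ * α := by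
    rcases hlow1 with h | h | h | h
    · nlinarith
    · exfalso
      have : 0 ≤ θ * α := mul_nonneg hθ0 hα
      nlinarith
    · exfalso
      have : θ * β ≤ l * l := mul_le_mul hθ1.le hβl hβ hl.le
      nlinarith
    · exfalso
      have : 0 ≤ θ * β := mul_nonneg hθ0 hβ
      nlinarith
  have hθpos : 0 < θ := by
    rcases hθ0.eq_or_lt with h | h
    · exfalso
      rw [← h] at key1
      nlinarith
    · exact h
  have hwlt2 : Lt N c d (w1 - α) (w2 - β) := lt_sub hwlt h1
  have hne2 : w1 - α ≠ 0 ∨ w2 - β ≠ 0 := by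
    by_contra hc
    push Not at hc
    have e1 : w1 = α := by omega
    have e2 : w2 = β := by omega
    rw [e1, e2] at hwu
    have : α * β - β * α = 0 := by ring
    omega
  have hH2 := h3 _ _ hwlt2 hne2
  have hlow2 : l ≤ w1 - α ∨ w1 - α ≤ -l ∨ l ≤ w2 - β ∨ w2 - β ≤ -l := by
    have : l ≤ (hn (w1 - α) (w2 - β) : ℤ) := by rw [← hhn]; exact_mod_cast hH2
    unfold hn at this
    omega
  have key2 : l ^ 2 ≤ N + (l - θ) * β := by
    rcases hlow2 with h | h | h | h
    · exfalso
      have e : (w1 - α) * l = N - (l - θ) * α := by linear_combination hw1l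
      have h5 : 0 ≤ (l - θ) * α := mul_nonneg (by omega) hα
      nlinarith
    · exfalso
      have e : (w1 - α) * l = N - (l - θ) * α := by linear_combination hw1l
      have h5 : (l - θ) * α ≤ l * l := mul_le_mul (by omega) hαl hα hl.le
      nlinarith
    · exfalso
      have e : (w2 - β) * l = -N - (l - θ) * β := by linear_combination hw2l
      have h5 : 0 ≤ (l - θ) * β := mul_nonneg (by omega) hβ
      nlinarith
    · have e : (w2 - β) * l = -N - (l - θ) * β := by linear_combination hw2l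
      nlinarith
  have f1 : l < θ + α := by
    nlinarith [sq_nonneg (θ - α)]
  have f2 : l < (l - θ) + β := by
    nlinarith [sq_nonneg ((l - θ) - β)]
  omega

lemma short_bound {N c d x y : ℤ} (hN : 0 < N) (hcd : IsCoprime c d)
    (hu : Short N c d x y) : 3 * (hn x y : ℤ) ^ 2 ≤ 4 * N := by
  have hrot : IsCoprime d (-c - d) := by
    obtain ⟨s, t, hst⟩ := hcd
    exact ⟨t - s, -s, by linear_combination hst⟩
  have hrot2 : IsCoprime (-c - d) c := by
    obtain ⟨s, t, hst⟩ := hcd
    exact ⟨-t, s - t, by linear_combination hst⟩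
  have e3 : -d - (-c - d) = c := by ring
  -- first: y x with x ≥ 0 > y or general positive cases
  have main : ∀ x y : ℤ, Short N c d x y → 0 ≤ x → 3 * (hn x y : ℤ) ^ 2 ≤ 4 * N := by
    intro x y hu hx
    by_cases hy : 0 ≤ y
    · have h := short_bound_aux hN hcd hu hx hy
      have e : (hn x y : ℤ) = x + y := by unfold hn; omega
      rw [e]; exact h
    · push Not at hy
      by_cases hs : 0 ≤ x + y
      · have h := short_bound_aux hN hrot (short_neg_right (short_rot hu)) (by omega) (by omega)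
        have e : (hn x y : ℤ) = -y + -(-x - y) := by unfold hn; omega
        rw [e]; exact h
      · have h7 := short_rot (short_rot hu)
        have e4 : -y - (-x - y) = x := by ring
        rw [e3, e4] at h7
        have h := short_bound_aux hN hrot2 h7 (by omega) (by omega)
        have e : (hn x y : ℤ) = (-x - y) + x := by unfold hn; omega
        rw [e]; exact h
  by_cases hx : 0 ≤ x
  · exact main x y hu hx
  · have h := main (-x) (-y) (short_neg_right hu) (by omega)
    rw [hn_neg] at h; exact h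

lemma not_imp_of_coprime {p c d : ℤ} (hp : 3 ≤ p) (hcd : IsCoprime c d) : ¬ Imp p c d := by
  rintro ⟨h1, h2⟩
  have := hcd.isUnit_of_dvd' h1 h2
  rw [Int.isUnit_iff] at this
  omega

lemma imp_comb {p w1 w2 u1 u2 m j : ℤ} (h1 : Imp p w1 w2) (h2 : Imp p u1 u2) :
    Imp p (m * w1 + j * u1) (m * w2 + j * u2) :=
  ⟨dvd_add (Dvd.dvd.mul_left h1.1 _) (Dvd.dvd.mul_left h2.1 _),
    dvd_add (Dvd.dvd.mul_left h1.2 _) (Dvd.dvd.mul_left h2.2 _)⟩

/-- the cross product of a minimal proper vector and a shorter improper shortest vector -/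
lemma cross_min {p N c d x y : ℤ} (hp : 3 ≤ p) (hN : 0 < N) (hcd : IsCoprime c d)
    (hmin : ∀ x y, Lt N c d x y → ¬ Imp p x y → hn c d ≤ hn x y)
    (hu : Short N c d x y) (himp : Imp p x y) (hlt : hn x y < hn c d) :
    |c * y - d * x| = N := by
  obtain ⟨w1, w2, hw, hwu⟩ := exists_cross hcd hu
  obtain ⟨m0, j0, h1, h2, h3⟩ := basis hN hcd hu.1 hw (lt_refl N c d) hwu
  have hnimp := not_imp_of_coprime hp hcd
  have hm0 : m0 ≠ 0 := by
    rintro rfl
    apply hnimp
    rw [zero_mul, zero_add] at h1 h2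
    exact ⟨h1 ▸ Dvd.dvd.mul_left himp.1 _, h2 ▸ Dvd.dvd.mul_left himp.2 _⟩
  -- positive version
  obtain ⟨m, z1, z2, hm, hz, g1, g2, habs⟩ : ∃ m z1 z2 : ℤ, 0 < m ∧ Lt N c d z1 z2 ∧
      c = m * z1 + j0 * x ∧ d = m * z2 + j0 * y ∧ |c * y - d * x| = m * N := by
    rcases lt_or_gt_of_ne hm0 with h | h
    · refine ⟨-m0, -w1, -w2, by omega, lt_neg_right.2 hw, by linarith, by linarith, ?_⟩
      rw [h3, abs_of_neg (by nlinarith)]; ring
    · refine ⟨m0, w1, w2, h, hw, h1, h2, ?_⟩
      rw [h3, abs_of_pos (by positivity)]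
  set t := (2 * j0 + m) / (2 * m) with ht
  set r := (2 * j0 + m) % (2 * m) with hr
  have hr0 : 0 ≤ r := Int.emod_nonneg _ (by omega)
  have hr1 : r < 2 * m := Int.emod_lt_of_pos _ (by omega)
  have hdiv : 2 * m * t + r = 2 * j0 + m := Int.mul_ediv_add_emod _ _
  clear_value t r
  set k := j0 - m * t with hk
  have hk1 : 2 * k ≤ m := by
    have : 2 * k = r - m := by rw [hk]; linear_combination -hdiv
    omega
  have hk2 : -m ≤ 2 * k := by
    have : 2 * k = r - m := by rw [hk]; linear_combination -hdiv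
    omega
  set y1 := z1 + t * x with hy1
  set y2 := z2 + t * y with hy2
  have hylt : Lt N c d y1 y2 := lt_add hz (lt_smul t hu.1)
  have k1 : c = m * y1 + k * x := by rw [hy1, hk]; linear_combination g1
  have k2 : d = m * y2 + k * y := by rw [hy2, hk]; linear_combination g2
  have hprop : ¬ Imp p y1 y2 := by
    intro h
    apply hnimp
    have h8 := imp_comb (m := m) (j := k) h himp
    rw [← k1, ← k2] at h8
    exact h8
  have hge := hmin _ _ hylt hprop
  have hsm : m.natAbs * hn y1 y2 ≤ hn c d + k.natAbs * hn x y := by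
    rw [← hn_smul]
    have e1 : m * y1 = c + (-k) * x := by linear_combination -k1
    have e2 : m * y2 = d + (-k) * y := by linear_combination -k2
    rw [e1, e2]
    refine (hn_add _ _ _ _).trans ?_
    rw [hn_smul, Int.natAbs_neg]
  have hkm : 2 * k.natAbs ≤ m.natAbs := by omega
  have hm1 : m.natAbs < 2 := by
    by_contra hcon
    push Not at hcon
    have a1 : m.natAbs * hn c d ≤ m.natAbs * hn y1 y2 := Nat.mul_le_mul_left _ hge
    have a2 : 2 * (k.natAbs * hn x y) ≤ m.natAbs * hn x y := by nlinarith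
    have a3 : m.natAbs * hn x y + m.natAbs ≤ m.natAbs * hn c d := by
      have : m.natAbs * (hn x y + 1) ≤ m.natAbs * hn c d := Nat.mul_le_mul_left _ hlt
      nlinarith
    nlinarith
  have : m = 1 := by omega
  rw [habs, this, one_mul]

end R319F
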