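import Pool.Agent.R319.F2

/-!
Core step: good vectors propagate across minimal vectors.
-/

namespace R319F

/-- neighbour of a shortest vector is shortest in the neighbouring lattice -/
lemma short_J {N c d : ℤ} (hc : 0 < c) (hd : 0 < d) (hv : Short N c d c d) :
    Short N d (-c) d (-c) := by
  refine ⟨lt_refl _ _ _, by left; omega, ?_⟩
  intro s t hst hne
  have h1 : Lt N c d (-t) s := by
    have : Lt N d (-c) s (-(-t)) := by rw [neg_neg]; exact hst
    exact lt_J.1 this
  have h2 := hv.2.2 _ _ h1 (by omega)
  have h3 := hv.2.2 _ _ (lt_sub (lt_refl N c d) h1)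
  have h4 := hv.2.2 _ _ (lt_add (lt_refl N c d) h1)
  by_contra hcon
  push Not at hcon
  have e1 : (hn d (-c) : ℤ) ≤ c ∨ (hn d (-c) : ℤ) ≤ d := by unfold hn; omega
  have e2 : (hn c d : ℤ) = c + d := by unfold hn; omega
  have b1 : -(hn s t : ℤ) ≤ s ∧ s ≤ hn s t := by unfold hn; omega
  have b2 : -(hn s t : ℤ) ≤ t ∧ t ≤ hn s t := by unfold hn; omega
  have b3 : (hn (-t) s : ℤ) = s - t ∨ (hn (-t) s : ℤ) = t - s ∨ (hn (-t) s : ℤ) ≤ hn s t := by
    unfold hn; omega
  have hc1 : (hn s t : ℤ) < c ∨ (hn s t : ℤ) < d := by omega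
  rcases b3 with b3 | b3 | b3
  · -- u = (-t, s), s - t ≥ c + d, so s > 0 > t
    have h5 := h3 (by omega)
    have : (hn (c - -t) (d - s) : ℤ) < c + d := by
      unfold hn; omega
    omega
  · have h5 := h4 (by omega)
    have : (hn (c + -t) (d + s) : ℤ) < c + d := by
      unfold hn; omega
    omega
  · omega

/-- sign pattern of a short vector next to a minimal proper vector -/
lemma sign_pattern {p N c d x y : ℤ} (hp : 3 ≤ p) (hc : 0 < c) (hd : 0 < d)
    (hcd : IsCoprime c d)
    (hmin : ∀ x y, Lt N c d x y → ¬ Imp p x y → hn c d ≤ hn x y)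
    (hu : Short N c d x y) (himp : Imp p x y) (hlt : hn x y < hn c d) :
    (0 < x ∧ y < 0) ∨ (x < 0 ∧ 0 < y) := by
  have hnimp := not_imp_of_coprime hp hcd
  have hne := hu.2.1
  have m1 : hn c d ≤ hn (c - x) (d - y) := by
    apply hmin _ _ (lt_sub (lt_refl N c d) hu.1)
    rintro ⟨h1, h2⟩
    exact hnimp ⟨(dvd_sub_left himp.1).1 h1, (dvd_sub_left himp.2).1 h2⟩
  have m2 : hn c d ≤ hn (c + x) (d + y) := by
    apply hmin _ _ (lt_add (lt_refl N c d) hu.1)
    rintro ⟨h1, h2⟩
    exact hnimp ⟨(dvd_add_left himp.1).1 h1, (dvd_add_left himp.2).1 h2⟩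
  have e2 : (hn c d : ℤ) = c + d := by unfold hn; omega
  by_contra hcon
  have hcase : (0 ≤ x ∧ 0 ≤ y) ∨ (x ≤ 0 ∧ y ≤ 0) := by omega
  rcases hcase with h | h
  · have e3 : (hn x y : ℤ) = x + y := by unfold hn; omega
    have : (hn (c - x) (d - y) : ℤ) < c + d := by unfold hn; omega
    omega
  · have e3 : (hn x y : ℤ) = -x - y := by unfold hn; omega
    have : (hn (c + x) (d + y) : ℤ) < c + d := by unfold hn; omega
    omega

lemma good_two {p N a b x y : ℤ} (ha : 0 < a) (hb : 0 < b)
    (h1 : ∀ x y, Short N b a x y → Imp p x y) (hs : Short N b a x y)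
    (hx : 0 < x) (hy : y < 0) (hc : |b * y - a * x| = N) : Good p N b a := by
  right
  refine ⟨h1, x, y, hs, hc, ?_, ?_, ?_⟩
  · left; unfold hn; omega
  · left; unfold hn; omega
  · right; unfold hn; omega

/-- Case L' of type (i): the arithmetic inequality. -/
lemma ineq_a {c d a b x y m : ℤ} (hc : 0 < c) (hd : 0 < d)
    (hx : 0 < x) (hy : 0 < y) (hac : a ≤ c) (hbc : b ≤ c) (hdc : d ≤ c)
    (hm : b * y + a * x = m * (c * y + d * x)) (hxy : x < c + d)
    (hprop : c + d ≤ (hn (c - x) (d + y) : ℤ)) : m < 2 := by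
  by_contra hcon
  push Not at hcon
  have hpos : 0 < c * y + d * x := by positivity
  have h1 : 2 * (c * y + d * x) ≤ b * y + a * x := by rw [hm]; nlinarith
  have h2 : b * y + a * x ≤ c * y + c * x := by nlinarith
  have h3 : 2 * d * x ≤ c * (x - y) := by nlinarith
  have h4 : y < x := by
    by_contra hh
    push Not at hh
    have : 0 < 2 * d * x := by positivity
    nlinarith
  have h5 : c ≤ y := by
    unfold hn at hprop
    omega
  have h6 : x - y < d := by omega
  nlinarith

lemma core {p N : ℤ} (hp : 3 ≤ p) (hpN : p ∣ N) (hN : 0 < N) {a b c d : ℤ}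
    (ha : 0 < a) (hb : 0 < b) (hc : 0 < c) (hd : 0 < d) (hcd : IsCoprime c d)
    (hab : IsCoprime a b)
    (hmin : ∀ x y, Lt N c d x y → ¬ Imp p x y → hn c d ≤ hn x y)
    (hw : Lt N c d b a) (hg : Good p N a (-b)) : Good p N b a := by
  have hnimp := not_imp_of_coprime hp hcd
  have hba : IsCoprime b a := hab.symm
  have hv' : IsCoprime d (-c) := hcd.symm.neg_right
  have hw' : IsCoprime a (-b) := hab.neg_right
  have hlt' : Lt N d (-c) a (-b) := lt_J.2 hw
  have e2 : (hn c d : ℤ) = c + d := by unfold hn; omega
  have ew : (hn b a : ℤ) = b + a := by unfold hn; omega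
  by_cases hA : ∃ x y, Short N c d x y ∧ ¬ Imp p x y
  · -- Case A
    obtain ⟨x, y, hs, hi⟩ := hA
    have hv : Short N c d c d := by
      refine ⟨lt_refl _ _ _, by left; omega, ?_⟩
      intro s t hst hne
      exact (hmin _ _ hs.1 hi).trans (hs.2.2 _ _ hst hne)
    have hvJ := short_J hc hd hv
    have hle : hn a (-b) ≤ hn d (-c) := by
      rcases hg with hg | ⟨hg, -⟩
      · exact hg.2.2 _ _ (lt_symm hlt') (by left; omega)
      · exfalso
        have h1 := hg _ _ ((short_congr hv' hw' hlt').1 hvJ)
        exact not_imp_of_coprime hp hv' h1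
    have hle2 : hn b a ≤ hn c d := by
      by_contra hcon
      push Not at hcon
      have h3 := hv.2.2 _ _ (lt_sub hw (lt_refl N c d))
      have b1 : (a : ℤ) ≤ hn a (-b) ∧ (b : ℤ) ≤ hn a (-b) := by unfold hn; omega
      have b2 : (hn d (-c) : ℤ) ≤ c ∨ (hn d (-c) : ℤ) ≤ d := by unfold hn; omega
      by_cases hne : b - c ≠ 0 ∨ a - d ≠ 0
      · have h4 := h3 hne
        have : (hn (b - c) (a - d) : ℤ) < c + d := by unfold hn; omega
        omega
      · omega
    left
    refine ⟨lt_refl _ _ _, by left; omega, ?_⟩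
    intro s t hst hne
    exact hle2.trans (hv.2.2 _ _ ((lt_congr hcd hba hw).2 hst) hne)
  · -- Case B
    push Not at hA
    obtain ⟨x0, y0, hs0⟩ := exists_short (N := N) (c := c) (d := d) (by left; omega)
    have himp0 := hA _ _ hs0
    have hlt0 : hn x0 y0 < hn c d := by
      by_contra hcon
      push Not at hcon
      apply hnimp
      apply hA
      refine ⟨lt_refl _ _ _, by left; omega, ?_⟩
      intro s t hst hne
      exact hcon.trans (hs0.2.2 _ _ hst hne)
    -- normalise signs
    obtain ⟨x, y, hs, hx, hy⟩ : ∃ x y, Short N c d x y ∧ 0 < x ∧ y < 0 := by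
      rcases sign_pattern hp hc hd hcd hmin hs0 himp0 hlt0 with h | h
      · exact ⟨x0, y0, hs0, h.1, h.2⟩
      · exact ⟨-x0, -y0, short_neg_right hs0, by omega, by omega⟩
    have himp := hA _ _ hs
    have hlt : hn x y < hn c d := by
      have := hs.2.2 _ _ hs0.1 hs0.2.1
      omega
    have hcross := cross_min hp hN hcd hmin hs himp hlt
    have hcr : c * (-y) + d * x = N := by
      have h1 : c * y - d * x < 0 := by nlinarith
      rw [abs_of_neg h1] at hcross
      linarith
    have himpw : ∀ x y, Short N b a x y → Imp p x y := by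
      intro s t hst
      exact hA _ _ ((short_congr hcd hba hw).2 hst)
    have hsw : Short N b a x y := (short_congr hcd hba hw).1 hs
    rcases hg with hg | ⟨hg1, s, t, hg2, hg3, -⟩
    · -- Case B-a
      have hle : hn a (-b) ≤ hn d (-c) := hg.2.2 _ _ (lt_symm hlt') (by left; omega)
      obtain ⟨m, hm⟩ := lt_trans' hcd hw hs.1
      have hm' : b * (-y) + a * x = -m * (c * (-y) + d * x) := by
        rw [hcr]; linear_combination -hm
      have hprop : hn c d ≤ hn (c - x) (d - y) := by
        apply hmin _ _ (lt_sub (lt_refl N c d) hs.1)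
        rintro ⟨h1, h2⟩
        exact hnimp ⟨(dvd_sub_left himp.1).1 h1, (dvd_sub_left himp.2).1 h2⟩
      have hxb : (x : ℤ) ≤ hn x y ∧ -y ≤ hn x y := by unfold hn; omega
      have hprop2 : hn c d ≤ hn (c + x) (d + y) := by
        apply hmin _ _ (lt_add (lt_refl N c d) hs.1)
        rintro ⟨h1, h2⟩
        exact hnimp ⟨(dvd_add_left himp.1).1 h1, (dvd_add_left himp.2).1 h2⟩
      have b1 : (a : ℤ) ≤ hn a (-b) ∧ (b : ℤ) ≤ hn a (-b) := by unfold hn; omega
      have hm2 : -m < 2 := by
        rcases le_total d c with hdc | hdc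
        · have b2 : (hn d (-c) : ℤ) ≤ c := by unfold hn; omega
          refine ineq_a hc hd hx (y := -y) (by omega) (by omega) (by omega) hdc hm'
            (by omega) ?_
          rw [← sub_eq_add_neg] at *
          have e : d + - -y = d + y := by ring
          have e' : d - -y = d + y := by ring
          have : (c + d : ℤ) ≤ (hn (c - x) (d - y) : ℤ) := by omega
          simpa [sub_eq_add_neg] using this
        · have b2 : (hn d (-c) : ℤ) ≤ d := by unfold hn; omega
          refine ineq_a (c := d) (d := c) (a := b) (b := a) (x := -y) (y := x) (m := -m)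
            hd hc (by omega) hx (by omega) (by omega) hdc ?_ (by omega) ?_
          · linear_combination hm'
          · have e : (hn (d - -y) (c + x) : ℤ) = hn (c + x) (d + y) := by
              unfold hn; omega
            rw [e]
            omega
      have hmpos : 0 < -m := by
        have h1 : 0 < b * (-y) + a * x := by nlinarith
        rw [hm', hcr] at h1
        by_contra hcon
        push Not at hcon
        have := mul_nonpos_of_nonpos_of_nonneg hcon hN.le
        linarith
      have hm1 : m = -1 := by omega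
      apply good_two ha hb himpw hsw hx hy
      have h1 : b * y - a * x < 0 := by nlinarith
      rw [abs_of_neg h1]
      rw [hm1] at hm
      linarith
    · -- Case B-b
      have hg2' : Short N d (-c) s t := (short_congr hv' hw' hlt').2 hg2
      have himps := hg1 _ _ hg2
      -- J u
      have hJu : Lt N d (-c) y (-x) := lt_J.2 hs.1
      obtain ⟨w1, w2, hw12, hwu⟩ := exists_cross hcd hs
      have hJw : Lt N d (-c) w2 (-w1) := lt_J.2 hw12
      have hwu' : w2 * (-x) - (-w1) * y = N := by linear_combination hwu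
      obtain ⟨m, j, k1, k2, k3⟩ := basis hN hv' hJu hJw hg2'.1 hwu'
      have b0 := short_bound hN hcd hs
      have b1 := short_bound hN hv' hg2'
      -- p N divides the cross product
      have hpm : p ∣ m := by
        obtain ⟨⟨x', hx'⟩, ⟨y', hy'⟩⟩ := himp
        obtain ⟨⟨s', hs'⟩, ⟨t', ht'⟩⟩ := himps
        obtain ⟨M, hM⟩ := hpN
        have hp0 : p ≠ 0 := by omega
        have l1 : Lt M d (-c) y' (-x') := by
          obtain ⟨q, hq⟩ := hJu
          refine ⟨q, ?_⟩
          apply mul_left_cancel₀ hp0
          rw [hM, hx', hy'] at hq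
          linear_combination hq
        have l2 : Lt M d (-c) s' t' := by
          obtain ⟨q, hq⟩ := hg2'.1
          refine ⟨q, ?_⟩
          apply mul_left_cancel₀ hp0
          rw [hM, hs', ht'] at hq
          linear_combination hq
        obtain ⟨q, hq⟩ := lt_trans' hv' l2 l1
        refine ⟨q, ?_⟩
        have hM0 : p * M ≠ 0 := by rw [← hM]; exact hN.ne'
        have : m * (p * M) = p * q * (p * M) := by
          rw [← hM, ← k3, hx', hy', hs', ht', hM]
          linear_combination p ^ 2 * hq
        exact mul_right_cancel₀ hM0 this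
      have hm0 : m = 0 := by
        by_contra hm0
        obtain ⟨q, hq⟩ := hpm
        have hmabs : 3 ≤ |m| := by
          have h1 : 1 ≤ |q| := Int.one_le_abs (by rintro rfl; simp at hq; exact hm0 hq)
          rw [hq, abs_mul, abs_of_pos (by omega : 0 < p)]
          nlinarith
        have hS : (0 : ℤ) ≤ hn s t := by positivity
        have hU : (0 : ℤ) ≤ hn x y := by positivity
        have c1 : |s| ≤ hn s t := abs_le.2 ⟨by unfold hn; omega, by unfold hn; omega⟩
        have c2 : |t| ≤ hn s t := abs_le.2 ⟨by unfold hn; omega, by unfold hn; omega⟩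
        have c3 : |x| ≤ hn x y := abs_le.2 ⟨by unfold hn; omega, by unfold hn; omega⟩
        have c4 : |y| ≤ hn x y := abs_le.2 ⟨by unfold hn; omega, by unfold hn; omega⟩
        have hb1 : 3 * N ≤ |s * (-x) - t * y| := by
          rw [k3, abs_mul, abs_of_pos hN]
          nlinarith
        have hb2 : |s * (-x) - t * y| ≤ 2 * (hn s t * hn x y) := by
          have h1 : |s * (-x) - t * y| ≤ |s * (-x)| + |t * y| := abs_sub _ _
          rw [abs_mul, abs_mul, abs_neg] at h1
          have h2 : |s| * |x| ≤ hn s t * hn x y := mul_le_mul c1 c3 (abs_nonneg _) hS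
          have h3 : |t| * |y| ≤ hn s t * hn x y := mul_le_mul c2 c4 (abs_nonneg _) hS
          linarith
        nlinarith [sq_nonneg ((hn s t : ℤ) - hn x y)]
      rw [hm0] at k1 k2 k3
      have k1' : s = j * y := by linarith
      have k2' : t = j * (-x) := by linarith
      have hj0 : j ≠ 0 := by
        rintro rfl
        rcases hg2.2.1 with h | h
        · apply h; rw [k1', zero_mul]
        · apply h; rw [k2', zero_mul]
      have hj1 : j.natAbs ≤ 1 := by
        have h1 := hg2'.2.2 _ _ hJu (by left; omega)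
        rw [k1', k2', hn_smul] at h1
        have h2 : 0 < hn y (-x) := hn_pos (by left; omega)
        by_contra hcon
        push Not at hcon
        nlinarith
      apply good_two ha hb himpw hsw hx hy
      have hjj : j = 1 ∨ j = -1 := by omega
      rcases hjj with h | h
      · rw [k1', k2', h] at hg3
        rw [← hg3]
        congr 1
        ring
      · rw [k1', k2', h] at hg3
        rw [← hg3, ← abs_neg]
        congr 1
        ring

end R319F
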