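import Mathlib

/-!
Binary trees of Farey intervals and the abstract generation theorem.
-/

set_option linter.unusedSimpArgs false

namespace R319F
open Matrix ModularGroup
open scoped MatrixGroups

/-- The group `SL₂(ℤ)`. -/
abbrev G := SL(2, ℤ)

/-- order three element -/
def Rm : G := ⟨!![0, -1; 1, -1], by norm_num [Matrix.det_fin_two]⟩

/-- left child -/
def Lm : G := ⟨!![1, 0; 1, 1], by norm_num [Matrix.det_fin_two]⟩

@[simp] lemma Rm00 : Rm 0 0 = 0 := rfl
@[simp] lemma Rm01 : Rm 0 1 = -1 := rfl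
@[simp] lemma Rm10 : Rm 1 0 = 1 := rfl
@[simp] lemma Rm11 : Rm 1 1 = -1 := rfl
@[simp] lemma Lm00 : Lm 0 0 = 1 := rfl
@[simp] lemma Lm01 : Lm 0 1 = 0 := rfl
@[simp] lemma Lm10 : Lm 1 0 = 1 := rfl
@[simp] lemma Lm11 : Lm 1 1 = 1 := rfl
@[simp] lemma S00 : S 0 0 = 0 := rfl
@[simp] lemma S01 : S 0 1 = -1 := rfl
@[simp] lemma S10 : S 1 0 = 1 := rfl
@[simp] lemma S11 : S 1 1 = 0 := rfl
@[simp] lemma T00 : T 0 0 = 1 := rfl
@[simp] lemma T01 : T 0 1 = 1 := rfl
@[simp] lemma T10 : T 1 0 = 0 := rfl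
@[simp] lemma T11 : T 1 1 = 1 := rfl

lemma mul00 (x y : G) : (x * y) 0 0 = x 0 0 * y 0 0 + x 0 1 * y 1 0 := by
  simp [Matrix.mul_apply, Fin.sum_univ_two]
lemma mul01 (x y : G) : (x * y) 0 1 = x 0 0 * y 0 1 + x 0 1 * y 1 1 := by
  simp [Matrix.mul_apply, Fin.sum_univ_two]
lemma mul10 (x y : G) : (x * y) 1 0 = x 1 0 * y 0 0 + x 1 1 * y 1 0 := by
  simp [Matrix.mul_apply, Fin.sum_univ_two]
lemma mul11 (x y : G) : (x * y) 1 1 = x 1 0 * y 0 1 + x 1 1 * y 1 1 := by
  simp [Matrix.mul_apply, Fin.sum_univ_two]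
lemma neg_e (x : G) (i j : Fin 2) : (-x) i j = -(x i j) := by
  simp
lemma inv00 (x : G) : x⁻¹ 0 0 = x 1 1 := by rw [Matrix.SpecialLinearGroup.SL2_inv_expl]; rfl
lemma inv01 (x : G) : x⁻¹ 0 1 = -x 0 1 := by rw [Matrix.SpecialLinearGroup.SL2_inv_expl]; rfl
lemma inv10 (x : G) : x⁻¹ 1 0 = -x 1 0 := by rw [Matrix.SpecialLinearGroup.SL2_inv_expl]; rfl
lemma inv11 (x : G) : x⁻¹ 1 1 = x 0 0 := by rw [Matrix.SpecialLinearGroup.SL2_inv_expl]; rfl
lemma one00 : (1 : G) 0 0 = 1 := rfl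
lemma one01 : (1 : G) 0 1 = 0 := rfl
lemma one10 : (1 : G) 1 0 = 0 := rfl
lemma one11 : (1 : G) 1 1 = 1 := rfl

lemma det_e (x : G) : x 0 0 * x 1 1 - x 0 1 * x 1 0 = 1 := by
  have := x.2
  rw [Matrix.det_fin_two] at this
  exact this

lemma ext4 {x y : G} (h1 : x 0 0 = y 0 0) (h2 : x 0 1 = y 0 1) (h3 : x 1 0 = y 1 0)
    (h4 : x 1 1 = y 1 1) : x = y := by
  ext i j
  fin_cases i <;> fin_cases j
  · exact h1
  · exact h2
  · exact h3
  · exact h4

lemma Rm_cube : Rm * Rm * Rm = 1 := by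
  apply ext4 <;> simp only [mul00, mul01, mul10, mul11, one00, one01, one10, one11, Rm00, Rm01,
    Rm10, Rm11] <;> norm_num

lemma S_sq : S * S = -1 := by
  apply ext4 <;> simp only [mul00, mul01, mul10, mul11, one00, one01, one10, one11, S00, S01,
    S10, S11, neg_e] <;> norm_num

lemma T_eq : T = Rm * Rm * S := by
  apply ext4 <;> simp only [mul00, mul01, mul10, mul11, one00, one01, one10, one11, S00, S01,
    S10, S11, Rm00, Rm01, Rm10, Rm11, T00, T01, T10, T11, neg_e] <;> norm_num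

lemma L_eq : Lm = -(Rm * S) := by
  apply ext4 <;> simp only [mul00, mul01, mul10, mul11, one00, one01, one10, one11, S00, S01,
    S10, S11, Rm00, Rm01, Rm10, Rm11, Lm00, Lm01, Lm10, Lm11, neg_e] <;> norm_num

lemma Sinv : S⁻¹ = -S := by
  rw [inv_eq_iff_mul_eq_one, mul_neg, S_sq, neg_neg]

/-- binary trees -/
inductive Tr
  | leaf : Tr
  | node : Tr → Tr → Tr

/-- leaves (intervals of the partition), from left to right -/
def lv : Tr → G → List G
  | .leaf, g => [g]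
  | .node l r, g => lv l (g * Lm) ++ lv r (g * T)

/-- nodes (subdivided intervals) -/
def nd : Tr → G → List G
  | .leaf, _ => []
  | .node l r, g => g :: (nd l (g * Lm) ++ nd r (g * T))

lemma root_mem (t : Tr) (g : G) : g ∈ nd t g ∨ g ∈ lv t g := by
  cases t with
  | leaf => right; simp [lv]
  | node l r => left; simp [nd]

lemma child_mem (t : Tr) : ∀ (g x : G), x ∈ nd t g →
    (x * Lm ∈ nd t g ∨ x * Lm ∈ lv t g) ∧ (x * T ∈ nd t g ∨ x * T ∈ lv t g) := by
  induction t with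
  | leaf => intro g x hx; simp [nd] at hx
  | node l r ihl ihr =>
    intro g x hx
    simp only [nd, lv, List.mem_cons, List.mem_append] at hx ⊢
    rcases hx with rfl | hx | hx
    · have h1 := root_mem l (x * Lm)
      have h2 := root_mem r (x * T)
      tauto
    · have := ihl _ _ hx
      tauto
    · have := ihr _ _ hx
      tauto

lemma parent_mem (t : Tr) : ∀ (g x : G), x ∈ nd t g ∨ x ∈ lv t g →
    x = g ∨ ∃ z ∈ nd t g, x = z * Lm ∨ x = z * T := by
  induction t with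
  | leaf => intro g x hx; simp [nd, lv] at hx; left; exact hx
  | node l r ihl ihr =>
    intro g x hx
    simp only [nd, lv, List.mem_cons, List.mem_append] at hx ⊢
    have hx' : x = g ∨ (x ∈ nd l (g * Lm) ∨ x ∈ lv l (g * Lm)) ∨
        (x ∈ nd r (g * T) ∨ x ∈ lv r (g * T)) := by tauto
    rcases hx' with hx | hx | hx
    · left; exact hx
    · right
      rcases ihl _ _ hx with h | ⟨z, hz, h⟩
      · exact ⟨g, Or.inl rfl, Or.inl h⟩
      · exact ⟨z, Or.inr (Or.inl hz), h⟩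
    · right
      rcases ihr _ _ hx with h | ⟨z, hz, h⟩
      · exact ⟨g, Or.inl rfl, Or.inr h⟩
      · exact ⟨z, Or.inr (Or.inr hz), h⟩

/-- entrywise nonnegative -/
def NN (w : G) : Prop := 0 ≤ w 0 0 ∧ 0 ≤ w 0 1 ∧ 0 ≤ w 1 0 ∧ 0 ≤ w 1 1

lemma NN_one : NN 1 := by simp [NN]

lemma NN_L {w : G} (h : NN w) : NN (Lm * w) := by
  obtain ⟨h1, h2, h3, h4⟩ := h
  refine ⟨?_, ?_, ?_, ?_⟩ <;> simp only [mul00, mul01, mul10, mul11, Lm00, Lm01, Lm10, Lm11] <;>
    omega

lemma NN_T {w : G} (h : NN w) : NN (T * w) := by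
  obtain ⟨h1, h2, h3, h4⟩ := h
  refine ⟨?_, ?_, ?_, ?_⟩ <;> simp only [mul00, mul01, mul10, mul11, T00, T01, T10, T11] <;>
    omega

lemma mem_form (t : Tr) : ∀ (g x : G), x ∈ nd t g ∨ x ∈ lv t g → ∃ w, NN w ∧ x = g * w := by
  induction t with
  | leaf =>
    intro g x hx
    simp [nd, lv] at hx
    exact ⟨1, NN_one, by rw [hx, mul_one]⟩
  | node l r ihl ihr =>
    intro g x hx
    simp only [nd, lv, List.mem_cons, List.mem_append] at hx
    have hx' : x = g ∨ (x ∈ nd l (g * Lm) ∨ x ∈ lv l (g * Lm)) ∨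
        (x ∈ nd r (g * T) ∨ x ∈ lv r (g * T)) := by tauto
    rcases hx' with hx | hx | hx
    · exact ⟨1, NN_one, by rw [hx, mul_one]⟩
    · obtain ⟨w, hw, h⟩ := ihl _ _ hx
      exact ⟨Lm * w, NN_L hw, by rw [h, mul_assoc]⟩
    · obtain ⟨w, hw, h⟩ := ihr _ _ hx
      exact ⟨T * w, NN_T hw, by rw [h, mul_assoc]⟩

lemma L_ne_T {w w' : G} (h : NN w) (h' : NN w') : Lm * w ≠ T * w' := by
  intro he
  obtain ⟨h1, h2, h3, h4⟩ := h
  obtain ⟨g1, g2, g3, g4⟩ := h'
  have e1 : (Lm * w) 0 0 = (T * w') 0 0 := by rw [he]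
  have e2 : (Lm * w) 0 1 = (T * w') 0 1 := by rw [he]
  have e3 : (Lm * w) 1 0 = (T * w') 1 0 := by rw [he]
  have e4 : (Lm * w) 1 1 = (T * w') 1 1 := by rw [he]
  simp only [mul00, mul01, mul10, mul11, Lm00, Lm01, Lm10, Lm11, T00, T01, T10, T11] at e1 e2 e3 e4
  have hd := det_e w
  have f3 : w 1 0 = 0 := by omega
  have f4 : w 1 1 = 0 := by omega
  rw [f3, f4] at hd
  simp at hd

lemma L_ne_one {w : G} (h : NN w) : Lm * w ≠ 1 := by
  intro he
  obtain ⟨h1, h2, h3, h4⟩ := h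
  have e1 : (Lm * w) 0 0 = (1 : G) 0 0 := by rw [he]
  have e3 : (Lm * w) 1 0 = (1 : G) 1 0 := by rw [he]
  simp only [mul00, mul10, Lm00, Lm01, Lm10, Lm11, one00, one10] at e1 e3
  omega

lemma T_ne_one {w : G} (h : NN w) : T * w ≠ 1 := by
  intro he
  obtain ⟨h1, h2, h3, h4⟩ := h
  have e2 : (T * w) 0 1 = (1 : G) 0 1 := by rw [he]
  have e4 : (T * w) 1 1 = (1 : G) 1 1 := by rw [he]
  simp only [mul01, mul11, T00, T01, T10, T11, one01, one11] at e2 e4
  omega

lemma sep {g x : G} {l r : Tr} (h1 : x ∈ nd l (g * Lm) ∨ x ∈ lv l (g * Lm))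
    (h2 : x ∈ nd r (g * T) ∨ x ∈ lv r (g * T)) : False := by
  obtain ⟨w, hw, h⟩ := mem_form _ _ _ h1
  obtain ⟨w', hw', h'⟩ := mem_form _ _ _ h2
  rw [h, mul_assoc, mul_assoc] at h'
  exact L_ne_T hw hw' (mul_left_cancel h')

lemma ne_L {g x : G} {l : Tr} (h1 : x ∈ nd l (g * Lm) ∨ x ∈ lv l (g * Lm)) : x ≠ g := by
  rintro rfl
  obtain ⟨w, hw, h⟩ := mem_form _ _ _ h1
  rw [mul_assoc] at h
  exact L_ne_one hw (left_eq_mul.1 h)

lemma ne_T {g x : G} {l : Tr} (h1 : x ∈ nd l (g * T) ∨ x ∈ lv l (g * T)) : x ≠ g := by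
  rintro rfl
  obtain ⟨w, hw, h⟩ := mem_form _ _ _ h1
  rw [mul_assoc] at h
  exact T_ne_one hw (left_eq_mul.1 h)

lemma disj (t : Tr) : ∀ (g x : G), x ∈ lv t g → x ∉ nd t g := by
  induction t with
  | leaf => intro g x _ hx; simp [nd] at hx
  | node l r ihl ihr =>
    intro g x hx hn
    simp only [nd, lv, List.mem_cons, List.mem_append] at hx hn
    rcases hx with hx | hx <;> rcases hn with hn | hn | hn
    · exact ne_L (Or.inr hx) hn
    · exact ihl _ _ hx hn
    · exact sep (Or.inr hx) (Or.inl hn)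
    · exact ne_T (Or.inr hx) hn
    · exact sep (Or.inl hn) (Or.inr hx)
    · exact ihr _ _ hx hn

lemma lv_nodup (t : Tr) : ∀ g : G, (lv t g).Nodup := by
  induction t with
  | leaf => intro g; simp [lv]
  | node l r ihl ihr =>
    intro g
    simp only [lv]
    rw [List.nodup_append]
    refine ⟨ihl _, ihr _, ?_⟩
    intro x hx y hy hxy
    subst hxy
    exact sep (Or.inr hx) (Or.inr hy)

lemma lv_ne (t : Tr) : ∀ g : G, lv t g ≠ [] := by
  induction t with
  | leaf => intro g; simp [lv]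
  | node l r ihl ihr => intro g; simp [lv, ihl, ihr]

lemma lv_head (t : Tr) : ∀ g : G, ∀ y ∈ (lv t g).head?, y 0 1 = g 0 1 ∧ y 1 1 = g 1 1 := by
  induction t with
  | leaf => intro g y hy; simp [lv] at hy; rw [hy]; exact ⟨rfl, rfl⟩
  | node l r ihl ihr =>
    intro g y hy
    simp only [lv] at hy
    rw [List.head?_append_of_ne_nil _ (lv_ne _ _)] at hy
    have := ihl _ _ hy
    simp only [mul01, mul11, Lm00, Lm01, Lm10, Lm11] at this
    constructor
    · rw [this.1]; ring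
    · rw [this.2]; ring

lemma lv_last (t : Tr) : ∀ g : G, ∀ y ∈ (lv t g).getLast?, y 0 0 = g 0 0 ∧ y 1 0 = g 1 0 := by
  induction t with
  | leaf => intro g y hy; simp [lv] at hy; rw [hy]; exact ⟨rfl, rfl⟩
  | node l r ihl ihr =>
    intro g y hy
    simp only [lv] at hy
    rw [List.getLast?_append_of_ne_nil _ (lv_ne _ _)] at hy
    have := ihr _ _ hy
    simp only [mul00, mul10, T00, T01, T10, T11] at this
    constructor
    · rw [this.1]; ring
    · rw [this.2]; ring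

lemma lv_chain (t : Tr) : ∀ g : G,
    (lv t g).IsChain (fun x y => x 0 0 = y 0 1 ∧ x 1 0 = y 1 1) := by
  induction t with
  | leaf => intro g; simp [lv]
  | node l r ihl ihr =>
    intro g
    simp only [lv]
    refine List.IsChain.append (ihl _) (ihr _) ?_
    intro x hx y hy
    have h1 := lv_last _ _ _ hx
    have h2 := lv_head _ _ _ hy
    simp only [mul00, mul10, mul01, mul11, T00, T01, T10, T11, Lm00, Lm01, Lm10, Lm11] at h1 h2
    constructor
    · rw [h1.1, h2.1]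
    · rw [h1.2, h2.2]

/-- bottom row bounds -/
lemma rows_pos (t : Tr) : ∀ (g : G), 0 ≤ g 1 0 → 1 ≤ g 1 1 → ∀ x, x ∈ nd t g ∨ x ∈ lv t g →
    0 ≤ x 1 0 ∧ 1 ≤ x 1 1 := by
  induction t with
  | leaf => intro g h1 h2 x hx; simp [nd, lv] at hx; rw [hx]; exact ⟨h1, h2⟩
  | node l r ihl ihr =>
    intro g h1 h2 x hx
    simp only [nd, lv, List.mem_cons, List.mem_append] at hx
    have hx' : x = g ∨ (x ∈ nd l (g * Lm) ∨ x ∈ lv l (g * Lm)) ∨
        (x ∈ nd r (g * T) ∨ x ∈ lv r (g * T)) := by tauto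
    rcases hx' with hx | hx | hx
    · rw [hx]; exact ⟨h1, h2⟩
    · refine ihl _ ?_ ?_ x hx <;> simp only [mul10, mul11, Lm00, Lm01, Lm10, Lm11] <;> omega
    · refine ihr _ ?_ ?_ x hx <;> simp only [mul10, mul11, T00, T01, T10, T11] <;> omega

lemma lv_bound (B : ℤ) (t : Tr) : ∀ (g : G), g 1 0 ≤ B → g 1 1 ≤ B →
    (∀ y ∈ nd t g, y 1 0 + y 1 1 ≤ B) → ∀ x ∈ lv t g, x 1 0 ≤ B ∧ x 1 1 ≤ B := by
  induction t with
  | leaf => intro g h1 h2 _ x hx; simp [lv] at hx; rw [hx]; exact ⟨h1, h2⟩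
  | node l r ihl ihr =>
    intro g h1 h2 hB x hx
    have hg := hB g (by simp [nd])
    simp only [lv, List.mem_append] at hx
    rcases hx with hx | hx
    · refine ihl _ ?_ ?_ (fun y hy => hB y (by simp [nd, hy])) x hx <;>
        simp only [mul10, mul11, Lm00, Lm01, Lm10, Lm11] <;> omega
    · refine ihr _ ?_ ?_ (fun y hy => hB y (by simp [nd, hy])) x hx <;>
        simp only [mul10, mul11, T00, T01, T10, T11] <;> omega

/-- expanding a leaf -/
lemma expand (t : Tr) : ∀ (g x : G), x ∈ lv t g → ∃ t', (nd t' g).Perm (x :: nd t g) := by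
  induction t with
  | leaf =>
    intro g x hx
    simp [lv] at hx
    exact ⟨.node .leaf .leaf, by simp [nd, hx]⟩
  | node l r ihl ihr =>
    intro g x hx
    simp only [lv, List.mem_append] at hx
    rcases hx with hx | hx
    · obtain ⟨t', ht'⟩ := ihl _ _ hx
      refine ⟨.node t' r, ?_⟩
      simp only [nd]
      refine (List.Perm.cons _ (List.Perm.append_right _ ht')).trans ?_
      exact List.Perm.swap _ _ _
    · obtain ⟨t', ht'⟩ := ihr _ _ hx
      refine ⟨.node l t', ?_⟩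
      simp only [nd]
      refine (List.Perm.cons _ ((List.Perm.append_left _ ht').trans List.perm_middle)).trans ?_
      exact List.Perm.swap _ _ _

/-- oriented edges of the triangles of the tree -/
def E (t : Tr) (x : G) : Prop := ∃ y ∈ nd t 1, x = y ∨ x = y * Rm ∨ x = y * (Rm * Rm)

lemma E_R {t : Tr} {x : G} (h : E t x) : E t (x * Rm) := by
  obtain ⟨y, hy, h | h | h⟩ := h
  · exact ⟨y, hy, Or.inr (Or.inl (by rw [h]))⟩
  · exact ⟨y, hy, Or.inr (Or.inr (by rw [h, mul_assoc]))⟩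
  · exact ⟨y, hy, Or.inl (by rw [h, mul_assoc, Rm_cube, mul_one])⟩

lemma E_struct {t : Tr} {x : G} (h : E t x) : x = 1 ∨ (E t (x * S) ∨ E t (-(x * S))) ∨
    ∃ k ∈ lv t 1, x * S = k ∨ x * S = -k := by
  obtain ⟨y, hy, h⟩ := h
  rcases h with h | h | h
  · -- x = y : parent
    rcases parent_mem t 1 y (Or.inl hy) with h1 | ⟨z, hz, h1 | h1⟩
    · left; rw [h, h1]
    · right; left; left
      refine ⟨z, hz, Or.inr (Or.inl ?_)⟩
      rw [h, h1, L_eq, mul_neg, neg_mul, mul_assoc, mul_assoc, S_sq, mul_neg, mul_neg, neg_neg,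
        mul_one]
    · right; left; right
      refine ⟨z, hz, Or.inr (Or.inr ?_)⟩
      rw [h, h1, T_eq, mul_assoc, mul_assoc, S_sq, mul_neg, mul_neg, neg_neg, mul_one]
  · have e : x * S = -(y * Lm) := by rw [h, L_eq, mul_neg, neg_neg, mul_assoc]
    rcases (child_mem t 1 y hy).1 with h1 | h1
    · right; left; right
      rw [e, neg_neg]
      exact ⟨_, h1, Or.inl rfl⟩
    · right; right
      exact ⟨_, h1, Or.inr e⟩
  · have e : x * S = y * T := by rw [h, T_eq, mul_assoc]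
    rcases (child_mem t 1 y hy).2 with h1 | h1
    · right; left; left
      rw [e]
      exact ⟨_, h1, Or.inl rfl⟩
    · right; right
      exact ⟨_, h1, Or.inl e⟩

lemma lv_struct {t : Tr} {k : G} (hk : k ∈ lv t 1) :
    k = 1 ∨ (E t (k * S) ∨ E t (-(k * S))) := by
  rcases parent_mem t 1 k (Or.inr hk) with h1 | ⟨z, hz, h1 | h1⟩
  · left; exact h1
  · right; left
    refine ⟨z, hz, Or.inr (Or.inl ?_)⟩
    rw [h1, L_eq, mul_neg, neg_mul, mul_assoc, mul_assoc, S_sq, mul_neg, mul_neg, neg_neg,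
      mul_one]
  · right; right
    refine ⟨z, hz, Or.inr (Or.inr ?_)⟩
    rw [h1, T_eq, mul_assoc, mul_assoc, S_sq, mul_neg, mul_neg, neg_neg, mul_one]

/-- a leaf is not an edge of the inside -/
lemma lv_not_E {t : Tr} {k x : G} (hk : k ∈ lv t 1) (hx : x = k ∨ x = -k) : ¬ E t x := by
  rintro ⟨y, hy, h⟩
  have hkp := rows_pos t 1 (by simp) (by simp) k (Or.inr hk)
  have hyp := rows_pos t 1 (by simp) (by simp) y (Or.inl hy)
  rcases h with h | h | h
  · rcases hx with hx | hx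
    · exact disj t 1 k hk (by rw [← hx, h]; exact hy)
    · have : x 1 1 = -(k 1 1) := by rw [hx]; simp
      rw [h] at this
      omega
  · have e1 : x 1 0 = y 1 1 := by
      rw [h]; simp only [mul10, Rm00, Rm10]; ring
    have e2 : x 1 1 = -(y 1 0) - y 1 1 := by
      rw [h]; simp only [mul11, Rm01, Rm11]; ring
    rcases hx with hx | hx
    · rw [hx] at e1 e2; omega
    · rw [hx, neg_e] at e1 e2; omega
  · have e1 : x 1 0 = -(y 1 0) - y 1 1 := by
      rw [h]; simp only [mul10, mul00, Rm00, Rm10, Rm01, Rm11]; ring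
    have e2 : x 1 1 = y 1 0 := by
      rw [h]; simp only [mul11, mul10, mul01, mul00, Rm01, Rm11, Rm00, Rm10]; ring
    rcases hx with hx | hx
    · rw [hx] at e1 e2; omega
    · rw [hx, neg_e] at e1 e2; omega

end R319F
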