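import Mathlib

/-!
Special polygons of subgroups of the modular group, in the combinatorial form of Kulkarni's
Farey symbols.
-/

namespace SmallFarey
open Matrix ModularGroup
open scoped MatrixGroups

/-- The combinatorial data of a special polygon lying over `[0,1]`: the cusps
`a 0 / e 0 < a 1 / e 1 < … < a m / e m` of the polygon in `[0,1]`; for the `i`-th interval
(`i < m`) between the cusps number `i` and `i+1`, whether it is spanned by two odd edges
(`odd i`), or by one even edge (`¬ odd i`); and the pairing `σ` of the even edges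
(`σ i = i` means that the `i`-th edge is paired with itself). -/
structure FareyData where
  /-- number of intervals -/
  m : ℕ
  /-- numerators of the cusps -/
  a : ℕ → ℤ
  /-- denominators of the cusps -/
  e : ℕ → ℤ
  /-- the odd intervals -/
  odd : ℕ → Prop
  /-- pairing of the even edges -/
  σ : ℕ → ℕ

namespace FareyData

/-- The cusps run from `0/1` to `1/1`, have positive denominators, and consecutive ones are
Farey neighbours: `a (i+1) * e i - a i * e (i+1) = 1` (so that they are in lowest terms and
increasing). -/
def IsPath (F : FareyData) : Prop :=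
  F.a 0 = 0 ∧ F.e 0 = 1 ∧ F.a F.m = 1 ∧ F.e F.m = 1 ∧ (∀ i ≤ F.m, 0 < F.e i) ∧
    ∀ i < F.m, F.a (i + 1) * F.e i - F.a i * F.e (i + 1) = 1

/-- `σ` is an involution of the set of even edges. -/
def IsPairing (F : FareyData) : Prop :=
  ∀ i < F.m, ¬ F.odd i → F.σ i < F.m ∧ ¬ F.odd (F.σ i) ∧ F.σ (F.σ i) = i

/-- The primitive integer vector of the `i`-th cusp. -/
def cusp (F : FareyData) (i : ℕ) : Fin 2 → ℤ := ![F.a i, F.e i]

/-- `h ∈ SL₂(ℤ)` represents the side pairing attached to the `i`-th interval.
* If the interval is odd, `h` is the rotation of order three that sends the cusp `i` to the cusp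
  `i+1`, and the cusp `i+1` to their mediant; it fixes the common vertex of the two odd edges.
* If the interval is even, `h` carries the `i`-th edge to the `σ i`-th edge, reversing the
  direction: it sends the cusp `i` to the cusp `σ i + 1` and the cusp `i+1` to the cusp `σ i`
  (for `σ i = i` this is the half-turn around the order two point of the edge). -/
def SidePairing (F : FareyData) (i : ℕ) (h : SL(2, ℤ)) : Prop :=
  (F.odd i ∧ h.1 *ᵥ F.cusp i = F.cusp (i + 1) ∧
    h.1 *ᵥ F.cusp (i + 1) = -(F.cusp i + F.cusp (i + 1))) ∨
  (¬ F.odd i ∧ h.1 *ᵥ F.cusp i = F.cusp (F.σ i + 1) ∧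
    h.1 *ᵥ F.cusp (i + 1) = -(F.cusp (F.σ i)))

/-- The polygon with cusps `∞` and the `a i / e i` is a special polygon of the subgroup `Γ`
(a subgroup of `SL₂(ℤ)` containing `-1`, i.e. a subgroup of `PSL₂(ℤ)`): the side pairings,
together with the pairing `T : z ↦ z+1` of the two vertical sides and with `-1`, generate `Γ`. -/
def IsSpecialPolygon (F : FareyData) (Γ : Subgroup SL(2, ℤ)) : Prop :=
  F.IsPath ∧ F.IsPairing ∧
    Subgroup.closure ({T, -1} ∪ {h | ∃ i < F.m, F.SidePairing i h}) = Γ

end FareyData
end SmallFarey
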