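import Pool.Agent.R319.F4
import Pool.Agent.R319.FDef

/-!
From a tree of pairwise inequivalent Farey triangles meeting all classes to a special polygon.
-/

set_option linter.unusedSimpArgs false

namespace R319F
open Matrix ModularGroup SmallFarey
open scoped MatrixGroups

/-- same coset -/
def sim (Γ : Subgroup G) (x y : G) : Prop := x * y⁻¹ ∈ Γ

section
variable {Γ : Subgroup G}

lemma sim_refl (x : G) : sim Γ x x := by unfold sim; rw [mul_inv_cancel]; exact Γ.one_mem

lemma sim_symm {x y : G} (h : sim Γ x y) : sim Γ y x := by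
  unfold sim at *
  have := Γ.inv_mem h
  rwa [_root_.mul_inv_rev, inv_inv] at this

lemma sim_trans {x y z : G} (h : sim Γ x y) (h' : sim Γ y z) : sim Γ x z := by
  unfold sim at *
  have := Γ.mul_mem h h'
  rwa [mul_assoc, inv_mul_cancel_left] at this

lemma sim_mul {x y : G} (h : sim Γ x y) (g : G) : sim Γ (x * g) (y * g) := by
  unfold sim at *
  rwa [_root_.mul_inv_rev, mul_assoc, mul_inv_cancel_left]

lemma neg_mem' (hneg : (-1 : G) ∈ Γ) {x : G} (h : x ∈ Γ) : -x ∈ Γ := by
  have := Γ.mul_mem hneg h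
  rwa [neg_one_mul] at this

lemma sim_neg (hneg : (-1 : G) ∈ Γ) {x y : G} (h : sim Γ x y) : sim Γ x (-y) := by
  unfold sim at *
  rw [inv_neg, mul_neg]
  exact neg_mem' hneg h

lemma Rm_ne : Rm ≠ 1 := by
  intro h
  have : Rm 1 0 = (1 : G) 1 0 := by rw [h]
  rw [one10] at this
  simp at this

lemma Rm_ne' : Rm ≠ -1 := by
  intro h
  have : Rm 1 0 = (-1 : G) 1 0 := by rw [h]
  rw [neg_e, one10] at this
  simp at this

lemma TS : T * S = -(Rm * Rm) := by
  rw [T_eq, mul_assoc, S_sq, mul_neg, mul_one]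

variable {t : Tr} (hT : T ∈ Γ) (hneg : (-1 : G) ∈ Γ)
  (inj : ∀ x y, E t x → E t y → sim Γ x y → x = y)
  (cov : ∀ g, sim Γ (g * Rm) g ∨ ∃ x, E t x ∧ sim Γ g x)
  (h1 : (1 : G) ∈ nd t 1)

include hneg inj in
lemma inj' {x y : G} (hx : E t x ∨ E t (-x)) (hy : E t y ∨ E t (-y)) (h : sim Γ x y) :
    x = y ∨ x = -y := by
  rcases hx with hx | hx <;> rcases hy with hy | hy
  · left; exact inj _ _ hx hy h
  · right; exact inj _ _ hx hy (sim_neg hneg h)
  · right
    have := inj _ _ hx hy (sim_symm (sim_neg hneg (sim_symm h)))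
    rw [← this, neg_neg]
  · left
    have := inj _ _ hx hy (sim_neg hneg (sim_symm (sim_neg hneg (sim_symm h))))
    exact neg_inj.1 this

include h1 in
lemma EE_leaf {k : G} (hk : k ∈ lv t 1) : E t (k * S) ∨ E t (-(k * S)) := by
  refine (lv_struct hk).resolve_left ?_
  rintro rfl
  exact disj t 1 1 hk h1

include hT in
lemma S_sim : sim Γ S (T * S) := by
  unfold sim
  rw [_root_.mul_inv_rev, mul_inv_cancel_left]
  exact Γ.inv_mem hT

lemma mulSS (x : G) : x * S * S = -x := by
  rw [mul_assoc, S_sq, mul_neg, mul_one]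

lemma mulSS' {x y : G} (h : x * S = y * S) : x = y := mul_right_cancel h

lemma mulSS'' {x y : G} (h : x * S = -(y * S)) : x = -y := by
  rw [← neg_mul] at h
  exact mul_right_cancel h

include hT hneg inj cov h1 in
lemma exists_pair {k : G} (hk : k ∈ lv t 1) (hkT : k ≠ T) (hodd : ¬ sim Γ (k * Rm) k) :
    ∃ k' ∈ lv t 1, k' ≠ T ∧ sim Γ k (k' * S) := by
  have hE := EE_leaf h1 hk
  have hpos := rows_pos t 1 (by simp) (by simp) k (Or.inr hk)
  have hE1 : E t 1 := ⟨1, h1, Or.inl rfl⟩
  have hER : E t (Rm * Rm) := ⟨1, h1, Or.inr (Or.inr (by rw [one_mul]))⟩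
  rcases cov k with h | ⟨x, hx, hs⟩
  · exact absurd h hodd
  rcases E_struct hx with h | h | ⟨k', hk', h⟩
  · -- x = 1
    exfalso
    subst h
    have h2 : sim Γ (k * S) (1 * S) := sim_mul hs S
    rw [one_mul] at h2
    have h3 := sim_trans h2 (S_sim hT)
    rw [TS] at h3
    have h4 := inj' hneg inj hE (Or.inr (by rw [neg_neg]; exact hER)) h3
    rcases h4 with h4 | h4
    · rw [← TS] at h4
      exact hkT (mulSS' h4)
    · rw [← TS] at h4
      have h5 := mulSS'' h4
      have : k 1 1 = (-T) 1 1 := by rw [h5]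
      rw [neg_e, T11] at this
      omega
  · exfalso
    have h4 := inj' hneg inj hE h (sim_mul hs S)
    rcases h4 with h4 | h4
    · exact lv_not_E hk (Or.inl (mulSS' h4).symm) hx
    · refine lv_not_E hk (Or.inr ?_) hx
      rw [mulSS'' h4, neg_neg]
  · have h5 : sim Γ k (k' * S) := by
      rcases h with h | h
      · have : k' * S = -x := by rw [← h, mulSS]
        rw [this]; exact sim_neg hneg hs
      · have : k' * S = x := by
          have h6 := congrArg (fun z => -(z * S)) h
          simp only [neg_mul, neg_neg] at h6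
          rw [mulSS, neg_neg] at h6
          exact h6.symm
        rw [this]; exact hs
    refine ⟨k', hk', ?_, h5⟩
    rintro rfl
    have h6 := sim_trans h5 (sim_symm (S_sim hT))
    have h7 := sim_mul h6 S
    rw [S_sq] at h7
    have h8 := sim_neg hneg h7
    rw [neg_neg] at h8
    have h9 := inj' hneg inj hE (Or.inl hE1) h8
    have h10 : k = -S ∨ k = S := by
      rcases h9 with h9 | h9
      · left
        have := congrArg (fun z => -(z * S)) h9
        simp only [one_mul] at this
        rw [mulSS, neg_neg] at this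
        exact this
      · right
        have := congrArg (fun z => -(z * S)) h9
        simp only [neg_mul, one_mul, neg_neg] at this
        rw [mulSS, neg_neg] at this
        exact this
    rcases h10 with h10 | h10
    · have : k 1 1 = (-S) 1 1 := by rw [h10]
      rw [neg_e, S11] at this
      omega
    · have : k 1 1 = S 1 1 := by rw [h10]
      rw [S11] at this
      omega

include hneg inj h1 in
lemma pair_unique {k k1 k2 : G} (hk1 : k1 ∈ lv t 1) (hk2 : k2 ∈ lv t 1)
    (s1 : sim Γ k (k1 * S)) (s2 : sim Γ k (k2 * S)) : k1 = k2 := by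
  have h := inj' hneg inj (EE_leaf h1 hk1) (EE_leaf h1 hk2) (sim_trans (sim_symm s1) s2)
  rcases h with h | h
  · exact mulSS' h
  · have h5 := mulSS'' h
    have p1 := rows_pos t 1 (by simp) (by simp) k1 (Or.inr hk1)
    have p2 := rows_pos t 1 (by simp) (by simp) k2 (Or.inr hk2)
    have : k1 1 1 = (-k2) 1 1 := by rw [h5]
    rw [neg_e] at this
    omega

include hneg in
lemma pair_symm {k k' : G} (s : sim Γ k (k' * S)) : sim Γ k' (k * S) := by
  have h := sim_mul s S
  rw [mulSS] at h
  have := sim_neg hneg h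
  rw [neg_neg] at this
  exact sim_symm this

include hneg inj h1 in
lemma pair_not_odd {k k' : G} (hk : k ∈ lv t 1) (s : sim Γ k (k' * S)) :
    ¬ sim Γ (k' * Rm) k' := by
  intro h
  have s1 := sim_symm (pair_symm hneg s)
  -- s1 : sim (k*S) k'
  have s2 : sim Γ (k * S * Rm) (k * S) :=
    sim_trans (sim_mul s1 Rm) (sim_trans h (sim_symm s1))
  have hE := EE_leaf h1 hk
  have hE' : E t (k * S * Rm) ∨ E t (-(k * S * Rm)) := by
    rcases hE with hE | hE
    · left; exact E_R hE
    · right
      have := E_R hE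
      rwa [neg_mul] at this
  rcases inj' hneg inj hE' hE s2 with h3 | h3
  · exact Rm_ne (mul_eq_left.1 h3)
  · have : k * S * Rm = k * S * (-1) := by rw [h3, mul_neg, mul_one]
    exact Rm_ne' (mul_left_cancel this)

end

/-- enumeration of the leaves -/
lemma enum {Γ : Subgroup G} {t : Tr} (hT : T ∈ Γ)
    (inj : ∀ x y, E t x → E t y → sim Γ x y → x = y) (h1 : (1 : G) ∈ nd t 1) :
    ∃ (m : ℕ) (gg : ℕ → G), (∀ i < m, gg i ∈ lv t 1 ∧ gg i ≠ T) ∧ gg m = T ∧
      (∀ i j, i < m → j < m → gg i = gg j → i = j) ∧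
      (∀ k ∈ lv t 1, k ≠ T → ∃ i < m, gg i = k) ∧
      (∀ i < m, gg i 0 0 = gg (i + 1) 0 1 ∧ gg i 1 0 = gg (i + 1) 1 1) ∧
      gg 0 0 1 = 0 ∧ gg 0 1 1 = 1 ∧ T ∈ lv t 1 := by
  cases t with
  | leaf => simp [nd] at h1
  | node l r =>
    cases r with
    | node r1 r2 =>
      exfalso
      have hTn : T ∈ nd (.node l (.node r1 r2)) 1 := by simp [nd]
      have h2 := inj T 1 ⟨T, hTn, Or.inl rfl⟩ ⟨1, h1, Or.inl rfl⟩ (by
        unfold sim; rw [inv_one, mul_one]; exact hT)
      have : T 0 1 = (1 : G) 0 1 := by rw [h2]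
      rw [one01] at this
      simp at this
    | leaf =>
      have hlv : lv (.node l .leaf) 1 = lv l Lm ++ [T] := by
        simp [lv]
      have hnod := lv_nodup (.node l .leaf) 1
      have hch := lv_chain (.node l .leaf) 1
      have hhd := lv_head (.node l .leaf) 1
      have hTl : T ∈ lv (.node l .leaf) 1 := by rw [hlv]; simp
      set cl := lv (.node l .leaf) 1 with hcl
      have hlen : cl.length = (lv l Lm).length + 1 := by rw [hlv]; simp
      refine ⟨(lv l Lm).length, fun i => cl.getD i 1, ?_, ?_, ?_, ?_, ?_, ?_, ?_, hTl⟩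
      · intro i hi
        have hi' : i < cl.length := by omega
        have e : cl.getD i 1 = cl[i] := List.getD_eq_getElem _ _ hi'
        refine ⟨by simp only [e]; exact List.getElem_mem _, ?_⟩
        simp only [e]
        intro hcon
        have hm' : (lv l Lm).length < cl.length := by omega
        have e2 : cl[(lv l Lm).length] = T := by
          simp [hlv]
        have := (hnod.getElem_inj_iff (hi := hi') (hj := hm')).1 (by rw [hcon, e2])
        omega
      · simp [hlv]
      · intro i j hi hj hij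
        have hi' : i < cl.length := by omega
        have hj' : j < cl.length := by omega
        simp only [List.getD_eq_getElem _ _ hi', List.getD_eq_getElem _ _ hj'] at hij
        exact (hnod.getElem_inj_iff (hi := hi') (hj := hj')).1 hij
      · intro k hk hkT
        obtain ⟨i, hi, hik⟩ := List.getElem_of_mem hk
        refine ⟨i, ?_, ?_⟩
        · by_contra hcon
          have : i = (lv l Lm).length := by omega
          subst this
          apply hkT
          rw [← hik]
          simp [hlv]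
        · simp only [List.getD_eq_getElem _ _ hi]; exact hik
      · intro i hi
        have hi' : i < cl.length := by omega
        have hi2 : i + 1 < cl.length := by omega
        simp only [List.getD_eq_getElem _ _ hi', List.getD_eq_getElem _ _ hi2]
        rw [List.isChain_iff_getElem] at hch
        exact hch i hi2
      · have h0 : 0 < cl.length := by omega
        simp only [List.getD_eq_getElem _ _ h0]
        have := (hhd cl[0] (by rw [List.head?_eq_getElem?]; simp [h0])).1
        rw [this]; simp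
      · have h0 : 0 < cl.length := by omega
        simp only [List.getD_eq_getElem _ _ h0]
        have := (hhd cl[0] (by rw [List.head?_eq_getElem?]; simp [h0])).2
        rw [this]; simp

lemma even_iff {h g k : G} :
    (h.1 *ᵥ ![g 0 1, g 1 1] = ![k 0 0, k 1 0] ∧ h.1 *ᵥ ![g 0 0, g 1 0] = -![k 0 1, k 1 1]) ↔
      h * g = -(k * S) := by
  constructor
  · rintro ⟨e1, e2⟩
    have a1 := congrFun e1 0
    have a2 := congrFun e1 1
    have a3 := congrFun e2 0
    have a4 := congrFun e2 1
    simp [Matrix.mulVec, dotProduct, Fin.sum_univ_two] at a1 a2 a3 a4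
    apply ext4
    · rw [neg_e, mul00, mul00, S00, S10]; linarith
    · rw [neg_e, mul01, mul01, S01, S11]; linarith
    · rw [neg_e, mul10, mul10, S00, S10]; linarith
    · rw [neg_e, mul11, mul11, S01, S11]; linarith
  · intro e
    have a1 : (h * g) 0 0 = (-(k * S)) 0 0 := by rw [e]
    have a2 : (h * g) 0 1 = (-(k * S)) 0 1 := by rw [e]
    have a3 : (h * g) 1 0 = (-(k * S)) 1 0 := by rw [e]
    have a4 : (h * g) 1 1 = (-(k * S)) 1 1 := by rw [e]
    rw [neg_e, mul00, mul00, S00, S10] at a1
    rw [neg_e, mul01, mul01, S01, S11] at a2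
    rw [neg_e, mul10, mul10, S00, S10] at a3
    rw [neg_e, mul11, mul11, S01, S11] at a4
    constructor
    · ext i
      fin_cases i
      · simp [Matrix.mulVec, dotProduct, Fin.sum_univ_two]; linarith
      · simp [Matrix.mulVec, dotProduct, Fin.sum_univ_two]; linarith
    · ext i
      fin_cases i
      · simp [Matrix.mulVec, dotProduct, Fin.sum_univ_two]; linarith
      · simp [Matrix.mulVec, dotProduct, Fin.sum_univ_two]; linarith

lemma odd_iff {h g : G} :
    (h.1 *ᵥ ![g 0 1, g 1 1] = ![g 0 0, g 1 0] ∧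
      h.1 *ᵥ ![g 0 0, g 1 0] = -(![g 0 1, g 1 1] + ![g 0 0, g 1 0])) ↔
      h * g = g * (Rm * Rm) := by
  constructor
  · rintro ⟨e1, e2⟩
    have a1 := congrFun e1 0
    have a2 := congrFun e1 1
    have a3 := congrFun e2 0
    have a4 := congrFun e2 1
    simp [Matrix.mulVec, dotProduct, Fin.sum_univ_two] at a1 a2 a3 a4
    rw [← mul_assoc]
    apply ext4
    · simp only [mul00, mul01, Rm00, Rm01, Rm10, Rm11]; linarith
    · simp only [mul00, mul01, Rm00, Rm01, Rm10, Rm11]; linarith
    · simp only [mul10, mul11, Rm00, Rm01, Rm10, Rm11]; linarith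
    · simp only [mul10, mul11, Rm00, Rm01, Rm10, Rm11]; linarith
  · intro e
    rw [← mul_assoc] at e
    have a1 : (h * g) 0 0 = (g * Rm * Rm) 0 0 := by rw [e]
    have a2 : (h * g) 0 1 = (g * Rm * Rm) 0 1 := by rw [e]
    have a3 : (h * g) 1 0 = (g * Rm * Rm) 1 0 := by rw [e]
    have a4 : (h * g) 1 1 = (g * Rm * Rm) 1 1 := by rw [e]
    simp only [mul00, mul01, mul10, mul11, Rm00, Rm01, Rm10, Rm11] at a1 a2 a3 a4
    constructor
    · ext i
      fin_cases i
      · simp [Matrix.mulVec, dotProduct, Fin.sum_univ_two]; linarith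
      · simp [Matrix.mulVec, dotProduct, Fin.sum_univ_two]; linarith
    · ext i
      fin_cases i
      · simp [Matrix.mulVec, dotProduct, Fin.sum_univ_two]; linarith
      · simp [Matrix.mulVec, dotProduct, Fin.sum_univ_two]; linarith

/-- the abstract theorem -/
theorem abstract_polygon {Γ : Subgroup G} {t : Tr} (hT : T ∈ Γ) (hneg : (-1 : G) ∈ Γ)
    (inj : ∀ x y, E t x → E t y → sim Γ x y → x = y)
    (cov : ∀ g, sim Γ (g * Rm) g ∨ ∃ x, E t x ∧ sim Γ g x)
    (h1 : (1 : G) ∈ nd t 1) :
    ∃ F : FareyData, F.IsSpecialPolygon Γ ∧ ∀ i ≤ F.m, ∃ k ∈ lv t 1, F.e i = k 1 1 := by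
  classical
  obtain ⟨m, gg, g1, g2, g3, g4, g5, g6, g7, g8⟩ := enum hT inj h1
  have hex : ∀ i < m, ¬ sim Γ (gg i * Rm) (gg i) → ∃ k, k < m ∧ sim Γ (gg i) (gg k * S) := by
    intro i hi ho
    obtain ⟨k', hk', hkT, hs⟩ := exists_pair hT hneg inj cov h1 (g1 i hi).1 (g1 i hi).2 ho
    obtain ⟨k, hk, rfl⟩ := g4 k' hk' hkT
    exact ⟨k, hk, hs⟩
  set σ : ℕ → ℕ := fun i => if h : ∃ k, k < m ∧ sim Γ (gg i) (gg k * S) then h.choose else 0
    with hσ
  have hσ1 : ∀ i < m, ¬ sim Γ (gg i * Rm) (gg i) → σ i < m ∧ sim Γ (gg i) (gg (σ i) * S) := by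
    intro i hi ho
    have h := hex i hi ho
    have : σ i = h.choose := by rw [hσ]; simp only [dif_pos h]
    rw [this]
    exact h.choose_spec
  set F : FareyData := ⟨m, fun i => gg i 0 1, fun i => gg i 1 1,
    fun i => sim Γ (gg i * Rm) (gg i), σ⟩ with hF
  have hmem : ∀ i ≤ m, gg i ∈ lv t 1 := by
    intro i hi
    rcases hi.lt_or_eq with h | h
    · exact (g1 i h).1
    · rw [h, g2]; exact g8
  have hcusp : ∀ i, F.cusp i = ![gg i 0 1, gg i 1 1] := fun i => rfl
  have hcusp' : ∀ i < m, F.cusp (i + 1) = ![gg i 0 0, gg i 1 0] := by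
    intro i hi
    rw [hcusp, (g5 i hi).1, (g5 i hi).2]
  have hside : ∀ i < m, ∀ h : G, F.SidePairing i h ↔
      ((F.odd i ∧ h * gg i = gg i * (Rm * Rm)) ∨
        (¬ F.odd i ∧ h * gg i = -(gg (σ i) * S))) := by
    intro i hi h
    unfold FareyData.SidePairing
    rw [hcusp i, hcusp' i hi]
    constructor
    · rintro (⟨ho, h2⟩ | ⟨ho, h2⟩)
      · left; exact ⟨ho, odd_iff.1 h2⟩
      · right
        refine ⟨ho, even_iff.1 ?_⟩
        have h3 := (hσ1 i hi ho).1
        rw [show F.σ i = σ i from rfl, hcusp' _ h3, hcusp (σ i)] at h2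
        exact h2
    · rintro (⟨ho, h2⟩ | ⟨ho, h2⟩)
      · left; exact ⟨ho, odd_iff.2 h2⟩
      · right
        refine ⟨ho, ?_⟩
        have h3 := (hσ1 i hi ho).1
        have := even_iff.2 h2
        rw [show F.σ i = σ i from rfl, hcusp' _ h3, hcusp (σ i)]
        exact this
  refine ⟨F, ⟨?_, ?_, ?_⟩, ?_⟩
  · refine ⟨g6, g7, ?_, ?_, ?_, ?_⟩
    · change gg m 0 1 = 1
      rw [g2]; rfl
    · change gg m 1 1 = 1
      rw [g2]; rfl
    · intro i hi
      have := (rows_pos t 1 (by simp) (by simp) (gg i) (Or.inr (hmem i hi))).2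
      change 0 < gg i 1 1
      omega
    · intro i hi
      change gg (i + 1) 0 1 * gg i 1 1 - gg i 0 1 * gg (i + 1) 1 1 = 1
      rw [← (g5 i hi).1, ← (g5 i hi).2]
      exact det_e _
  · intro i hi ho
    obtain ⟨h2, h3⟩ := hσ1 i hi ho
    have ho2 : ¬ sim Γ (gg (σ i) * Rm) (gg (σ i)) :=
      pair_not_odd hneg inj h1 (g1 i hi).1 h3
    refine ⟨h2, ho2, ?_⟩
    obtain ⟨h4, h5⟩ := hσ1 (σ i) h2 ho2
    apply g3 _ _ h4 hi
    exact pair_unique hneg inj h1 (g1 _ h4).1 (g1 i hi).1 h5 (pair_symm hneg h3)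
  · -- generation
    set H := Subgroup.closure ({T, -1} ∪ {h | ∃ i < F.m, F.SidePairing i h}) with hH
    have hHT : T ∈ H := Subgroup.subset_closure (Or.inl (by simp))
    have hHn : (-1 : G) ∈ H := Subgroup.subset_closure (Or.inl (by simp))
    have hle : H ≤ Γ := by
      rw [hH, Subgroup.closure_le]
      rintro h (h2 | ⟨i, hi, h2⟩)
      · rcases h2 with rfl | h2
        · exact hT
        · rw [Set.mem_singleton_iff] at h2
          rw [h2]; exact hneg
      · rcases (hside i hi h).1 h2 with ⟨ho, h3⟩ | ⟨ho, h3⟩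
        · have : h = gg i * Rm * Rm * (gg i)⁻¹ := by
            rw [mul_assoc (gg i), ← h3, mul_inv_cancel_right]
          rw [this]
          exact sim_trans (sim_mul ho Rm) ho
        · have : h = -(gg (σ i) * S * (gg i)⁻¹) := by
            rw [← neg_mul, ← h3, mul_inv_cancel_right]
          rw [this]
          exact neg_mem' hneg (sim_symm (hσ1 i hi ho).2)
    refine le_antisymm hle ?_
    set Y : G → Prop := fun y => E t y ∨ ∃ i < m, sim Γ (gg i * Rm) (gg i) ∧ y = gg i with hY
    set D : G → Prop := fun x => ∃ h ∈ H, ∃ y, Y y ∧ x = h * y with hD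
    have Dneg : ∀ x, D x → D (-x) := by
      rintro x ⟨h, hh, y, hy, rfl⟩
      exact ⟨-h, neg_mem' hHn hh, y, hy, by rw [neg_mul]⟩
    have Dmul : ∀ h ∈ H, ∀ x, D x → D (h * x) := by
      rintro h0 hh0 x ⟨h, hh, y, hy, rfl⟩
      exact ⟨h0 * h, H.mul_mem hh0 hh, y, hy, by rw [mul_assoc]⟩
    have DE : ∀ x, E t x → D x := fun x hx => ⟨1, H.one_mem, x, Or.inl hx, by rw [one_mul]⟩
    have DEE : ∀ x, (E t x ∨ E t (-x)) → D x := by
      rintro x (hx | hx)
      · exact DE x hx
      · have := Dneg _ (DE _ hx)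
        rwa [neg_neg] at this
    have hE1 : E t 1 := ⟨1, h1, Or.inl rfl⟩
    have hER : E t (Rm * Rm) := ⟨1, h1, Or.inr (Or.inr (by rw [one_mul]))⟩
    -- leaves are in D
    have Dleaf : ∀ k ∈ lv t 1, D k := by
      intro k hk
      by_cases hkT : k = T
      · rw [hkT]
        exact ⟨T, hHT, 1, Or.inl hE1, by rw [mul_one]⟩
      · obtain ⟨i, hi, rfl⟩ := g4 k hk hkT
        by_cases ho : sim Γ (gg i * Rm) (gg i)
        · exact ⟨1, H.one_mem, gg i, Or.inr ⟨i, hi, ho, rfl⟩, by rw [one_mul]⟩
        · obtain ⟨h2, h3⟩ := hσ1 i hi ho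
          set h := -(gg (σ i) * S * (gg i)⁻¹) with hh
          have hhg : h * gg i = -(gg (σ i) * S) := by
            rw [hh, neg_mul, inv_mul_cancel_right]
          have hhH : h ∈ H := by
            apply Subgroup.subset_closure
            right
            exact ⟨i, hi, (hside i hi h).2 (Or.inr ⟨ho, hhg⟩)⟩
          have : gg i = h⁻¹ * (-(gg (σ i) * S)) := by
            rw [← hhg, inv_mul_cancel_left]
          rw [this]
          exact Dmul _ (H.inv_mem hhH) _ (Dneg _ (DEE _ (EE_leaf h1 (g1 _ h2).1)))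
    have DR : ∀ x, D x → D (x * Rm) := by
      rintro x ⟨h, hh, y, hy, rfl⟩
      rcases hy with hy | ⟨i, hi, ho, rfl⟩
      · exact ⟨h, hh, y * Rm, Or.inl (E_R hy), by rw [mul_assoc]⟩
      · set k := gg i * (Rm * Rm) * (gg i)⁻¹ with hk
        have hkg : k * gg i = gg i * (Rm * Rm) := by
          rw [hk, inv_mul_cancel_right]
        have hkH : k ∈ H := by
          apply Subgroup.subset_closure
          right
          exact ⟨i, hi, (hside i hi k).2 (Or.inl ⟨ho, hkg⟩)⟩
        refine ⟨h * (k * k), H.mul_mem hh (H.mul_mem hkH hkH), gg i, Or.inr ⟨i, hi, ho, rfl⟩, ?_⟩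
        have e : k * k * gg i = gg i * Rm := by
          rw [mul_assoc, hkg, ← mul_assoc, hkg, mul_assoc]
          congr 1
          have : Rm * Rm * (Rm * Rm) = Rm * Rm * Rm * Rm := by
            simp only [mul_assoc]
          rw [this, Rm_cube, one_mul]
        rw [mul_assoc, mul_assoc, e]
    have DS : ∀ x, D x → D (x * S) := by
      rintro x ⟨h, hh, y, hy, rfl⟩
      rw [mul_assoc]
      apply Dmul _ hh
      rcases hy with hy | ⟨i, hi, ho, rfl⟩
      · rcases E_struct hy with h3 | h3 | ⟨k, hk, h3⟩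
        · subst h3
          rw [one_mul]
          have : S = T⁻¹ * (-(Rm * Rm)) := by rw [← TS, inv_mul_cancel_left]
          rw [this]
          exact Dmul _ (H.inv_mem hHT) _ (Dneg _ (DE _ hER))
        · exact DEE _ h3
        · rcases h3 with h3 | h3
          · rw [h3]; exact Dleaf k hk
          · rw [h3]; exact Dneg _ (Dleaf k hk)
      · exact DEE _ (EE_leaf h1 (g1 i hi).1)
    have Dall : ∀ x, D x := by
      have hQ : ∀ y : G, ∀ x, D x ↔ D (x * y) := by
        intro y
        have hy : y ∈ Subgroup.closure ({S, T} : Set G) := by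
          rw [_root_.SpecialLinearGroup.SL2Z_generators]; trivial
        have qS : ∀ x, D x ↔ D (x * S) := by
          intro x
          refine ⟨DS x, fun h => ?_⟩
          have h2 := Dneg _ (DS _ h)
          rwa [mulSS, neg_neg] at h2
        have qR : ∀ x, D x ↔ D (x * Rm) := by
          intro x
          refine ⟨DR x, fun h => ?_⟩
          have h2 := DR _ (DR _ h)
          have e : x * Rm * Rm * Rm = x := by
            rw [mul_assoc, mul_assoc, ← mul_assoc Rm, Rm_cube, mul_one]
          rwa [e] at h2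
        induction hy using Subgroup.closure_induction with
        | mem z hz =>
          rcases hz with rfl | hz
          · exact qS
          · rw [Set.mem_singleton_iff] at hz
            subst hz
            intro x
            rw [T_eq, ← mul_assoc, ← mul_assoc, ← qS, ← qR, ← qR]
        | one => intro x; rw [mul_one]
        | mul a b _ _ ha hb => intro x; rw [← mul_assoc, ← hb, ← ha]
        | inv a _ ha => intro x; rw [ha (x * a⁻¹), inv_mul_cancel_right]
      intro x
      have := (hQ x 1).1 (DE 1 hE1)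
      rwa [one_mul] at this
    intro γ hγ
    obtain ⟨h, hh, y, hy, he⟩ := Dall γ
    have hyΓ : y ∈ Γ := by
      have : y = h⁻¹ * γ := by rw [he, inv_mul_cancel_left]
      rw [this]
      exact Γ.mul_mem (Γ.inv_mem (hle hh)) hγ
    rcases hy with hy | ⟨i, hi, ho, rfl⟩
    · have := inj y 1 hy hE1 (by unfold sim; rw [inv_one, mul_one]; exact hyΓ)
      rw [this, mul_one] at he
      rw [he]; exact hh
    · exfalso
      have hR : Rm ∈ Γ := by
        have e : Rm = (gg i)⁻¹ * (gg i * Rm * (gg i)⁻¹) * gg i := by group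
        rw [e]
        exact Γ.mul_mem (Γ.mul_mem (Γ.inv_mem hyΓ) ho) hyΓ
      have hERm : E t Rm := ⟨1, h1, Or.inr (Or.inl (by rw [one_mul]))⟩
      exact Rm_ne (inj Rm 1 hERm hE1 (by unfold sim; rw [inv_one, mul_one]; exact hR))
  · intro i hi
    exact ⟨gg i, hmem i hi, rfl⟩

end R319F
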