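import Pool.Agent.R319.F3
import Pool.Agent.R319.F5

/-!
Small special polygons for `Γ₀(pⁿ)`.
-/

set_option linter.unusedSimpArgs false

namespace R319F
open Matrix ModularGroup SmallFarey CongruenceSubgroup
open scoped MatrixGroups

lemma sim_iff {N : ℕ} {x y : G} :
    sim (Gamma0 N) x y ↔ Lt (N : ℤ) (x 1 0) (x 1 1) (y 1 0) (y 1 1) := by
  unfold sim Lt
  rw [Gamma0_mem, ZMod.intCast_zmod_eq_zero_iff_dvd, mul10, inv00, inv10]
  have : x 1 0 * y 1 1 + x 1 1 * -(y 1 0) = x 1 0 * y 1 1 - x 1 1 * y 1 0 := by ring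
  rw [this]

lemma row_coprime (x : G) : IsCoprime (x 1 0) (x 1 1) := by
  have := det_e x
  exact ⟨-(x 0 1), x 0 0, by linarith⟩

lemma row_R (y : G) : (y * Rm) 1 0 = y 1 1 ∧ (y * Rm) 1 1 = -(y 1 0) - y 1 1 := by
  constructor
  · simp only [mul10, Rm00, Rm10]; ring
  · simp only [mul11, Rm01, Rm11]; ring

lemma row_S (y : G) : (y * S) 1 0 = y 1 1 ∧ (y * S) 1 1 = -(y 1 0) := by
  constructor
  · simp only [mul10, S00, S10]; ring
  · simp only [mul11, S01, S11]; ring

lemma E_exp {t : Tr} {x : G} (h : E t x) : ∃ y ∈ nd t 1, ∃ k : ℕ, x = y * Rm ^ k := by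
  obtain ⟨y, hy, h | h | h⟩ := h
  · exact ⟨y, hy, 0, by rw [h, pow_zero, mul_one]⟩
  · exact ⟨y, hy, 1, by rw [h, pow_one]⟩
  · exact ⟨y, hy, 2, by rw [h, pow_two]⟩

lemma E_of_exp {t : Tr} {y : G} (hy : y ∈ nd t 1) (k : ℕ) : E t (y * Rm ^ k) := by
  induction k with
  | zero => exact ⟨y, hy, Or.inl (by rw [pow_zero, mul_one])⟩
  | succ k ih => rw [pow_succ, ← mul_assoc]; exact E_R ih

lemma Rm_pow3 : Rm ^ 3 = 1 := by
  rw [pow_succ, pow_two, Rm_cube]

lemma Rm_pow_mod (k : ℕ) : Rm ^ k = Rm ^ (k % 3) := by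
  conv_lhs => rw [← Nat.div_add_mod k 3]
  rw [pow_add, pow_mul, Rm_pow3, one_pow, one_mul]

/-- equivalence of triangles -/
def TE (Γ : Subgroup G) (x y : G) : Prop := ∃ k : ℕ, sim Γ x (y * Rm ^ k)

lemma TE_symm {Γ : Subgroup G} {x y : G} (h : TE Γ x y) : TE Γ y x := by
  obtain ⟨k, h⟩ := h
  refine ⟨2 * k, ?_⟩
  have h2 := sim_symm (sim_mul h (Rm ^ (2 * k)))
  have e : y * Rm ^ k * Rm ^ (2 * k) = y := by
    rw [mul_assoc, ← pow_add]
    have : k + 2 * k = 3 * k := by ring
    rw [this, pow_mul, Rm_pow3, one_pow, mul_one]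
  rwa [e] at h2

/-- admissible trees -/
def Adm (p : ℤ) (N : ℕ) (t : Tr) : Prop :=
  (∀ x ∈ nd t 1, Good p N (x 1 0) (x 1 1) ∧ ¬ sim (Gamma0 N) (x * Rm) x) ∧
  (nd t 1).Pairwise (fun x y => ¬ TE (Gamma0 N) x y)

lemma adm_inj {p : ℤ} {N : ℕ} {t : Tr} (h : Adm p N t) :
    ∀ x y, E t x → E t y → sim (Gamma0 N) x y → x = y := by
  intro x y hx hy hs
  obtain ⟨a, ha, i, rfl⟩ := E_exp hx
  obtain ⟨b, hb, j, rfl⟩ := E_exp hy
  have h2 := sim_mul hs (Rm ^ (2 * i))
  have e : a * Rm ^ i * Rm ^ (2 * i) = a := by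
    rw [mul_assoc, ← pow_add]
    have : i + 2 * i = 3 * i := by ring
    rw [this, pow_mul, Rm_pow3, one_pow, mul_one]
  rw [e, mul_assoc, ← pow_add] at h2
  have hab : a = b := by
    by_contra hne
    have hsym : Std.Symm (fun x y : G => ¬ TE (Gamma0 N) x y) :=
      ⟨fun x y hxy hyx => hxy (TE_symm hyx)⟩
    exact (h.2.forall ha hb hne) ⟨_, h2⟩
  subst hab
  have hell := (h.1 a ha).2
  have hk : (j + 2 * i) % 3 = 0 := by
    rw [Rm_pow_mod] at h2
    have h3 : (j + 2 * i) % 3 < 3 := Nat.mod_lt _ (by norm_num)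
    rcases Nat.lt_or_ge ((j + 2 * i) % 3) 1 with h4 | h4
    · omega
    · exfalso
      have h5 : (j + 2 * i) % 3 = 1 ∨ (j + 2 * i) % 3 = 2 := by omega
      rcases h5 with h5 | h5
      · rw [h5, pow_one] at h2
        exact hell (sim_symm h2)
      · rw [h5] at h2
        have h6 := sim_mul h2 Rm
        have e2 : a * Rm ^ 2 * Rm = a := by
          rw [mul_assoc, ← pow_succ, Rm_pow3, mul_one]
        rw [e2] at h6
        exact hell h6
  have hij : i % 3 = j % 3 := by omega
  rw [Rm_pow_mod i, Rm_pow_mod j, hij]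

lemma adm_bound {p : ℤ} {N : ℕ} [NeZero N] {t : Tr} (h : Adm p N t) :
    (nd t 1).length ≤ Fintype.card (ZMod N × ZMod N) := by
  have hnod : ((nd t 1).map (fun x : G => ((x 1 0 : ZMod N), (x 1 1 : ZMod N)))).Nodup := by
    rw [List.Nodup, List.pairwise_map]
    refine h.2.imp ?_
    intro a b hab heq
    apply hab
    refine ⟨0, ?_⟩
    rw [pow_zero, mul_one, sim_iff]
    unfold Lt
    rw [← ZMod.intCast_zmod_eq_zero_iff_dvd]
    have h1 := congrArg Prod.fst heq
    have h2 := congrArg Prod.snd heq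
    simp only at h1 h2
    push_cast
    rw [h1, h2]; ring
  have := hnod.length_le_card
  rwa [List.length_map] at this

lemma exists_max (p : ℤ) (N : ℕ) [NeZero N] :
    ∃ t, Adm p N t ∧ ∀ t', Adm p N t' → (nd t' 1).length ≤ (nd t 1).length := by
  set A : Set ℕ := {n | ∃ t, Adm p N t ∧ (nd t 1).length = n} with hA
  have hne : A.Nonempty := ⟨0, .leaf, ⟨by simp [nd], by simp [nd]⟩, by simp [nd]⟩
  have hb : BddAbove A := ⟨Fintype.card (ZMod N × ZMod N), by
    rintro n ⟨t, ht, rfl⟩
    exact adm_bound ht⟩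
  obtain ⟨t, ht, hl⟩ := Nat.sSup_mem hne hb
  refine ⟨t, ht, fun t' ht' => ?_⟩
  rw [hl]
  exact le_csSup hb ⟨t', ht', rfl⟩

lemma max_leaf {p : ℤ} {N : ℕ} {t : Tr} (h : Adm p N t)
    (hmax : ∀ t', Adm p N t' → (nd t' 1).length ≤ (nd t 1).length) {k : G} (hk : k ∈ lv t 1)
    (hg : Good p N (k 1 0) (k 1 1)) (he : ¬ sim (Gamma0 N) (k * Rm) k) :
    ∃ y ∈ nd t 1, TE (Gamma0 N) k y := by
  by_contra hcon
  push Not at hcon
  obtain ⟨t', ht'⟩ := expand t 1 k hk
  have hadm : Adm p N t' := by
    constructor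
    · intro x hx
      rw [ht'.mem_iff, List.mem_cons] at hx
      rcases hx with rfl | hx
      · exact ⟨hg, he⟩
      · exact h.1 x hx
    · have hsym : Std.Symm (fun x y : G => ¬ TE (Gamma0 N) x y) :=
        ⟨fun x y hxy hyx => hxy (TE_symm hyx)⟩
      rw [ht'.pairwise_iff (fun {x y} hxy hyx => hxy (TE_symm hyx)), List.pairwise_cons]
      exact ⟨hcon, h.2⟩
  have h1 := hmax t' hadm
  rw [ht'.length_eq, List.length_cons] at h1
  omega

lemma root_nd {p : ℤ} {N : ℕ} (hN : 2 ≤ N) {t : Tr} (h : Adm p N t)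
    (hmax : ∀ t', Adm p N t' → (nd t' 1).length ≤ (nd t 1).length) : (1 : G) ∈ nd t 1 := by
  cases t with
  | node l r => simp [nd]
  | leaf =>
    exfalso
    have hk : (1 : G) ∈ lv .leaf 1 := by simp [lv]
    obtain ⟨y, hy, -⟩ := max_leaf h hmax hk good_root (by
      rw [one_mul, sim_iff]
      unfold Lt
      intro hd
      simp only [Rm10, Rm11, one10, one11] at hd
      have e : (1 : ℤ) * 1 - -1 * 0 = 1 := by norm_num
      rw [e] at hd
      have := Int.le_of_dvd one_pos hd
      omega)
    simp [nd] at hy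

/-- covered or elliptic -/
def Pd (N : ℕ) (t : Tr) (c d : ℤ) : Prop :=
  Lt (N : ℤ) c d d (-c - d) ∨ ∃ x, E t x ∧ Lt (N : ℤ) c d (x 1 0) (x 1 1)

lemma cop_rot {c d : ℤ} (h : IsCoprime c d) : IsCoprime d (-c - d) := by
  obtain ⟨s, t, hst⟩ := h
  exact ⟨t - s, -s, by linear_combination hst⟩

lemma cop_neg {c d : ℤ} (h : IsCoprime c d) : IsCoprime (-c) (-d) := h.neg_neg

lemma Pd_rot {N : ℕ} {t : Tr} {c d : ℤ} (h : Pd N t c d) : Pd N t d (-c - d) := by
  rcases h with h | ⟨x, hx, h⟩
  · left
    exact lt_rot.2 h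
  · right
    refine ⟨x * Rm, E_R hx, ?_⟩
    rw [(row_R x).1, (row_R x).2]
    exact lt_rot.2 h

lemma Pd_neg {N : ℕ} {t : Tr} {c d : ℤ} (h : Pd N t c d) : Pd N t (-c) (-d) := by
  rcases h with h | ⟨x, hx, h⟩
  · left
    have e : -(-c) - (-d) = -(-c - d) := by ring
    rw [e]
    exact lt_neg_left.2 (lt_neg_right.2 h)
  · right
    exact ⟨x, hx, lt_neg_left.2 h⟩

lemma Pd_congr {N : ℕ} {t : Tr} {c d c' d' : ℤ} (h2 : IsCoprime c' d')
    (hl : Lt (N : ℤ) c d c' d') (h : Pd N t c' d') : Pd N t c d := by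
  rcases h with h | ⟨x, hx, h⟩
  · left
    have a1 := lt_trans' h2 (lt_symm hl) h
    have a2 : Lt (N : ℤ) d (-c - d) d' (-c' - d') := lt_rot.2 hl
    exact lt_trans' (cop_rot h2) (lt_symm a1) (lt_symm a2)
  · right
    exact ⟨x, hx, lt_trans' h2 (lt_symm hl) h⟩

lemma E_good {p : ℤ} {N : ℕ} {t : Tr} (h : Adm p N t) {x : G} (hx : E t x) :
    Good p N (x 1 0) (x 1 1) := by
  obtain ⟨y, hy, h1 | h1 | h1⟩ := hx
  · rw [h1]; exact (h.1 y hy).1
  · rw [h1, (row_R y).1, (row_R y).2]
    exact good_rot (h.1 y hy).1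
  · rw [h1, ← mul_assoc, (row_R (y * Rm)).1, (row_R (y * Rm)).2, (row_R y).1, (row_R y).2]
    exact good_rot (good_rot (h.1 y hy).1)

theorem covering {p n : ℕ} (hp : p.Prime) (hp3 : 3 ≤ p) (hn1 : 1 ≤ n) {t : Tr}
    (h : Adm p (p ^ n) t)
    (hmax : ∀ t', Adm p (p ^ n) t' → (nd t' 1).length ≤ (nd t 1).length)
    (h1 : (1 : G) ∈ nd t 1) :
    ∀ m : ℕ, ∀ c d : ℤ, IsCoprime c d → hn c d = m → Pd (p ^ n) t c d := by
  have hE1 : E t 1 := ⟨1, h1, Or.inl rfl⟩
  have hER : E t (Rm * Rm) := ⟨1, h1, Or.inr (Or.inr (by rw [one_mul]))⟩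
  have hpi : Prime (p : ℤ) := Nat.prime_iff_prime_int.1 hp
  have hpN : (p : ℤ) ∣ ((p ^ n : ℕ) : ℤ) := by
    push_cast
    exact dvd_pow_self _ (by omega)
  have hNpos : (0 : ℤ) < ((p ^ n : ℕ) : ℤ) := by
    have := hp.pos
    positivity
  intro m
  induction m using Nat.strong_induction_on with
  | _ m ih =>
    -- nonnegative case
    have key : ∀ c d : ℤ, 0 ≤ c → 0 ≤ d → IsCoprime c d → hn c d = m →
        Pd (p ^ n) t c d := by
      intro c d hc0 hd0 hcd hm
      have hnimp := not_imp_of_coprime (p := (p : ℤ)) (by exact_mod_cast hp3) hcd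
      rcases hc0.eq_or_lt with hc | hc
      · -- c = 0
        subst hc
        have hd1 : d = 1 := by
          have := isCoprime_zero_left.1 hcd
          rw [Int.isUnit_iff] at this
          omega
        subst hd1
        right
        exact ⟨1, hE1, by rw [one10, one11]; exact lt_refl _ _ _⟩
      rcases hd0.eq_or_lt with hd | hd
      · subst hd
        have hc1 : c = 1 := by
          have := isCoprime_zero_right.1 hcd
          rw [Int.isUnit_iff] at this
          omega
        subst hc1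
        right
        refine ⟨Rm * Rm, hER, ?_⟩
        rw [(row_R Rm).1, (row_R Rm).2, Rm10, Rm11]
        unfold Lt
        norm_num
      by_cases hmin : ∀ x y, Lt ((p ^ n : ℕ) : ℤ) c d x y → ¬ Imp (p : ℤ) x y → hn c d ≤ hn x y
      · -- minimal
        have hlt : hn d (-c) < m := by
          rw [← hm]; unfold hn; omega
        have hv := ih _ hlt d (-c) hcd.symm.neg_right rfl
        rcases hv with hv | ⟨x, hx, hv⟩
        · -- elliptic neighbour: impossible
          exfalso
          unfold Lt at hv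
          rcases lt_or_ge c d with hcd' | hcd'
          · have l1 : Lt ((p ^ n : ℕ) : ℤ) c d (c - d) c := by
              unfold Lt
              have : c * c - d * (c - d) = -(d * (-d - -c) - -c * -c) := by ring
              rw [this, dvd_neg]; exact hv
            have h2 := hmin _ _ l1 (by
              rintro ⟨a1, a2⟩
              exact hnimp ⟨a2, (dvd_sub_right a2).1 a1⟩)
            have : (hn (c - d) c : ℤ) < c + d := by unfold hn; omega
            have e2 : (hn c d : ℤ) = c + d := by unfold hn; omega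
            omega
          · have l1 : Lt ((p ^ n : ℕ) : ℤ) c d d (d - c) := by
              unfold Lt
              have : c * (d - c) - d * d = (d * (-d - -c) - -c * -c) := by ring
              rw [this]; exact hv
            have h2 := hmin _ _ l1 (by
              rintro ⟨a1, a2⟩
              exact hnimp ⟨(dvd_sub_right a1).1 a2, a1⟩)
            have : (hn d (d - c) : ℤ) < c + d := by unfold hn; omega
            have e2 : (hn c d : ℤ) = c + d := by unfold hn; omega
            omega
        · have hxS : Lt ((p ^ n : ℕ) : ℤ) c d ((x * S) 1 0) ((x * S) 1 1) := by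
            rw [(row_S x).1, (row_S x).2]
            have h2 : Lt ((p ^ n : ℕ) : ℤ) c d (-(x 1 1)) (x 1 0) := by
              rw [← lt_J, neg_neg]; exact hv
            have h3 := lt_neg_right.2 h2
            rwa [neg_neg] at h3
          rcases E_struct hx with h2 | (h2 | h2) | ⟨k, hk, h2⟩
          · -- x = 1
            right
            refine ⟨Rm * Rm, hER, ?_⟩
            rw [(row_R Rm).1, (row_R Rm).2, Rm10, Rm11]
            subst h2
            rw [one10, one11] at hv
            unfold Lt at hv ⊢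
            have : c * (-1 - -1) - d * -1 = d * 1 - -c * 0 := by ring
            rw [this]; exact hv
          · right; exact ⟨_, h2, hxS⟩
          · right
            refine ⟨_, h2, ?_⟩
            rw [neg_e, neg_e]
            exact lt_neg_right.2 hxS
          · -- leaf
            have hgx := E_good h hx
            have hrow : Lt ((p ^ n : ℕ) : ℤ) c d (k 1 0) (k 1 1) := by
              rcases h2 with h2 | h2
              · rw [← h2]; exact hxS
              · have : k = -(x * S) := by rw [h2, neg_neg]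
                rw [this, neg_e, neg_e]
                exact lt_neg_right.2 hxS
            have hgk : Good (p : ℤ) ((p ^ n : ℕ) : ℤ) (k 1 1) (-(k 1 0)) := by
              rcases h2 with h2 | h2
              · have e1 : x 1 0 = -(k 1 1) := by
                  rw [← h2, (row_S x).2, neg_neg]
                have e2 : x 1 1 = k 1 0 := by rw [← h2, (row_S x).1]
                rw [e1, e2] at hgx
                have := good_neg hgx
                rwa [neg_neg] at this
              · have e0 : k = -(x * S) := by rw [h2, neg_neg]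
                have e1 : k 1 0 = -(x 1 1) := by rw [e0, neg_e, (row_S x).1]
                have e2 : k 1 1 = x 1 0 := by rw [e0, neg_e, (row_S x).2, neg_neg]
                rw [e1, e2, neg_neg]; exact hgx
            obtain ⟨hb, ha⟩ := rows_pos t 1 (by simp) (by simp) k (Or.inr hk)
            have hkc := row_coprime k
            apply Pd_congr hkc hrow
            rcases hb.eq_or_lt with hb0 | hb0
            · right
              refine ⟨1, hE1, ?_⟩
              rw [one10, one11]
              rw [← hb0] at hkc ⊢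
              have : k 1 1 = 1 := by
                have := isCoprime_zero_left.1 hkc
                rw [Int.isUnit_iff] at this
                omega
              rw [this]; exact lt_refl _ _ _
            · have hgood := core (p := (p : ℤ)) (by exact_mod_cast hp3) hpN hNpos
                (show 0 < k 1 1 by omega) hb0 hc hd hcd hkc.symm hmin hrow hgk
              by_cases hell : sim (Gamma0 (p ^ n)) (k * Rm) k
              · left
                have := sim_iff.1 (sim_symm hell)
                rwa [(row_R k).1, (row_R k).2] at this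
              · obtain ⟨y, hy, j, hj⟩ := max_leaf h hmax hk hgood hell
                right
                exact ⟨_, E_of_exp hy j, sim_iff.1 hj⟩
      · -- not minimal
        push Not at hmin
        obtain ⟨x, y, hl, hni, hlt⟩ := hmin
        have hgpos : 0 < Int.gcd x y := by
          rcases Nat.eq_zero_or_pos (Int.gcd x y) with h0 | h0
          · exfalso
            rw [Int.gcd_eq_zero_iff] at h0
            apply hni
            rw [h0.1, h0.2]
            exact ⟨dvd_zero _, dvd_zero _⟩
          · exact h0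
        obtain ⟨x', y', hg1, hx', hy'⟩ := Int.exists_gcd_one hgpos
        set g := Int.gcd x y with hg
        have hco : IsCoprime x' y' := Int.isCoprime_iff_gcd_eq_one.2 hg1
        have hpg : ¬ (p : ℤ) ∣ (g : ℤ) := by
          intro hd'
          apply hni
          rw [hx', hy']
          exact ⟨Dvd.dvd.mul_left hd' _, Dvd.dvd.mul_left hd' _⟩
        have hcop : IsCoprime ((p ^ n : ℕ) : ℤ) (g : ℤ) := by
          push_cast
          exact ((Prime.coprime_iff_not_dvd hpi).2 hpg).pow_left
        have hl' : Lt ((p ^ n : ℕ) : ℤ) c d x' y' := by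
          unfold Lt at hl ⊢
          have e : c * y - d * x = g * (c * y' - d * x') := by rw [hx', hy']; ring
          rw [e] at hl
          exact hcop.dvd_of_dvd_mul_left hl
        have hlt' : hn x' y' < m := by
          rw [hx', hy', mul_comm x', mul_comm y', hn_smul, Int.natAbs_natCast] at hlt
          have : hn x' y' ≤ g * hn x' y' := Nat.le_mul_of_pos_left _ hgpos
          omega
        exact Pd_congr hco hl' (ih _ hlt' x' y' hco rfl)
    -- general case
    have key2 : ∀ c d : ℤ, 0 ≤ c → IsCoprime c d → hn c d = m → Pd (p ^ n) t c d := by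
      intro c d hc hcd hm
      by_cases hd : 0 ≤ d
      · exact key c d hc hd hcd hm
      · push Not at hd
        by_cases hs : 0 ≤ c + d
        · -- rotate and negate
          have h2 := key (-d) (-(-c - d)) (by omega) (by omega) (cop_neg (cop_rot hcd))
            (by rw [hn_neg, hn_rot, hm])
          have h3 := Pd_neg h2
          rw [neg_neg, neg_neg] at h3
          have h4 := Pd_rot (Pd_rot h3)
          have e1 : -(-c - d) - (-d - (-c - d)) = d := by ring
          have e2 : -d - (-c - d) = c := by ring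
          rw [e1, e2] at h4
          exact h4
        · have h2 := key (-c - d) c (by omega) hc (by
            have := cop_rot (cop_rot hcd)
            have e : -d - (-c - d) = c := by ring
            rwa [e] at this) (by rw [← hm]; unfold hn; omega)
          have h4 := Pd_rot h2
          have e : -(-c - d) - c = d := by ring
          rw [e] at h4
          exact h4
    intro c d hcd hm
    by_cases hc : 0 ≤ c
    · exact key2 c d hc hcd hm
    · have h2 := Pd_neg (key2 (-c) (-d) (by omega) (cop_neg hcd) (by rw [hn_neg, hm]))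
      rwa [neg_neg, neg_neg] at h2

lemma good_bound {p N B c d : ℤ} (hp : 3 ≤ p) (hB : 3 * p ≤ B) (hNB : N = p * B)
    (hc : 0 ≤ c) (hd : 1 ≤ d) (hcd : IsCoprime c d) (hg : Good p N c d) : c + d ≤ B := by
  have hN : 0 < N := by rw [hNB]; nlinarith
  rcases hg with hg | ⟨h1, x, y, h2, h3, -, -, h4⟩
  · have h5 := short_bound hN hcd hg
    have e : (hn c d : ℤ) = c + d := by unfold hn; omega
    rw [e, hNB] at h5
    by_contra hcon
    push Not at hcon
    have h6 : B * B < (c + d) * (c + d) := by nlinarith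
    have h7 : 3 * (B * B) < 4 * (p * B) := by nlinarith
    nlinarith
  · rcases hc.eq_or_lt with hc0 | hc0
    · subst hc0
      have := isCoprime_zero_left.1 hcd
      rw [Int.isUnit_iff] at this
      omega
    have h5 : (x + y).natAbs < hn x y := by
      rcases h4 with h4 | h4
      · exfalso; unfold hn at h4; omega
      · exact h4
    obtain ⟨⟨x', hx'⟩, ⟨y', hy'⟩⟩ := h1 _ _ h2
    have hsign : (0 < x ∧ y < 0) ∨ (x < 0 ∧ 0 < y) := by
      unfold hn at h5; omega
    have hmain : p * (c + d) ≤ p * B := by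
      rw [← hNB, ← h3]
      rcases hsign with ⟨hx, hy⟩ | ⟨hx, hy⟩
      · have hx1 : p ≤ x := Int.le_of_dvd hx ⟨x', hx'⟩
        have hy1 : p ≤ -y := Int.le_of_dvd (by omega) (dvd_neg.2 ⟨y', hy'⟩)
        have : -(c * y - d * x) ≤ |c * y - d * x| := neg_le_abs _
        nlinarith
      · have hx1 : p ≤ -x := Int.le_of_dvd (by omega) (dvd_neg.2 ⟨x', hx'⟩)
        have hy1 : p ≤ y := Int.le_of_dvd hy ⟨y', hy'⟩
        have : (c * y - d * x) ≤ |c * y - d * x| := le_abs_self _
        nlinarith
    exact le_of_mul_le_mul_left hmain (by omega)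

theorem small_farey (p n : ℕ) (hp : p.Prime) (hp2 : p ≠ 2) (hn3 : 3 ≤ n) :
    ∃ F : FareyData, F.IsSpecialPolygon (Gamma0 (p ^ n)) ∧
      ∀ i ≤ F.m, F.e i ≤ (p : ℤ) ^ (n - 1) := by
  have hp3 : 3 ≤ p := by
    have := hp.two_le
    omega
  have : NeZero (p ^ n) := ⟨(pow_pos hp.pos n).ne'⟩
  obtain ⟨t, ht, hmax⟩ := exists_max (p : ℤ) (p ^ n)
  have hN2 : 2 ≤ p ^ n := by
    calc 2 ≤ p := hp.two_le
      _ = p ^ 1 := (pow_one p).symm
      _ ≤ p ^ n := Nat.pow_le_pow_right hp.pos (by omega)
  have h1 := root_nd hN2 ht hmax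
  have hcov := covering hp hp3 (by omega) ht hmax h1
  have hT : T ∈ Gamma0 (p ^ n) := by rw [Gamma0_mem]; simp
  have hneg : (-1 : G) ∈ Gamma0 (p ^ n) := by
    rw [Gamma0_mem, neg_e, one10]; simp
  obtain ⟨F, hF, hFe⟩ := abstract_polygon hT hneg (adm_inj ht) (by
    intro g
    rcases hcov _ _ _ (row_coprime g) rfl with h | ⟨x, hx, h⟩
    · left
      apply sim_symm
      rw [sim_iff, (row_R g).1, (row_R g).2]
      exact h
    · right
      exact ⟨x, hx, sim_iff.2 h⟩) h1
  refine ⟨F, hF, ?_⟩
  intro i hi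
  obtain ⟨k, hk, hek⟩ := hFe i hi
  rw [hek]
  have hB : (3 : ℤ) * p ≤ (p : ℤ) ^ (n - 1) := by
    have h2 : p ^ 2 ≤ p ^ (n - 1) := Nat.pow_le_pow_right hp.pos (by omega)
    have h3 : 3 * p ≤ p ^ (n - 1) := by nlinarith
    exact_mod_cast h3
  have hNB : ((p ^ n : ℕ) : ℤ) = (p : ℤ) * (p : ℤ) ^ (n - 1) := by
    push_cast
    rw [← pow_succ']
    congr 1
    omega
  have hB1 : (1 : ℤ) ≤ (p : ℤ) ^ (n - 1) := by
    have : (3 : ℤ) ≤ p := by exact_mod_cast hp3
    linarith
  refine (lv_bound _ t 1 ?_ ?_ ?_ k hk).2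
  · rw [one10]; linarith
  · rw [one11]; exact hB1
  · intro y hy
    obtain ⟨hy1, hy2⟩ := rows_pos t 1 (by simp) (by simp) y (Or.inl hy)
    exact good_bound (by exact_mod_cast hp3) hB hNB hy1 hy2 (row_coprime y) (ht.1 y hy).1

end R319F
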