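import Pool.Agent.R319.WB5

set_option autoImplicit false

/-! # The integrated pair count -/

namespace Pool.Agent.R319.WB

open MeasureTheory Set Filter Topology
open H370 (Zf mult mem_Zf good_zeta NN NN_eq)
open Pool.Agent.TH850.UV (cnt cnt_eq NS mS mS_nonneg cnt_crude nv2)

lemma J_le {A B h x y : ℝ} : J A B h x y ≤ max 0 (h - |x - y|) := by
  unfold J
  apply max_le_max le_rfl
  have h1 : min (min x y) B ≤ min x y := min_le_left _ _
  have h2 := le_max_left (max x y - h) A
  have h3 : max x y - min x y = |x - y| := by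
    rw [max_sub_min_eq_abs']
  linarith

lemma J_ge {A B h x y : ℝ} (hh : 0 ≤ h) (hx : x ≤ B) (_hA : A ≤ x) (_hA' : A ≤ y) :
    max 0 (h - |x - y|) - h * ((if x ≤ A + h then 1 else 0) * (if y ≤ A + h then 1 else 0)) ≤
      J A B h x y := by
  have h3 : max x y - min x y = |x - y| := by
    rw [max_sub_min_eq_abs']
  by_cases h1 : x ≤ A + h ∧ y ≤ A + h
  · rw [if_pos h1.1, if_pos h1.2]
    have h4 : max 0 (h - |x - y|) ≤ h := max_le hh (by linarith [abs_nonneg (x - y)])
    have := J_nonneg A B h x y
    linarith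
  · have h5 : A + h < max x y := by
      by_contra h6
      push Not at h6
      exact h1 ⟨(le_max_left _ _).trans h6, (le_max_right _ _).trans h6⟩
    have h6 : max (max x y - h) A = max x y - h := max_eq_left (by linarith)
    have h7 : min (min x y) B = min x y := min_eq_left ((min_le_left _ _).trans hx)
    have h8 : J A B h x y = max 0 (h - |x - y|) := by
      unfold J
      rw [h6, h7, ← h3]
      congr 1
      ring
    rw [h8]
    have h9 : 0 ≤ h * ((if x ≤ A + h then (1 : ℝ) else 0) * (if y ≤ A + h then 1 else 0)) := by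
      apply mul_nonneg hh
      split_ifs <;> norm_num
    linarith

/-- the sum of the tents against the integral -/
theorem W_tent {A T h : ℝ} (hA : 1 ≤ A) (hAT : A ≤ T) (hh : 0 < h) (hT : 1 ≤ T - h) :
    |W T (fun x => max 0 (h - |x|)) - Q A T h| ≤
      h * (∑ s ∈ ZT (A + h), mS s) ^ 2 + h * nn A (A + h) ^ 2 +
      h * nn (T - h) (T + h) ^ 2 := by
  set f : ℝ → ℝ := fun x => max 0 (1 - |x| / h) with hf
  have hf1 : ∀ x, max 0 (h - |x|) = h * f x := by
    intro x
    simp only [hf]
    rw [mul_max_of_nonneg _ _ hh.le, mul_zero]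
    congr 1
    field_simp
  have hW : W T (fun x => max 0 (h - |x|)) = h * W T f := by
    unfold W
    rw [Finset.mul_sum]
    refine Finset.sum_congr rfl fun s _ => ?_
    rw [Finset.mul_sum]
    refine Finset.sum_congr rfl fun s' _ => ?_
    show mS s * mS s' * max 0 (h - |s.im - s'.im|) = h * (mS s * mS s' * f (s.im - s'.im))
    rw [hf1]
    ring
  obtain ⟨c1, c2⟩ := W_cut (A := A) (T := T) (h := h) hA hh.le f (fun x => le_max_left _ _)
    (fun x => max_le zero_le_one (by
      have : 0 ≤ |x| / h := by positivity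
      linarith)) (fun x hx => by
      simp only [hf]
      apply max_eq_left
      have : 1 < |x| / h := by rw [one_lt_div hh]; exact hx
      linarith)
  set D := ∑ s ∈ Zz A T, ∑ s' ∈ Zz A T, mS s * mS s' * f (s.im - s'.im) with hD
  have hQ : Q A T h = ∑ s ∈ Zz A (T + h), ∑ s' ∈ Zz A (T + h), mS s * mS s' *
      J A T h s.im s'.im := (int_sq (h := h) hA hAT (le_refl (T + h))).2
  -- lower bound of `Q`
  have hlow : h * D - h * nn A (A + h) ^ 2 ≤ Q A T h := by
    rw [hQ]
    have h1 : ∑ s ∈ Zz A T, ∑ s' ∈ Zz A T, mS s * mS s' * J A T h s.im s'.im ≤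
        ∑ s ∈ Zz A (T + h), ∑ s' ∈ Zz A (T + h), mS s * mS s' * J A T h s.im s'.im :=
      dsum_subset (Zz_subset hA le_rfl (by linarith)) _ fun s _ s' _ =>
        mul_nonneg (mul_nonneg (mS_nonneg s) (mS_nonneg s')) (J_nonneg _ _ _ _ _)
    have h2 : ∑ s ∈ Zz A T, ∑ s' ∈ Zz A T, mS s * mS s' *
        ((if s.im ≤ A + h then (1 : ℝ) else 0) * (if s'.im ≤ A + h then 1 else 0)) ≤
        nn A (A + h) ^ 2 := by
      rw [dsum_mul (Zz A T) (fun s => if s.im ≤ A + h then (1 : ℝ) else 0)]
      apply pow_le_pow_left₀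
      · refine Finset.sum_nonneg fun s _ => mul_nonneg (mS_nonneg s) ?_
        split_ifs <;> norm_num
      · have h3 := sum_ind_le (A := A) (B := T) (a := A) (b := A + h) hA hA
        refine le_trans (le_of_eq ?_) h3
        refine Finset.sum_congr rfl fun s hs => ?_
        rw [mem_Zz hA] at hs
        congr 1
        by_cases h4 : s.im ≤ A + h
        · rw [if_pos h4, if_pos ⟨hs.2.2.1, h4⟩]
        · rw [if_neg h4, if_neg (fun h5 => h4 h5.2)]
    have h3 : h * D - h * (∑ s ∈ Zz A T, ∑ s' ∈ Zz A T, mS s * mS s' *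
        ((if s.im ≤ A + h then (1 : ℝ) else 0) * (if s'.im ≤ A + h then 1 else 0))) ≤
        ∑ s ∈ Zz A T, ∑ s' ∈ Zz A T, mS s * mS s' * J A T h s.im s'.im := by
      rw [hD, Finset.mul_sum, Finset.mul_sum, ← Finset.sum_sub_distrib]
      refine Finset.sum_le_sum fun s hs => ?_
      rw [Finset.mul_sum, Finset.mul_sum, ← Finset.sum_sub_distrib]
      refine Finset.sum_le_sum fun s' hs' => ?_
      rw [mem_Zz hA] at hs hs'
      have h4 := J_ge (A := A) (B := T) hh.le hs.2.2.2.1 hs.2.2.1.le hs'.2.2.1.le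
      rw [hf1] at h4
      have h5 := mul_le_mul_of_nonneg_left h4 (mul_nonneg (mS_nonneg s) (mS_nonneg s'))
      linarith
    have h4 := mul_le_mul_of_nonneg_left h2 hh.le
    linarith
  -- upper bound of `Q`
  have hup : Q A T h ≤ h * D + h * nn (T - h) (T + h) ^ 2 := by
    rw [hQ]
    set S' := Zz A (T + h) with hS'
    have h1 : ∑ s ∈ S', ∑ s' ∈ S', mS s * mS s' * J A T h s.im s'.im ≤
        h * (∑ s ∈ S', ∑ s' ∈ S', mS s * mS s' *
          (if s.im ≤ T ∧ s'.im ≤ T then f (s.im - s'.im) else 0)) +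
        h * ∑ s ∈ S', ∑ s' ∈ S', mS s * mS s' *
          ((if T - h < s.im ∧ s.im ≤ T + h then 1 else 0) *
          (if T - h < s'.im ∧ s'.im ≤ T + h then 1 else 0)) := by
      rw [Finset.mul_sum, Finset.mul_sum, ← Finset.sum_add_distrib]
      refine Finset.sum_le_sum fun s hs => ?_
      rw [Finset.mul_sum, Finset.mul_sum, ← Finset.sum_add_distrib]
      refine Finset.sum_le_sum fun s' hs' => ?_
      rw [hS', mem_Zz hA] at hs hs'
      have hm : 0 ≤ mS s * mS s' := mul_nonneg (mS_nonneg s) (mS_nonneg s')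
      have h2 : J A T h s.im s'.im ≤ h * (if s.im ≤ T ∧ s'.im ≤ T then f (s.im - s'.im) else 0) +
          h * ((if T - h < s.im ∧ s.im ≤ T + h then 1 else 0) *
          (if T - h < s'.im ∧ s'.im ≤ T + h then 1 else 0)) := by
        have h3 := J_le (A := A) (B := T) (h := h) (x := s.im) (y := s'.im)
        by_cases h4 : s.im ≤ T ∧ s'.im ≤ T
        · rw [if_pos h4, ← hf1]
          have : 0 ≤ h * ((if T - h < s.im ∧ s.im ≤ T + h then (1 : ℝ) else 0) *
              (if T - h < s'.im ∧ s'.im ≤ T + h then 1 else 0)) := by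
            apply mul_nonneg hh.le
            split_ifs <;> norm_num
          linarith
        · rw [if_neg h4, mul_zero, zero_add]
          by_cases h5 : h ≤ |s.im - s'.im|
          · have h6 : max 0 (h - |s.im - s'.im|) = 0 := max_eq_left (by linarith)
            rw [h6] at h3
            have : 0 ≤ h * ((if T - h < s.im ∧ s.im ≤ T + h then (1 : ℝ) else 0) *
                (if T - h < s'.im ∧ s'.im ≤ T + h then 1 else 0)) := by
              apply mul_nonneg hh.le
              split_ifs <;> norm_num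
            linarith
          · push Not at h5
            rw [abs_lt] at h5
            have h6 : T - h < s.im ∧ T - h < s'.im := by
              by_cases h7 : s.im ≤ T
              · have h8 : T < s'.im := by
                  by_contra h9
                  push Not at h9
                  exact h4 ⟨h7, h9⟩
                exact ⟨by linarith, by linarith⟩
              · push Not at h7
                exact ⟨by linarith, by linarith⟩
            rw [if_pos ⟨h6.1, hs.2.2.2.1⟩, if_pos ⟨h6.2, hs'.2.2.2.1⟩]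
            have h8 : max 0 (h - |s.im - s'.im|) ≤ h :=
              max_le hh.le (by linarith [abs_nonneg (s.im - s'.im)])
            linarith
      have h3 := mul_le_mul_of_nonneg_left h2 hm
      linarith
    have h2 : ∑ s ∈ S', ∑ s' ∈ S', mS s * mS s' *
          (if s.im ≤ T ∧ s'.im ≤ T then f (s.im - s'.im) else 0) = D := by
      have hsub : Zz A T ⊆ S' := Zz_subset hA le_rfl (by linarith)
      rw [dsum_eq hsub]
      · refine Finset.sum_congr rfl fun s hs => Finset.sum_congr rfl fun s' hs' => ?_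
        rw [mem_Zz hA] at hs hs'
        rw [if_pos ⟨hs.2.2.2.1, hs'.2.2.2.1⟩]
      · intro s hs s' hs' hne
        rw [hS', mem_Zz hA] at hs hs'
        have h7 : s.im ≤ T ∧ s'.im ≤ T := by
          by_contra h8
          rw [if_neg h8, mul_zero] at hne
          exact hne rfl
        rw [mem_Zz hA, mem_Zz hA]
        exact ⟨⟨hs.1, hs.2.1, hs.2.2.1, h7.1, hs.2.2.2.2⟩,
          hs'.1, hs'.2.1, hs'.2.2.1, h7.2, hs'.2.2.2.2⟩
    have h3 : ∑ s ∈ S', ∑ s' ∈ S', mS s * mS s' *
          ((if T - h < s.im ∧ s.im ≤ T + h then (1 : ℝ) else 0) *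
          (if T - h < s'.im ∧ s'.im ≤ T + h then 1 else 0)) ≤ nn (T - h) (T + h) ^ 2 := by
      rw [dsum_mul S' (fun s => if T - h < s.im ∧ s.im ≤ T + h then (1 : ℝ) else 0)]
      apply pow_le_pow_left₀
      · refine Finset.sum_nonneg fun s _ => mul_nonneg (mS_nonneg s) ?_
        split_ifs <;> norm_num
      · exact sum_ind_le hA hT
    rw [h2] at h1
    have h4 := mul_le_mul_of_nonneg_left h3 hh.le
    linarith
  rw [hW]
  have c1' := mul_le_mul_of_nonneg_left c1 hh.le
  have c2' := mul_le_mul_of_nonneg_left c2 hh.le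
  rw [mul_add] at c2'
  have n1 : 0 ≤ h * nn A (A + h) ^ 2 := by positivity
  have n2 : 0 ≤ h * nn (T - h) (T + h) ^ 2 := by positivity
  have n3 : 0 ≤ h * (∑ s ∈ ZT (A + h), mS s) ^ 2 := by positivity
  rw [abs_le]
  constructor <;> linarith

end Pool.Agent.R319.WB
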