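import Mathlib
import Pool.Agent.Helper7.OT.Sinc

set_option autoImplicit false

/-! # The integrated pair correlation kernel -/

namespace Pool.Agent.R319.WB

open MeasureTheory Set Filter Topology

/-- the square of the sinc kernel -/
noncomputable def sq (u : ℝ) : ℝ := Real.sinc (Real.pi * u) ^ 2

lemma sq_cont : Continuous sq := by
  unfold sq
  exact (Real.continuous_sinc.comp (continuous_const.mul continuous_id)).pow 2

lemma sq_nonneg' (u : ℝ) : 0 ≤ sq u := sq_nonneg _

lemma sq_le_one (u : ℝ) : sq u ≤ 1 := by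
  unfold sq
  have h := Real.abs_sinc_le_one (Real.pi * u)
  rw [← sq_abs]
  exact pow_le_one₀ (abs_nonneg _) h

lemma sq_even (u : ℝ) : sq (-u) = sq u := by
  unfold sq
  rw [mul_neg, Real.sinc_neg]

lemma sq_eq {u : ℝ} (hu : u ≠ 0) : sq u = (Real.sin (Real.pi * u) / (Real.pi * u)) ^ 2 := by
  unfold sq
  rw [Real.sinc_of_ne_zero (by positivity)]

lemma sq_le {u : ℝ} (hu : 0 < u) : sq u ≤ (1 / Real.pi ^ 2) * (1 / u ^ 2) := by
  have hpi := Real.pi_pos
  rw [sq_eq hu.ne', div_pow]
  have h3 : Real.sin (Real.pi * u) ^ 2 ≤ 1 := Real.sin_sq_le_one _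
  calc Real.sin (Real.pi * u) ^ 2 / (Real.pi * u) ^ 2 ≤ 1 / (Real.pi * u) ^ 2 := by gcongr
    _ = _ := by rw [mul_pow]; field_simp

lemma sq_int : Integrable sq := Pool.Agent.Helper7.Simplex.OT.J26884.sinc_fourier_int

lemma sq_total : ∫ u in Ioi (0 : ℝ), sq u = 1 / 2 := by
  have h1 : ∫ t : ℝ, sq t = 1 := by
    have := (Pool.Agent.Helper7.Simplex.OT.J26884.sinc_fourier 0).2
    unfold sq
    simpa using this
  have h := integral_comp_abs (f := sq)
  have h' : ∀ t : ℝ, sq |t| = sq t := by
    intro t
    rcases abs_choice t with ht | ht <;> rw [ht]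
    rw [sq_even]
  simp_rw [h'] at h
  rw [h1] at h
  linarith

/-- the distribution function -/
noncomputable def sg (b : ℝ) : ℝ := ∫ u in (0 : ℝ)..b, sq u

lemma inv_sq_int {a b : ℝ} (ha : 0 < a) (hab : a ≤ b) : ∫ u in a..b, 1 / u ^ 2 = 1 / a - 1 / b := by
  have h : ∀ u ∈ uIcc a b, HasDerivAt (fun u : ℝ => -(1 / u)) (1 / u ^ 2) u := by
    intro u hu
    rw [uIcc_of_le hab] at hu
    have hu0 : u ≠ 0 := by linarith [hu.1]
    have h0 := (hasDerivAt_inv hu0).neg
    refine (h0.congr_deriv (by field_simp)).congr_of_eventuallyEq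
      (Eventually.of_forall fun x => by simp)
  rw [intervalIntegral.integral_eq_sub_of_hasDerivAt h]
  · ring
  · apply ContinuousOn.intervalIntegrable
    rw [uIcc_of_le hab]
    apply ContinuousOn.div continuousOn_const (by fun_prop)
    intro u hu
    have : 0 < u := by linarith [hu.1]
    positivity

lemma sg_bound {b : ℝ} (hb : 0 < b) : |b * sg b - b / 2| ≤ 1 := by
  have hpi := Real.pi_pos
  have hpi3 := Real.pi_gt_three
  have hi : ∀ x y : ℝ, IntervalIntegrable sq volume x y := fun x y => sq_cont.intervalIntegrable _ _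
  -- the tail
  have h1 : Tendsto (fun Y : ℝ => ∫ u in (0 : ℝ)..Y, sq u) atTop (𝓝 (1 / 2)) := by
    have := intervalIntegral_tendsto_integral_Ioi (0 : ℝ) (sq_int.integrableOn (s := Ioi (0 : ℝ)))
      (tendsto_id (α := ℝ) (x := atTop))
    rw [sq_total] at this
    exact this
  have h2 : ∀ᶠ Y : ℝ in atTop, ∫ u in (0 : ℝ)..Y, sq u ≤ sg b + 1 / b := by
    filter_upwards [eventually_ge_atTop b] with Y hY
    unfold sg
    rw [← intervalIntegral.integral_add_adjacent_intervals (hi 0 b) (hi b Y)]
    have h3 : ∫ u in b..Y, sq u ≤ ∫ u in b..Y, 1 / u ^ 2 := by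
      refine intervalIntegral.integral_mono_on hY (hi b Y) ?_ fun u hu => ?_
      · apply ContinuousOn.intervalIntegrable
        rw [uIcc_of_le hY]
        apply ContinuousOn.div continuousOn_const (by fun_prop)
        intro u hu
        have : 0 < u := by linarith [hu.1]
        positivity
      · have hu0 : 0 < u := by linarith [hu.1]
        refine (sq_le hu0).trans ?_
        have : 1 / Real.pi ^ 2 ≤ 1 := by
          rw [div_le_one (by positivity)]
          nlinarith
        calc 1 / Real.pi ^ 2 * (1 / u ^ 2) ≤ 1 * (1 / u ^ 2) := by gcongr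
          _ = _ := one_mul _
    rw [inv_sq_int hb hY] at h3
    have : 0 ≤ 1 / Y := by
      have : 0 < Y := by linarith
      positivity
    linarith
  have h3 : 1 / 2 ≤ sg b + 1 / b := le_of_tendsto h1 h2
  have h4 : sg b ≤ 1 / 2 := by
    refine ge_of_tendsto h1 ?_
    filter_upwards [eventually_ge_atTop b] with Y hY
    unfold sg
    rw [← intervalIntegral.integral_add_adjacent_intervals (hi 0 b) (hi b Y)]
    have : 0 ≤ ∫ u in b..Y, sq u := intervalIntegral.integral_nonneg hY fun u _ => sq_nonneg' u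
    linarith
  have h5 : b * (1 / 2) ≤ b * (sg b + 1 / b) := mul_le_mul_of_nonneg_left h3 hb.le
  have h6 : b * (1 / b) = 1 := by field_simp
  have h7 : b * sg b ≤ b * (1 / 2) := mul_le_mul_of_nonneg_left h4 hb.le
  rw [mul_add, h6] at h5
  rw [abs_le]
  constructor <;> linarith

/-- the first moment of the kernel -/
noncomputable def kk (a : ℝ) : ℝ := ∫ u in (0 : ℝ)..a, u * sq u

lemma int_sg (a : ℝ) : ∫ b in (0 : ℝ)..a, sg b = a * sg a - kk a := by
  have hd : ∀ b : ℝ, HasDerivAt sg (sq b) b := fun b =>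
    intervalIntegral.integral_hasDerivAt_right (sq_cont.intervalIntegrable _ _)
      (sq_cont.stronglyMeasurableAtFilter _ _) sq_cont.continuousAt
  have hc2 : Continuous (fun u : ℝ => u * sq u) := continuous_id.mul sq_cont
  have hd2 : ∀ b : ℝ, HasDerivAt kk (b * sq b) b := fun b =>
    intervalIntegral.integral_hasDerivAt_right (hc2.intervalIntegrable _ _)
      (hc2.stronglyMeasurableAtFilter _ _) hc2.continuousAt
  have h : ∀ b ∈ uIcc 0 a, HasDerivAt (fun b => b * sg b - kk b) (sg b) b := by
    intro b _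
    refine HasDerivAt.congr_deriv (f' := 1 * sg b + b * sq b - b * sq b) ?_ (by ring)
    exact ((hasDerivAt_id b).mul (hd b)).sub (hd2 b)
  have hcs : Continuous sg := by
    rw [continuous_iff_continuousAt]
    exact fun b => (hd b).continuousAt
  rw [intervalIntegral.integral_eq_sub_of_hasDerivAt h (hcs.intervalIntegrable _ _)]
  have e1 : kk 0 = 0 := by unfold kk; simp
  rw [e1]
  ring

lemma kk_bound : ∀ a : ℝ, 0 < a → |kk a - 1 / (2 * Real.pi ^ 2) * Real.log (1 + a)| ≤ 3 := by
  intro a ha
  have hpi := Real.pi_pos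
  have hpi3 := Real.pi_gt_three
  have hc2 : Continuous (fun u : ℝ => u * sq u) := continuous_id.mul sq_cont
  have hi : ∀ x y : ℝ, IntervalIntegrable (fun u : ℝ => u * sq u) volume x y :=
    fun x y => hc2.intervalIntegrable _ _
  have hq : 1 / (2 * Real.pi ^ 2) ≤ 1 := by
    rw [div_le_one (by positivity)]
    nlinarith
  have hq0 : 0 < 1 / (2 * Real.pi ^ 2) := by positivity
  have hsmall : ∀ x : ℝ, 0 ≤ x → x ≤ 1 → 0 ≤ kk x ∧ kk x ≤ 1 := by
    intro x hx0 hx1
    unfold kk
    constructor
    · exact intervalIntegral.integral_nonneg hx0 fun u hu => mul_nonneg hu.1 (sq_nonneg' u)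
    · have := intervalIntegral.integral_mono_on (g := fun _ => (1 : ℝ)) hx0 (hi 0 x)
        (continuous_const.intervalIntegrable _ _) fun u hu => by
          have h1 := sq_le_one u
          have h2 := sq_nonneg' u
          have h3 : u ≤ 1 := hu.2.trans hx1
          nlinarith [hu.1]
      rw [intervalIntegral.integral_const, smul_eq_mul, mul_one, sub_zero] at this
      linarith
  have hlog2 : Real.log 2 ≤ 1 := by
    have := Real.log_le_sub_one_of_pos (show (0 : ℝ) < 2 by norm_num)
    linarith
  rcases le_total a 1 with h1 | h1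
  · obtain ⟨h2, h3⟩ := hsmall a ha.le h1
    have h4 : Real.log (1 + a) ≤ 1 := by
      have := Real.log_le_log (show 0 < 1 + a by linarith) (show 1 + a ≤ 2 by linarith)
      linarith
    have h5 : 0 ≤ Real.log (1 + a) := Real.log_nonneg (by linarith)
    have h6 : 1 / (2 * Real.pi ^ 2) * Real.log (1 + a) ≤ 1 * 1 :=
      mul_le_mul hq h4 h5 zero_le_one
    have h7 : 0 ≤ 1 / (2 * Real.pi ^ 2) * Real.log (1 + a) := by positivity
    rw [abs_le]
    constructor <;> linarith
  · have hsplit : kk a = kk 1 + ∫ u in (1 : ℝ)..a, u * sq u := by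
      unfold kk
      rw [intervalIntegral.integral_add_adjacent_intervals (hi 0 1) (hi 1 a)]
    have hder : ∀ u ∈ uIcc 1 a, HasDerivAt (fun u : ℝ => 1 / (2 * Real.pi ^ 2) *
        (Real.log u - Real.sin (2 * Real.pi * u) / (2 * Real.pi * u)))
        (u * sq u + 1 / (2 * Real.pi ^ 2) * (Real.sin (2 * Real.pi * u) / (2 * Real.pi) * (1 / u ^ 2)))
        u := by
      intro u hu
      rw [uIcc_of_le h1] at hu
      have hu0 : 0 < u := by linarith [hu.1]
      have d1 := Real.hasDerivAt_log hu0.ne'
      have d2 : HasDerivAt (fun u : ℝ => 2 * Real.pi * u) (2 * Real.pi) u := by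
        simpa using (hasDerivAt_id u).const_mul (2 * Real.pi)
      have d3 := d2.sin
      have d4 := d3.div d2 (by positivity : 2 * Real.pi * u ≠ 0)
      have d5 := (d1.sub d4).const_mul (1 / (2 * Real.pi ^ 2))
      refine d5.congr_deriv ?_
      rw [sq_eq hu0.ne']
      have e1 : Real.cos (2 * Real.pi * u) = 1 - 2 * Real.sin (Real.pi * u) ^ 2 := by
        rw [mul_assoc, Real.cos_two_mul, Real.cos_sq']
        ring
      rw [e1]
      field_simp
      ring
    have hcon : ContinuousOn (fun u : ℝ => u * sq u + 1 / (2 * Real.pi ^ 2) *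
        (Real.sin (2 * Real.pi * u) / (2 * Real.pi) * (1 / u ^ 2))) (uIcc 1 a) := by
      rw [uIcc_of_le h1]
      apply ContinuousOn.add hc2.continuousOn
      apply ContinuousOn.mul continuousOn_const
      apply ContinuousOn.mul (by fun_prop)
      apply ContinuousOn.div continuousOn_const (by fun_prop)
      intro u hu
      have : 0 < u := by linarith [hu.1]
      positivity
    have hcon2 : ContinuousOn (fun u : ℝ => 1 / (2 * Real.pi ^ 2) *
        (Real.sin (2 * Real.pi * u) / (2 * Real.pi) * (1 / u ^ 2))) (uIcc 1 a) := by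
      rw [uIcc_of_le h1]
      apply ContinuousOn.mul continuousOn_const
      apply ContinuousOn.mul (by fun_prop)
      apply ContinuousOn.div continuousOn_const (by fun_prop)
      intro u hu
      have : 0 < u := by linarith [hu.1]
      positivity
    have hint := intervalIntegral.integral_eq_sub_of_hasDerivAt hder hcon.intervalIntegrable
    rw [intervalIntegral.integral_add (hi 1 a) hcon2.intervalIntegrable] at hint
    have hsin : ∀ x : ℝ, |Real.sin x| ≤ 1 := Real.abs_sin_le_one
    have hrem : |∫ u in (1 : ℝ)..a, 1 / (2 * Real.pi ^ 2) *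
        (Real.sin (2 * Real.pi * u) / (2 * Real.pi) * (1 / u ^ 2))| ≤ 1 / 10 := by
      have h5 : ∀ u ∈ Icc 1 a, |1 / (2 * Real.pi ^ 2) *
          (Real.sin (2 * Real.pi * u) / (2 * Real.pi) * (1 / u ^ 2))| ≤ 1 / 10 * (1 / u ^ 2) := by
        intro u hu
        have hu0 : 0 < u := by linarith [hu.1]
        rw [abs_mul, abs_mul, abs_of_pos hq0, abs_div (Real.sin _),
          abs_of_pos (by positivity : 0 < 2 * Real.pi),
          abs_of_pos (by positivity : 0 < 1 / u ^ 2), ← mul_assoc]
        apply mul_le_mul_of_nonneg_right _ (by positivity)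
        calc 1 / (2 * Real.pi ^ 2) * (|Real.sin (2 * Real.pi * u)| / (2 * Real.pi)) ≤
            1 / (2 * Real.pi ^ 2) * (1 / (2 * Real.pi)) := by gcongr; exact hsin _
          _ ≤ 1 / (2 * 3 ^ 2) * (1 / (2 * 3)) := by gcongr
          _ ≤ 1 / 10 := by norm_num
      have h6 : IntervalIntegrable (fun u : ℝ => 1 / 10 * (1 / u ^ 2)) volume 1 a := by
        apply ContinuousOn.intervalIntegrable
        rw [uIcc_of_le h1]
        apply ContinuousOn.mul continuousOn_const
        apply ContinuousOn.div continuousOn_const (by fun_prop)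
        intro u hu
        have : 0 < u := by linarith [hu.1]
        positivity
      refine (intervalIntegral.abs_integral_le_integral_abs h1).trans ?_
      refine (intervalIntegral.integral_mono_on h1 hcon2.intervalIntegrable.abs h6 h5).trans ?_
      rw [intervalIntegral.integral_const_mul, inv_sq_int one_pos h1]
      have : 0 ≤ 1 / a := by positivity
      linarith
    have hb1 : ∀ u : ℝ, 1 ≤ u → |Real.sin (2 * Real.pi * u) / (2 * Real.pi * u)| ≤ 1 / 6 := by
      intro u hu
      rw [abs_div, abs_of_pos (by positivity : 0 < 2 * Real.pi * u)]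
      calc |Real.sin (2 * Real.pi * u)| / (2 * Real.pi * u) ≤ 1 / (2 * Real.pi * u) := by
            gcongr; exact hsin _
        _ ≤ 1 / (2 * 3 * 1) := by gcongr
        _ ≤ 1 / 6 := by norm_num
    obtain ⟨k1, k2⟩ := hsmall 1 zero_le_one le_rfl
    have b1 := abs_le.1 (hb1 a h1)
    have b2 := abs_le.1 (hb1 1 le_rfl)
    have b3 := abs_le.1 hrem
    have h7 : 0 ≤ Real.log (1 + a) - Real.log a := by
      have := Real.log_le_log ha (show a ≤ 1 + a by linarith)
      linarith
    have h8 : Real.log (1 + a) - Real.log a ≤ 1 := by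
      rw [← Real.log_div (by linarith) ha.ne']
      have h9 := Real.log_le_sub_one_of_pos (show 0 < (1 + a) / a by positivity)
      have h10 : (1 + a) / a - 1 = 1 / a := by field_simp; ring
      have h11 : 1 / a ≤ 1 := by rw [div_le_one ha]; exact h1
      linarith
    rw [Real.log_one, zero_sub] at hint
    set q := 1 / (2 * Real.pi ^ 2) with hqd
    set x1 := Real.sin (2 * Real.pi * a) / (2 * Real.pi * a) with hx1
    set x2 := Real.sin (2 * Real.pi * 1) / (2 * Real.pi * 1) with hx2
    have m1 : q * |x1| ≤ 1 / 6 := by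
      have := hb1 a h1
      nlinarith [abs_nonneg x1]
    have m2 : q * |x2| ≤ 1 / 6 := by
      have := hb1 1 le_rfl
      nlinarith [abs_nonneg x2]
    have m3 : |q * x1| ≤ 1 / 6 := by rw [abs_mul, abs_of_pos hq0]; exact m1
    have m4 : |q * x2| ≤ 1 / 6 := by rw [abs_mul, abs_of_pos hq0]; exact m2
    have m5 := abs_le.1 m3
    have m6 := abs_le.1 m4
    have m7 : 0 ≤ q * (Real.log (1 + a) - Real.log a) := mul_nonneg hq0.le h7
    have m8 : q * (Real.log (1 + a) - Real.log a) ≤ 1 := by nlinarith
    rw [hsplit, abs_le]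
    constructor
    · nlinarith only [hint, m5.1, m5.2, m6.1, m6.2, m7, m8, b3.1, b3.2, k1, k2]
    · nlinarith only [hint, m5.1, m5.2, m6.1, m6.2, m7, m8, b3.1, b3.2, k1, k2]

/-- the integrated conjectural value -/
theorem kernel_int {a : ℝ} (ha : 0 < a) :
    |(∫ b in (0 : ℝ)..a, (1 + 2 * ∫ u in (0 : ℝ)..b,
      (1 - (Real.sin (Real.pi * u) / (Real.pi * u)) ^ 2))) -
      (a ^ 2 + 1 / Real.pi ^ 2 * Real.log (1 + a))| ≤ 8 := by
  have hpi := Real.pi_pos
  have h1 : ∀ b : ℝ, ∫ u in (0 : ℝ)..b, (1 - (Real.sin (Real.pi * u) / (Real.pi * u)) ^ 2) =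
      b - sg b := by
    intro b
    have e1 : ∫ u in (0 : ℝ)..b, (1 - (Real.sin (Real.pi * u) / (Real.pi * u)) ^ 2) =
        ∫ u in (0 : ℝ)..b, (1 - sq u) := by
      apply intervalIntegral.integral_congr_ae
      have : ∀ᵐ u : ℝ, u ≠ 0 := by
        rw [ae_iff]
        simp
      filter_upwards [this] with u hu _
      rw [sq_eq hu]
    rw [e1, intervalIntegral.integral_sub (by simp) (sq_cont.intervalIntegrable _ _),
      intervalIntegral.integral_const, smul_eq_mul, mul_one, sub_zero]
    rfl
  simp_rw [h1]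
  have hcs : Continuous sg := by
    rw [continuous_iff_continuousAt]
    exact fun b => (intervalIntegral.integral_hasDerivAt_right (sq_cont.intervalIntegrable _ _)
      (sq_cont.stronglyMeasurableAtFilter _ _) sq_cont.continuousAt).continuousAt
  have h2 : ∫ b in (0 : ℝ)..a, (1 + 2 * (b - sg b)) = a + a ^ 2 - 2 * (a * sg a - kk a) := by
    have e2 : ∀ b : ℝ, 1 + 2 * (b - sg b) = (1 + 2 * b) - 2 * sg b := fun b => by ring
    simp_rw [e2]
    rw [intervalIntegral.integral_sub (by apply Continuous.intervalIntegrable; fun_prop)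
      ((hcs.intervalIntegrable _ _).const_mul 2), intervalIntegral.integral_const_mul,
      int_sg, intervalIntegral.integral_add (by simp)
        (by apply Continuous.intervalIntegrable; fun_prop),
      intervalIntegral.integral_const_mul, integral_id, intervalIntegral.integral_const, smul_eq_mul]
    ring
  rw [h2]
  have h3 := abs_le.1 (sg_bound ha)
  have h4 := abs_le.1 (kk_bound a ha)
  have e3 : 1 / Real.pi ^ 2 * Real.log (1 + a) =
      2 * (1 / (2 * Real.pi ^ 2) * Real.log (1 + a)) := by field_simp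
  rw [e3, abs_le]
  constructor <;> linarith

end Pool.Agent.R319.WB
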