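import Pool.Agent.R319.WI
import Pool.Agent.R319.WI2
import Pool.Agent.R319.WK

set_option autoImplicit false

/-! # The integrated pair count, final form -/

namespace Pool.Agent.R319.WB

open MeasureTheory Set Filter Topology
open H370 (Zf mult mem_Zf good_zeta NN NN_eq)
open Pool.Agent.TH850.UV (cnt cnt_eq NS mS mS_nonneg cnt_crude nv2)

lemma step_eq {u : ℝ} (hu : 0 < u) (x : ℝ) : (fun c : ℝ => if |x| ≤ c * u then (1 : ℝ) else 0) =
    (Ici (|x| / u)).indicator (fun _ => (1 : ℝ)) := by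
  funext c
  by_cases h : |x| ≤ c * u
  · rw [if_pos h, indicator_of_mem]
    rw [mem_Ici, div_le_iff₀ hu]
    exact h
  · rw [if_neg h, indicator_of_notMem]
    rw [mem_Ici, div_le_iff₀ hu]
    exact h

lemma step_ii {u : ℝ} (hu : 0 < u) (x a : ℝ) :
    IntervalIntegrable (fun c : ℝ => if |x| ≤ c * u then (1 : ℝ) else 0) volume 0 a := by
  rw [step_eq hu, intervalIntegrable_iff]
  rw [IntegrableOn]
  refine Integrable.indicator ?_ measurableSet_Ici
  exact (integrableOn_const (by simp))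

lemma step_int {u a : ℝ} (hu : 0 < u) (ha : 0 ≤ a) (x : ℝ) :
    ∫ c in (0 : ℝ)..a, (if |x| ≤ c * u then (1 : ℝ) else 0) = max 0 (a - |x| / u) := by
  rw [step_eq hu, intervalIntegral.integral_of_le ha, integral_indicator measurableSet_Ici,
    Measure.restrict_restrict measurableSet_Ici, integral_const, smul_eq_mul, mul_one]
  rw [measureReal_restrict_apply_univ]
  have h2 : (Ici (|x| / u) ∩ Ioc 0 a : Set ℝ) =ᵐ[volume] (Ioi (|x| / u) ∩ Ioc 0 a : Set ℝ) :=
    Ioi_ae_eq_Ici.symm.inter (ae_eq_refl _)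
  have h3 : (Ioi (|x| / u) ∩ Ioc 0 a : Set ℝ) = Ioc (|x| / u) a := by
    ext c
    simp only [mem_inter_iff, mem_Ioi, mem_Ioc]
    constructor
    · rintro ⟨h4, h5, h6⟩
      exact ⟨h4, h6⟩
    · rintro ⟨h4, h5⟩
      exact ⟨h4, lt_of_le_of_lt (by positivity) h4, h5⟩
  rw [measureReal_congr h2, h3, Real.volume_real_Ioc, max_comm]

/-- the integral of the pair count is the sum of the tents -/
lemma W_int {T u a : ℝ} (hu : 0 < u) (ha : 0 ≤ a) :
    ∫ c in (0 : ℝ)..a, W T (fun x => if |x| ≤ c * u then 1 else 0) =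
      1 / u * W T (fun x => max 0 (a * u - |x|)) := by
  unfold W
  rw [intervalIntegral.integral_finset_sum]
  · rw [Finset.mul_sum]
    refine Finset.sum_congr rfl fun s _ => ?_
    rw [intervalIntegral.integral_finset_sum]
    · rw [Finset.mul_sum]
      refine Finset.sum_congr rfl fun s' _ => ?_
      rw [intervalIntegral.integral_const_mul, step_int hu ha]
      have e : max 0 (a - |s.im - s'.im| / u) = 1 / u * max 0 (a * u - |s.im - s'.im|) := by
        rw [mul_max_of_nonneg _ _ (by positivity), mul_zero]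
        congr 1
        field_simp
      rw [e]
      ring
    · intro s' _
      exact (step_ii hu _ a).const_mul _
  · intro s _
    have := IntervalIntegrable.sum (μ := volume) (a := 0) (b := a) (ZT T)
      (f := fun s' c => mS s * mS s' * (if |s.im - s'.im| ≤ c * u then (1 : ℝ) else 0))
      (fun s' _ => (step_ii hu _ a).const_mul _)
    refine this.congr fun c _ => ?_
    simp

theorem mainI : ∃ C T0 : ℝ, 0 < C ∧ 10 ≤ T0 ∧ ∀ T : ℝ, T0 ≤ T → ∀ a : ℝ, 0 < a →
    a ^ 2 ≤ Real.log T →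
    |(∫ c in (0 : ℝ)..a, W T (fun x => if |x| ≤ c * (2 * Real.pi / Real.log T) then 1 else 0)) -
      T * Real.log T / (2 * Real.pi) * (∫ b in (0 : ℝ)..a, (1 + 2 * ∫ u in (0 : ℝ)..b,
      (1 - (Real.sin (Real.pi * u) / (Real.pi * u)) ^ 2)))| ≤ C * (T * Real.log T) := by
  obtain ⟨C, V0, hC, hV0, htot⟩ := totalI
  obtain ⟨C2, hC2, hloc⟩ := nn_loc
  obtain ⟨T3, hT3⟩ := (Real.tendsto_log_atTop.eventually_ge_atTop (4 * Real.pi ^ 2)).exists_forall_of_atTop
  have hpi := Real.pi_pos
  have hpi3 := Real.pi_gt_three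
  set N0 := ∑ s ∈ ZT (2 * V0 + 8), mS s with hN0
  have hN00 : 0 ≤ N0 := Finset.sum_nonneg fun s _ => mS_nonneg s
  refine ⟨C + 2 * N0 ^ 2 + 4 * C2 ^ 2 + 8, max V0 T3, by positivity, hV0.trans (le_max_left _ _),
    fun T hT a ha haT => ?_⟩
  have hTV : V0 ≤ T := (le_max_left _ _).trans hT
  have hT10 : 10 ≤ T := hV0.trans hTV
  have hT0 : 0 < T := by linarith
  have hL0 : 0 < Real.log T := Real.log_pos (by linarith)
  have hL1 : 1 ≤ Real.log T := by
    rw [Real.le_log_iff_exp_le hT0]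
    linarith [Real.exp_one_lt_d9]
  have hL3 : 4 * Real.pi ^ 2 ≤ Real.log T := hT3 T ((le_max_right _ _).trans hT)
  obtain ⟨A, hA1, hA2, hAT, htA⟩ := htot T hTV
  have hA : 1 ≤ A := by linarith
  have hlsq := H370.log_sq_le (x := T) (by linarith)
  set L := Real.log T with hL
  set u := 2 * Real.pi / L with hu
  have hu0 : 0 < u := by positivity
  have haL : a ≤ L := by
    rcases le_total a 1 with h | h
    · linarith
    · nlinarith
  have hau : a * u ≤ 1 := by
    rw [hu, mul_div_assoc', div_le_one hL0]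
    have h3 : (a * (2 * Real.pi)) ^ 2 ≤ L ^ 2 := by
      calc (a * (2 * Real.pi)) ^ 2 = 4 * Real.pi ^ 2 * a ^ 2 := by ring
        _ ≤ L * L := mul_le_mul hL3 haT (sq_nonneg _) hL0.le
        _ = L ^ 2 := by ring
    exact (abs_le_of_sq_le_sq' h3 hL0.le).2
  have hau0 : 0 < a * u := by positivity
  have h1 := htA a ha haT
  have e1 : 2 * Real.pi * a / L = a * u := by rw [hu]; ring
  rw [e1] at h1
  have h2 := W_tent (A := A) (T := T) (h := a * u) hA hAT hau0 (by linarith)
  have h3 : nn A (A + a * u) ≤ N0 := by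
    refine Finset.sum_le_sum_of_subset_of_nonneg ?_ fun s _ _ => mS_nonneg s
    intro s hs
    rw [mem_Zz hA] at hs
    rw [mem_ZT]
    exact ⟨hs.1, hs.2.1, by linarith [hs.2.2.1], by linarith [hs.2.2.2.1], hs.2.2.2.2⟩
  have h4 : nn A (A + a * u) ^ 2 ≤ N0 ^ 2 := pow_le_pow_left₀ (nn_nonneg _ _) h3 2
  have h5 : (∑ s ∈ ZT (A + a * u), mS s) ^ 2 ≤ N0 ^ 2 := by
    apply pow_le_pow_left₀ (Finset.sum_nonneg fun s _ => mS_nonneg s)
    exact Finset.sum_le_sum_of_subset_of_nonneg (ZT_mono (by linarith)) fun s _ _ => mS_nonneg s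
  have h6 : nn (T - a * u) (T + a * u) ≤ C2 * L := hloc T hT10 _ _ (by linarith) (by linarith)
    (by linarith) (by linarith)
  have h7 : nn (T - a * u) (T + a * u) ^ 2 ≤ (C2 * L) ^ 2 := pow_le_pow_left₀ (nn_nonneg _ _) h6 2
  rw [W_int hu0 ha.le]
  set X := W T (fun x => max 0 (a * u - |x|)) with hX
  set M := a ^ 2 + 1 / Real.pi ^ 2 * Real.log (1 + a) with hM
  have h8 : |X - M * T| ≤ C * T + (a * u) * (2 * N0 ^ 2 + (C2 * L) ^ 2) := by
    have e2 : X - M * T = (X - Q A T (a * u)) + (Q A T (a * u) - M * T) := by ring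
    rw [e2]
    refine (abs_add_le _ _).trans ?_
    have g1 := mul_le_mul_of_nonneg_left h4 hau0.le
    have g2 := mul_le_mul_of_nonneg_left h5 hau0.le
    have g3 := mul_le_mul_of_nonneg_left h7 hau0.le
    linarith
  have h9 : |1 / u * X - L / (2 * Real.pi) * (M * T)| ≤
      C * (T * L) + 2 * N0 ^ 2 * (T * L) + 4 * C2 ^ 2 * (T * L) := by
    have e3 : 1 / u * X - L / (2 * Real.pi) * (M * T) = 1 / u * (X - M * T) := by
      rw [hu]; field_simp
    rw [e3, abs_mul, abs_of_pos (by positivity)]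
    refine (mul_le_mul_of_nonneg_left h8 (by positivity)).trans ?_
    rw [mul_add]
    have g1 : 1 / u * (C * T) ≤ C * (T * L) := by
      have e4 : 1 / u * (C * T) = C * (T * L) / (2 * Real.pi) := by rw [hu]; field_simp
      rw [e4]
      apply div_le_self (by positivity)
      linarith
    have g2 : 1 / u * (a * u * (2 * N0 ^ 2 + (C2 * L) ^ 2)) ≤
        2 * N0 ^ 2 * (T * L) + 4 * C2 ^ 2 * (T * L) := by
      have e4 : 1 / u * (a * u * (2 * N0 ^ 2 + (C2 * L) ^ 2)) =
          2 * N0 ^ 2 * a + C2 ^ 2 * (a * L ^ 2) := by field_simp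
      rw [e4]
      have g3 : a ≤ T * L := by nlinarith
      have g4 : a * L ^ 2 ≤ 4 * (T * L) := by
        calc a * L ^ 2 ≤ L * (4 * T) := mul_le_mul haL hlsq (sq_nonneg _) hL0.le
          _ = _ := by ring
      have g5 := mul_le_mul_of_nonneg_left g3 (show 0 ≤ 2 * N0 ^ 2 by positivity)
      have g6 := mul_le_mul_of_nonneg_left g4 (show 0 ≤ C2 ^ 2 by positivity)
      linarith
    linarith
  have h10 := kernel_int ha
  rw [← hM] at h10
  set I := ∫ b in (0 : ℝ)..a, (1 + 2 * ∫ u in (0 : ℝ)..b,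
      (1 - (Real.sin (Real.pi * u) / (Real.pi * u)) ^ 2)) with hI
  have h11 : |T * L / (2 * Real.pi) * (I - M)| ≤ 8 * (T * L) := by
    rw [abs_mul, abs_of_pos (by positivity)]
    calc T * L / (2 * Real.pi) * |I - M| ≤ T * L / (2 * Real.pi) * 8 :=
          mul_le_mul_of_nonneg_left h10 (by positivity)
      _ ≤ T * L * 8 := by
          apply mul_le_mul_of_nonneg_right _ (by norm_num)
          exact div_le_self (by positivity) (by linarith)
      _ = _ := by ring
  have e5 : 1 / u * X - T * L / (2 * Real.pi) * I =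
      (1 / u * X - L / (2 * Real.pi) * (M * T)) - T * L / (2 * Real.pi) * (I - M) := by ring
  rw [e5]
  refine (abs_sub _ _).trans ?_
  linarith

/-- the positive ordinates are bounded away from zero -/
lemma ord_gap : ∃ δ : ℝ, 0 < δ ∧ ∀ s : ℂ, riemannZeta s = 0 → 0 < s.re → s.re < 1 → 0 < s.im →
    δ ≤ s.im := by
  classical
  rcases (ZT 1).eq_empty_or_nonempty with h | h
  · refine ⟨1, one_pos, fun s h1 h2 h3 h4 => ?_⟩
    by_contra h5
    push Not at h5
    have : s ∈ ZT 1 := by rw [mem_ZT]; exact ⟨h2, h3, h4, h5.le, h1⟩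
    rw [h] at this
    exact absurd this (Finset.notMem_empty s)
  · obtain ⟨s0, hs0, hmin⟩ := (ZT 1).exists_min_image (fun s => s.im) h
    have h0 := (mem_ZT.1 hs0).2.2.1
    refine ⟨min s0.im 1, lt_min h0 one_pos, fun s h1 h2 h3 h4 => ?_⟩
    rcases le_total s.im 1 with h5 | h5
    · have : s ∈ ZT 1 := by rw [mem_ZT]; exact ⟨h2, h3, h4, h5, h1⟩
      exact (min_le_left _ _).trans (hmin s this)
    · exact (min_le_right _ _).trans h5

end Pool.Agent.R319.WB
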