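import Pool.Agent.Y749.Rig.Fin
import Pool.Agent.R319.WI3

set_option autoImplicit false

/-! # One-sided far windows and the pair correlation conjecture, with the mass at zero -/

namespace Pool.Agent.R319.RG

open MeasureTheory Set Filter Topology
open Pool.Agent.Y749.Rig
open H370 (Zf mult good_zeta mem_Zf NN zset)

lemma mG_zero {a : ℝ} (ha : 0 < a) : mG.real (Icc (-a) a) ≤ 1 + 2 * a := by
  have h1 : mG (Icc (-a) a) ≤ ENNReal.ofReal (1 + 2 * a) := by
    rw [mG_apply, ENNReal.ofReal_add zero_le_one (by positivity), ENNReal.ofReal_one]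
    apply add_le_add
    · by_cases h : (0 : ℝ) ∈ Icc (-a) a
      · rw [indicator_of_mem h]; simp
      · rw [indicator_of_notMem h]; simp
    · calc ∫⁻ x in Icc (-a) a, ENNReal.ofReal (FF x) ≤ ∫⁻ x in Icc (-a) a, 1 := by
            refine lintegral_mono fun x => ?_
            rw [← ENNReal.ofReal_one]
            exact ENNReal.ofReal_le_ofReal (FF_le_one x)
        _ = ENNReal.ofReal (2 * a) := by
            rw [setLIntegral_one, Real.volume_Icc]
            congr 1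
            ring
  unfold Measure.real
  calc (mG (Icc (-a) a)).toReal ≤ (ENNReal.ofReal (1 + 2 * a)).toReal :=
        ENNReal.toReal_mono ENNReal.ofReal_ne_top h1
    _ = 1 + 2 * a := ENNReal.toReal_ofReal (by positivity)

/-- the mass of the limit near zero -/
theorem rigid0 {M : ℝ → Measure ℝ} {C : ℝ} (hC : 2 ≤ C) (hM : ∀ᶠ T in atTop, Bdd C (M T))
    (hE : ∀ᶠ T in atTop, Ev (M T)) {κ : ℝ} (hκ : 0 < κ) (hκ1 : κ ≤ 1)
    (ht : ∀ ψ, Adm κ ψ → Tendsto (fun T => ∫ x, fl ψ x ∂(M T)) atTop (𝓝 (cc ψ)))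
    {C' c : ℝ} (hC' : 0 ≤ C') (hc : 0 < c)
    (ho : (∀ α β : ℝ, 0 < α → α < β → ∀ ε : ℝ, 0 < ε → ∀ᶠ T in atTop,
      (M T).real (Icc α β) ≤ (∫ x in α..β, FF x) + C' * Real.exp (-(c * α)) + ε) ∨
      (∀ α β : ℝ, 0 < α → α < β → ∀ ε : ℝ, 0 < ε → ∀ᶠ T in atTop,
      (∫ x in α..β, FF x) - C' * Real.exp (-(c * α)) - ε ≤ (M T).real (Icc α β))) :
    ∀ α : ℝ, 0 < α → ∀ ε : ℝ, 0 < ε → ∀ᶠ T in atTop, (M T).real (Icc (-α) α) ≤ 1 + 2 * α + ε := by
  intro α hα ε hε
  by_contra hcon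
  obtain ⟨U, hU, hUn⟩ : ∃ U : Ultrafilter ℝ, (U : Filter ℝ) ≤ atTop ∧
      ∀ᶠ T in (U : Filter ℝ), ¬ ((M T).real (Icc (-α) α) ≤ 1 + 2 * α + ε) := by
    have hfr : ∃ᶠ T in atTop, ¬ ((M T).real (Icc (-α) α) ≤ 1 + 2 * α + ε) := by
      rwa [Filter.not_eventually] at hcon
    have hne : NeBot (atTop ⊓ 𝓟 {T : ℝ | ¬ ((M T).real (Icc (-α) α) ≤ 1 + 2 * α + ε)}) :=
      Filter.frequently_mem_iff_neBot.1 hfr
    have hle := Ultrafilter.of_le (atTop ⊓ 𝓟 {T : ℝ | ¬ ((M T).real (Icc (-α) α) ≤ 1 + 2 * α + ε)})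
    exact ⟨Ultrafilter.of (atTop ⊓ 𝓟 {T : ℝ | ¬ ((M T).real (Icc (-α) α) ≤ 1 + 2 * α + ε)}),
      hle.trans inf_le_left, (hle.trans inf_le_right) (mem_principal_self _)⟩
  have hC0 : 0 ≤ C := by linarith
  obtain ⟨μ, hsf, hμ⟩ := exists_limit hC0 hM U hU
  have b1 := bdd_limit hU hC0 hM hμ
  have e1 := ev_limit hU hE hμ
  have hsfG := mG_sf
  have b2 : Bdd (4 * C) mG := fun a => (mG_bdd a).trans (ENNReal.ofReal_le_ofReal (by linarith))
  have htest : ∀ ψ, Adm κ ψ → ∫ x, fl ψ x ∂μ = ∫ x, fl ψ x ∂mG := by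
    intro ψ hψ
    rw [mG_test hψ hκ1]
    exact tendsto_nhds_unique (hμ _ (fl_cont hψ.int) (fl_qd hψ)).2 ((ht ψ hψ).mono_left hU)
  have hup : ∀ a b δ L : ℝ, 0 < δ → (∀ ε : ℝ, 0 < ε → ∀ᶠ T in atTop,
      (M T).real (Icc (a - δ) (b + δ)) ≤ L + ε) → μ.real (Icc a b) ≤ L := by
    intro a b δ L hδ hL
    refine (tz_lower (by linarith) b1 hδ a b).trans ?_
    refine le_of_forall_pos_le_add fun ε hε => ?_
    refine le_of_tendsto (hμ _ (tz_cont a b δ) (tz_qd hδ a b)).2 ?_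
    filter_upwards [hU (hL ε hε), hU hM] with T h1 h2
    exact (tz_upper hC0 h2 hδ a b).trans h1
  have hlo : ∀ a b δ L : ℝ, 0 < δ → (∀ ε : ℝ, 0 < ε → ∀ᶠ T in atTop,
      L - ε ≤ (M T).real (Icc (a + δ) (b - δ))) → L ≤ μ.real (Icc a b) := by
    intro a b δ L hδ hL
    have h0 := tz_upper (by linarith) b1 hδ (a + δ) (b - δ)
    rw [add_sub_cancel_right, sub_add_cancel] at h0
    refine le_trans ?_ h0
    refine le_of_forall_sub_le fun ε hε => ?_
    refine ge_of_tendsto (hμ _ (tz_cont (a + δ) (b - δ) δ) (tz_qd hδ (a + δ) (b - δ))).2 ?_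
    filter_upwards [hU (hL ε hε), hU hM] with T h1 h2
    exact h1.trans (tz_lower hC0 h2 hδ _ _)
  have hwin : (∀ b : ℝ, 0 < b → ∀ᵐ x : ℝ, wf μ b x = wf mG b x) := by
    rcases ho with ho | ho
    · intro b hb
      refine rig2 (by linarith) b1 b2 e1 mG_ev hκ htest hC' hc ?_ hb
      intro a b' ha hab
      rw [mG_real ha hab]
      have h1 : ∀ δ : ℝ, δ ∈ Ioo 0 a → μ.real (Icc a b') ≤ (∫ x in a..b', FF x) + 2 * δ +
          C' * Real.exp (-(c * (a - δ))) := by
        intro δ hδ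
        refine hup a b' δ _ hδ.1 fun ε hε => ?_
        filter_upwards [ho (a - δ) (b' + δ) (by linarith [hδ.2]) (by linarith [hδ.1]) ε hε] with T hT
        have := FF_diff hδ.1.le hab
        linarith
      have h2 : Tendsto (fun δ : ℝ => (∫ x in a..b', FF x) + 2 * δ +
          C' * Real.exp (-(c * (a - δ)))) (𝓝[>] 0) (𝓝 ((∫ x in a..b', FF x) + 2 * 0 +
          C' * Real.exp (-(c * (a - 0))))) := by
        refine Tendsto.mono_left ?_ nhdsWithin_le_nhds
        refine Continuous.tendsto (f := fun δ : ℝ => (∫ x in a..b', FF x) + 2 * δ +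
          C' * Real.exp (-(c * (a - δ)))) (by fun_prop) 0
      have h3 := ge_of_tendsto h2 (by
        filter_upwards [Ioo_mem_nhdsGT ha] with δ hδ using h1 δ hδ)
      rw [sub_zero] at h3
      linarith
    · intro b hb
      have := rig2 (by linarith) b2 b1 mG_ev e1 hκ (fun ψ hψ => (htest ψ hψ).symm) hC' hc ?_ hb
      · filter_upwards [this] with x hx using hx.symm
      intro a b' ha hab
      rcases hab.eq_or_lt with hab | hab
      · subst hab
        rw [mG_real ha le_rfl, intervalIntegral.integral_same]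
        have : 0 ≤ μ.real (Icc a a) := measureReal_nonneg
        have : 0 ≤ C' * Real.exp (-(c * a)) := by positivity
        linarith
      rw [mG_real ha hab.le]
      have h1 : ∀ δ : ℝ, δ ∈ Ioo 0 ((b' - a) / 2) → (∫ x in a..b', FF x) - 2 * δ -
          C' * Real.exp (-(c * (a + δ))) ≤ μ.real (Icc a b') := by
        intro δ hδ
        refine hlo a b' δ _ hδ.1 fun ε hε => ?_
        filter_upwards [ho (a + δ) (b' - δ) (by linarith [hδ.1]) (by linarith [hδ.2]) ε hε] with T hT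
        have := FF_diff hδ.1.le (show a + δ ≤ b' - δ by linarith [hδ.2])
        rw [add_sub_cancel_right, sub_add_cancel] at this
        linarith
      have h2 : Tendsto (fun δ : ℝ => (∫ x in a..b', FF x) - 2 * δ -
          C' * Real.exp (-(c * (a + δ)))) (𝓝[>] 0) (𝓝 ((∫ x in a..b', FF x) - 2 * 0 -
          C' * Real.exp (-(c * (a + 0))))) := by
        refine Tendsto.mono_left ?_ nhdsWithin_le_nhds
        refine Continuous.tendsto (f := fun δ : ℝ => (∫ x in a..b', FF x) - 2 * δ -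
          C' * Real.exp (-(c * (a + δ)))) (by fun_prop) 0
      have h3 := le_of_tendsto h2 (by
        filter_upwards [Ioo_mem_nhdsGT (show 0 < (b' - a) / 2 by linarith)] with δ hδ using h1 δ hδ)
      rw [add_zero] at h3
      linarith
  -- conclusion
  have hδ0 : 0 < ε / 8 := by positivity
  have u1 : ∫ x, tz (-α) α (ε / 8) x ∂μ ≤ 1 + 2 * (α + 2 * (ε / 8)) := by
    have s1 := tz_upper (by linarith) b1 hδ0 (-α) α
    have s2 := win_le b1 b2 hwin (α := -α - ε / 8) (β := α + ε / 8) hδ0 (by linarith)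
    have e3 : -α - ε / 8 - ε / 8 = -(α + 2 * (ε / 8)) := by ring
    have e4 : α + ε / 8 + ε / 8 = α + 2 * (ε / 8) := by ring
    rw [e3, e4] at s2
    have s3 := mG_zero (a := α + 2 * (ε / 8)) (by positivity)
    linarith
  have t1 := (hμ _ (tz_cont (-α) α (ε / 8)) (tz_qd hδ0 (-α) α)).2
  have h5 : ∀ᶠ T in (U : Filter ℝ), (M T).real (Icc (-α) α) ≤ 1 + 2 * α + ε := by
    filter_upwards [hU hM, t1.eventually (eventually_lt_nhds (show ∫ x, tz (-α) α (ε / 8) x ∂μ <
      1 + 2 * α + ε by linarith))] with T h1 h2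
    exact (tz_lower hC0 h1 hδ0 (-α) α).trans h2.le
  obtain ⟨T, hT1, hT2⟩ := (h5.and hUn).exists
  exact hT2 hT1

end Pool.Agent.R319.RG
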