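import Pool.Agent.R319.RG

set_option autoImplicit false

/-! # The pair measures near zero -/

namespace Pool.Agent.R319.RG

open MeasureTheory Set Filter Topology
open Pool.Agent.Y749.Rig
open H370 (Zf mult good_zeta mem_Zf NN zset)
open Pool.Agent.R319.WB (nn nn_eq nn_add nn_block nn_nonneg mem_Zz Zz ord_gap mem_ZT ZT)

/-- lower bound for the number of zeros in a long range -/
lemma nn_blocks (K : ℕ) : ∃ C V0 : ℝ, 0 < C ∧ 10 ≤ V0 ∧ ∀ V : ℝ, V0 ≤ V →
    (2 ^ K - 1) * V * Real.log V / (2 * Real.pi) - C * V ≤ nn V (2 ^ K * V) := by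
  induction K with
  | zero =>
    refine ⟨1, 10, one_pos, le_rfl, fun V hV => ?_⟩
    have h1 := nn_nonneg V (2 ^ 0 * V)
    simp only [pow_zero, sub_self, zero_mul, zero_div, one_mul] at h1 ⊢
    linarith
  | succ K ih =>
    obtain ⟨C, V0, hC, hV0, h⟩ := ih
    obtain ⟨C1, V1, hC1, hV1, h1⟩ := nn_block
    refine ⟨C + C1 * 2 ^ K, max V0 V1, by positivity, hV0.trans (le_max_left _ _), fun V hV => ?_⟩
    have hVa : V0 ≤ V := (le_max_left _ _).trans hV
    have hVb : V1 ≤ V := (le_max_right _ _).trans hV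
    have hV10 : 10 ≤ V := hV0.trans hVa
    have h2K : (1 : ℝ) ≤ 2 ^ K := one_le_pow₀ (by norm_num)
    have hVK : V ≤ 2 ^ K * V := by nlinarith
    have h2 := h V hVa
    have h3 := (abs_le.1 (h1 (2 ^ K * V) (hVb.trans hVK))).1
    have e1 : 2 * (2 ^ K * V) = 2 ^ (K + 1) * V := by rw [pow_succ]; ring
    rw [e1] at h3
    rw [nn_add (a := V) (b := 2 ^ K * V) (c := 2 ^ (K + 1) * V) (by linarith) hVK (by
      rw [← e1]; nlinarith)]
    have h4 : Real.log V ≤ Real.log (2 ^ K * V) := Real.log_le_log (by linarith) hVK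
    have hpi := Real.pi_pos
    have h5 : 2 ^ K * V * Real.log V / (2 * Real.pi) ≤
        2 ^ K * V * Real.log (2 ^ K * V) / (2 * Real.pi) := by
      apply div_le_div_of_nonneg_right _ (by positivity)
      exact mul_le_mul_of_nonneg_left h4 (by positivity)
    have e2 : (2 ^ (K + 1) - 1) * V * Real.log V / (2 * Real.pi) =
        (2 ^ K - 1) * V * Real.log V / (2 * Real.pi) + 2 ^ K * V * Real.log V / (2 * Real.pi) := by
      rw [pow_succ]; ring
    rw [e2]
    linarith

/-- almost all the expected number of zeros -/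
lemma nn_lower (ε : ℝ) (hε : 0 < ε) : ∀ᶠ T : ℝ in atTop,
    (1 - ε) * nT T ≤ ∑ s ∈ ZZ T, mm s := by
  obtain ⟨K, hK⟩ : ∃ K : ℕ, (1 / 2 : ℝ) ^ K < ε / 2 :=
    exists_pow_lt_of_lt_one (by positivity) (by norm_num)
  obtain ⟨C, V0, hC, hV0, h⟩ := nn_blocks K
  have hpi := Real.pi_pos
  have h2K : (1 : ℝ) ≤ 2 ^ K := one_le_pow₀ (by norm_num)
  have h2K0 : (0 : ℝ) < 2 ^ K := by positivity
  filter_upwards [eventually_ge_atTop (2 ^ K * V0), eventually_ge_atTop 10,
    Real.tendsto_log_atTop.eventually_ge_atTop (2 * (K * 1 + 2 * Real.pi * C) / ε)] with T hT hT10 hTL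
  have hT0 : 0 < T := by linarith
  have hL : 0 < Real.log T := Real.log_pos (by linarith)
  set V := T / 2 ^ K with hV
  have hVV : V0 ≤ V := by
    rw [hV, le_div_iff₀ h2K0]; linarith
  have e1 : 2 ^ K * V = T := by rw [hV]; field_simp
  have h1 := h V hVV
  rw [e1] at h1
  have hVT : V ≤ T := div_le_self hT0.le h2K
  have h2 : nn V T ≤ ∑ s ∈ ZZ T, mm s := by
    unfold WB.nn
    have hsub : Zz V T ⊆ ZZ T := by
      intro s hs
      rw [mem_Zz (by linarith)] at hs
      rw [mem_ZZ]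
      exact ⟨hs.2.2.2.2, hs.1, hs.2.1, by linarith [hs.2.2.1], hs.2.2.2.1⟩
    exact Finset.sum_le_sum_of_subset_of_nonneg hsub fun s _ _ => mm_nonneg s
  refine le_trans ?_ h2
  refine le_trans ?_ h1
  have hlog2 : Real.log 2 ≤ 1 := by
    have := Real.log_le_sub_one_of_pos (show (0 : ℝ) < 2 by norm_num)
    linarith
  have hlV : Real.log V = Real.log T - K * Real.log 2 := by
    rw [hV, Real.log_div (by linarith) (by positivity), Real.log_pow]
  have e2 : (2 ^ K - 1) * V = (1 - (1 / 2) ^ K) * T := by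
    rw [hV, one_div, inv_pow]; field_simp
  have h3 : (1 / 2 : ℝ) ^ K ≤ 1 := pow_le_one₀ (by norm_num) (by norm_num)
  have h4 : K * Real.log 2 ≤ K * 1 := mul_le_mul_of_nonneg_left hlog2 (Nat.cast_nonneg _)
  have h5 : 2 * (K * 1 + 2 * Real.pi * C) ≤ ε * Real.log T := by
    rw [div_le_iff₀ hε] at hTL
    linarith
  rw [e2, hlV]
  unfold nT
  have hK0 : (0 : ℝ) ≤ K := Nat.cast_nonneg _
  have h6 : (1 - (1 / 2 : ℝ) ^ K) * (K * Real.log 2) ≤ K * 1 := by
    have : 0 ≤ K * Real.log 2 := mul_nonneg hK0 (Real.log_nonneg (by norm_num))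
    nlinarith [pow_pos (show (0 : ℝ) < 1 / 2 by norm_num) K]
  have h7 : (1 - ε) * Real.log T ≤ (1 - (1 / 2 : ℝ) ^ K) * (Real.log T - K * Real.log 2) -
      2 * Real.pi * C := by nlinarith
  have h8 : (1 - ε) * (T * Real.log T / (2 * Real.pi)) =
      (1 - ε) * Real.log T * (T / (2 * Real.pi)) := by ring
  have h9 : (1 - (1 / 2 : ℝ) ^ K) * T * (Real.log T - K * Real.log 2) / (2 * Real.pi) - C * V ≥
      ((1 - (1 / 2 : ℝ) ^ K) * (Real.log T - K * Real.log 2) - 2 * Real.pi * C) *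
        (T / (2 * Real.pi)) := by
    have e3 : ((1 - (1 / 2 : ℝ) ^ K) * (Real.log T - K * Real.log 2) - 2 * Real.pi * C) *
        (T / (2 * Real.pi)) =
        (1 - (1 / 2 : ℝ) ^ K) * T * (Real.log T - K * Real.log 2) / (2 * Real.pi) - C * T := by
      field_simp
    rw [e3]
    have := mul_le_mul_of_nonneg_left hVT hC.le
    linarith
  rw [h8]
  refine le_trans ?_ h9
  exact mul_le_mul_of_nonneg_right h7 (by positivity)

/-- the mass at zero -/
lemma Mp_point {ε : ℝ} (hε : 0 < ε) : ∀ᶠ T : ℝ in atTop, 1 - ε ≤ (Mp T).real {0} := by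
  filter_upwards [nn_lower ε hε, eventually_ge_atTop 10] with T hT hT10
  have hn := nT_pos hT10
  rw [Mp_real hT10 (measurableSet_singleton 0), le_div_iff₀ hn]
  refine hT.trans ?_
  unfold RR
  refine Finset.sum_le_sum fun s hs => ?_
  have h1 : mm s * mm s * ({0} : Set ℝ).indicator (fun _ => (1 : ℝ))
      ((s.im - s.im) * Real.log T / (2 * Real.pi)) ≤
      ∑ s' ∈ ZZ T, mm s * mm s' * ({0} : Set ℝ).indicator (fun _ => (1 : ℝ))
      ((s.im - s'.im) * Real.log T / (2 * Real.pi)) := by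
    refine Finset.single_le_sum (f := fun s' => mm s * mm s' *
      ({0} : Set ℝ).indicator (fun _ => (1 : ℝ)) ((s.im - s'.im) * Real.log T / (2 * Real.pi)))
      (fun s' _ => ?_) hs
    apply mul_nonneg (mul_nonneg (mm_nonneg _) (mm_nonneg _))
    exact indicator_nonneg (fun _ _ => zero_le_one) _
  refine le_trans ?_ h1
  rw [sub_self, zero_mul, zero_div, indicator_of_mem (mem_singleton _), mul_one]
  have h2 : mm s = 0 ∨ 1 ≤ mm s := by
    unfold mm
    rcases Nat.eq_zero_or_pos (mult riemannZeta s) with h | h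
    · left; rw [h]; simp
    · right; exact_mod_cast h
  rcases h2 with h2 | h2
  · rw [h2]; simp
  · nlinarith

/-- symmetry -/
lemma Mp_sym {T : ℝ} (hT : 10 ≤ T) (a : ℝ) :
    (Mp T).real (Ico (-a) 0) = (Mp T).real (Ioc 0 a) := by
  rw [Mp_real hT measurableSet_Ico, Mp_real hT measurableSet_Ioc]
  congr 1
  unfold RR
  rw [Finset.sum_comm]
  refine Finset.sum_congr rfl fun s _ => Finset.sum_congr rfl fun s' _ => ?_
  have e : (s'.im - s.im) * Real.log T / (2 * Real.pi) =
      -((s.im - s'.im) * Real.log T / (2 * Real.pi)) := by ring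
  rw [e, mul_comm (mm s')]
  congr 1
  set x := (s.im - s'.im) * Real.log T / (2 * Real.pi)
  by_cases h : x ∈ Ioc 0 a
  · rw [indicator_of_mem h, indicator_of_mem]
    exact ⟨by linarith [h.2], by linarith [h.1]⟩
  · rw [indicator_of_notMem h, indicator_of_notMem]
    rintro ⟨h1, h2⟩
    exact h ⟨by linarith, by linarith⟩

lemma Mp_split {T : ℝ} (hT : 10 ≤ T) {a : ℝ} (ha : 0 < a) :
    (Mp T).real (Icc (-a) a) = (Mp T).real {0} + 2 * (Mp T).real (Ioc 0 a) := by
  have hfin := Mp_fin T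
  have e1 : Icc (-a) a = Ico (-a) 0 ∪ ({0} ∪ Ioc 0 a) := by
    ext x
    simp only [mem_Icc, mem_union, mem_Ico, mem_singleton_iff, mem_Ioc]
    constructor
    · rintro ⟨h1, h2⟩
      rcases lt_trichotomy x 0 with h | h | h
      · left; exact ⟨h1, h⟩
      · right; left; exact h
      · right; right; exact ⟨h, h2⟩
    · rintro (⟨h1, h2⟩ | h | ⟨h1, h2⟩)
      · exact ⟨h1, by linarith⟩
      · rw [h]; exact ⟨by linarith, by linarith⟩
      · exact ⟨by linarith, h2⟩
  have d1 : Disjoint (Ico (-a) 0) ({0} ∪ Ioc 0 a : Set ℝ) := by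
    rw [Set.disjoint_left]
    rintro x ⟨h1, h2⟩ (h3 | ⟨h3, h4⟩)
    · rw [mem_singleton_iff] at h3; linarith
    · linarith
  have d2 : Disjoint ({0} : Set ℝ) (Ioc 0 a) := by
    rw [Set.disjoint_left]
    rintro x h3 ⟨h1, h2⟩
    rw [mem_singleton_iff] at h3; linarith
  rw [e1, measureReal_union d1 ((measurableSet_singleton 0).union measurableSet_Ioc),
    measureReal_union d2 measurableSet_Ioc, Mp_sym hT]
  ring

/-- **the pair correlation conjecture from one-sided far windows, in terms of `Ioc 0 a`** -/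
theorem to_zero (hoff : ∀ η : ℝ, 0 < η → ∀ᶠ T : ℝ in atTop, NF T ≤ η * (T * Real.log T))
    {C' c : ℝ} (hC' : 0 ≤ C') (hc : 0 < c)
    (ho : (∀ α β : ℝ, 0 < α → α < β → ∀ ε : ℝ, 0 < ε → ∀ᶠ T in atTop,
      (Mp T).real (Icc α β) ≤ (∫ x in α..β, FF x) + C' * Real.exp (-(c * α)) + ε) ∨
      (∀ α β : ℝ, 0 < α → α < β → ∀ ε : ℝ, 0 < ε → ∀ᶠ T in atTop,
      (∫ x in α..β, FF x) - C' * Real.exp (-(c * α)) - ε ≤ (Mp T).real (Icc α β))) :
    ∀ a : ℝ, 0 < a → Tendsto (fun T => (Mp T).real (Ioc 0 a)) atTop (𝓝 (∫ x in (0 : ℝ)..a, FF x)) := by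
  obtain ⟨C, hC, hB⟩ := Mp_bdd
  obtain ⟨κ, hκ, hκ2, hblk⟩ := blk_main
  have hE : ∀ᶠ T in atTop, Ev (Mp T) := by
    filter_upwards [eventually_ge_atTop 10] with T hT using Mp_ev hT
  have hw := rigid hC hB hE hκ (by linarith) (fun ψ hψ => test_lim hψ (hblk ψ hψ hoff)) hC' hc ho
  have h0 := rigid0 hC hB hE hκ (by linarith) (fun ψ hψ => test_lim hψ (hblk ψ hψ hoff)) hC' hc ho
  intro a ha
  rw [Metric.tendsto_nhds]
  intro ε hε
  set α := min (a / 2) (ε / 8) with hα
  have hα0 : 0 < α := lt_min (by positivity) (by positivity)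
  have hα1 : α ≤ a / 2 := min_le_left _ _
  have hα2 : α ≤ ε / 8 := min_le_right _ _
  have hαa : α < a := by linarith
  have hw1 := (Metric.tendsto_nhds.1 (hw α a hα0 hαa)) (ε / 4) (by positivity)
  have hw2 := (Metric.tendsto_nhds.1 (hw (α / 2) a (by positivity) (by linarith))) (ε / 4)
    (by positivity)
  filter_upwards [hw1, hw2, h0 α hα0 (ε / 8) (by positivity), Mp_point (ε := ε / 8) (by positivity),
    eventually_ge_atTop 10] with T h1 h2 h3 h4 hT
  have hfin := Mp_fin T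
  rw [Mp_split hT hα0] at h3
  rw [Real.dist_eq, abs_lt] at h1 h2 ⊢
  -- the integral near zero
  have hI : ∀ x y : ℝ, 0 ≤ x → x ≤ y → 0 ≤ ∫ u in x..y, FF u ∧ ∫ u in x..y, FF u ≤ y - x := by
    intro x y _ hxy
    constructor
    · exact intervalIntegral.integral_nonneg hxy fun u _ => FF_nonneg u
    · have := intervalIntegral.integral_mono_on (g := fun _ => (1 : ℝ)) hxy (FF_ii x y)
        (continuous_const.intervalIntegrable _ _) fun u _ => FF_le_one u
      rw [intervalIntegral.integral_const, smul_eq_mul, mul_one] at this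
      exact this
  have s1 : ∫ u in (0 : ℝ)..a, FF u = (∫ u in (0 : ℝ)..α, FF u) + ∫ u in α..a, FF u := by
    rw [intervalIntegral.integral_add_adjacent_intervals (FF_ii _ _) (FF_ii _ _)]
  have i1 := hI 0 α le_rfl hα0.le
  -- the measure
  have m1 : (Mp T).real (Ioc 0 a) ≤ (Mp T).real (Ioc 0 α) + (Mp T).real (Icc α a) := by
    refine (measureReal_mono ?_).trans (measureReal_union_le _ _)
    intro x hx
    rcases le_total x α with h | h
    · left; exact ⟨hx.1, h⟩
    · right; exact ⟨h, hx.2⟩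
  have m2 : (Mp T).real (Icc α a) ≤ (Mp T).real (Ioc 0 a) :=
    measureReal_mono fun x hx => ⟨by linarith [hx.1], hx.2⟩
  constructor
  · linarith [h1.1]
  · linarith [h1.2]

end Pool.Agent.R319.RG
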