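import Mathlib

/-!
Trigonometric polynomials in several variables of degree less than `M` in each variable have the
same mean products over the torus and over the grid of the `M`-th roots of unity.
-/

open MvPolynomial Finset MeasureTheory

namespace Pool.Agent.R319.UM

noncomputable section

variable {N : ℕ}

/-- the box `(0, 2π]^N` -/
def box (N : ℕ) : Set (Fin N → ℝ) := Set.univ.pi fun _ => Set.Ioc 0 (2 * Real.pi)

/-- the point of the torus with given arguments -/
def ez (θ : Fin N → ℝ) : Fin N → ℂ := fun j => Complex.exp (Complex.I * θ j)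

/-- the point of the grid -/
def gz (M : ℕ) (k : Fin N → Fin M) : Fin N → ℂ := fun j =>
  Complex.exp (2 * Real.pi * Complex.I / M) ^ (k j : ℕ)

/-- the monomial product -/
def mon (a b : Fin N → ℕ) (z : Fin N → ℂ) : ℂ :=
  ∏ j, (z j ^ a j * (starRingEnd ℂ) (z j ^ b j))

lemma one_dim (a b : ℕ) :
    ∫ x in Set.Ioc (0 : ℝ) (2 * Real.pi), (Complex.exp (Complex.I * x) ^ a *
      (starRingEnd ℂ) (Complex.exp (Complex.I * x) ^ b)) =
      if a = b then (2 * Real.pi : ℂ) else 0 := by
  have h1 : ∀ x : ℝ, Complex.exp (Complex.I * x) ^ a *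
      (starRingEnd ℂ) (Complex.exp (Complex.I * x) ^ b) =
      Complex.exp ((Complex.I * ((a : ℂ) - b)) * x) := by
    intro x
    rw [map_pow, ← Complex.exp_conj, ← Complex.exp_nat_mul, ← Complex.exp_nat_mul,
      ← Complex.exp_add]
    congr 1
    simp only [map_mul, Complex.conj_I, Complex.conj_ofReal]
    ring
  simp only [h1]
  rw [← intervalIntegral.integral_of_le (by positivity)]
  by_cases hab : a = b
  · rw [if_pos hab, hab]
    simp
  · rw [if_neg hab]
    have hc : Complex.I * ((a : ℂ) - b) ≠ 0 := by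
      apply mul_ne_zero Complex.I_ne_zero
      rw [sub_ne_zero]
      exact_mod_cast hab
    rw [integral_exp_mul_complex hc]
    have h2 : Complex.exp (Complex.I * ((a : ℂ) - b) * ((2 * Real.pi : ℝ) : ℂ)) = 1 := by
      have : Complex.I * ((a : ℂ) - b) * ((2 * Real.pi : ℝ) : ℂ) =
          ((a : ℤ) - (b : ℤ) : ℤ) * (2 * Real.pi * Complex.I) := by
        push_cast
        ring
      rw [this, Complex.exp_int_mul_two_pi_mul_I]
    rw [h2]
    simp

lemma mon_int (a b : Fin N → ℕ) :
    ∫ θ in box N, mon a b (ez θ) = if a = b then (2 * Real.pi : ℂ) ^ N else 0 := by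
  unfold box mon ez
  rw [volume_pi, Measure.restrict_pi_pi]
  rw [integral_fintype_prod_eq_prod (𝕜 := ℂ) (fun j (x : ℝ) => Complex.exp (Complex.I * x) ^ a j *
      (starRingEnd ℂ) (Complex.exp (Complex.I * x) ^ b j))]
  simp only [one_dim]
  by_cases hab : a = b
  · rw [if_pos hab, hab]
    simp
  · rw [if_neg hab]
    obtain ⟨j, hj⟩ := Function.ne_iff.1 hab
    exact Finset.prod_eq_zero (Finset.mem_univ j) (if_neg hj)

lemma one_disc {M : ℕ} (hM : 0 < M) {a b : ℕ} (ha : a < M) (hb : b < M) :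
    ∑ k : Fin M, ((Complex.exp (2 * Real.pi * Complex.I / M) ^ (k : ℕ)) ^ a *
      (starRingEnd ℂ) ((Complex.exp (2 * Real.pi * Complex.I / M) ^ (k : ℕ)) ^ b)) =
      if a = b then (M : ℂ) else 0 := by
  set ζ := Complex.exp (2 * Real.pi * Complex.I / M) with hζ
  have hM0 : (M : ℂ) ≠ 0 := by exact_mod_cast hM.ne'
  have hn : ‖ζ‖ = 1 := by
    have : (2 * Real.pi * Complex.I / M : ℂ) = ((2 * Real.pi / M : ℝ) : ℂ) * Complex.I := by
      push_cast
      ring
    rw [hζ, this, Complex.norm_exp_ofReal_mul_I]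
  have hprim : IsPrimitiveRoot ζ M := Complex.isPrimitiveRoot_exp M hM.ne'
  have hz0 : ζ ≠ 0 := Complex.exp_ne_zero _
  have hconj : (starRingEnd ℂ) ζ = ζ⁻¹ := by
    rw [Complex.inv_def, Complex.normSq_eq_norm_sq, hn]
    simp
  set w := ζ ^ a * ζ⁻¹ ^ b with hw
  have h1 : ∀ k : ℕ, (ζ ^ k) ^ a * (starRingEnd ℂ) ((ζ ^ k) ^ b) = w ^ k := by
    intro k
    rw [map_pow, map_pow, hconj, hw, mul_pow, ← pow_mul, ← pow_mul, ← pow_mul, ← pow_mul,
      mul_comm k a, mul_comm k b]
  simp only [h1]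
  rw [Fin.sum_univ_eq_sum_range (fun k => w ^ k) M]
  by_cases hab : a = b
  · rw [if_pos hab]
    have : w = 1 := by
      rw [hw, hab, ← mul_pow, mul_inv_cancel₀ hz0, one_pow]
    rw [this]
    simp
  · rw [if_neg hab]
    have hw1 : w ≠ 1 := by
      intro h
      apply hab
      have h3 : ζ ^ a = ζ ^ b := by
        rw [hw, inv_pow] at h
        rwa [mul_inv_eq_one₀ (pow_ne_zero _ hz0)] at h
      exact hprim.pow_inj ha hb h3
    have hwM : w ^ M = 1 := by
      rw [hw, mul_pow, ← pow_mul, ← pow_mul, mul_comm a, mul_comm b, pow_mul, pow_mul, inv_pow,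
        hprim.pow_eq_one]
      simp
    have := geom_sum_mul w M
    rw [hwM, sub_self] at this
    exact (mul_eq_zero.1 this).resolve_right (sub_ne_zero.2 hw1)

lemma mon_disc {M : ℕ} (hM : 0 < M) {a b : Fin N → ℕ} (ha : ∀ j, a j < M) (hb : ∀ j, b j < M) :
    ∑ k : Fin N → Fin M, mon a b (gz M k) = if a = b then (M : ℂ) ^ N else 0 := by
  classical
  unfold mon gz
  have := Finset.prod_univ_sum (fun _ : Fin N => (Finset.univ : Finset (Fin M)))
    (fun j k => ((Complex.exp (2 * Real.pi * Complex.I / M) ^ (k : ℕ)) ^ a j *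
      (starRingEnd ℂ) ((Complex.exp (2 * Real.pi * Complex.I / M) ^ (k : ℕ)) ^ b j)))
  rw [Fintype.piFinset_univ] at this
  rw [← this]
  simp only [one_disc hM (ha _) (hb _)]
  by_cases hab : a = b
  · rw [if_pos hab, hab]
    simp
  · rw [if_neg hab]
    obtain ⟨j, hj⟩ := Function.ne_iff.1 hab
    exact Finset.prod_eq_zero (Finset.mem_univ j) (if_neg hj)

lemma mon_cont (a b : Fin N → ℕ) : Continuous fun θ : Fin N → ℝ => mon a b (ez θ) := by
  unfold mon ez
  refine continuous_finset_prod _ fun j _ => ?_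
  have h : Continuous fun θ : Fin N → ℝ => Complex.exp (Complex.I * (θ j : ℂ)) := by fun_prop
  exact (h.pow _).mul (Complex.continuous_conj.comp (h.pow _))

lemma int_box {f : (Fin N → ℝ) → ℂ} (hf : Continuous f) : IntegrableOn f (box N) := by
  have h : IntegrableOn f (Set.univ.pi fun _ : Fin N => Set.Icc (0 : ℝ) (2 * Real.pi)) :=
    hf.continuousOn.integrableOn_compact (isCompact_univ_pi fun _ => isCompact_Icc)
  exact h.mono_set (Set.pi_mono fun _ _ => Set.Ioc_subset_Icc_self)

lemma expand (P Q : MvPolynomial (Fin N) ℂ) (z : Fin N → ℂ) :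
    eval z P * (starRingEnd ℂ) (eval z Q) =
      ∑ d ∈ P.support, ∑ e ∈ Q.support, P.coeff d * (starRingEnd ℂ) (Q.coeff e) * mon d e z := by
  rw [MvPolynomial.eval_eq', MvPolynomial.eval_eq', map_sum, Finset.sum_mul_sum]
  refine Finset.sum_congr rfl fun d _ => Finset.sum_congr rfl fun e _ => ?_
  unfold mon
  rw [map_mul, map_prod, Finset.prod_mul_distrib]
  ring

/-- the mean over the torus is the mean over the grid -/
theorem torus_eq_grid {M : ℕ} (hM : 0 < M) (P Q : MvPolynomial (Fin N) ℂ)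
    (hP : ∀ j, P.degreeOf j < M) (hQ : ∀ j, Q.degreeOf j < M) :
    ((2 * Real.pi : ℂ) ^ N)⁻¹ * ∫ θ in box N, eval (ez θ) P * (starRingEnd ℂ) (eval (ez θ) Q) =
      ((M : ℂ) ^ N)⁻¹ * ∑ k : Fin N → Fin M, eval (gz M k) P * (starRingEnd ℂ) (eval (gz M k) Q) := by
  have hpi : ((2 * Real.pi : ℂ) ^ N) ≠ 0 := by
    apply pow_ne_zero
    have := Real.pi_pos
    exact_mod_cast (by positivity : (2 * Real.pi) ≠ 0)
  have hM0 : ((M : ℂ) ^ N) ≠ 0 := pow_ne_zero _ (by exact_mod_cast hM.ne')
  simp only [expand]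
  have e1 : ∫ θ in box N, ∑ d ∈ P.support, ∑ e ∈ Q.support,
      P.coeff d * (starRingEnd ℂ) (Q.coeff e) * mon d e (ez θ) =
      ∑ d ∈ P.support, ∑ e ∈ Q.support,
      P.coeff d * (starRingEnd ℂ) (Q.coeff e) * ∫ θ in box N, mon d e (ez θ) := by
    rw [integral_finset_sum]
    · refine Finset.sum_congr rfl fun d _ => ?_
      rw [integral_finset_sum]
      · refine Finset.sum_congr rfl fun e _ => ?_
        rw [integral_const_mul]
      · intro e _
        exact (int_box (mon_cont _ _)).const_mul _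
    · intro d _
      refine integrable_finset_sum _ fun e _ => ?_
      exact (int_box (mon_cont _ _)).const_mul _
  rw [e1, Finset.sum_comm' (s := Finset.univ) (t := fun _ => P.support) (t' := P.support)
    (s' := fun _ => Finset.univ) (by simp)]
  rw [Finset.mul_sum, Finset.mul_sum]
  refine Finset.sum_congr rfl fun d hd => ?_
  rw [Finset.sum_comm, Finset.mul_sum, Finset.mul_sum]
  refine Finset.sum_congr rfl fun e he => ?_
  rw [← Finset.mul_sum, mon_int, mon_disc hM
    (fun j => lt_of_le_of_lt (MvPolynomial.monomial_le_degreeOf j hd) (hP j))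
    (fun j => lt_of_le_of_lt (MvPolynomial.monomial_le_degreeOf j he) (hQ j))]
  by_cases h : (d : Fin N → ℕ) = e
  · rw [if_pos h, if_pos h]
    field_simp
  · rw [if_neg h, if_neg h]
    simp

end

end Pool.Agent.R319.UM
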