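import Pool.Agent.R319.UM1

/-!
Generating series of symmetric polynomials: `h_k` and the coefficients of
`∏ (1 - w x_i t) / (1 - x_i t)`.
-/

open Finset

namespace Pool.Agent.R319.UM

noncomputable section

variable {N : ℕ}

/-- the geometric series `1 / (1 - a t)` -/
def geo {R : Type*} [CommRing R] (a : R) : PowerSeries R := PowerSeries.mk fun k => a ^ k

lemma geo_mul {R : Type*} [CommRing R] (a : R) :
    geo a * (1 - PowerSeries.C a * PowerSeries.X) = 1 := by
  have h := congrArg (PowerSeries.rescale a) (PowerSeries.mk_one_mul_one_sub_eq_one R)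
  rw [map_mul, map_sub, map_one, PowerSeries.rescale_X] at h
  have e : PowerSeries.rescale a (PowerSeries.mk 1 : PowerSeries R) = geo a := by
    ext n
    rw [PowerSeries.coeff_rescale, geo, PowerSeries.coeff_mk, PowerSeries.coeff_mk]
    simp
  rwa [e] at h

/-- generating series of the complete homogeneous symmetric polynomials -/
def hser (N : ℕ) : PowerSeries (MvPolynomial (Fin N) ℂ) := ∏ i, geo (MvPolynomial.X i)

/-- generating series of the coefficients of `∏ (1 - w x_i t) / (1 - x_i t)` -/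
def gser (N : ℕ) (w : ℂ) : PowerSeries (MvPolynomial (Fin N) ℂ) :=
  ∏ i, (geo (MvPolynomial.X i) *
    (1 - PowerSeries.C (MvPolynomial.C w * MvPolynomial.X i) * PowerSeries.X))

/-- the complete homogeneous symmetric polynomials -/
def hp (N k : ℕ) : MvPolynomial (Fin N) ℂ := PowerSeries.coeff k (hser N)

/-- the coefficients of `∏ (1 - w x_i t) / (1 - x_i t)` -/
def gp (N : ℕ) (w : ℂ) (k : ℕ) : MvPolynomial (Fin N) ℂ := PowerSeries.coeff k (gser N w)

/-! ### symmetry -/

lemma map_geo {R S : Type*} [CommRing R] [CommRing S] (f : R →+* S) (a : R) :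
    PowerSeries.map f (geo a) = geo (f a) := by
  ext n
  rw [PowerSeries.coeff_map, geo, geo, PowerSeries.coeff_mk, PowerSeries.coeff_mk, map_pow]

lemma hser_sym (e : Equiv.Perm (Fin N)) :
    PowerSeries.map (MvPolynomial.rename e : MvPolynomial (Fin N) ℂ →ₐ[ℂ] _).toRingHom (hser N) =
      hser N := by
  unfold hser
  rw [map_prod]
  simp only [map_geo]
  rw [← Equiv.prod_comp e (fun i => geo (MvPolynomial.X i : MvPolynomial (Fin N) ℂ))]
  refine Finset.prod_congr rfl fun i _ => ?_
  congr 1
  exact MvPolynomial.rename_X _ _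

lemma gser_sym (w : ℂ) (e : Equiv.Perm (Fin N)) :
    PowerSeries.map (MvPolynomial.rename e : MvPolynomial (Fin N) ℂ →ₐ[ℂ] _).toRingHom
      (gser N w) = gser N w := by
  unfold gser
  rw [map_prod]
  rw [← Equiv.prod_comp e (fun i => (geo (MvPolynomial.X i : MvPolynomial (Fin N) ℂ) *
    (1 - PowerSeries.C (MvPolynomial.C w * MvPolynomial.X i) * PowerSeries.X)))]
  refine Finset.prod_congr rfl fun i _ => ?_
  rw [map_mul, map_geo, map_sub, map_one, map_mul, PowerSeries.map_X, PowerSeries.map_C]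
  have h1 : (MvPolynomial.rename e : MvPolynomial (Fin N) ℂ →ₐ[ℂ] _).toRingHom
      (MvPolynomial.X i) = MvPolynomial.X (e i) := MvPolynomial.rename_X _ _
  have h2 : (MvPolynomial.rename e : MvPolynomial (Fin N) ℂ →ₐ[ℂ] _).toRingHom
      (MvPolynomial.C w * MvPolynomial.X i) = MvPolynomial.C w * MvPolynomial.X (e i) := by
    rw [map_mul, h1]
    congr 1
    exact MvPolynomial.rename_C _ _
  rw [h1, h2]

lemma hp_sym (k : ℕ) : (hp N k).IsSymmetric := by
  intro e
  have h := congrArg (PowerSeries.coeff k) (hser_sym e)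
  rw [PowerSeries.coeff_map] at h
  exact h

lemma gp_sym (w : ℂ) (k : ℕ) : (gp N w k).IsSymmetric := by
  intro e
  have h := congrArg (PowerSeries.coeff k) (gser_sym w e)
  rw [PowerSeries.coeff_map] at h
  exact h

/-! ### homogeneity -/

/-- the `n`-th coefficient is homogeneous of degree `n` -/
def Hg (f : PowerSeries (MvPolynomial (Fin N) ℂ)) : Prop :=
  ∀ n, (PowerSeries.coeff n f).IsHomogeneous n

lemma Hg_one : Hg (1 : PowerSeries (MvPolynomial (Fin N) ℂ)) := by
  intro n
  rw [PowerSeries.coeff_one]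
  split_ifs with h
  · rw [h]
    exact MvPolynomial.isHomogeneous_one _ _
  · exact MvPolynomial.isHomogeneous_zero _ _ _

lemma Hg_mul {f g : PowerSeries (MvPolynomial (Fin N) ℂ)} (hf : Hg f) (hg : Hg g) :
    Hg (f * g) := by
  intro n
  rw [PowerSeries.coeff_mul]
  refine MvPolynomial.IsHomogeneous.sum _ _ _ fun p hpp => ?_
  have := (hf p.1).mul (hg p.2)
  rwa [Finset.HasAntidiagonal.mem_antidiagonal.1 hpp] at this

lemma Hg_prod {ι : Type*} (s : Finset ι) (f : ι → PowerSeries (MvPolynomial (Fin N) ℂ))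
    (h : ∀ i ∈ s, Hg (f i)) : Hg (∏ i ∈ s, f i) := by
  classical
  induction s using Finset.induction_on with
  | empty => simpa using Hg_one
  | insert a s ha ih =>
    rw [Finset.prod_insert ha]
    exact Hg_mul (h a (Finset.mem_insert_self _ _))
      (ih fun i hi => h i (Finset.mem_insert_of_mem hi))

lemma Hg_geo (i : Fin N) : Hg (geo (MvPolynomial.X i)) := by
  intro n
  rw [geo, PowerSeries.coeff_mk]
  exact MvPolynomial.isHomogeneous_X_pow _ _

lemma Hg_lin (w : ℂ) (i : Fin N) :
    Hg (1 - PowerSeries.C (MvPolynomial.C w * MvPolynomial.X i) * PowerSeries.X) := by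
  intro n
  rw [map_sub, PowerSeries.coeff_one, PowerSeries.coeff_C_mul, PowerSeries.coeff_X]
  rcases n with _ | _ | n
  · simp only [if_true]
    rw [if_neg (by norm_num), mul_zero, sub_zero]
    exact MvPolynomial.isHomogeneous_one _ _
  · simp only [zero_add]
    rw [if_neg (by norm_num), if_pos trivial, zero_sub, mul_one]
    apply MvPolynomial.IsHomogeneous.neg
    have := (MvPolynomial.isHomogeneous_C (Fin N) w).mul (MvPolynomial.isHomogeneous_X ℂ i)
    simpa using this
  · rw [if_neg (by omega), if_neg (by omega), mul_zero, sub_zero]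
    exact MvPolynomial.isHomogeneous_zero _ _ _

lemma hp_hom (k : ℕ) : (hp N k).IsHomogeneous k :=
  Hg_prod _ _ (fun i _ => Hg_geo i) k

lemma gp_hom (w : ℂ) (k : ℕ) : (gp N w k).IsHomogeneous k :=
  Hg_prod _ _ (fun i _ => Hg_mul (Hg_geo i) (Hg_lin w i)) k

/-! ### values -/

/-- the series `∏ 1 / (1 - z_i t)` -/
def Hz (z : Fin N → ℂ) : PowerSeries ℂ := ∏ i, geo (z i)

/-- the series `∏ (1 - w z_i t) / (1 - z_i t)` -/
def Gz (w : ℂ) (z : Fin N → ℂ) : PowerSeries ℂ :=
  ∏ i, (geo (z i) * (1 - PowerSeries.C (w * z i) * PowerSeries.X))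

lemma eval_hp (z : Fin N → ℂ) (k : ℕ) :
    MvPolynomial.eval z (hp N k) = PowerSeries.coeff k (Hz z) := by
  have h : PowerSeries.map (MvPolynomial.eval z) (hser N) = Hz z := by
    unfold hser Hz
    rw [map_prod]
    simp only [map_geo, MvPolynomial.eval_X]
  rw [← h, PowerSeries.coeff_map]
  rfl

lemma eval_gp (w : ℂ) (z : Fin N → ℂ) (k : ℕ) :
    MvPolynomial.eval z (gp N w k) = PowerSeries.coeff k (Gz w z) := by
  have h : PowerSeries.map (MvPolynomial.eval z) (gser N w) = Gz w z := by
    unfold gser Gz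
    rw [map_prod]
    refine Finset.prod_congr rfl fun i _ => ?_
    rw [map_mul, map_geo, map_sub, map_one, map_mul, PowerSeries.map_X, PowerSeries.map_C,
      map_mul, MvPolynomial.eval_X, MvPolynomial.eval_C]
  rw [← h, PowerSeries.coeff_map]
  rfl

end

end Pool.Agent.R319.UM
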