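import Pool.Agent.R319.UM2

/-!
Partial fractions of `∏ (1 - w z_i t) / (1 - z_i t)` when `w ^ N = -1`.
-/

open Finset Polynomial

namespace Pool.Agent.R319.UM

noncomputable section

variable {N : ℕ}

/-- the residues -/
def tau (w : ℂ) (z : Fin N → ℂ) (j : Fin N) : ℂ :=
  (1 - w) * ∏ i ∈ univ.erase j, (z j - w * z i) / (z j - z i)

/-- linear factor -/
def lin (a : ℂ) : ℂ[X] := 1 - C a * X

lemma lin_deg (a : ℂ) : (lin a).natDegree ≤ 1 := by
  unfold lin
  compute_degree

lemma lin_coeff (a : ℂ) : (lin a).coeff 1 = -a := by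
  unfold lin
  simp [Polynomial.coeff_one]

lemma lin_eval (a x : ℂ) : (lin a).eval x = 1 - a * x := by
  unfold lin
  simp

lemma lin_coe (a : ℂ) : ((lin a : ℂ[X]) : PowerSeries ℂ) =
    1 - PowerSeries.C a * PowerSeries.X := by
  unfold lin
  rw [Polynomial.coe_sub, Polynomial.coe_one, Polynomial.coe_mul, Polynomial.coe_C,
    Polynomial.coe_X]

lemma prod_coe {ι : Type*} (s : Finset ι) (f : ι → ℂ[X]) :
    ((∏ i ∈ s, f i : ℂ[X]) : PowerSeries ℂ) = ∏ i ∈ s, ((f i : ℂ[X]) : PowerSeries ℂ) := by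
  exact map_prod (Polynomial.coeToPowerSeries.ringHom (R := ℂ)) f s

/-- the polynomial `∏ (1 - z_i t)` -/
def Pr (z : Fin N → ℂ) : ℂ[X] := ∏ i, lin (z i)

lemma Pr_deg (z : Fin N → ℂ) : (Pr z).natDegree ≤ N := by
  refine (Polynomial.natDegree_prod_le _ _).trans ?_
  refine (Finset.sum_le_sum fun i _ => lin_deg (z i)).trans ?_
  simp

lemma Pr_coeff (z : Fin N → ℂ) : (Pr z).coeff N = ∏ i, (-z i) := by
  have := Polynomial.coeff_prod_of_natDegree_le (univ : Finset (Fin N)) (fun i => lin (z i)) 1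
    (fun i _ => lin_deg _)
  rw [mul_one, Finset.card_univ, Fintype.card_fin] at this
  unfold Pr
  rw [this]
  exact Finset.prod_congr rfl fun i _ => lin_coeff _

lemma Hz_Pr (z : Fin N → ℂ) : Hz z * (Pr z : PowerSeries ℂ) = 1 := by
  unfold Hz Pr
  rw [prod_coe, ← Finset.prod_mul_distrib]
  refine Finset.prod_eq_one fun i _ => ?_
  rw [lin_coe]
  exact geo_mul _

lemma Gz_eq (w : ℂ) (z : Fin N → ℂ) :
    Gz w z = Hz z * (Pr (fun i => w * z i) : PowerSeries ℂ) := by
  unfold Gz Hz Pr
  rw [prod_coe, ← Finset.prod_mul_distrib]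
  refine Finset.prod_congr rfl fun i _ => ?_
  rw [lin_coe]

lemma Hz_L (z : Fin N → ℂ) (j : Fin N) :
    Hz z * ((∏ i ∈ univ.erase j, lin (z i) : ℂ[X]) : PowerSeries ℂ) = geo (z j) := by
  unfold Hz
  rw [← Finset.mul_prod_erase univ (fun i => geo (z i)) (Finset.mem_univ j), prod_coe, mul_assoc,
    ← Finset.prod_mul_distrib]
  have : ∏ x ∈ univ.erase j, geo (z x) * ((lin (z x) : ℂ[X]) : PowerSeries ℂ) = 1 := by
    refine Finset.prod_eq_one fun i _ => ?_
    rw [lin_coe]
    exact geo_mul _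
  rw [this, mul_one]

/-- the partial fraction identity for polynomials -/
lemma pf_poly {w : ℂ} {z : Fin N → ℂ} (hN : 0 < N) (hw : w ^ N = -1)
    (hz : Function.Injective z) (hz0 : ∀ i, z i ≠ 0) :
    Pr (fun i => w * z i) + Pr z = ∑ j, C (tau w z j) * ∏ i ∈ univ.erase j, lin (z i) := by
  rw [← sub_eq_zero]
  set D := Pr (fun i => w * z i) + Pr z - ∑ j, C (tau w z j) * ∏ i ∈ univ.erase j, lin (z i)
    with hD
  have hinj : Function.Injective fun j => (z j)⁻¹ := fun a b h => hz (inv_injective h)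
  refine Polynomial.eq_zero_of_degree_lt_of_eval_finset_eq_zero
    (univ.image fun j => (z j)⁻¹) ?_ ?_
  · rw [Finset.card_image_of_injective _ hinj, Finset.card_univ, Fintype.card_fin]
    have h1 : (Pr (fun i => w * z i) + Pr z).degree < N := by
      rw [Polynomial.degree_lt_iff_coeff_zero]
      intro m hm
      rcases hm.eq_or_lt with h | h
      · rw [Polynomial.coeff_add, ← h, Pr_coeff, Pr_coeff]
        have : ∏ i, (-(w * z i)) = w ^ N * ∏ i, (-z i) := by
          have e1 : w ^ N = ∏ _i : Fin N, w := by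
            rw [Finset.prod_const, Finset.card_univ, Fintype.card_fin]
          rw [e1, ← Finset.prod_mul_distrib]
          exact Finset.prod_congr rfl fun i _ => by ring
        rw [this, hw]
        ring
      · rw [Polynomial.coeff_add, Polynomial.coeff_eq_zero_of_natDegree_lt,
          Polynomial.coeff_eq_zero_of_natDegree_lt, add_zero]
        · exact (Pr_deg _).trans_lt h
        · exact (Pr_deg _).trans_lt h
    have h2 : (∑ j, C (tau w z j) * ∏ i ∈ univ.erase j, lin (z i)).degree < N := by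
      refine lt_of_le_of_lt (Polynomial.degree_sum_le _ _) ?_
      rw [Finset.sup_lt_iff (by exact WithBot.bot_lt_coe N)]
      intro j _
      have h3 : (C (tau w z j) * ∏ i ∈ univ.erase j, lin (z i)).natDegree ≤ N - 1 := by
        refine (Polynomial.natDegree_C_mul_le _ _).trans ?_
        refine (Polynomial.natDegree_prod_le _ _).trans ?_
        refine (Finset.sum_le_sum fun i _ => lin_deg (z i)).trans ?_
        rw [Finset.sum_const, Finset.card_erase_of_mem (Finset.mem_univ j), Finset.card_univ,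
          Fintype.card_fin]
        simp
      refine lt_of_le_of_lt (Polynomial.degree_le_of_natDegree_le h3) ?_
      exact_mod_cast (by omega : N - 1 < N)
    exact lt_of_le_of_lt (Polynomial.degree_sub_le _ _) (max_lt h1 h2)
  · intro x hx
    obtain ⟨j, -, rfl⟩ := Finset.mem_image.1 hx
    rw [hD]
    simp only [Polynomial.eval_sub, Polynomial.eval_add, Polynomial.eval_finset_sum,
      Polynomial.eval_mul, Polynomial.eval_C, Pr, Polynomial.eval_prod, lin_eval]
    have h1 : ∏ i, (1 - z i * (z j)⁻¹) = 0 := by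
      apply Finset.prod_eq_zero (Finset.mem_univ j)
      rw [mul_inv_cancel₀ (hz0 j), sub_self]
    have h2 : ∀ k, k ≠ j → ∏ i ∈ univ.erase k, (1 - z i * (z j)⁻¹) = 0 := by
      intro k hk
      apply Finset.prod_eq_zero (Finset.mem_erase.2 ⟨hk.symm, Finset.mem_univ j⟩)
      rw [mul_inv_cancel₀ (hz0 j), sub_self]
    rw [h1, add_zero, Finset.sum_eq_single j (fun k _ hk => by rw [h2 k hk, mul_zero])
      (fun h => absurd (Finset.mem_univ j) h), sub_eq_zero]
    rw [← Finset.mul_prod_erase univ (fun i => 1 - w * z i * (z j)⁻¹) (Finset.mem_univ j)]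
    unfold tau
    rw [mul_assoc w, mul_inv_cancel₀ (hz0 j), mul_one, mul_assoc, ← Finset.prod_mul_distrib]
    congr 1
    refine Finset.prod_congr rfl fun i hi => ?_
    have hne : z j - z i ≠ 0 := sub_ne_zero.2 fun h => (Finset.mem_erase.1 hi).1 (hz h).symm
    have hj := hz0 j
    field_simp

/-- the power sums with weights `tau` -/
lemma pf {w : ℂ} {z : Fin N → ℂ} (hN : 0 < N) (hw : w ^ N = -1)
    (hz : Function.Injective z) (hz0 : ∀ i, z i ≠ 0) (m : ℕ) :
    ∑ j, tau w z j * z j ^ m = PowerSeries.coeff m (Gz w z) + if m = 0 then 1 else 0 := by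
  have h := congrArg (fun p : ℂ[X] => Hz z * (p : PowerSeries ℂ)) (pf_poly hN hw hz hz0)
  simp only [Polynomial.coe_add, mul_add, ← Gz_eq, Hz_Pr] at h
  have h2 : Hz z * ((∑ j, C (tau w z j) * ∏ i ∈ univ.erase j, lin (z i) : ℂ[X]) : PowerSeries ℂ) =
      ∑ j, PowerSeries.C (tau w z j) * geo (z j) := by
    have e : ((∑ j, C (tau w z j) * ∏ i ∈ univ.erase j, lin (z i) : ℂ[X]) : PowerSeries ℂ) =
        ∑ j, PowerSeries.C (tau w z j) *
          ((∏ i ∈ univ.erase j, lin (z i) : ℂ[X]) : PowerSeries ℂ) := by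
      refine (map_sum (Polynomial.coeToPowerSeries.ringHom (R := ℂ))
        (fun j => C (tau w z j) * ∏ i ∈ univ.erase j, lin (z i)) univ).trans ?_
      refine Finset.sum_congr rfl fun j _ => ?_
      rw [map_mul]
      congr 1
      exact Polynomial.coe_C _
    rw [e, Finset.mul_sum]
    refine Finset.sum_congr rfl fun j _ => ?_
    rw [← Hz_L z j]
    ring
  rw [h2] at h
  have h3 := congrArg (PowerSeries.coeff m) h
  rw [map_add, PowerSeries.coeff_one, map_sum] at h3
  rw [h3]
  refine Finset.sum_congr rfl fun j _ => ?_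
  rw [PowerSeries.coeff_C_mul, geo, PowerSeries.coeff_mk]

end

end Pool.Agent.R319.UM
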