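import Pool.Agent.R319.UM3

/-!
The residues `tau`, the quadratic form, and when it vanishes.
-/

open Finset Polynomial

namespace Pool.Agent.R319.UM

noncomputable section

variable {N : ℕ}

/-- `exp (-π i / N)` -/
def om (N : ℕ) : ℂ := Complex.exp (-(Real.pi * Complex.I / N))

lemma om_prim (hN : 0 < N) : IsPrimitiveRoot (om N) (2 * N) := by
  have h := (Complex.isPrimitiveRoot_exp (2 * N) (by omega)).inv
  have e : (Complex.exp (2 * Real.pi * Complex.I / (2 * N : ℕ)))⁻¹ = om N := by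
    rw [← Complex.exp_neg]
    unfold om
    congr 1
    have : (N : ℂ) ≠ 0 := by exact_mod_cast hN.ne'
    push_cast
    field_simp
  rwa [e] at h

lemma om_pow (hN : 0 < N) : om N ^ N = -1 := by
  unfold om
  rw [← Complex.exp_nat_mul]
  have : (N : ℂ) ≠ 0 := by exact_mod_cast hN.ne'
  have e : (N : ℂ) * -(Real.pi * Complex.I / N) = -(Real.pi * Complex.I) := by
    field_simp
  rw [e, Complex.exp_neg, Complex.exp_pi_mul_I]
  norm_num

lemma om_norm : ‖om N‖ = 1 := by
  unfold om
  have : (-(Real.pi * Complex.I / N) : ℂ) = ((-(Real.pi / N) : ℝ) : ℂ) * Complex.I := by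
    push_cast
    ring
  rw [this, Complex.norm_exp_ofReal_mul_I]

lemma om_ne : om N ≠ 0 := Complex.exp_ne_zero _

lemma om_ne_one (hN : 0 < N) : om N ≠ 1 := (om_prim hN).ne_one (by omega)

lemma conj_unit {z : ℂ} (h : ‖z‖ = 1) : (starRingEnd ℂ) z = z⁻¹ := (Complex.inv_eq_conj h).symm

lemma ne_of_unit {z : ℂ} (h : ‖z‖ = 1) : z ≠ 0 := by
  intro h0
  rw [h0, norm_zero] at h
  norm_num at h

/-- the residues are real -/
lemma tau_real (hN : 0 < N) {z : Fin N → ℂ} (h1 : ∀ i, ‖z i‖ = 1) (hz : Function.Injective z)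
    (j : Fin N) : (starRingEnd ℂ) (tau (om N) z j) = tau (om N) z j := by
  unfold tau
  have hw := om_ne (N := N)
  rw [map_mul, map_prod]
  have e1 : ∏ i ∈ univ.erase j, (starRingEnd ℂ) ((z j - om N * z i) / (z j - z i)) =
      (om N)⁻¹ ^ (N - 1) * ∏ i ∈ univ.erase j, (z j - om N * z i) / (z j - z i) := by
    have : (om N)⁻¹ ^ (N - 1) = ∏ _i ∈ univ.erase j, (om N)⁻¹ := by
      rw [Finset.prod_const, Finset.card_erase_of_mem (Finset.mem_univ j), Finset.card_univ,
        Fintype.card_fin]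
    rw [this, ← Finset.prod_mul_distrib]
    refine Finset.prod_congr rfl fun i hi => ?_
    have hne : z j - z i ≠ 0 := sub_ne_zero.2 fun h => (Finset.mem_erase.1 hi).1 (hz h).symm
    have hne' : z i - z j ≠ 0 := fun h => hne (by rw [← neg_sub, h, neg_zero])
    have a1 := ne_of_unit (h1 i)
    have a2 := ne_of_unit (h1 j)
    rw [map_div₀, map_sub, map_sub, map_mul, conj_unit (h1 i), conj_unit (h1 j),
      conj_unit om_norm]
    have e2 : (z j)⁻¹ - (z i)⁻¹ = (z i - z j) / (z i * z j) := by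
      field_simp
    have e3 : (z j)⁻¹ - (om N)⁻¹ * (z i)⁻¹ = -((om N)⁻¹ * (z j - om N * z i)) / (z i * z j) := by
      field_simp
      ring
    rw [e2, e3]
    have a3 : z i * z j ≠ 0 := mul_ne_zero a1 a2
    rw [div_div_div_cancel_right₀ a3]
    rw [← neg_sub (z j) (z i), neg_div_neg_eq, mul_div_assoc]
  rw [e1, map_sub, map_one, conj_unit om_norm]
  have e4 : (1 - (om N)⁻¹) * (om N)⁻¹ ^ (N - 1) = 1 - om N := by
    have h5 : (om N)⁻¹ ^ N = -1 := by rw [inv_pow, om_pow hN]; norm_num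
    have h6 : (om N)⁻¹ ^ N = (om N)⁻¹ ^ (N - 1) * (om N)⁻¹ := by
      rw [← pow_succ]
      congr 1
      omega
    have h7 : (om N)⁻¹ ^ (N - 1) = -om N := by
      rw [h6] at h5
      rw [mul_inv_eq_iff_eq_mul₀ hw] at h5
      rw [h5]
      ring
    rw [h7]
    field_simp
    ring
  rw [← mul_assoc, e4]

/-- the inequality behind the sign of the residues -/
lemma trig_ineq {a b c s : ℝ} (hc : 0 ≤ c) (hs : c ^ 2 + s ^ 2 = 1) (hab : a ^ 2 + b ^ 2 = 1)
    (ha : a ≤ c ^ 2 - s ^ 2) : a * c - b * s ≤ c := by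
  have ha1 : a ≤ 1 := by nlinarith [sq_nonneg s]
  have h0 : 0 ≤ c * (1 - a) := mul_nonneg hc (by linarith)
  have h1 : (b * s) ^ 2 ≤ (c * (1 - a)) ^ 2 := by
    have : (c * (1 - a)) ^ 2 - (b * s) ^ 2 = (1 - a) * (c ^ 2 - s ^ 2 - a) := by
      have hb : b ^ 2 = 1 - a ^ 2 := by linarith
      have hs2 : s ^ 2 = 1 - c ^ 2 := by linarith
      rw [mul_pow b s, hb, hs2]
      ring
    have h2 : 0 ≤ (1 - a) * (c ^ 2 - s ^ 2 - a) := mul_nonneg (by linarith) (by linarith)
    linarith
  have h3 := abs_le_of_sq_le_sq h1 h0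
  have h4 := neg_abs_le (b * s)
  linarith

/-- separated points have nonnegative residues -/
lemma tau_nonneg (hN : 0 < N) {z : Fin N → ℂ} (h1 : ∀ i, ‖z i‖ = 1) (hz : Function.Injective z)
    (hsep : ∀ i j, i ≠ j → ‖1 - om N‖ ≤ ‖z i - z j‖) (j : Fin N) :
    ∃ r : ℝ, 0 ≤ r ∧ tau (om N) z j = r := by
  have hNr : (0 : ℝ) < N := by exact_mod_cast hN
  have hNc : (N : ℂ) ≠ 0 := by exact_mod_cast hN.ne'
  set δ : ℝ := Real.pi / N with hδ
  have hδ0 : 0 < δ := div_pos Real.pi_pos hNr
  have hδ1 : δ ≤ Real.pi := by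
    rw [hδ, div_le_iff₀ hNr]
    have : (1 : ℝ) ≤ N := by exact_mod_cast hN
    nlinarith [Real.pi_pos]
  set v : ℂ := Complex.exp ((δ / 2 : ℝ) * Complex.I) with hv
  have hv0 : v ≠ 0 := Complex.exp_ne_zero _
  have hvn : ‖v‖ = 1 := Complex.norm_exp_ofReal_mul_I _
  have hvre : v.re = Real.cos (δ / 2) := by rw [hv, Complex.exp_ofReal_mul_I_re]
  have hvim : v.im = Real.sin (δ / 2) := by rw [hv, Complex.exp_ofReal_mul_I_im]
  have hvw : v * om N = v⁻¹ := by
    rw [hv, om, ← Complex.exp_neg, ← Complex.exp_add]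
    congr 1
    rw [hδ]
    push_cast
    ring
  have hvN : v ^ N = Complex.I := by
    rw [hv, ← Complex.exp_nat_mul]
    have : (N : ℂ) * ((δ / 2 : ℝ) * Complex.I) = (Real.pi / 2) * Complex.I := by
      rw [hδ]
      push_cast
      field_simp
    rw [this]
    exact Complex.exp_pi_div_two_mul_I
  have hc0 : 0 ≤ Real.cos (δ / 2) :=
    Real.cos_nonneg_of_mem_Icc ⟨by linarith [Real.pi_pos], by linarith⟩
  have hs0 : 0 ≤ Real.sin (δ / 2) :=
    Real.sin_nonneg_of_nonneg_of_le_pi (by linarith) (by linarith [Real.pi_pos])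
  -- the factors
  have key : ∀ i ∈ univ.erase j, ∃ r : ℝ, 0 ≤ r ∧ v * ((z j - om N * z i) / (z j - z i)) = r := by
    intro i hi
    have hij : i ≠ j := (Finset.mem_erase.1 hi).1
    have hne : z j - z i ≠ 0 := sub_ne_zero.2 fun h => hij (hz h).symm
    set y := z j * (starRingEnd ℂ) (z i) with hy
    have hyn : y.re ^ 2 + y.im ^ 2 = 1 := by
      have : Complex.normSq y = 1 := by
        rw [Complex.normSq_eq_norm_sq, hy, norm_mul, Complex.norm_conj, h1, h1]
        norm_num
      rw [Complex.normSq_apply] at this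
      nlinarith
    have hre : Complex.normSq (z j - z i) = 2 - 2 * y.re := by
      rw [Complex.normSq_sub, Complex.normSq_eq_norm_sq, Complex.normSq_eq_norm_sq, h1, h1]
      show (1 : ℝ) ^ 2 + 1 ^ 2 - 2 * y.re = 2 - 2 * y.re
      ring
    have hre2 : Complex.normSq (1 - om N) = 2 - 2 * Real.cos δ := by
      rw [Complex.normSq_sub, Complex.normSq_eq_norm_sq, Complex.normSq_eq_norm_sq, om_norm]
      have : ((1 : ℂ) * (starRingEnd ℂ) (om N)).re = Real.cos δ := by
        rw [one_mul, Complex.conj_re]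
        have e : om N = Complex.exp ((-δ : ℝ) * Complex.I) := by
          unfold om
          congr 1
          rw [hδ]
          push_cast
          ring
        rw [e, Complex.exp_ofReal_mul_I_re, Real.cos_neg]
      rw [this]
      norm_num
    have hle : y.re ≤ Real.cos δ := by
      have h2 := hsep i j hij
      have h3 : ‖1 - om N‖ ^ 2 ≤ ‖z j - z i‖ ^ 2 := by
        rw [norm_sub_rev (z j) (z i)]
        exact pow_le_pow_left₀ (norm_nonneg _) h2 2
      rw [← Complex.normSq_eq_norm_sq, ← Complex.normSq_eq_norm_sq, hre, hre2] at h3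
      linarith
    have hcos : Real.cos δ = Real.cos (δ / 2) ^ 2 - Real.sin (δ / 2) ^ 2 := by
      rw [← Real.cos_two_mul']
      congr 1
      ring
    have htr := trig_ineq (a := y.re) (b := y.im) hc0 (Real.cos_sq_add_sin_sq (δ / 2)) hyn
      (hcos ▸ hle)
    have hpos : 0 < Complex.normSq (z j - z i) := Complex.normSq_pos.2 hne
    refine ⟨2 * (Real.cos (δ / 2) - (y.re * Real.cos (δ / 2) - y.im * Real.sin (δ / 2))) /
      Complex.normSq (z j - z i), div_nonneg (by linarith) hpos.le, ?_⟩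
    have hvy : (v * y).re = y.re * Real.cos (δ / 2) - y.im * Real.sin (δ / 2) := by
      rw [Complex.mul_re, hvre, hvim]
      ring
    have hnum : v * (z j - om N * z i) * (starRingEnd ℂ) (z j - z i) =
        ((2 * (Real.cos (δ / 2) - (v * y).re) : ℝ) : ℂ) := by
      have e1 : v * (z j - om N * z i) * (starRingEnd ℂ) (z j - z i) =
          v * (z j * (starRingEnd ℂ) (z j)) - v * y - v * om N * (z i * (starRingEnd ℂ) (z j)) +
            v * om N * (z i * (starRingEnd ℂ) (z i)) := by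
        rw [map_sub, hy]
        ring
      have e2 : ∀ k, z k * (starRingEnd ℂ) (z k) = 1 := by
        intro k
        rw [conj_unit (h1 k), mul_inv_cancel₀ (ne_of_unit (h1 k))]
      have e3 : v * om N * (z i * (starRingEnd ℂ) (z j)) = (starRingEnd ℂ) (v * y) := by
        rw [hvw, hy, map_mul, map_mul, Complex.conj_conj, ← conj_unit hvn]
        ring
      rw [e1, e2, e2, e3, hvw, mul_one, mul_one]
      have e4 : v + v⁻¹ = ((2 * Real.cos (δ / 2) : ℝ) : ℂ) := by
        rw [← conj_unit hvn, Complex.add_conj, hvre]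
      have e5 : v * y + (starRingEnd ℂ) (v * y) = ((2 * (v * y).re : ℝ) : ℂ) :=
        Complex.add_conj _
      have e6 : v - v * y - (starRingEnd ℂ) (v * y) + v⁻¹ =
          (v + v⁻¹) - (v * y + (starRingEnd ℂ) (v * y)) := by ring
      rw [e6, e4, e5, ← Complex.ofReal_sub]
      congr 1
      ring
    have hden : (z j - z i) * (starRingEnd ℂ) (z j - z i) =
        ((Complex.normSq (z j - z i) : ℝ) : ℂ) := Complex.mul_conj _
    have hcj : (starRingEnd ℂ) (z j - z i) ≠ 0 := by
      intro h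
      apply hne
      have := congrArg (starRingEnd ℂ) h
      rwa [Complex.conj_conj, map_zero] at this
    rw [← mul_div_assoc, ← mul_div_mul_right _ _ hcj, hnum, hden, hvy]
    push_cast
    ring
  choose! r hr0 hr using key
  refine ⟨2 * Real.sin (δ / 2) * ∏ i ∈ univ.erase j, r i,
    mul_nonneg (by linarith) (Finset.prod_nonneg hr0), ?_⟩
  have hprod : v ^ (N - 1) * ∏ i ∈ univ.erase j, (z j - om N * z i) / (z j - z i) =
      ∏ i ∈ univ.erase j, (r i : ℂ) := by
    have : v ^ (N - 1) = ∏ _i ∈ univ.erase j, v := by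
      rw [Finset.prod_const, Finset.card_erase_of_mem (Finset.mem_univ j), Finset.card_univ,
        Fintype.card_fin]
    rw [this, ← Finset.prod_mul_distrib]
    exact Finset.prod_congr rfl hr
  have hv1 : v ^ (N - 1) * v = Complex.I := by
    rw [← pow_succ, ← hvN]
    congr 1
    omega
  have hI : (v - v⁻¹) = Complex.I * ((2 * Real.sin (δ / 2) : ℝ) : ℂ) := by
    rw [← conj_unit hvn, Complex.sub_conj, hvim]
    push_cast
    ring
  unfold tau
  have e7 : (1 - om N) * v = v - v⁻¹ := by rw [← hvw]; ring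
  have hvp : v ^ (N - 1) ≠ 0 := pow_ne_zero _ hv0
  have e8 : ∏ i ∈ univ.erase j, (z j - om N * z i) / (z j - z i) =
      (v ^ (N - 1))⁻¹ * ∏ i ∈ univ.erase j, (r i : ℂ) := by
    rw [← hprod, ← mul_assoc, inv_mul_cancel₀ hvp, one_mul]
  have e9 : (1 - om N) * (v ^ (N - 1))⁻¹ = ((2 * Real.sin (δ / 2) : ℝ) : ℂ) := by
    have h10 : (v ^ (N - 1))⁻¹ = v * Complex.I⁻¹ := by
      rw [← hv1, mul_inv]
      field_simp
    rw [h10, ← mul_assoc, e7, hI, mul_comm Complex.I, mul_assoc, mul_inv_cancel₀ Complex.I_ne_zero,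
      mul_one]
  rw [e8, ← mul_assoc, e9]
  push_cast
  ring

end

end Pool.Agent.R319.UM
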