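import Pool.Agent.R319.UM4

/-!
The quadratic form as a combination of products `F * conj G` with `F`, `G` homogeneous symmetric
polynomials of the same degree at most `N`, and the configurations where it vanishes.
-/

open Finset Polynomial

namespace Pool.Agent.R319.UM

noncomputable section

variable {N : ℕ}

/-- holomorphic factors -/
def FF (N : ℕ) (k l : ℕ) : MvPolynomial (Fin N) ℂ :=
  if k ≤ l then hp N k * (gp N (om N) (l - k) + if l - k = 0 then 1 else 0) else hp N k

/-- antiholomorphic factors -/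
def GG (N : ℕ) (k l : ℕ) : MvPolynomial (Fin N) ℂ :=
  if k ≤ l then hp N l else hp N l * gp N (om N) (k - l)

lemma FF_sym (k l : ℕ) : (FF N k l).IsSymmetric := by
  unfold FF
  split_ifs
  · exact (hp_sym k).mul ((gp_sym _ _).add (MvPolynomial.IsSymmetric.one))
  · rw [add_zero]
    exact (hp_sym k).mul (gp_sym _ _)
  · exact hp_sym k

lemma GG_sym (k l : ℕ) : (GG N k l).IsSymmetric := by
  unfold GG
  split_ifs
  · exact hp_sym l
  · exact (hp_sym l).mul (gp_sym _ _)

lemma FF_hom (k l : ℕ) : (FF N k l).IsHomogeneous (max k l) := by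
  unfold FF
  split_ifs with h h2
  · have : max k l = k + (l - k) := by omega
    rw [this]
    apply (hp_hom k).mul
    apply (gp_hom _ _).add
    rw [h2]
    exact MvPolynomial.isHomogeneous_one _ _
  · have : max k l = k + (l - k) := by omega
    rw [this, add_zero]
    exact (hp_hom k).mul (gp_hom _ _)
  · rw [max_eq_left (by omega)]
    exact hp_hom k

lemma GG_hom (k l : ℕ) : (GG N k l).IsHomogeneous (max k l) := by
  unfold GG
  split_ifs with h
  · rw [max_eq_right h]
    exact hp_hom l
  · have : max k l = l + (k - l) := by omega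
    rw [this]
    exact (hp_hom l).mul (gp_hom _ _)

/-- the value `A_j` of the truncated series -/
def AA (z : Fin N → ℂ) (j : Fin N) : ℂ :=
  ∑ k ∈ range (N + 1), PowerSeries.coeff k (Hz z) * (om N * (starRingEnd ℂ) (z j)) ^ k

/-- the quadratic form -/
def Phi (z : Fin N → ℂ) : ℂ :=
  ∑ k ∈ range (N + 1), ∑ l ∈ range (N + 1), (om N ^ k * (starRingEnd ℂ) (om N) ^ l) *
    (MvPolynomial.eval z (FF N k l) * (starRingEnd ℂ) (MvPolynomial.eval z (GG N k l)))

lemma Phi_eq (hN : 0 < N) {z : Fin N → ℂ} (h1 : ∀ i, ‖z i‖ = 1) (hz : Function.Injective z) :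
    Phi z = ∑ j, tau (om N) z j * (AA z j * (starRingEnd ℂ) (AA z j)) := by
  have hz0 : ∀ i, z i ≠ 0 := fun i => ne_of_unit (h1 i)
  have hP := pf hN (om_pow hN) hz hz0
  have hconj : ∀ m, ∑ j, tau (om N) z j * (starRingEnd ℂ) (z j) ^ m =
      (starRingEnd ℂ) (PowerSeries.coeff m (Gz (om N) z) + if m = 0 then 1 else 0) := by
    intro m
    rw [← hP m, map_sum]
    refine Finset.sum_congr rfl fun j _ => ?_
    rw [map_mul, tau_real hN h1 hz, map_pow]
  have e1 : ∀ j, tau (om N) z j * (AA z j * (starRingEnd ℂ) (AA z j)) =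
      ∑ k ∈ range (N + 1), ∑ l ∈ range (N + 1), (om N ^ k * (starRingEnd ℂ) (om N) ^ l) *
        (PowerSeries.coeff k (Hz z) * (starRingEnd ℂ) (PowerSeries.coeff l (Hz z)) *
          (tau (om N) z j * ((starRingEnd ℂ) (z j) ^ k * z j ^ l))) := by
    intro j
    unfold AA
    rw [map_sum, Finset.sum_mul_sum, Finset.mul_sum]
    refine Finset.sum_congr rfl fun k _ => ?_
    rw [Finset.mul_sum]
    refine Finset.sum_congr rfl fun l _ => ?_
    rw [map_mul, map_pow, map_mul, Complex.conj_conj]
    ring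
  simp only [e1]
  rw [Finset.sum_comm]
  unfold Phi
  refine Finset.sum_congr rfl fun k _ => ?_
  rw [Finset.sum_comm]
  refine Finset.sum_congr rfl fun l _ => ?_
  rw [← Finset.mul_sum, ← Finset.mul_sum]
  congr 1
  unfold FF GG
  by_cases h : k ≤ l
  · rw [if_pos h, if_pos h]
    have e2 : ∀ j, (starRingEnd ℂ) (z j) ^ k * z j ^ l = z j ^ (l - k) := by
      intro j
      have : l = k + (l - k) := by omega
      conv_lhs => rw [this]
      rw [pow_add, ← mul_assoc, ← mul_pow, conj_unit (h1 j), inv_mul_cancel₀ (hz0 j), one_pow,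
        one_mul]
    simp only [e2]
    rw [hP, map_mul, map_add, eval_hp, eval_gp, eval_hp]
    have e3 : MvPolynomial.eval z (if l - k = 0 then (1 : MvPolynomial (Fin N) ℂ) else 0) =
        if l - k = 0 then 1 else 0 := by
      split_ifs <;> simp
    rw [e3]
    ring
  · rw [if_neg h, if_neg h]
    have e2 : ∀ j, (starRingEnd ℂ) (z j) ^ k * z j ^ l = (starRingEnd ℂ) (z j) ^ (k - l) := by
      intro j
      have : k = (k - l) + l := by omega
      conv_lhs => rw [this]
      rw [pow_add, mul_assoc, ← mul_pow, conj_unit (h1 j), inv_mul_cancel₀ (hz0 j), one_pow,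
        mul_one]
    simp only [e2]
    rw [hconj, if_neg (by omega), add_zero, map_mul, eval_hp, eval_gp, eval_hp, map_mul]
    ring

/-! ### when it vanishes -/

/-- the truncated series as a polynomial -/
def Rr (z : Fin N → ℂ) : ℂ[X] := PowerSeries.trunc (N + 1) (Hz z)

lemma Rr_coeff (z : Fin N → ℂ) {m : ℕ} (hm : m ≤ N) :
    (Rr z).coeff m = PowerSeries.coeff m (Hz z) := by
  unfold Rr
  rw [PowerSeries.coeff_trunc, if_pos (by omega)]

lemma Rr_deg (z : Fin N → ℂ) : (Rr z).natDegree ≤ N := by
  rw [Polynomial.natDegree_le_iff_coeff_eq_zero]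
  intro m hm
  unfold Rr
  rw [PowerSeries.coeff_trunc, if_neg (by omega)]

lemma AA_eq (z : Fin N → ℂ) (j : Fin N) :
    AA z j = (Rr z).eval (om N * (starRingEnd ℂ) (z j)) := by
  rw [Polynomial.eval_eq_sum_range' (lt_of_le_of_lt (Rr_deg z) (Nat.lt_succ_self N))]
  unfold AA
  refine Finset.sum_congr rfl fun k hk => ?_
  rw [Rr_coeff z (by rw [Finset.mem_range] at hk; omega)]

/-- the product -/
def WW (z : Fin N → ℂ) : ℂ[X] := Pr z * Rr z

lemma WW_coeff (z : Fin N → ℂ) {m : ℕ} (hm : m ≤ N) :
    (WW z).coeff m = if m = 0 then 1 else 0 := by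
  unfold WW
  have h : PowerSeries.coeff m ((Pr z : PowerSeries ℂ) * Hz z) = if m = 0 then 1 else 0 := by
    rw [mul_comm, Hz_Pr, PowerSeries.coeff_one]
  rw [← h, PowerSeries.coeff_mul, Polynomial.coeff_mul]
  refine Finset.sum_congr rfl fun p hp' => ?_
  rw [Polynomial.coeff_coe, Rr_coeff z]
  have := Finset.HasAntidiagonal.mem_antidiagonal.1 hp'
  omega

lemma WW_deg (z : Fin N → ℂ) : (WW z).natDegree ≤ 2 * N := by
  unfold WW
  refine (Polynomial.natDegree_mul_le).trans ?_
  have := Pr_deg z
  have := Rr_deg z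
  omega

/-- the remainder polynomial -/
def SS (z : Fin N → ℂ) : ℂ[X] := ∑ i ∈ range N, C ((WW z).coeff (2 * N - i)) * X ^ i

lemma SS_coeff (z : Fin N → ℂ) (m : ℕ) :
    (SS z).coeff m = if m < N then (WW z).coeff (2 * N - m) else 0 := by
  unfold SS
  rw [Polynomial.finset_sum_coeff]
  simp only [Polynomial.coeff_C_mul, Polynomial.coeff_X_pow, mul_ite, mul_one, mul_zero]
  rw [Finset.sum_ite_eq]
  simp only [Finset.mem_range]

lemma SS_deg (z : Fin N → ℂ) : (SS z).degree < N := by
  rw [Polynomial.degree_lt_iff_coeff_zero]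
  intro m hm
  rw [SS_coeff, if_neg (by omega)]

lemma SS_eval (hN : 0 < N) (z : Fin N → ℂ) {x u : ℂ} (hxu : x * u = 1) :
    x ^ (2 * N) * (WW z).eval u = x ^ (2 * N) + (SS z).eval x := by
  rw [Polynomial.eval_eq_sum_range' (n := 2 * N + 1) (by have := WW_deg z; omega)]
  have h1 : x ^ (2 * N) * ∑ i ∈ range (2 * N + 1), (WW z).coeff i * u ^ i =
      ∑ i ∈ range (2 * N + 1), (WW z).coeff i * x ^ (2 * N - i) := by
    rw [Finset.mul_sum]
    refine Finset.sum_congr rfl fun i hi => ?_
    have hi' : i ≤ 2 * N := by rw [Finset.mem_range] at hi; omega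
    have : x ^ (2 * N) = x ^ (2 * N - i) * x ^ i := by
      rw [← pow_add]
      congr 1
      omega
    calc x ^ (2 * N) * ((WW z).coeff i * u ^ i)
        = (WW z).coeff i * x ^ (2 * N - i) * (x * u) ^ i := by rw [this, mul_pow]; ring
      _ = _ := by rw [hxu, one_pow, mul_one]
  rw [h1, ← Finset.sum_range_reflect]
  have h2 : ∑ j ∈ range (2 * N + 1), (WW z).coeff (2 * N + 1 - 1 - j) *
      x ^ (2 * N - (2 * N + 1 - 1 - j)) =
      ∑ j ∈ range (2 * N + 1), (WW z).coeff (2 * N - j) * x ^ j := by
    refine Finset.sum_congr rfl fun j hj => ?_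
    rw [Finset.mem_range] at hj
    have e1 : 2 * N + 1 - 1 - j = 2 * N - j := by omega
    have e2 : 2 * N - (2 * N - j) = j := by omega
    rw [e1, e2]
  rw [h2]
  have h3 : 2 * N + 1 = N + (N + 1) := by ring
  rw [h3, Finset.sum_range_add]
  have h4 : ∑ j ∈ range (N + 1), (WW z).coeff (2 * N - (N + j)) * x ^ (N + j) = x ^ (2 * N) := by
    rw [Finset.sum_eq_single N]
    · have e : 2 * N - (N + N) = 0 := by omega
      rw [e, WW_coeff z (by omega), if_pos rfl, one_mul]
      congr 1
      ring
    · intro j hj hjN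
      rw [Finset.mem_range] at hj
      rw [WW_coeff z (by omega), if_neg (by omega), zero_mul]
    · intro h
      exact absurd (Finset.mem_range.2 (by omega)) h
  rw [h4, add_comm]
  congr 1
  rw [Polynomial.eval_eq_sum_range' (n := N) ?_]
  · refine Finset.sum_congr rfl fun j hj => ?_
    rw [SS_coeff, if_pos (Finset.mem_range.1 hj)]
  · by_cases h0 : SS z = 0
    · rw [h0]
      simpa using hN
    · rw [Polynomial.natDegree_lt_iff_degree_lt h0]
      exact SS_deg z

lemma Pr_eval_zero_iff (hN : 0 < N) {z : Fin N → ℂ} (h1 : ∀ i, ‖z i‖ = 1)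
    (hz : Function.Injective z) (j : Fin N) :
    (Pr z).eval (om N * (starRingEnd ℂ) (z j)) = 0 ↔ tau (om N) z j = 0 := by
  have hz0 : ∀ i, z i ≠ 0 := fun i => ne_of_unit (h1 i)
  unfold Pr tau
  rw [Polynomial.eval_prod, Finset.prod_eq_zero_iff, mul_eq_zero, Finset.prod_eq_zero_iff]
  simp only [lin_eval, conj_unit (h1 j)]
  constructor
  · rintro ⟨i, -, hi⟩
    right
    have hi2 : z j = om N * z i := by
      have h3 : z i * (om N * (z j)⁻¹) = 1 := (sub_eq_zero.1 hi).symm
      have h4 := hz0 j
      field_simp at h3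
      rw [← h3]
      ring
    have hij : i ≠ j := by
      intro h
      rw [h] at hi2
      apply om_ne_one hN
      have h4 := hz0 j
      have : om N * z j = 1 * z j := by rw [one_mul]; exact hi2.symm
      exact mul_right_cancel₀ h4 this
    exact ⟨i, Finset.mem_erase.2 ⟨hij, Finset.mem_univ _⟩, by rw [← hi2, sub_self, zero_div]⟩
  · rintro (h | ⟨i, hi, hi2⟩)
    · exact absurd (sub_eq_zero.1 h).symm (om_ne_one hN)
    · refine ⟨i, Finset.mem_univ _, ?_⟩
      have hne : z j - z i ≠ 0 := sub_ne_zero.2 fun h => (Finset.mem_erase.1 hi).1 (hz h).symm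
      have h3 : z j = om N * z i := sub_eq_zero.1 ((div_eq_zero_iff.1 hi2).resolve_right hne)
      rw [sub_eq_zero]
      have h4 := hz0 j
      have h5 := hz0 i
      have h6 := om_ne (N := N)
      rw [h3]
      field_simp

/-- **the vanishing criterion**: all the terms `tau_j |A_j|^2` vanish exactly if all the points
lie on one rotated grid of `2N` points -/
theorem vanish_iff (hN : 0 < N) {z : Fin N → ℂ} (h1 : ∀ i, ‖z i‖ = 1)
    (hz : Function.Injective z) :
    (∀ j, tau (om N) z j = 0 ∨ AA z j = 0) ↔ ∀ i j, z i ^ (2 * N) = z j ^ (2 * N) := by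
  have hz0 : ∀ i, z i ≠ 0 := fun i => ne_of_unit (h1 i)
  have hw := om_ne (N := N)
  have hwp := om_prim hN
  have a1 : ∀ j, z j ^ (2 * N) + (SS z).eval (z j) = 0 := by
    intro j
    have hx : z j * (starRingEnd ℂ) (z j) = 1 := by
      rw [conj_unit (h1 j), mul_inv_cancel₀ (hz0 j)]
    rw [← SS_eval hN z hx]
    unfold WW
    rw [Polynomial.eval_mul]
    have : (Pr z).eval ((starRingEnd ℂ) (z j)) = 0 := by
      unfold Pr
      rw [Polynomial.eval_prod]
      apply Finset.prod_eq_zero (Finset.mem_univ j)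
      rw [lin_eval, hx, sub_self]
    rw [this, zero_mul, mul_zero]
  have a2 : ∀ j, z j ^ (2 * N) * (WW z).eval (om N * (starRingEnd ℂ) (z j)) =
      z j ^ (2 * N) + (SS z).eval ((om N)⁻¹ * z j) := by
    intro j
    have hx : ((om N)⁻¹ * z j) * (om N * (starRingEnd ℂ) (z j)) = 1 := by
      rw [conj_unit (h1 j)]
      have := hz0 j
      field_simp
    have h3 := SS_eval hN z hx
    have h4 : ((om N)⁻¹ * z j) ^ (2 * N) = z j ^ (2 * N) := by
      rw [mul_pow, inv_pow, hwp.pow_eq_one, inv_one, one_mul]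
    rwa [h4] at h3
  have a3 : ∀ j, (tau (om N) z j = 0 ∨ AA z j = 0) ↔
      (WW z).eval (om N * (starRingEnd ℂ) (z j)) = 0 := by
    intro j
    unfold WW
    rw [Polynomial.eval_mul, mul_eq_zero, Pr_eval_zero_iff hN h1 hz, AA_eq]
  have hcard : ((univ.image z).card : WithBot ℕ) = N := by
    rw [Finset.card_image_of_injective _ hz, Finset.card_univ, Fintype.card_fin]
  constructor
  · intro h
    -- the polynomial `S(ω x) - S(x)` vanishes
    set D : ℂ[X] := (SS z).comp (C (om N)⁻¹ * X) - SS z with hD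
    have hDc : ∀ m, D.coeff m = (SS z).coeff m * ((om N)⁻¹ ^ m - 1) := by
      intro m
      rw [hD, Polynomial.coeff_sub, Polynomial.comp_C_mul_X_coeff]
      ring
    have hD0 : D = 0 := by
      refine Polynomial.eq_zero_of_degree_lt_of_eval_finset_eq_zero (univ.image z) ?_ ?_
      · rw [hcard, Polynomial.degree_lt_iff_coeff_zero]
        intro m hm
        rw [hDc, SS_coeff, if_neg (by omega), zero_mul]
      · intro x hx
        obtain ⟨j, -, rfl⟩ := Finset.mem_image.1 hx
        have h2 := a2 j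
        rw [(a3 j).1 (h j), mul_zero] at h2
        have h3 := a1 j
        rw [hD, Polynomial.eval_sub, Polynomial.eval_comp, Polynomial.eval_mul, Polynomial.eval_C,
          Polynomial.eval_X]
        linear_combination (-1 : ℂ) * h2 - h3
    have hS : ∀ m, 1 ≤ m → (SS z).coeff m = 0 := by
      intro m hm
      by_cases hmN : m < N
      · have h4 := hDc m
        rw [hD0, Polynomial.coeff_zero] at h4
        have h5 : (om N)⁻¹ ^ m - 1 ≠ 0 := by
          intro h6
          have h7 : om N ^ m = 1 := by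
            rw [inv_pow] at h6
            have := sub_eq_zero.1 h6
            rwa [inv_eq_one] at this
          have := (hwp.pow_eq_one_iff_dvd m).1 h7
          have := Nat.le_of_dvd (by omega) this
          omega
        exact (mul_eq_zero.1 h4.symm).resolve_right h5
      · rw [SS_coeff, if_neg hmN]
    have hSC : SS z = C ((SS z).coeff 0) := by
      ext m
      rw [Polynomial.coeff_C]
      split_ifs with h6
      · rw [h6]
      · exact hS m (by omega)
    intro i j
    have h7 := a1 i
    have h8 := a1 j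
    rw [hSC, Polynomial.eval_C] at h7 h8
    linear_combination h7 - h8
  · intro h j
    rw [a3]
    -- `S` is constant
    have hD0 : SS z + C (z j ^ (2 * N)) = 0 := by
      refine Polynomial.eq_zero_of_degree_lt_of_eval_finset_eq_zero (univ.image z) ?_ ?_
      · rw [hcard]
        refine lt_of_le_of_lt (Polynomial.degree_add_le _ _) (max_lt (SS_deg z) ?_)
        refine lt_of_le_of_lt Polynomial.degree_C_le ?_
        exact_mod_cast hN
      · intro x hx
        obtain ⟨i, -, rfl⟩ := Finset.mem_image.1 hx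
        rw [Polynomial.eval_add, Polynomial.eval_C, ← h i j]
        linear_combination a1 i
    have h2 := a2 j
    have h3 : (SS z).eval ((om N)⁻¹ * z j) + z j ^ (2 * N) = 0 := by
      have := congrArg (Polynomial.eval ((om N)⁻¹ * z j)) hD0
      rwa [Polynomial.eval_add, Polynomial.eval_C, Polynomial.eval_zero] at this
    rw [add_comm, h3] at h2
    exact (mul_eq_zero.1 h2).resolve_left (pow_ne_zero _ (hz0 j))

end

end Pool.Agent.R319.UM
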