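import Pool.Agent.R319.UM5

/-!
Coincidences of points on a rotated grid, and the distance of different points of the grid.
-/

open Finset

namespace Pool.Agent.R319.UM

noncomputable section

variable {N : ℕ}

/-- `|p_k|^2` -/
def UU (z : Fin N → ℂ) (k : ℕ) : ℂ :=
  MvPolynomial.eval z (MvPolynomial.psum (Fin N) ℂ k) *
    (starRingEnd ℂ) (MvPolynomial.eval z (MvPolynomial.psum (Fin N) ℂ k))

/-- counts the coincidences on a grid -/
def Psi (z : Fin N → ℂ) : ℂ :=
  (∑ k ∈ range (N + 1), UU z k + ∑ k ∈ Ico 1 N, UU z k) - 2 * UU z 0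

lemma eval_psum (z : Fin N → ℂ) (k : ℕ) :
    MvPolynomial.eval z (MvPolynomial.psum (Fin N) ℂ k) = ∑ i, z i ^ k := by
  unfold MvPolynomial.psum
  rw [map_sum]
  simp

lemma psum_hom (k : ℕ) : (MvPolynomial.psum (Fin N) ℂ k).IsHomogeneous k := by
  unfold MvPolynomial.psum
  exact MvPolynomial.IsHomogeneous.sum _ _ _ fun i _ => MvPolynomial.isHomogeneous_X_pow _ _

lemma UU_eq (z : Fin N → ℂ) (k : ℕ) :
    UU z k = ∑ i, ∑ j, (z i * (starRingEnd ℂ) (z j)) ^ k := by
  unfold UU
  rw [eval_psum, map_sum, Finset.sum_mul_sum]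
  refine Finset.sum_congr rfl fun i _ => Finset.sum_congr rfl fun j _ => ?_
  rw [map_pow, mul_pow]

lemma UU_symm {z : Fin N → ℂ} (h1 : ∀ i, ‖z i‖ = 1)
    (hl : ∀ i j, z i ^ (2 * N) = z j ^ (2 * N)) {k : ℕ} (hk : k ≤ 2 * N) :
    UU z (2 * N - k) = UU z k := by
  rw [UU_eq, UU_eq, Finset.sum_comm]
  refine Finset.sum_congr rfl fun j _ => Finset.sum_congr rfl fun i _ => ?_
  have a1 := ne_of_unit (h1 i)
  have a2 := ne_of_unit (h1 j)
  rw [conj_unit (h1 j), conj_unit (h1 i)]
  have h2 : (z i * (z j)⁻¹) ^ (2 * N - k) * (z i * (z j)⁻¹) ^ k = 1 := by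
    rw [← pow_add, Nat.sub_add_cancel hk, mul_pow, inv_pow, hl i j,
      mul_inv_cancel₀ (pow_ne_zero _ a2)]
  have h3 : (z j * (z i)⁻¹) ^ k * (z i * (z j)⁻¹) ^ k = 1 := by
    rw [← mul_pow]
    have : z j * (z i)⁻¹ * (z i * (z j)⁻¹) = 1 := by field_simp
    rw [this, one_pow]
  have h4 : (z i * (z j)⁻¹) ^ k ≠ 0 := pow_ne_zero _ (mul_ne_zero a1 (inv_ne_zero a2))
  exact mul_right_cancel₀ h4 (h2.trans h3.symm)

lemma Psi_lat (hN : 0 < N) {z : Fin N → ℂ} (h1 : ∀ i, ‖z i‖ = 1)
    (hl : ∀ i j, z i ^ (2 * N) = z j ^ (2 * N)) :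
    Psi z = 2 * N * (∑ i, ∑ j, if z i = z j then (1 : ℂ) else 0) - 2 * (N : ℂ) ^ 2 := by
  have e1 : ∑ k ∈ range (2 * N), UU z k =
      2 * N * (∑ i, ∑ j, if z i = z j then (1 : ℂ) else 0) := by
    simp only [UU_eq]
    rw [Finset.sum_comm, Finset.mul_sum]
    refine Finset.sum_congr rfl fun i _ => ?_
    rw [Finset.sum_comm, Finset.mul_sum]
    refine Finset.sum_congr rfl fun j _ => ?_
    have a2 := ne_of_unit (h1 j)
    rw [conj_unit (h1 j)]
    set u := z i * (z j)⁻¹ with hu
    have hu1 : u ^ (2 * N) = 1 := by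
      rw [hu, mul_pow, inv_pow, hl i j, mul_inv_cancel₀ (pow_ne_zero _ a2)]
    split_ifs with h
    · have : u = 1 := by rw [hu, h, mul_inv_cancel₀ a2]
      rw [this]
      simp
    · have hne : u ≠ 1 := by
        intro h3
        apply h
        rw [hu, mul_inv_eq_one₀ a2] at h3
        exact h3
      have := geom_sum_mul u (2 * N)
      rw [hu1, sub_self] at this
      rw [(mul_eq_zero.1 this).resolve_right (sub_ne_zero.2 hne), mul_zero]
  have e2 : ∑ k ∈ range (2 * N), UU z k =
      ∑ k ∈ range (N + 1), UU z k + ∑ k ∈ Ico 1 N, UU z k := by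
    rw [← Finset.sum_range_add_sum_Ico _ (show N + 1 ≤ 2 * N by omega)]
    congr 1
    have h2 := Finset.sum_Ico_reflect (fun k => UU z k) 1 (m := N) (n := 2 * N) (by omega)
    have e3 : 2 * N + 1 - N = N + 1 := by omega
    have e4 : 2 * N + 1 - 1 = 2 * N := by omega
    rw [e3, e4] at h2
    rw [← h2]
    refine Finset.sum_congr rfl fun k hk => ?_
    exact UU_symm h1 hl (by have := (Finset.mem_Ico.1 hk).2; omega)
  unfold Psi
  rw [← e2, e1]
  have : UU z 0 = (N : ℂ) ^ 2 := by
    rw [UU_eq]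
    simp
    ring
  rw [this]

/-- on a grid the functional is nonnegative, and it vanishes only if the points are different -/
lemma Psi_count (hN : 0 < N) {z : Fin N → ℂ} (h1 : ∀ i, ‖z i‖ = 1)
    (hl : ∀ i j, z i ^ (2 * N) = z j ^ (2 * N)) :
    ∃ r : ℝ, 0 ≤ r ∧ Psi z = r ∧ (r = 0 ↔ Function.Injective z) := by
  have hNr : (0 : ℝ) < N := by exact_mod_cast hN
  set c : ℝ := ∑ i, ∑ j, if z i = z j then (1 : ℝ) else 0 with hc
  have hrow : ∀ i, 1 ≤ ∑ j, if z i = z j then (1 : ℝ) else 0 := by
    intro i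
    have := Finset.single_le_sum (f := fun j => if z i = z j then (1 : ℝ) else 0)
      (fun j _ => by split_ifs <;> norm_num) (Finset.mem_univ i)
    simpa using this
  have hcN : (N : ℝ) ≤ c := by
    have h3 := Finset.sum_le_sum (s := univ) fun i (_ : i ∈ univ) => hrow i
    have h4 : ∑ _i : Fin N, (1 : ℝ) = N := by simp
    rw [h4] at h3
    exact h3
  refine ⟨2 * N * (c - N), mul_nonneg (by positivity) (by linarith), ?_, ?_⟩
  · rw [Psi_lat hN h1 hl]
    have : (∑ i, ∑ j, if z i = z j then (1 : ℂ) else 0) = (c : ℂ) := by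
      rw [hc]
      push_cast
      refine Finset.sum_congr rfl fun i _ => Finset.sum_congr rfl fun j _ => ?_
      split_ifs <;> simp
    rw [this]
    push_cast
    ring
  · constructor
    · intro h i j hij
      by_contra hne
      have hcN' : c = N := by
        rcases mul_eq_zero.1 h with h2 | h2
        · exact absurd h2 (by positivity)
        · linarith
      have hlt : (N : ℝ) < c := by
        have h3 : ∑ i : Fin N, (1 : ℝ) < ∑ i, ∑ j, if z i = z j then (1 : ℝ) else 0 := by
          refine Finset.sum_lt_sum (fun i _ => hrow i) ⟨i, Finset.mem_univ i, ?_⟩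
          have h4 : ∑ k ∈ ({i, j} : Finset (Fin N)), (if z i = z k then (1 : ℝ) else 0) ≤
              ∑ k, if z i = z k then (1 : ℝ) else 0 :=
            Finset.sum_le_sum_of_subset_of_nonneg (Finset.subset_univ _)
              (fun k _ _ => by split_ifs <;> norm_num)
          rw [Finset.sum_pair hne, if_pos rfl, if_pos hij] at h4
          linarith
        have h4 : ∑ _i : Fin N, (1 : ℝ) = N := by simp
        rw [h4] at h3
        exact h3
      linarith
    · intro hinj
      have : c = N := by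
        rw [hc]
        have : ∀ i, (∑ j, if z i = z j then (1 : ℝ) else 0) = 1 := by
          intro i
          rw [Finset.sum_eq_single i]
          · simp
          · intro j _ hj
            rw [if_neg fun h => hj (hinj h).symm]
          · intro h
            exact absurd (Finset.mem_univ i) h
        simp [this]
      rw [this]
      ring

/-- different points of the grid are separated -/
lemma root_dist (hN : 0 < N) {u : ℂ} (hu : u ^ (2 * N) = 1) (hu1 : u ≠ 1) :
    ‖1 - om N‖ ≤ ‖1 - u‖ := by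
  have hNr : (0 : ℝ) < N := by exact_mod_cast hN
  haveI : NeZero (2 * N) := ⟨by omega⟩
  obtain ⟨k, hk, hku⟩ := (om_prim hN).eq_pow_of_pow_eq_one hu
  have hk0 : k ≠ 0 := by
    rintro rfl
    exact hu1 (by rw [← hku, pow_zero])
  have hns : ∀ m : ℕ, Complex.normSq (1 - om N ^ m) = 2 - 2 * Real.cos (Real.pi * m / N) := by
    intro m
    have e : om N ^ m = Complex.exp ((-(Real.pi * m / N) : ℝ) * Complex.I) := by
      unfold om
      rw [← Complex.exp_nat_mul]
      congr 1
      push_cast
      ring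
    rw [Complex.normSq_sub, Complex.normSq_eq_norm_sq, Complex.normSq_eq_norm_sq, norm_pow,
      om_norm]
    have : ((1 : ℂ) * (starRingEnd ℂ) (om N ^ m)).re = Real.cos (Real.pi * m / N) := by
      rw [one_mul, Complex.conj_re, e, Complex.exp_ofReal_mul_I_re, Real.cos_neg]
    rw [this]
    norm_num
  have h1 := hns 1
  have h2 := hns k
  rw [pow_one] at h1
  rw [hku] at h2
  have hpi := Real.pi_pos
  have hle : Real.cos (Real.pi * k / N) ≤ Real.cos (Real.pi * (1 : ℕ) / N) := by
    have hk1 : (1 : ℝ) ≤ k := by exact_mod_cast Nat.one_le_iff_ne_zero.2 hk0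
    by_cases hkN : k ≤ N
    · have hkN' : (k : ℝ) ≤ N := by exact_mod_cast hkN
      apply Real.cos_le_cos_of_nonneg_of_le_pi
      · positivity
      · rw [div_le_iff₀ hNr]
        nlinarith
      · rw [div_le_div_iff_of_pos_right hNr]
        push_cast
        nlinarith
    · have e : Real.cos (Real.pi * k / N) = Real.cos (Real.pi * (2 * N - k) / N) := by
        rw [← Real.cos_two_pi_sub]
        congr 1
        field_simp
      rw [e]
      have h3 : (k : ℝ) + 1 ≤ 2 * N := by exact_mod_cast hk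
      have h4 : (N : ℝ) ≤ k := by exact_mod_cast (by omega : N ≤ k)
      apply Real.cos_le_cos_of_nonneg_of_le_pi
      · positivity
      · rw [div_le_iff₀ hNr]
        nlinarith
      · rw [div_le_div_iff_of_pos_right hNr]
        push_cast
        nlinarith
  have h5 : Complex.normSq (1 - om N) ≤ Complex.normSq (1 - u) := by
    rw [h1, h2]
    linarith
  rw [Complex.normSq_eq_norm_sq, Complex.normSq_eq_norm_sq] at h5
  exact le_of_sq_le_sq h5 (norm_nonneg _) |>.trans le_rfl

end

end Pool.Agent.R319.UM
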