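import Pool.Agent.R319.UM6

/-!
The unitary model: moments of degree at most `N`.
-/

open Finset MeasureTheory

namespace Pool.Agent.R319.UM

noncomputable section

variable {N : ℕ}

/-- the squared Vandermonde determinant -/
def V2 (z : Fin N → ℂ) : ℝ := ∏ i, ∏ j ∈ Finset.Ioi i, ‖z j - z i‖ ^ 2

/-- the mean of `f` over the eigenvalues of a Haar distributed unitary `N × N` matrix -/
def cue (f : (Fin N → ℂ) → ℂ) : ℂ :=
  ((N.factorial : ℂ) * (2 * Real.pi) ^ N)⁻¹ * ∫ θ in box N, f (ez θ) * (V2 (ez θ) : ℂ)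

/-- the mean over the grid -/
def grid (f : (Fin N → ℂ) → ℂ) : ℂ :=
  ((N.factorial : ℂ) * ((2 * N : ℕ) : ℂ) ^ N)⁻¹ *
    ∑ k : Fin N → Fin (2 * N), f (gz (2 * N) k) * (V2 (gz (2 * N) k) : ℂ)

/-- the Vandermonde polynomial -/
def VP (N : ℕ) : MvPolynomial (Fin N) ℂ :=
  (Matrix.vandermonde (fun i => (MvPolynomial.X i : MvPolynomial (Fin N) ℂ))).det

lemma VP_eval (z : Fin N → ℂ) :
    MvPolynomial.eval z (VP N) * (starRingEnd ℂ) (MvPolynomial.eval z (VP N)) = (V2 z : ℂ) := by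
  have h : MvPolynomial.eval z (VP N) = ∏ i, ∏ j ∈ Finset.Ioi i, (z j - z i) := by
    unfold VP
    rw [Matrix.det_vandermonde, map_prod]
    refine Finset.prod_congr rfl fun i _ => ?_
    rw [map_prod]
    refine Finset.prod_congr rfl fun j _ => ?_
    simp
  rw [h, Complex.mul_conj, Complex.normSq_eq_norm_sq, norm_prod]
  unfold V2
  congr 1
  rw [← Finset.prod_pow]
  refine Finset.prod_congr rfl fun i _ => ?_
  rw [norm_prod, ← Finset.prod_pow]

lemma VP_deg (hN : 0 < N) (k : Fin N) : (VP N).degreeOf k ≤ N - 1 := by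
  unfold VP
  rw [Matrix.det_apply]
  refine (MvPolynomial.degreeOf_sum_le _ _ _).trans (Finset.sup_le fun σ _ => ?_)
  have h1 : ∀ p : MvPolynomial (Fin N) ℂ,
      MvPolynomial.degreeOf k (Equiv.Perm.sign σ • p) ≤ MvPolynomial.degreeOf k p := by
    intro p
    rcases Int.units_eq_one_or (Equiv.Perm.sign σ) with h | h
    · rw [h, one_smul]
    · rw [h, Units.neg_smul, one_smul, MvPolynomial.degreeOf_neg]
  refine (h1 _).trans ?_
  refine (MvPolynomial.degreeOf_prod_le _ _ _).trans ?_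
  simp only [Matrix.vandermonde_apply]
  have h2 : ∀ i : Fin N, MvPolynomial.degreeOf k
      ((MvPolynomial.X (σ i) : MvPolynomial (Fin N) ℂ) ^ (i : ℕ)) ≤
      if i = σ.symm k then N - 1 else 0 := by
    intro i
    refine (MvPolynomial.degreeOf_pow_le _ _ _).trans ?_
    rw [MvPolynomial.degreeOf_X]
    by_cases h : k = σ i
    · rw [if_pos h, if_pos (by rw [h, Equiv.symm_apply_apply])]
      have := i.2
      omega
    · rw [if_neg h]
      omega
  refine (Finset.sum_le_sum fun i _ => h2 i).trans ?_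
  rw [Finset.sum_ite_eq' univ (σ.symm k)]
  simp

/-- the torus mean of a product of polynomials of degree at most `N` is the grid mean -/
theorem cue_eq_grid (hN : 0 < N) (F G : MvPolynomial (Fin N) ℂ) (hF : F.totalDegree ≤ N)
    (hG : G.totalDegree ≤ N) :
    cue (fun z => MvPolynomial.eval z F * (starRingEnd ℂ) (MvPolynomial.eval z G)) =
      grid (fun z => MvPolynomial.eval z F * (starRingEnd ℂ) (MvPolynomial.eval z G)) := by
  have hd : ∀ P : MvPolynomial (Fin N) ℂ, P.totalDegree ≤ N →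
      ∀ j, (P * VP N).degreeOf j < 2 * N := by
    intro P hP j
    refine lt_of_le_of_lt (MvPolynomial.degreeOf_mul_le _ _ _) ?_
    have h1 := MvPolynomial.degreeOf_le_totalDegree P j
    have h2 := VP_deg hN j
    omega
  have h := torus_eq_grid (M := 2 * N) (by omega) (F * VP N) (G * VP N) (hd F hF) (hd G hG)
  have e : ∀ z : Fin N → ℂ, MvPolynomial.eval z (F * VP N) *
      (starRingEnd ℂ) (MvPolynomial.eval z (G * VP N)) =
      MvPolynomial.eval z F * (starRingEnd ℂ) (MvPolynomial.eval z G) * (V2 z : ℂ) := by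
    intro z
    rw [map_mul, map_mul, map_mul, ← VP_eval]
    ring
  simp only [e] at h
  unfold cue grid
  rw [mul_inv, mul_inv, mul_assoc, mul_assoc, h]

/-! ### the functionals have mean zero -/

lemma gz_unit (k : Fin N → Fin (2 * N)) (j : Fin N) : ‖gz (2 * N) k j‖ = 1 := by
  unfold gz
  rw [norm_pow]
  have : (2 * Real.pi * Complex.I / (2 * N : ℕ) : ℂ) =
      ((2 * Real.pi / (2 * N : ℕ) : ℝ) : ℂ) * Complex.I := by
    push_cast
    ring
  rw [this, Complex.norm_exp_ofReal_mul_I, one_pow]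

lemma gz_pow (hN : 0 < N) (k : Fin N → Fin (2 * N)) (j : Fin N) :
    gz (2 * N) k j ^ (2 * N) = 1 := by
  unfold gz
  rw [pow_right_comm, (Complex.isPrimitiveRoot_exp (2 * N) (by omega)).pow_eq_one, one_pow]

lemma V2_zero {z : Fin N → ℂ} (h : ¬ Function.Injective z) : V2 z = 0 := by
  have hdet : (Matrix.vandermonde z).det = 0 := by
    by_contra hne
    exact h (Matrix.det_vandermonde_ne_zero_iff.1 hne)
  rw [Matrix.det_vandermonde] at hdet
  unfold V2
  obtain ⟨i, -, hi⟩ := Finset.prod_eq_zero_iff.1 hdet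
  obtain ⟨j, hj, hij⟩ := Finset.prod_eq_zero_iff.1 hi
  apply Finset.prod_eq_zero (Finset.mem_univ i)
  apply Finset.prod_eq_zero hj
  rw [hij, norm_zero]
  norm_num

lemma Phi_grid (hN : 0 < N) : grid (N := N) Phi = 0 := by
  unfold grid
  rw [Finset.sum_eq_zero, mul_zero]
  intro k _
  by_cases h : Function.Injective (gz (2 * N) k)
  · have h1 := gz_unit k
    rw [Phi_eq hN h1 h]
    have h2 := (vanish_iff hN h1 h).2 (fun i j => by rw [gz_pow hN, gz_pow hN])
    rw [Finset.sum_eq_zero, zero_mul]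
    intro j _
    rcases h2 j with h3 | h3
    · rw [h3, zero_mul]
    · rw [h3, zero_mul, mul_zero]
  · rw [V2_zero h]
    simp

lemma Psi_grid (hN : 0 < N) : grid (N := N) Psi = 0 := by
  unfold grid
  rw [Finset.sum_eq_zero, mul_zero]
  intro k _
  by_cases h : Function.Injective (gz (2 * N) k)
  · obtain ⟨r, -, h2, h3⟩ := Psi_count hN (gz_unit k) (fun i j => by rw [gz_pow hN, gz_pow hN])
    rw [h2, h3.2 h]
    simp
  · rw [V2_zero h]
    simp

/-- the moment hypothesis -/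
def Moments (N : ℕ) (ν : Measure (Fin N → ℂ)) : Prop :=
  ∀ n ≤ N, ∀ F G : MvPolynomial (Fin N) ℂ, F.IsSymmetric → G.IsSymmetric →
    F.IsHomogeneous n → G.IsHomogeneous n →
    ∫ z, MvPolynomial.eval z F * (starRingEnd ℂ) (MvPolynomial.eval z G) ∂ν =
      cue (fun z => MvPolynomial.eval z F * (starRingEnd ℂ) (MvPolynomial.eval z G))

lemma poly_cont (F : MvPolynomial (Fin N) ℂ) :
    Continuous fun z : Fin N → ℂ => MvPolynomial.eval z F := by
  simp only [MvPolynomial.eval_eq']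
  fun_prop

lemma poly_int {ν : Measure (Fin N → ℂ)} [IsProbabilityMeasure ν]
    (h1 : ∀ᵐ z ∂ν, ∀ i, ‖z i‖ = 1) (F G : MvPolynomial (Fin N) ℂ) :
    Integrable (fun z => MvPolynomial.eval z F * (starRingEnd ℂ) (MvPolynomial.eval z G)) ν := by
  have hb : ∀ P : MvPolynomial (Fin N) ℂ, ∀ z : Fin N → ℂ, (∀ i, ‖z i‖ = 1) →
      ‖MvPolynomial.eval z P‖ ≤ ∑ d ∈ P.support, ‖P.coeff d‖ := by
    intro P z hz
    rw [MvPolynomial.eval_eq']
    refine (norm_sum_le _ _).trans (Finset.sum_le_sum fun d _ => ?_)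
    rw [norm_mul, norm_prod]
    have : ∏ i, ‖z i ^ d i‖ = 1 := Finset.prod_eq_one fun i _ => by rw [norm_pow, hz, one_pow]
    rw [this, mul_one]
  refine Integrable.of_bound (C := (∑ d ∈ F.support, ‖F.coeff d‖) *
    (∑ d ∈ G.support, ‖G.coeff d‖)) ?_ ?_
  · exact ((poly_cont F).mul (Complex.continuous_conj.comp (poly_cont G))).aestronglyMeasurable
  · filter_upwards [h1] with z hz
    rw [norm_mul, Complex.norm_conj]
    exact mul_le_mul (hb F z hz) (hb G z hz) (norm_nonneg _)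
      (Finset.sum_nonneg fun _ _ => norm_nonneg _)

lemma mom_grid (hN : 0 < N) {ν : Measure (Fin N → ℂ)} (hm : Moments N ν) {n : ℕ} (hn : n ≤ N)
    {F G : MvPolynomial (Fin N) ℂ} (hF : F.IsSymmetric) (hG : G.IsSymmetric)
    (hF' : F.IsHomogeneous n) (hG' : G.IsHomogeneous n) :
    ∫ z, MvPolynomial.eval z F * (starRingEnd ℂ) (MvPolynomial.eval z G) ∂ν =
      grid (fun z => MvPolynomial.eval z F * (starRingEnd ℂ) (MvPolynomial.eval z G)) := by
  rw [hm n hn F G hF hG hF' hG']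
  exact cue_eq_grid hN F G (hF'.totalDegree_le.trans hn) (hG'.totalDegree_le.trans hn)

lemma grid_sum {ι : Type*} (s : Finset ι) (f : ι → (Fin N → ℂ) → ℂ) :
    grid (fun z => ∑ i ∈ s, f i z) = ∑ i ∈ s, grid (f i) := by
  unfold grid
  rw [← Finset.mul_sum, Finset.sum_comm]
  congr 1
  refine Finset.sum_congr rfl fun k _ => ?_
  rw [Finset.sum_mul]

lemma grid_mul (c : ℂ) (f : (Fin N → ℂ) → ℂ) :
    grid (fun z => c * f z) = c * grid f := by
  unfold grid
  simp only [mul_assoc]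
  rw [← Finset.mul_sum]
  ring

lemma grid_add (f g : (Fin N → ℂ) → ℂ) :
    grid (fun z => f z + g z) = grid f + grid g := by
  unfold grid
  simp only [add_mul]
  rw [Finset.sum_add_distrib]
  ring

lemma grid_sub (f g : (Fin N → ℂ) → ℂ) :
    grid (fun z => f z - g z) = grid f - grid g := by
  unfold grid
  simp only [sub_mul]
  rw [Finset.sum_sub_distrib]
  ring

lemma Phi_int {ν : Measure (Fin N → ℂ)} [IsProbabilityMeasure ν]
    (h1 : ∀ᵐ z ∂ν, ∀ i, ‖z i‖ = 1) : Integrable (Phi (N := N)) ν := by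
  unfold Phi
  refine integrable_finset_sum _ fun k _ => integrable_finset_sum _ fun l _ => ?_
  exact (poly_int h1 _ _).const_mul _

lemma Psi_int {ν : Measure (Fin N → ℂ)} [IsProbabilityMeasure ν]
    (h1 : ∀ᵐ z ∂ν, ∀ i, ‖z i‖ = 1) : Integrable (Psi (N := N)) ν := by
  unfold Psi UU
  refine ((integrable_finset_sum _ fun k _ => poly_int h1 _ _).add
    (integrable_finset_sum _ fun k _ => poly_int h1 _ _)).sub ?_
  exact (poly_int h1 _ _).const_mul _

lemma Phi_mean (hN : 0 < N) {ν : Measure (Fin N → ℂ)} [IsProbabilityMeasure ν]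
    (h1 : ∀ᵐ z ∂ν, ∀ i, ‖z i‖ = 1) (hm : Moments N ν) : ∫ z, Phi z ∂ν = 0 := by
  rw [← Phi_grid hN]
  unfold Phi
  rw [integral_finset_sum _ fun k _ => integrable_finset_sum _ fun l _ =>
    (poly_int h1 _ _).const_mul _, grid_sum]
  refine Finset.sum_congr rfl fun k hk => ?_
  rw [integral_finset_sum _ fun l _ => (poly_int h1 _ _).const_mul _, grid_sum]
  refine Finset.sum_congr rfl fun l hl => ?_
  rw [integral_const_mul, grid_mul, mom_grid hN hm (n := max k l) ?_ (FF_sym k l) (GG_sym k l)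
    (FF_hom k l) (GG_hom k l)]
  rw [Finset.mem_range] at hk hl
  omega

lemma UU_mean (hN : 0 < N) {ν : Measure (Fin N → ℂ)} (hm : Moments N ν) {k : ℕ} (hk : k ≤ N) :
    ∫ z, UU z k ∂ν = grid (fun z : Fin N → ℂ => UU z k) := by
  unfold UU
  exact mom_grid hN hm hk (MvPolynomial.psum_isSymmetric _ _ _)
    (MvPolynomial.psum_isSymmetric _ _ _) (psum_hom k) (psum_hom k)

lemma Psi_mean (hN : 0 < N) {ν : Measure (Fin N → ℂ)} [IsProbabilityMeasure ν]
    (h1 : ∀ᵐ z ∂ν, ∀ i, ‖z i‖ = 1) (hm : Moments N ν) : ∫ z, Psi z ∂ν = 0 := by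
  have hU : ∀ k, Integrable (fun z : Fin N → ℂ => UU z k) ν := fun k => poly_int h1 _ _
  rw [← Psi_grid hN]
  unfold Psi
  have hs : ∀ s : Finset ℕ, Integrable (fun z : Fin N → ℂ => ∑ k ∈ s, UU z k) ν :=
    fun s => integrable_finset_sum _ fun k _ => hU k
  have ha : Integrable (fun z : Fin N → ℂ =>
      ∑ k ∈ range (N + 1), UU z k + ∑ k ∈ Ico 1 N, UU z k) ν := (hs _).add (hs _)
  rw [integral_sub ha ((hU 0).const_mul 2),
    integral_add (hs _) (hs _), integral_finset_sum _ fun k _ => hU k,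
    integral_finset_sum _ fun k _ => hU k, integral_const_mul, grid_sub, grid_add, grid_sum,
    grid_sum, grid_mul, UU_mean hN hm (Nat.zero_le N)]
  congr 2
  · refine Finset.sum_congr rfl fun k hk => UU_mean hN hm ?_
    rw [Finset.mem_range] at hk
    omega
  · refine Finset.sum_congr rfl fun k hk => UU_mean hN hm ?_
    rw [Finset.mem_Ico] at hk
    omega

/-- a complex function with values in `[0, ∞)` almost everywhere and integral zero -/
lemma ae_zero {ν : Measure (Fin N → ℂ)} {f : (Fin N → ℂ) → ℂ} (hf : Integrable f ν)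
    (h0 : ∀ᵐ z ∂ν, ∃ r : ℝ, 0 ≤ r ∧ f z = r) (hint : ∫ z, f z ∂ν = 0) :
    ∀ᵐ z ∂ν, f z = 0 := by
  have h1 : 0 ≤ᵐ[ν] fun z => (f z).re := by
    filter_upwards [h0] with z hz
    obtain ⟨r, hr, hz⟩ := hz
    rw [hz]
    simpa using hr
  have h2 : ∫ z, (f z).re ∂ν = 0 := by
    have := integral_re hf
    rw [hint] at this
    simpa using this
  have h3 := (integral_eq_zero_iff_of_nonneg_ae h1 hf.re).1 h2
  filter_upwards [h3, h0] with z hz hz0
  obtain ⟨r, hr, hz1⟩ := hz0
  rw [hz1]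
  have : (f z).re = 0 := hz
  rw [hz1] at this
  have h4 : r = 0 := by simpa using this
  rw [h4]
  simp

/-- **the main theorem** -/
theorem main (hN : 0 < N) {ν : Measure (Fin N → ℂ)} [IsProbabilityMeasure ν]
    (h1 : ∀ᵐ z ∂ν, ∀ i, ‖z i‖ = 1) (hm : Moments N ν) :
    (∀ᵐ z ∂ν, ∀ i j, i ≠ j → ‖1 - om N‖ ≤ ‖z i - z j‖) ↔
      ∀ᵐ z ∂ν, ∀ i j, z i ^ (2 * N) = z j ^ (2 * N) := by
  have hpos : 0 < ‖1 - om N‖ := norm_pos_iff.2 (sub_ne_zero.2 (om_ne_one hN).symm)
  constructor
  · intro hsep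
    have hinj : ∀ᵐ z ∂ν, Function.Injective z := by
      filter_upwards [hsep] with z hz i j hij
      by_contra hne
      have := hz i j hne
      rw [hij, sub_self, norm_zero] at this
      linarith
    have h0 : ∀ᵐ z ∂ν, ∃ r : ℝ, 0 ≤ r ∧ Phi z = r := by
      filter_upwards [h1, hsep, hinj] with z hz1 hz2 hz3
      have key : ∀ j, ∃ r : ℝ, 0 ≤ r ∧
          tau (om N) z j * (AA z j * (starRingEnd ℂ) (AA z j)) = r := by
        intro j
        obtain ⟨r, hr, hr2⟩ := tau_nonneg hN hz1 hz3 hz2 j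
        refine ⟨r * Complex.normSq (AA z j), mul_nonneg hr (Complex.normSq_nonneg _), ?_⟩
        rw [hr2, Complex.mul_conj]
        push_cast
        ring
      choose r hr hr2 using key
      refine ⟨∑ j, r j, Finset.sum_nonneg fun j _ => hr j, ?_⟩
      rw [Phi_eq hN hz1 hz3]
      push_cast
      exact Finset.sum_congr rfl fun j _ => hr2 j
    have hz := ae_zero (Phi_int h1) h0 (Phi_mean hN h1 hm)
    filter_upwards [hz, h1, hsep, hinj] with z hz0 hz1 hz2 hz3
    refine (vanish_iff hN hz1 hz3).1 ?_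
    rw [Phi_eq hN hz1 hz3] at hz0
    have key : ∀ j, ∃ r : ℝ, 0 ≤ r ∧ tau (om N) z j = r := tau_nonneg hN hz1 hz3 hz2
    choose r hr hr2 using key
    have hsum : ∑ j, r j * Complex.normSq (AA z j) = 0 := by
      have : ((∑ j, r j * Complex.normSq (AA z j) : ℝ) : ℂ) = 0 := by
        rw [← hz0]
        push_cast
        refine Finset.sum_congr rfl fun j _ => ?_
        rw [hr2 j, Complex.mul_conj]
      exact_mod_cast this
    have hall := (Finset.sum_eq_zero_iff_of_nonneg fun j _ =>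
      mul_nonneg (hr j) (Complex.normSq_nonneg (AA z j))).1 hsum
    intro j
    rcases mul_eq_zero.1 (hall j (Finset.mem_univ j)) with h | h
    · left
      rw [hr2 j, h]
      simp
    · right
      exact Complex.normSq_eq_zero.1 h
  · intro hlat
    have h0 : ∀ᵐ z ∂ν, ∃ r : ℝ, 0 ≤ r ∧ Psi z = r := by
      filter_upwards [h1, hlat] with z hz1 hz2
      obtain ⟨r, hr, hr2, -⟩ := Psi_count hN hz1 hz2
      exact ⟨r, hr, hr2⟩
    have hz := ae_zero (Psi_int h1) h0 (Psi_mean hN h1 hm)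
    filter_upwards [hz, h1, hlat] with z hz0 hz1 hz2 i j hij
    obtain ⟨r, hr, hr2, hr3⟩ := Psi_count hN hz1 hz2
    have hr0 : r = 0 := by
      rw [hr2] at hz0
      exact_mod_cast hz0
    have hinj := hr3.1 hr0
    have a1 := ne_of_unit (hz1 i)
    have a2 := ne_of_unit (hz1 j)
    have hu : (z j * (z i)⁻¹) ^ (2 * N) = 1 := by
      rw [mul_pow, inv_pow, hz2 j i, mul_inv_cancel₀ (pow_ne_zero _ a1)]
    have hu1 : z j * (z i)⁻¹ ≠ 1 := by
      intro h
      rw [mul_inv_eq_one₀ a1] at h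
      exact hij (hinj h).symm
    have h3 := root_dist hN hu hu1
    have h4 : z i - z j = z i * (1 - z j * (z i)⁻¹) := by
      field_simp
    rw [h4, norm_mul, hz1 i, one_mul]
    exact h3

end

end Pool.Agent.R319.UM
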