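import Pool.Agent.R319.UM7

/-!
The unitary model: the second moment of the power sum of degree `2N`.
-/

open Finset MeasureTheory

namespace Pool.Agent.R319.UM

noncomputable section

variable {N : ℕ}

lemma sq_ident {u : Fin N → ℂ} (hu : ∀ i, ‖u i‖ = 1) :
    ∑ i, ∑ j, ‖u i - u j‖ ^ 2 = 2 * ((N : ℝ) ^ 2 - ‖∑ i, u i‖ ^ 2) := by
  have h1 : ∀ i j, ‖u i - u j‖ ^ 2 = 2 - 2 * (u i * (starRingEnd ℂ) (u j)).re := by
    intro i j
    rw [← Complex.normSq_eq_norm_sq, Complex.normSq_sub, Complex.normSq_eq_norm_sq,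
      Complex.normSq_eq_norm_sq, hu, hu]
    ring
  have h2 : ‖∑ i, u i‖ ^ 2 = ∑ i, ∑ j, (u i * (starRingEnd ℂ) (u j)).re := by
    rw [← Complex.normSq_eq_norm_sq]
    have h3 : ((Complex.normSq (∑ i, u i) : ℝ) : ℂ) =
        ∑ i, ∑ j, u i * (starRingEnd ℂ) (u j) := by
      rw [← Complex.mul_conj, map_sum, Finset.sum_mul_sum]
    have h4 := congrArg Complex.re h3
    rw [Complex.ofReal_re, Complex.re_sum] at h4
    rw [h4]
    refine Finset.sum_congr rfl fun i _ => ?_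
    rw [Complex.re_sum]
  simp only [h1]
  rw [h2]
  simp only [Finset.sum_sub_distrib, ← Finset.mul_sum, Finset.sum_const, Finset.card_univ,
    Fintype.card_fin, nsmul_eq_mul]
  ring

theorem lat_iff_mom {ν : Measure (Fin N → ℂ)} [IsProbabilityMeasure ν]
    (h1 : ∀ᵐ z ∂ν, ∀ i, ‖z i‖ = 1) :
    (∀ᵐ z ∂ν, ∀ i j, z i ^ (2 * N) = z j ^ (2 * N)) ↔
      ∫ z, ‖∑ j, z j ^ (2 * N)‖ ^ 2 ∂ν = (N : ℝ) ^ 2 := by
  set f : (Fin N → ℂ) → ℝ := fun z => ‖∑ j, z j ^ (2 * N)‖ ^ 2 with hf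
  have hfi : Integrable f ν := by
    refine Integrable.of_bound (C := (N : ℝ) ^ 2) ?_ ?_
    · exact (by fun_prop : Continuous f).aestronglyMeasurable
    · filter_upwards [h1] with z hz
      rw [Real.norm_eq_abs, abs_of_nonneg (sq_nonneg _)]
      refine pow_le_pow_left₀ (norm_nonneg _) ?_ 2
      refine (norm_sum_le _ _).trans ?_
      have : ∀ j, ‖z j ^ (2 * N)‖ = 1 := fun j => by rw [norm_pow, hz, one_pow]
      simp [this]
  have hid : ∀ z : Fin N → ℂ, (∀ i, ‖z i‖ = 1) →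
      ∑ i, ∑ j, ‖z i ^ (2 * N) - z j ^ (2 * N)‖ ^ 2 = 2 * ((N : ℝ) ^ 2 - f z) := by
    intro z hz
    exact sq_ident (u := fun i => z i ^ (2 * N)) fun i => by rw [norm_pow, hz, one_pow]
  have hnn : 0 ≤ᵐ[ν] fun z => (N : ℝ) ^ 2 - f z := by
    filter_upwards [h1] with z hz
    have h2 := hid z hz
    have h3 : 0 ≤ ∑ i, ∑ j, ‖z i ^ (2 * N) - z j ^ (2 * N)‖ ^ 2 :=
      Finset.sum_nonneg fun i _ => Finset.sum_nonneg fun j _ => sq_nonneg _
    show (0 : ℝ) ≤ (N : ℝ) ^ 2 - f z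
    linarith
  have hint : ∫ z, ((N : ℝ) ^ 2 - f z) ∂ν = (N : ℝ) ^ 2 - ∫ z, f z ∂ν := by
    rw [integral_sub (integrable_const _) hfi]
    simp
  have key : (∫ z, f z ∂ν = (N : ℝ) ^ 2) ↔ (fun z => (N : ℝ) ^ 2 - f z) =ᵐ[ν] 0 := by
    rw [← integral_eq_zero_iff_of_nonneg_ae hnn ((integrable_const _).sub hfi), hint]
    constructor <;> intro h <;> linarith
  rw [key]
  constructor
  · intro h
    filter_upwards [h, h1] with z hz hz1
    have h2 := hid z hz1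
    have h3 : ∑ i, ∑ j, ‖z i ^ (2 * N) - z j ^ (2 * N)‖ ^ 2 = 0 :=
      Finset.sum_eq_zero fun i _ => Finset.sum_eq_zero fun j _ => by
        rw [hz i j, sub_self, norm_zero]
        norm_num
    show (N : ℝ) ^ 2 - f z = 0
    linarith
  · intro h
    filter_upwards [h, h1] with z hz hz1 i j
    have h2 := hid z hz1
    have h3 : (N : ℝ) ^ 2 - f z = 0 := hz
    rw [h3, mul_zero] at h2
    have h4 := (Finset.sum_eq_zero_iff_of_nonneg fun i _ =>
      Finset.sum_nonneg fun j _ => sq_nonneg _).1 h2 i (Finset.mem_univ i)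
    have h5 := (Finset.sum_eq_zero_iff_of_nonneg fun j _ => sq_nonneg _).1 h4 j
      (Finset.mem_univ j)
    have h6 : ‖z i ^ (2 * N) - z j ^ (2 * N)‖ = 0 := by
      rwa [sq_eq_zero_iff] at h5
    exact sub_eq_zero.1 (norm_eq_zero.1 h6)

end

end Pool.Agent.R319.UM
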