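import Mathlib

set_option autoImplicit false

/-! # Overlap of two windows -/

namespace Pool.Agent.R319.WB

open MeasureTheory Set

/-- the length of the set of the `t` in `(A, B]` such that `x` and `y` both lie in `(t, t + h]` -/
noncomputable def J (A B h x y : ℝ) : ℝ := max 0 (min (min x y) B - max (max x y - h) A)

/-- the indicator of `t < x ≤ t + h` -/
noncomputable def ind (h x t : ℝ) : ℝ := if t < x ∧ x ≤ t + h then 1 else 0

lemma ind_mul (h x y t : ℝ) : ind h x t * ind h y t =
    (Ico (max x y - h) (min x y)).indicator (fun _ => (1 : ℝ)) t := by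
  unfold ind
  by_cases h1 : t < x ∧ x ≤ t + h
  · by_cases h2 : t < y ∧ y ≤ t + h
    · rw [if_pos h1, if_pos h2, indicator_of_mem, mul_one]
      exact ⟨by rw [sub_le_iff_le_add]; exact max_le h1.2 h2.2, lt_min h1.1 h2.1⟩
    · rw [if_neg h2, mul_zero, indicator_of_notMem]
      rintro ⟨h3, h4⟩
      apply h2
      exact ⟨h4.trans_le (min_le_right _ _), by linarith [le_max_right x y]⟩
  · rw [if_neg h1, zero_mul, indicator_of_notMem]
    rintro ⟨h3, h4⟩
    apply h1
    exact ⟨h4.trans_le (min_le_left _ _), by linarith [le_max_left x y]⟩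

lemma ind_meas (h x : ℝ) : Measurable (ind h x) := by
  unfold ind
  refine Measurable.ite ?_ measurable_const measurable_const
  exact (measurableSet_lt measurable_id measurable_const).inter
    (measurableSet_le measurable_const (measurable_id.add_const h))

lemma ind_sq (h x t : ℝ) : ind h x t * ind h x t = ind h x t := by
  unfold ind
  split_ifs <;> simp

lemma ind_nonneg (h x t : ℝ) : 0 ≤ ind h x t := by
  unfold ind
  split_ifs <;> norm_num

lemma ind_le_one (h x t : ℝ) : ind h x t ≤ 1 := by
  unfold ind
  split_ifs <;> norm_num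

lemma ind_ii (h x y A B : ℝ) : IntervalIntegrable (fun t => ind h x t * ind h y t) volume A B := by
  have h1 : (fun t => ind h x t * ind h y t) =
      (Ico (max x y - h) (min x y)).indicator (fun _ => (1 : ℝ)) := by
    funext t
    exact ind_mul h x y t
  rw [h1]
  refine (MeasureTheory.Integrable.intervalIntegrable ?_)
  rw [integrable_indicator_iff measurableSet_Ico]
  exact integrableOn_const (by simp)

lemma ind_int {A B : ℝ} (hAB : A ≤ B) (h x y : ℝ) :
    ∫ t in A..B, ind h x t * ind h y t = J A B h x y := by
  have h1 : ∀ t, ind h x t * ind h y t =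
      (Ico (max x y - h) (min x y)).indicator (fun _ => (1 : ℝ)) t := ind_mul h x y
  simp_rw [h1]
  rw [intervalIntegral.integral_of_le hAB, integral_indicator measurableSet_Ico,
    Measure.restrict_restrict measurableSet_Ico, integral_const, smul_eq_mul, mul_one]
  rw [measureReal_restrict_apply_univ]
  have h2 : (Ico (max x y - h) (min x y) ∩ Ioc A B : Set ℝ) =ᵐ[volume]
      (Ioc (max x y - h) (min x y) ∩ Ioc A B : Set ℝ) :=
    Ico_ae_eq_Ioc.inter (ae_eq_refl _)
  rw [measureReal_congr h2, Ioc_inter_Ioc, Real.volume_real_Ioc]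
  unfold J
  rw [max_comm]

lemma ind_int1 {A B : ℝ} (hAB : A ≤ B) (h x : ℝ) :
    ∫ t in A..B, ind h x t = J A B h x x := by
  rw [← ind_int hAB]
  simp_rw [ind_sq]

lemma J_nonneg (A B h x y : ℝ) : 0 ≤ J A B h x y := le_max_left _ _

lemma J_mono {A B h x y u : ℝ} (hu : 0 ≤ u) : J A B h x y ≤ J A B (h + u) x y := by
  unfold J
  apply max_le_max le_rfl
  have : max (max x y - (h + u)) A ≤ max (max x y - h) A := max_le_max (by linarith) le_rfl
  linarith

lemma J_diff_le {A B h x y u : ℝ} (hu : 0 ≤ u) :
    J A B (h + u) x y ≤ J A B h x y + u := by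
  unfold J
  apply max_le
  · have := le_max_left 0 (min (min x y) B - max (max x y - h) A)
    linarith
  · have h1 := le_max_right 0 (min (min x y) B - max (max x y - h) A)
    have h2 : max (max x y - h) A ≤ max (max x y - (h + u)) A + u := by
      apply max_le
      · have := le_max_left (max x y - (h + u)) A
        linarith
      · have := le_max_right (max x y - (h + u)) A
        linarith
    linarith

/-- the upper comparison -/
lemma J_up {A B h x y u : ℝ} (hu : 0 ≤ u) (hx : x ≤ B) (hxy : |x - y| ≤ h)
    (hA : A + (h + u) ≤ x ∨ A + (h + u) ≤ y) :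
    u ≤ J A B (h + u) x y - J A B h x y := by
  unfold J
  have h1 : A + (h + u) ≤ max x y := hA.elim (fun h => h.trans (le_max_left _ _))
    (fun h => h.trans (le_max_right _ _))
  have h2 : max (max x y - (h + u)) A = max x y - (h + u) := max_eq_left (by linarith)
  have h3 : max (max x y - h) A = max x y - h := max_eq_left (by linarith)
  have h4 : min (min x y) B = min x y := min_eq_left ((min_le_left _ _).trans hx)
  rw [h2, h3, h4]
  have h5 : max x y - min x y ≤ h := by
    rw [max_sub_min_eq_abs', abs_sub_comm]
    rwa [abs_sub_comm]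
  have e1 : max 0 (min x y - (max x y - (h + u))) = min x y - (max x y - (h + u)) :=
    max_eq_right (by linarith)
  have e2 : max 0 (min x y - (max x y - h)) = min x y - (max x y - h) :=
    max_eq_right (by linarith)
  rw [e1, e2]
  linarith

/-- the difference vanishes outside -/
lemma J_zero {A B h x y u : ℝ}
    (hc : h + u ≤ |x - y| ∨ B + (h + u) ≤ x ∨ B + (h + u) ≤ y ∨ x ≤ A ∨ y ≤ A) :
    J A B (h + u) x y = 0 := by
  unfold J
  apply max_eq_left
  rcases hc with hc | hc | hc | hc | hc
  · have h5 : h + u ≤ max x y - min x y := by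
      rw [max_sub_min_eq_abs', abs_sub_comm]
      rwa [abs_sub_comm]
    have h1 : min (min x y) B ≤ min x y := min_le_left _ _
    have h2 := le_max_left (max x y - (h + u)) A
    linarith
  · have h1 : min (min x y) B ≤ B := min_le_right _ _
    have h2 := le_max_left (max x y - (h + u)) A
    have h3 := le_max_left x y
    linarith
  · have h1 : min (min x y) B ≤ B := min_le_right _ _
    have h2 := le_max_left (max x y - (h + u)) A
    have h3 := le_max_right x y
    linarith
  · have h1 : min (min x y) B ≤ min x y := min_le_left _ _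
    have h2 := le_max_right (max x y - (h + u)) A
    have h3 := min_le_left x y
    linarith
  · have h1 : min (min x y) B ≤ min x y := min_le_left _ _
    have h2 := le_max_right (max x y - (h + u)) A
    have h3 := min_le_right x y
    linarith

lemma J_down {A B h x y u : ℝ} (hu : 0 ≤ u) :
    J A B (h + u) x y - J A B h x y ≤
      u * (if |x - y| < h + u ∧ A < x ∧ A < y ∧ x ≤ B ∧ y ≤ B then 1 else 0) +
      u * (if (B - (h + u) < x ∧ x ≤ B + (h + u)) ∧ (B - (h + u) < y ∧ y ≤ B + (h + u))
        then 1 else 0) := by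
  have h0 := J_diff_le (A := A) (B := B) (h := h) (x := x) (y := y) hu
  have h00 := J_nonneg A B h x y
  by_cases hc : h + u ≤ |x - y| ∨ B + (h + u) ≤ x ∨ B + (h + u) ≤ y ∨ x ≤ A ∨ y ≤ A
  · rw [J_zero hc]
    split_ifs <;> nlinarith
  · push Not at hc
    obtain ⟨h1, h2, h3, h4, h5⟩ := hc
    by_cases h6 : x ≤ B ∧ y ≤ B
    · rw [if_pos ⟨h1, h4, h5, h6.1, h6.2⟩]
      split_ifs <;> nlinarith
    · have h7 : (B - (h + u) < x ∧ x ≤ B + (h + u)) ∧ (B - (h + u) < y ∧ y ≤ B + (h + u)) := by
        rw [abs_lt] at h1
        refine ⟨⟨?_, h2.le⟩, ?_, h3.le⟩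
        · by_contra h8
          push Not at h8
          exact h6 ⟨by linarith [abs_nonneg (x - y)], by linarith⟩
        · by_contra h8
          push Not at h8
          exact h6 ⟨by linarith, by linarith⟩
      rw [if_pos h7]
      split_ifs <;> nlinarith

/-- the single window -/
lemma J_self {A B h x : ℝ} (hh : 0 ≤ h) (h1 : A + h ≤ x) (h2 : x ≤ B) : J A B h x x = h := by
  unfold J
  have e1 : max (x - h) A = x - h := max_eq_left (by linarith)
  rw [max_self, min_self, min_eq_left h2, e1]
  have e2 : max 0 (x - (x - h)) = x - (x - h) := max_eq_right (by linarith)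
  rw [e2]
  ring

lemma J_self_le {A B h x : ℝ} (hh : 0 ≤ h) : J A B h x x ≤ h := by
  unfold J
  rw [max_self, min_self]
  apply max_le hh
  have h1 := min_le_left x B
  have h2 := le_max_left (x - h) A
  linarith

end Pool.Agent.R319.WB
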