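import Pool.Agent.TH850.UV.NVh
import Pool.Agent.R319.WB1

set_option autoImplicit false

/-! # Moments of the counts and pair counts -/

namespace Pool.Agent.R319.WB

open MeasureTheory Set Filter Topology
open H370 (Zf mult mem_Zf good_zeta NN NN_eq)
open Pool.Agent.TH850.UV (cnt cnt_eq NS mS mS_nonneg cnt_crude nv2 NS_nonneg NS_meas NS_le sq_int)

/-- the zeros with ordinate in `(A, B]` -/
noncomputable abbrev Zz (A B : ℝ) : Finset ℂ := Zf riemannZeta A B

lemma mem_Zz {A B : ℝ} (hA : 1 ≤ A) {s : ℂ} : s ∈ Zz A B ↔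
    0 < s.re ∧ s.re < 1 ∧ A < s.im ∧ s.im ≤ B ∧ riemannZeta s = 0 :=
  mem_Zf good_zeta hA

/-- the number of zeros -/
noncomputable def nn (A B : ℝ) : ℝ := ∑ s ∈ Zz A B, mS s

lemma nn_eq {A B : ℝ} (hA : 1 ≤ A) : nn A B = (NN riemannZeta A B : ℝ) := by
  rw [NN_eq good_zeta hA]
  unfold nn mS
  push_cast
  rfl

lemma nn_nonneg (A B : ℝ) : 0 ≤ nn A B := Finset.sum_nonneg fun s _ => mS_nonneg s

lemma Zz_subset {a b a' b' : ℝ} (h : 1 ≤ a') (ha : a' ≤ a) (hb : b ≤ b') : Zz a b ⊆ Zz a' b' := by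
  intro s hs
  rw [mem_Zz (h.trans ha)] at hs
  rw [mem_Zz h]
  exact ⟨hs.1, hs.2.1, ha.trans_lt hs.2.2.1, hs.2.2.2.1.trans hb, hs.2.2.2.2⟩

lemma nn_mono {a b a' b' : ℝ} (h : 1 ≤ a') (ha : a' ≤ a) (hb : b ≤ b') : nn a b ≤ nn a' b' :=
  Finset.sum_le_sum_of_subset_of_nonneg (Zz_subset h ha hb) fun s _ _ => mS_nonneg s

lemma nn_add {a b c : ℝ} (h : 1 ≤ a) (hab : a ≤ b) (hbc : b ≤ c) : nn a c = nn a b + nn b c := by
  rw [nn_eq h, nn_eq h, nn_eq (h.trans hab), H370.NN_add good_zeta h hab hbc]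
  push_cast
  rfl

/-- the sum over the zeros with ordinate in an interval -/
lemma sum_ind_le {A B a b : ℝ} (hA : 1 ≤ A) (ha : 1 ≤ a) :
    ∑ s ∈ Zz A B, mS s * (if a < s.im ∧ s.im ≤ b then (1 : ℝ) else 0) ≤ nn a b := by
  classical
  unfold nn
  have h1 : ∑ s ∈ Zz A B, mS s * (if a < s.im ∧ s.im ≤ b then (1 : ℝ) else 0) =
      ∑ s ∈ (Zz A B).filter (fun s => a < s.im ∧ s.im ≤ b), mS s := by
    rw [Finset.sum_filter]
    refine Finset.sum_congr rfl fun s _ => ?_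
    split_ifs <;> simp
  rw [h1]
  refine Finset.sum_le_sum_of_subset_of_nonneg ?_ fun s _ _ => mS_nonneg s
  intro s hs
  rw [Finset.mem_filter, mem_Zz hA] at hs
  rw [mem_Zz ha]
  exact ⟨hs.1.1, hs.1.2.1, hs.2.1, hs.2.2, hs.1.2.2.2.2⟩

lemma cnt_form {A B t h : ℝ} (hA : 1 ≤ A) (h1 : A ≤ t) (h2 : t + h ≤ B) :
    (cnt t h : ℝ) = ∑ s ∈ Zz A B, mS s * ind h s.im t := by
  rw [cnt_eq hA h1 h2]
  rfl

lemma int_sq {A B B' h : ℝ} (hA : 1 ≤ A) (hAB : A ≤ B) (hB : B + h ≤ B') :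
    IntervalIntegrable (fun t => (cnt t h : ℝ) ^ 2) volume A B ∧
    ∫ t in A..B, (cnt t h : ℝ) ^ 2 =
      ∑ s ∈ Zz A B', ∑ s' ∈ Zz A B', mS s * mS s' * J A B h s.im s'.im := by
  have h1 : ∀ t ∈ Icc A B, (cnt t h : ℝ) ^ 2 =
      ∑ s ∈ Zz A B', ∑ s' ∈ Zz A B', mS s * mS s' * (ind h s.im t * ind h s'.im t) := by
    intro t ht
    rw [cnt_form hA ht.1 (by linarith [ht.2] : t + h ≤ B'), pow_two, Finset.sum_mul_sum]
    refine Finset.sum_congr rfl fun s _ => Finset.sum_congr rfl fun s' _ => ?_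
    ring
  have h2 : ∀ s ∈ Zz A B', ∀ s' ∈ Zz A B', IntervalIntegrable
      (fun t => mS s * mS s' * (ind h s.im t * ind h s'.im t)) volume A B := fun s _ s' _ =>
    (ind_ii h s.im s'.im A B).const_mul _
  have h3 : ∀ s ∈ Zz A B', IntervalIntegrable
      (fun t => ∑ s' ∈ Zz A B', mS s * mS s' * (ind h s.im t * ind h s'.im t)) volume A B := by
    intro s hs
    have := IntervalIntegrable.sum (μ := volume) (a := A) (b := B) (Zz A B')
      (f := fun s' t => mS s * mS s' * (ind h s.im t * ind h s'.im t)) (fun s' hs' => h2 s hs s' hs')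
    refine this.congr fun t _ => ?_
    simp
  constructor
  · have := IntervalIntegrable.sum (μ := volume) (a := A) (b := B) (Zz A B')
      (f := fun s t => ∑ s' ∈ Zz A B', mS s * mS s' * (ind h s.im t * ind h s'.im t)) h3
    refine this.congr fun t ht => ?_
    rw [uIoc_of_le hAB] at ht
    simp only [Finset.sum_apply]
    exact (h1 t ⟨ht.1.le, ht.2⟩).symm
  · have h4 : ∫ t in A..B, (cnt t h : ℝ) ^ 2 = ∫ t in A..B,
        ∑ s ∈ Zz A B', ∑ s' ∈ Zz A B', mS s * mS s' * (ind h s.im t * ind h s'.im t) := by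
      refine intervalIntegral.integral_congr fun t ht => ?_
      rw [uIcc_of_le hAB] at ht
      exact h1 t ht
    rw [h4, intervalIntegral.integral_finset_sum h3]
    refine Finset.sum_congr rfl fun s hs => ?_
    rw [intervalIntegral.integral_finset_sum (h2 s hs)]
    refine Finset.sum_congr rfl fun s' hs' => ?_
    rw [intervalIntegral.integral_const_mul, ind_int hAB]

lemma ind_ii1 (h x A B : ℝ) : IntervalIntegrable (fun t => ind h x t) volume A B := by
  refine (ind_ii h x x A B).congr fun t _ => ?_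
  exact ind_sq h x t

lemma int_one {A B B' h : ℝ} (hA : 1 ≤ A) (hAB : A ≤ B) (hB : B + h ≤ B') :
    IntervalIntegrable (fun t => (cnt t h : ℝ)) volume A B ∧
    ∫ t in A..B, (cnt t h : ℝ) = ∑ s ∈ Zz A B', mS s * J A B h s.im s.im := by
  have h1 : ∀ t ∈ Icc A B, (cnt t h : ℝ) = ∑ s ∈ Zz A B', mS s * ind h s.im t := by
    intro t ht
    exact cnt_form hA ht.1 (by linarith [ht.2])
  have h2 : ∀ s ∈ Zz A B', IntervalIntegrable (fun t => mS s * ind h s.im t) volume A B :=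
    fun s _ => (ind_ii1 h s.im A B).const_mul _
  constructor
  · have := IntervalIntegrable.sum (μ := volume) (a := A) (b := B) (Zz A B')
      (f := fun s t => mS s * ind h s.im t) h2
    refine this.congr fun t ht => ?_
    rw [uIoc_of_le hAB] at ht
    simp only [Finset.sum_apply]
    exact (h1 t ⟨ht.1.le, ht.2⟩).symm
  · have h4 : ∫ t in A..B, (cnt t h : ℝ) = ∫ t in A..B, ∑ s ∈ Zz A B', mS s * ind h s.im t := by
      refine intervalIntegral.integral_congr fun t ht => ?_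
      rw [uIcc_of_le hAB] at ht
      exact h1 t ht
    rw [h4, intervalIntegral.integral_finset_sum h2]
    refine Finset.sum_congr rfl fun s hs => ?_
    rw [intervalIntegral.integral_const_mul, ind_int1 hAB]

/-- the pairs at distance at most `h` -/
noncomputable def P (A B h : ℝ) : ℝ :=
  ∑ s ∈ Zz A B, ∑ s' ∈ Zz A B, mS s * mS s' * (if |s.im - s'.im| ≤ h then 1 else 0)

/-- the pairs at distance less than `h` -/
noncomputable def P' (A B h : ℝ) : ℝ :=
  ∑ s ∈ Zz A B, ∑ s' ∈ Zz A B, mS s * mS s' * (if |s.im - s'.im| < h then 1 else 0)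

lemma dsum_subset {S S' : Finset ℂ} (hS : S ⊆ S') (f : ℂ → ℂ → ℝ)
    (hf : ∀ s ∈ S', ∀ s' ∈ S', 0 ≤ f s s') : ∑ s ∈ S, ∑ s' ∈ S, f s s' ≤ ∑ s ∈ S', ∑ s' ∈ S', f s s' := by
  refine (Finset.sum_le_sum fun s hs => Finset.sum_le_sum_of_subset_of_nonneg hS
    fun s' hs' _ => hf s (hS hs) s' hs').trans ?_
  exact Finset.sum_le_sum_of_subset_of_nonneg hS fun s hs _ => Finset.sum_nonneg fun s' hs' =>
    hf s hs s' hs'

lemma dsum_eq {S S' : Finset ℂ} (hS : S ⊆ S') (f : ℂ → ℂ → ℝ)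
    (hf : ∀ s ∈ S', ∀ s' ∈ S', f s s' ≠ 0 → s ∈ S ∧ s' ∈ S) :
    ∑ s ∈ S', ∑ s' ∈ S', f s s' = ∑ s ∈ S, ∑ s' ∈ S, f s s' := by
  symm
  have h1 : ∑ s ∈ S, ∑ s' ∈ S, f s s' = ∑ s ∈ S, ∑ s' ∈ S', f s s' := by
    refine Finset.sum_congr rfl fun s hs => Finset.sum_subset hS fun s' hs' hn => ?_
    by_contra h
    exact hn (hf s (hS hs) s' hs' h).2
  rw [h1]
  refine Finset.sum_subset hS fun s hs hn => Finset.sum_eq_zero fun s' hs' => ?_
  by_contra h
  exact hn (hf s hs s' hs' h).1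

lemma dsum_mul (S : Finset ℂ) (f : ℂ → ℝ) :
    ∑ s ∈ S, ∑ s' ∈ S, mS s * mS s' * (f s * f s') = (∑ s ∈ S, mS s * f s) ^ 2 := by
  rw [pow_two, Finset.sum_mul_sum]
  refine Finset.sum_congr rfl fun s _ => Finset.sum_congr rfl fun s' _ => ?_
  ring

/-- the upper bound of the pair count -/
theorem P_upper {A B h u : ℝ} (hA : 1 ≤ A) (hAB : A ≤ B) (hh : 0 ≤ h) (hu : 0 ≤ u) :
    u * P A B h ≤ (∫ t in A..B, (cnt t (h + u) : ℝ) ^ 2) - (∫ t in A..B, (cnt t h : ℝ) ^ 2) +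
      u * nn A (A + (h + u)) ^ 2 := by
  rw [(int_sq hA hAB (le_refl (B + (h + u)))).2,
    (int_sq (h := h) hA hAB (by linarith : B + h ≤ B + (h + u))).2]
  rw [← Finset.sum_sub_distrib]
  simp_rw [← Finset.sum_sub_distrib]
  have h1 : ∑ s ∈ Zz A B, ∑ s' ∈ Zz A B,
      (mS s * mS s' * J A B (h + u) s.im s'.im - mS s * mS s' * J A B h s.im s'.im) ≤
      ∑ s ∈ Zz A (B + (h + u)), ∑ s' ∈ Zz A (B + (h + u)),
      (mS s * mS s' * J A B (h + u) s.im s'.im - mS s * mS s' * J A B h s.im s'.im) := by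
    refine dsum_subset (Zz_subset hA le_rfl (by linarith)) _ fun s _ s' _ => ?_
    rw [← mul_sub]
    have := J_mono (A := A) (B := B) (h := h) (x := s.im) (y := s'.im) hu
    exact mul_nonneg (mul_nonneg (mS_nonneg s) (mS_nonneg s')) (by linarith)
  have h2 : ∑ s ∈ Zz A B, ∑ s' ∈ Zz A B, mS s * mS s' *
      ((if A < s.im ∧ s.im ≤ A + (h + u) then (1 : ℝ) else 0) *
      (if A < s'.im ∧ s'.im ≤ A + (h + u) then (1 : ℝ) else 0)) ≤ nn A (A + (h + u)) ^ 2 := by
    rw [dsum_mul (Zz A B) (fun s => if A < s.im ∧ s.im ≤ A + (h + u) then (1 : ℝ) else 0)]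
    apply pow_le_pow_left₀
    · refine Finset.sum_nonneg fun s _ => mul_nonneg (mS_nonneg s) ?_
      split_ifs <;> norm_num
    · exact sum_ind_le hA hA
  have h3 : u * P A B h ≤ (∑ s ∈ Zz A B, ∑ s' ∈ Zz A B,
      (mS s * mS s' * J A B (h + u) s.im s'.im - mS s * mS s' * J A B h s.im s'.im)) +
      u * ∑ s ∈ Zz A B, ∑ s' ∈ Zz A B, mS s * mS s' *
      ((if A < s.im ∧ s.im ≤ A + (h + u) then (1 : ℝ) else 0) *
      (if A < s'.im ∧ s'.im ≤ A + (h + u) then (1 : ℝ) else 0)) := by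
    unfold P
    rw [Finset.mul_sum, Finset.mul_sum, ← Finset.sum_add_distrib]
    refine Finset.sum_le_sum fun s hs => ?_
    rw [Finset.mul_sum, Finset.mul_sum, ← Finset.sum_add_distrib]
    refine Finset.sum_le_sum fun s' hs' => ?_
    rw [mem_Zz hA] at hs hs'
    have hm : 0 ≤ mS s * mS s' := mul_nonneg (mS_nonneg s) (mS_nonneg s')
    rw [← mul_sub, show u * (mS s * mS s' * (if |s.im - s'.im| ≤ h then (1 : ℝ) else 0)) =
      mS s * mS s' * (u * (if |s.im - s'.im| ≤ h then (1 : ℝ) else 0)) by ring,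
      show u * (mS s * mS s' * ((if A < s.im ∧ s.im ≤ A + (h + u) then (1 : ℝ) else 0) *
      (if A < s'.im ∧ s'.im ≤ A + (h + u) then (1 : ℝ) else 0))) = mS s * mS s' *
      (u * ((if A < s.im ∧ s.im ≤ A + (h + u) then (1 : ℝ) else 0) *
      (if A < s'.im ∧ s'.im ≤ A + (h + u) then (1 : ℝ) else 0))) by ring, ← mul_add]
    apply mul_le_mul_of_nonneg_left _ hm
    have hJ := J_mono (A := A) (B := B) (h := h) (x := s.im) (y := s'.im) hu
    by_cases hx : |s.im - s'.im| ≤ h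
    · rw [if_pos hx, mul_one]
      by_cases hc : A + (h + u) ≤ s.im ∨ A + (h + u) ≤ s'.im
      · have h4 := J_up hu hs.2.2.2.1 hx hc
        have h5 : 0 ≤ u * ((if A < s.im ∧ s.im ≤ A + (h + u) then (1 : ℝ) else 0) *
          (if A < s'.im ∧ s'.im ≤ A + (h + u) then (1 : ℝ) else 0)) := by
          split_ifs <;> simp [hu]
        linarith
      · push Not at hc
        rw [if_pos ⟨hs.2.2.1, hc.1.le⟩, if_pos ⟨hs'.2.2.1, hc.2.le⟩]
        linarith
    · rw [if_neg hx, mul_zero]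
      have h5 : 0 ≤ u * ((if A < s.im ∧ s.im ≤ A + (h + u) then (1 : ℝ) else 0) *
          (if A < s'.im ∧ s'.im ≤ A + (h + u) then (1 : ℝ) else 0)) := by
        split_ifs <;> simp [hu]
      linarith
  have h6 := mul_le_mul_of_nonneg_left h2 hu
  linarith

/-- the lower bound of the pair count -/
theorem P_lower {A B h u : ℝ} (hA : 1 ≤ A) (hAB : A ≤ B) (hh : 0 ≤ h) (hu : 0 ≤ u)
    (hB : 1 ≤ B - (h + u)) :
    (∫ t in A..B, (cnt t (h + u) : ℝ) ^ 2) - (∫ t in A..B, (cnt t h : ℝ) ^ 2) ≤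
      u * P' A B (h + u) + u * nn (B - (h + u)) (B + (h + u)) ^ 2 := by
  rw [(int_sq hA hAB (le_refl (B + (h + u)))).2,
    (int_sq (h := h) hA hAB (by linarith : B + h ≤ B + (h + u))).2]
  rw [← Finset.sum_sub_distrib]
  simp_rw [← Finset.sum_sub_distrib]
  set S' := Zz A (B + (h + u)) with hS'
  have h1 : ∑ s ∈ S', ∑ s' ∈ S',
      (mS s * mS s' * J A B (h + u) s.im s'.im - mS s * mS s' * J A B h s.im s'.im) ≤
      u * (∑ s ∈ S', ∑ s' ∈ S', mS s * mS s' *
        (if |s.im - s'.im| < h + u ∧ A < s.im ∧ A < s'.im ∧ s.im ≤ B ∧ s'.im ≤ B then 1 else 0)) +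
      u * ∑ s ∈ S', ∑ s' ∈ S', mS s * mS s' *
        ((if B - (h + u) < s.im ∧ s.im ≤ B + (h + u) then 1 else 0) *
        (if B - (h + u) < s'.im ∧ s'.im ≤ B + (h + u) then 1 else 0)) := by
    rw [Finset.mul_sum, Finset.mul_sum, ← Finset.sum_add_distrib]
    refine Finset.sum_le_sum fun s hs => ?_
    rw [Finset.mul_sum, Finset.mul_sum, ← Finset.sum_add_distrib]
    refine Finset.sum_le_sum fun s' hs' => ?_
    have hm : 0 ≤ mS s * mS s' := mul_nonneg (mS_nonneg s) (mS_nonneg s')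
    have h4 := J_down (A := A) (B := B) (h := h) (x := s.im) (y := s'.im) hu
    have h5 := mul_le_mul_of_nonneg_left h4 hm
    rw [mul_sub] at h5
    refine h5.trans (le_of_eq ?_)
    have e1 : (if (B - (h + u) < s.im ∧ s.im ≤ B + (h + u)) ∧ B - (h + u) < s'.im ∧
        s'.im ≤ B + (h + u) then (1 : ℝ) else 0) =
        (if B - (h + u) < s.im ∧ s.im ≤ B + (h + u) then 1 else 0) *
        (if B - (h + u) < s'.im ∧ s'.im ≤ B + (h + u) then 1 else 0) := by
      rw [ite_and]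
      split_ifs <;> simp
    rw [e1]
    ring
  have h2 : ∑ s ∈ S', ∑ s' ∈ S', mS s * mS s' *
        (if |s.im - s'.im| < h + u ∧ A < s.im ∧ A < s'.im ∧ s.im ≤ B ∧ s'.im ≤ B
          then (1 : ℝ) else 0) = P' A B (h + u) := by
    unfold P'
    have hsub : Zz A B ⊆ S' := Zz_subset hA le_rfl (by linarith)
    rw [dsum_eq hsub]
    · refine Finset.sum_congr rfl fun s hs => Finset.sum_congr rfl fun s' hs' => ?_
      rw [mem_Zz hA] at hs hs'
      congr 1
      by_cases h6 : |s.im - s'.im| < h + u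
      · rw [if_pos h6, if_pos ⟨h6, hs.2.2.1, hs'.2.2.1, hs.2.2.2.1, hs'.2.2.2.1⟩]
      · rw [if_neg h6, if_neg (fun h7 => h6 h7.1)]
    · intro s hs s' hs' hne
      rw [hS', mem_Zz hA] at hs hs'
      have h7 : |s.im - s'.im| < h + u ∧ A < s.im ∧ A < s'.im ∧ s.im ≤ B ∧ s'.im ≤ B := by
        by_contra h8
        rw [if_neg h8, mul_zero] at hne
        exact hne rfl
      rw [mem_Zz hA, mem_Zz hA]
      exact ⟨⟨hs.1, hs.2.1, h7.2.1, h7.2.2.2.1, hs.2.2.2.2⟩,
        hs'.1, hs'.2.1, h7.2.2.1, h7.2.2.2.2, hs'.2.2.2.2⟩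
  have h3 : ∑ s ∈ S', ∑ s' ∈ S', mS s * mS s' *
        ((if B - (h + u) < s.im ∧ s.im ≤ B + (h + u) then (1 : ℝ) else 0) *
        (if B - (h + u) < s'.im ∧ s'.im ≤ B + (h + u) then 1 else 0)) ≤
        nn (B - (h + u)) (B + (h + u)) ^ 2 := by
    rw [dsum_mul S' (fun s => if B - (h + u) < s.im ∧ s.im ≤ B + (h + u) then (1 : ℝ) else 0)]
    apply pow_le_pow_left₀
    · refine Finset.sum_nonneg fun s _ => mul_nonneg (mS_nonneg s) ?_
      split_ifs <;> norm_num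
    · exact sum_ind_le hA hB
  rw [h2] at h1
  have h6 := mul_le_mul_of_nonneg_left h3 hu
  linarith

/-- the first moment -/
theorem first_moment {A B h : ℝ} (hA : 1 ≤ A) (hAB : A ≤ B) (hh : 0 ≤ h) :
    |(∫ t in A..B, (cnt t h : ℝ)) - h * nn A B| ≤ h * (nn A (A + h) + nn B (B + h)) := by
  rw [(int_one hA hAB (le_refl (B + h))).2]
  have hup : ∑ s ∈ Zz A (B + h), mS s * J A B h s.im s.im ≤ h * nn A (B + h) := by
    unfold nn
    rw [Finset.mul_sum]
    refine Finset.sum_le_sum fun s _ => ?_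
    rw [mul_comm h]
    exact mul_le_mul_of_nonneg_left (J_self_le hh) (mS_nonneg s)
  rw [nn_add (b := B) hA hAB (by linarith)] at hup
  have hlo : h * nn A B - h * nn A (A + h) ≤ ∑ s ∈ Zz A (B + h), mS s * J A B h s.im s.im := by
    have h1 : ∑ s ∈ Zz A B, mS s * J A B h s.im s.im ≤
        ∑ s ∈ Zz A (B + h), mS s * J A B h s.im s.im :=
      Finset.sum_le_sum_of_subset_of_nonneg (Zz_subset hA le_rfl (by linarith)) fun s _ _ =>
        mul_nonneg (mS_nonneg s) (J_nonneg _ _ _ _ _)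
    have h2 := mul_le_mul_of_nonneg_left (sum_ind_le (A := A) (B := B) (a := A) (b := A + h) hA hA) hh
    have h3 : h * nn A B - h * (∑ s ∈ Zz A B, mS s * (if A < s.im ∧ s.im ≤ A + h then (1 : ℝ)
        else 0)) ≤ ∑ s ∈ Zz A B, mS s * J A B h s.im s.im := by
      unfold nn
      rw [Finset.mul_sum, Finset.mul_sum, ← Finset.sum_sub_distrib]
      refine Finset.sum_le_sum fun s hs => ?_
      rw [mem_Zz hA] at hs
      have hm := mS_nonneg s
      by_cases hc : A < s.im ∧ s.im ≤ A + h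
      · rw [if_pos hc]
        have := J_nonneg A B h s.im s.im
        nlinarith
      · rw [if_neg hc]
        have h4 : A + h ≤ s.im := by
          by_contra h5
          push Not at h5
          exact hc ⟨hs.2.2.1, h5.le⟩
        rw [J_self hh h4 hs.2.2.2.1]
        linarith
    linarith
  rw [abs_le]
  constructor <;> nlinarith [nn_nonneg A (A + h), nn_nonneg B (B + h)]

end Pool.Agent.R319.WB
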