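import Pool.Agent.R319.WB2
import Pool.Agent.H370R2.Count

set_option autoImplicit false

/-! # The second moment on one block -/

namespace Pool.Agent.R319.WB

open MeasureTheory Set Filter Topology
open H370 (Zf mult mem_Zf good_zeta NN NN_eq)
open Pool.Agent.TH850.UV (cnt cnt_eq NS mS mS_nonneg cnt_crude nv2)

/-- local bound for the number of zeros -/
lemma nn_loc : ∃ C : ℝ, 0 < C ∧ ∀ V : ℝ, 10 ≤ V → ∀ A B : ℝ, V - 5 ≤ A → A ≤ B → B ≤ 2 * V + 5 →
    B ≤ A + 10 → nn A B ≤ C * Real.log V := by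
  obtain ⟨C, hC, hz⟩ := H370.zcount good_zeta
  refine ⟨15 * C, by positivity, fun V hV A B hA hAB hB hBA => ?_⟩
  have hlV : 0 ≤ Real.log V := Real.log_nonneg (by linarith)
  have hA1 : 1 ≤ A := by linarith
  have h1 : nn A B ≤ nn A (A + 10) := nn_mono hA1 le_rfl hBA
  have hst : ∀ x : ℝ, A ≤ x → x ≤ A + 8 → nn x (x + 2) ≤ 3 * C * Real.log V := by
    intro x hx hx'
    have h2 := hz (x + 1) (by linarith)
    have e1 : x + 1 - 1 = x := by ring
    have e2 : x + 1 + 1 = x + 2 := by ring
    rw [e1, e2] at h2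
    rw [nn_eq (by linarith)]
    refine h2.trans ?_
    have h3 : Real.log (x + 1) ≤ 3 * Real.log V := by
      have : Real.log (x + 1) ≤ Real.log (V ^ 3) := by
        apply Real.log_le_log (by linarith)
        have h4 : V ^ 2 ≥ 10 * V := by nlinarith
        nlinarith
      rw [Real.log_pow] at this
      exact_mod_cast this
    nlinarith
  have e : nn A (A + 10) = nn A (A + 2) + nn (A + 2) (A + 2 + 2) + nn (A + 4) (A + 4 + 2) +
      nn (A + 6) (A + 6 + 2) + nn (A + 8) (A + 8 + 2) := by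
    rw [nn_add (a := A) (b := A + 2) (c := A + 10) hA1 (by linarith) (by linarith),
      nn_add (a := A + 2) (b := A + 4) (c := A + 10) (by linarith) (by linarith) (by linarith),
      nn_add (a := A + 4) (b := A + 6) (c := A + 10) (by linarith) (by linarith) (by linarith),
      nn_add (a := A + 6) (b := A + 8) (c := A + 10) (by linarith) (by linarith) (by linarith)]
    have e1 : A + 2 + 2 = A + 4 := by ring
    have e2 : A + 4 + 2 = A + 6 := by ring
    have e3 : A + 6 + 2 = A + 8 := by ring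
    have e4 : A + 8 + 2 = A + 10 := by ring
    rw [e1, e2, e3, e4]
    ring
  have h2 := hst A le_rfl (by linarith)
  have h3 := hst (A + 2) (by linarith) (by linarith)
  have h4 := hst (A + 4) (by linarith) (by linarith)
  have h5 := hst (A + 6) (by linarith) (by linarith)
  have h6 := hst (A + 8) (by linarith) (by linarith)
  linarith

/-- the number of zeros in a block -/
lemma nn_block : ∃ C V0 : ℝ, 0 < C ∧ 10 ≤ V0 ∧ ∀ V : ℝ, V0 ≤ V →
    |nn V (2 * V) - V * Real.log V / (2 * Real.pi)| ≤ C * V := by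
  obtain ⟨C, T0, hC, hT0, h⟩ := H370.nn_asymp good_zeta
  refine ⟨C, T0, hC, hT0, fun V hV => ?_⟩
  rw [nn_eq (by linarith)]
  exact h V hV V (2 * V) le_rfl (by linarith) (by linarith) le_rfl

/-- the second moment of the counts in terms of the number of zeros -/
theorem one_point (B : ℝ) (hB : 1 ≤ B) : ∃ C V0 : ℝ, 0 < C ∧ 10 ≤ V0 ∧ ∀ V : ℝ, V0 ≤ V →
    ∀ a : ℝ, 0 < a → a * Real.log a ≤ B * Real.log V → a ≤ B * Real.log V →
    2 * Real.pi * a / Real.log V ≤ 4 →
    |(∫ t in V..(2 * V), (cnt t (2 * Real.pi * a / Real.log V) : ℝ) ^ 2) -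
      (4 * Real.pi * a ^ 2 / Real.log V * nn V (2 * V) - a ^ 2 * V) -
      V / Real.pi ^ 2 * Real.log (1 + a)| ≤ C * V := by
  obtain ⟨C1, T1, hC1, hT1, h1⟩ := nv2 B hB
  obtain ⟨C2, hC2, h2⟩ := nn_loc
  have hpi := Real.pi_pos
  refine ⟨C1 + 8 * Real.pi * C2 * (B ^ 2 * 4), T1, by positivity, hT1, fun V hV a ha hal haB hh4 => ?_⟩
  obtain ⟨h3, h4⟩ := h1 V hV a ha hal
  have hV10 : 10 ≤ V := hT1.trans hV
  have hV0 : 0 < V := by linarith
  have hL0 : 0 < Real.log V := Real.log_pos (by linarith)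
  set h := 2 * Real.pi * a / Real.log V with hh
  have hh0 : 0 < h := by positivity
  have hsq := (int_sq (h := h) (B' := 2 * V + h) (show (1 : ℝ) ≤ V by linarith)
    (show V ≤ 2 * V by linarith) le_rfl).1
  have hone := (int_one (h := h) (B' := 2 * V + h) (show (1 : ℝ) ≤ V by linarith)
    (show V ≤ 2 * V by linarith) le_rfl).1
  have hexp : ∫ t in V..(2 * V), ((cnt t h : ℝ) - a) ^ 2 =
      (∫ t in V..(2 * V), (cnt t h : ℝ) ^ 2) - 2 * a * (∫ t in V..(2 * V), (cnt t h : ℝ)) +
        a ^ 2 * V := by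
    have e1 : ∀ t : ℝ, ((cnt t h : ℝ) - a) ^ 2 =
        ((cnt t h : ℝ) ^ 2 - 2 * a * (cnt t h : ℝ)) + a ^ 2 := fun t => by ring
    simp_rw [e1]
    rw [intervalIntegral.integral_add (hsq.sub (hone.const_mul _))
      (continuous_const.intervalIntegrable _ _),
      intervalIntegral.integral_sub hsq (hone.const_mul _), intervalIntegral.integral_const_mul,
      intervalIntegral.integral_const, smul_eq_mul]
    ring
  rw [hexp] at h4
  have hfm := first_moment (A := V) (B := 2 * V) (h := h) (by linarith) (by linarith) hh0.le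
  have hn1 := h2 V hV10 V (V + h) (by linarith) (by linarith) (by linarith) (by linarith)
  have hn2 := h2 V hV10 (2 * V) (2 * V + h) (by linarith) (by linarith) (by linarith) (by linarith)
  set X := ∫ t in V..(2 * V), (cnt t h : ℝ) ^ 2 with hX
  set I := ∫ t in V..(2 * V), (cnt t h : ℝ) with hI
  set n := nn V (2 * V) with hn
  have hI2 : |I - h * n| ≤ h * (2 * C2 * Real.log V) := by
    refine hfm.trans (mul_le_mul_of_nonneg_left ?_ hh0.le)
    linarith
  have e2 : 2 * a * (h * n) = 4 * Real.pi * a ^ 2 / Real.log V * n := by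
    rw [hh]; field_simp; ring
  have e3 : 2 * a * (h * (2 * C2 * Real.log V)) = 8 * Real.pi * C2 * a ^ 2 := by
    rw [hh]; field_simp; ring
  have ha2 : a ^ 2 ≤ B ^ 2 * 4 * V := by
    have h5 : a ^ 2 ≤ (B * Real.log V) ^ 2 := pow_le_pow_left₀ ha.le haB 2
    have h6 := H370.log_sq_le (x := V) (by linarith)
    nlinarith [sq_nonneg B]
  have e4 : 8 * Real.pi * C2 * a ^ 2 ≤ 8 * Real.pi * C2 * (B ^ 2 * 4) * V := by
    have : 8 * Real.pi * C2 * a ^ 2 ≤ 8 * Real.pi * C2 * (B ^ 2 * 4 * V) :=
      mul_le_mul_of_nonneg_left ha2 (by positivity)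
    linarith
  have h7 : |2 * a * I - 4 * Real.pi * a ^ 2 / Real.log V * n| ≤
      8 * Real.pi * C2 * (B ^ 2 * 4) * V := by
    rw [← e2, ← mul_sub, abs_mul, abs_of_pos (by positivity : 0 < 2 * a)]
    refine (mul_le_mul_of_nonneg_left hI2 (by positivity)).trans ?_
    rw [e3]
    exact e4
  have h8 := abs_le.1 h4
  have h9 := abs_le.1 h7
  rw [abs_le]
  constructor
  · linarith [h8.1, h9.1]
  · linarith [h8.2, h9.2]

/-- the increment of the second moment on one block -/
theorem block (B : ℝ) (hB : 1 ≤ B) : ∃ C V0 : ℝ, 0 < C ∧ 10 ≤ V0 ∧ ∀ V : ℝ, V0 ≤ V →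
    ∀ T : ℝ, V ≤ T → ∀ b : ℝ, 0 < b → (b + 1) * Real.log (b + 1) ≤ B * Real.log T →
    b + 1 ≤ B * Real.log T → 2 * Real.pi * (b + 1) / Real.log T ≤ 4 →
    |(∫ t in V..(2 * V), (cnt t (2 * Real.pi * (b + 1) / Real.log T) : ℝ) ^ 2) -
      (∫ t in V..(2 * V), (cnt t (2 * Real.pi * b / Real.log T) : ℝ) ^ 2) -
      (2 * b + 1) * (Real.log V / Real.log T) ^ 2 * V| ≤ C * V := by
  obtain ⟨C1, T1, hC1, hT1, h1⟩ := one_point B hB
  obtain ⟨C2, T2, hC2, hT2, h2⟩ := nn_block
  have hpi := Real.pi_pos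
  have hpi3 := Real.pi_gt_three
  have hB0 : 0 < B := by linarith
  refine ⟨2 * C1 + 1 + 4 * Real.pi * C2 * (2 * B), max T1 T2, by positivity,
    hT1.trans (le_max_left _ _), fun V hV T hVT b hb hbl hbB hh4 => ?_⟩
  have hV1 : T1 ≤ V := (le_max_left _ _).trans hV
  have hV2 : T2 ≤ V := (le_max_right _ _).trans hV
  have hV10 : 10 ≤ V := hT1.trans hV1
  have hV0 : 0 < V := by linarith
  have hL0 : 0 < Real.log V := Real.log_pos (by linarith)
  have hLT : 0 < Real.log T := Real.log_pos (by linarith)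
  have hLL : Real.log V ≤ Real.log T := Real.log_le_log hV0 hVT
  set r := Real.log V / Real.log T with hr
  have hr0 : 0 < r := by positivity
  have hr1 : r ≤ 1 := by rw [hr, div_le_one hLT]; exact hLL
  have hrT : r * Real.log T = Real.log V := by rw [hr]; field_simp
  -- one point conditions
  have key : ∀ c : ℝ, 0 < c → c ≤ b + 1 →
      |(∫ t in V..(2 * V), (cnt t (2 * Real.pi * c / Real.log T) : ℝ) ^ 2) -
        (4 * Real.pi * (c * r) ^ 2 / Real.log V * nn V (2 * V) - (c * r) ^ 2 * V) -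
        V / Real.pi ^ 2 * Real.log (1 + c * r)| ≤ C1 * V := by
    intro c hc hcb
    have hcr : 0 < c * r := by positivity
    have ecr : 2 * Real.pi * (c * r) / Real.log V = 2 * Real.pi * c / Real.log T := by
      rw [hr]; field_simp
    have h3 := h1 V hV1 (c * r) hcr ?_ ?_ ?_
    · rw [ecr] at h3
      exact h3
    · rcases le_total (c * r) 1 with h4 | h4
      · have h5 : Real.log (c * r) ≤ 0 := Real.log_nonpos hcr.le h4
        have h6 : c * r * Real.log (c * r) ≤ 0 := mul_nonpos_of_nonneg_of_nonpos hcr.le h5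
        have h7 : 0 ≤ B * Real.log V := by positivity
        linarith
      · have h5 : c * r ≤ c := by nlinarith
        have h6 : Real.log (c * r) ≤ Real.log (b + 1) := Real.log_le_log hcr (by linarith)
        have h7 : 0 ≤ Real.log (c * r) := Real.log_nonneg h4
        calc c * r * Real.log (c * r) ≤ (b + 1) * r * Real.log (b + 1) := by
              apply mul_le_mul (by nlinarith) h6 h7 (by positivity)
          _ = r * ((b + 1) * Real.log (b + 1)) := by ring
          _ ≤ r * (B * Real.log T) := mul_le_mul_of_nonneg_left hbl hr0.le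
          _ = B * Real.log V := by rw [← hrT]; ring
    · calc c * r ≤ (b + 1) * r := by nlinarith
        _ ≤ (B * Real.log T) * r := mul_le_mul_of_nonneg_right hbB hr0.le
        _ = B * Real.log V := by rw [← hrT]; ring
    · rw [ecr]
      refine le_trans ?_ hh4
      gcongr
  have k1 := key (b + 1) (by linarith) le_rfl
  have k2 := key b hb (by linarith)
  have hn := h2 V hV2
  set n := nn V (2 * V) with hnd
  -- the main term
  have e1 : (4 * Real.pi * ((b + 1) * r) ^ 2 / Real.log V * n - ((b + 1) * r) ^ 2 * V) -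
      (4 * Real.pi * (b * r) ^ 2 / Real.log V * n - (b * r) ^ 2 * V) =
      (2 * b + 1) * r ^ 2 * V + 4 * Real.pi * ((2 * b + 1) * r ^ 2) / Real.log V *
        (n - V * Real.log V / (2 * Real.pi)) := by
    field_simp
    ring
  have h5 : |4 * Real.pi * ((2 * b + 1) * r ^ 2) / Real.log V *
        (n - V * Real.log V / (2 * Real.pi))| ≤ 4 * Real.pi * C2 * (2 * B) * V := by
    rw [abs_mul, abs_of_pos (by positivity)]
    have h6 : 4 * Real.pi * ((2 * b + 1) * r ^ 2) / Real.log V ≤ 4 * Real.pi * (2 * B) := by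
      rw [div_le_iff₀ hL0]
      have h7 : (2 * b + 1) * r ^ 2 ≤ 2 * B * Real.log V := by
        calc (2 * b + 1) * r ^ 2 ≤ (2 * (B * Real.log T)) * r ^ 2 := by
              apply mul_le_mul_of_nonneg_right (by linarith) (by positivity)
          _ = 2 * B * Real.log V * r := by rw [← hrT]; ring
          _ ≤ 2 * B * Real.log V * 1 := by
              apply mul_le_mul_of_nonneg_left hr1 (by positivity)
          _ = _ := by ring
      nlinarith
    calc _ ≤ 4 * Real.pi * (2 * B) * (C2 * V) := mul_le_mul h6 hn (abs_nonneg _) (by positivity)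
      _ = _ := by ring
  have h6 : 0 ≤ V / Real.pi ^ 2 * (Real.log (1 + (b + 1) * r) - Real.log (1 + b * r)) := by
    apply mul_nonneg (by positivity)
    have := Real.log_le_log (show 0 < 1 + b * r by positivity)
      (show 1 + b * r ≤ 1 + (b + 1) * r by nlinarith)
    linarith
  have h7 : V / Real.pi ^ 2 * (Real.log (1 + (b + 1) * r) - Real.log (1 + b * r)) ≤ V := by
    rw [← Real.log_div (by positivity) (by positivity)]
    have h8 := Real.log_le_sub_one_of_pos (show 0 < (1 + (b + 1) * r) / (1 + b * r) by positivity)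
    have h9 : (1 + (b + 1) * r) / (1 + b * r) - 1 ≤ 1 := by
      rw [sub_le_iff_le_add, div_le_iff₀ (by positivity)]
      nlinarith [mul_pos hb hr0]
    have h10 : V / Real.pi ^ 2 ≤ V := div_le_self hV0.le (by nlinarith)
    calc _ ≤ V / Real.pi ^ 2 * 1 := mul_le_mul_of_nonneg_left (h8.trans h9) (by positivity)
      _ ≤ V := by rw [mul_one]; exact h10
  rw [mul_sub] at h6 h7
  have a1 := abs_le.1 k1
  have a2 := abs_le.1 k2
  have a3 := abs_le.1 h5
  rw [abs_le]
  constructor
  · nlinarith only [a1.1, a2.2, a3.1, e1, h6, hV0]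
  · nlinarith only [a1.2, a2.1, a3.2, e1, h7, hV0]

end Pool.Agent.R319.WB
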