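import Pool.Agent.R319.WB3

set_option autoImplicit false

/-! # Summation over the blocks -/

namespace Pool.Agent.R319.WB

open MeasureTheory Set Filter Topology
open H370 (Zf mult mem_Zf good_zeta NN NN_eq)
open Pool.Agent.TH850.UV (cnt cnt_eq NS mS mS_nonneg cnt_crude nv2)

/-- the integral of the square over `[A, T]` -/
noncomputable def Q (A T h : ℝ) : ℝ := ∫ t in A..T, (cnt t h : ℝ) ^ 2

lemma Q_split {A C T h : ℝ} (hA : 1 ≤ A) (h1 : A ≤ C) (h2 : C ≤ T) :
    Q A T h = Q A C h + Q C T h := by
  unfold Q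
  rw [intervalIntegral.integral_add_adjacent_intervals]
  · exact (int_sq (h := h) hA h1 (le_refl (C + h))).1
  · exact (int_sq (h := h) (hA.trans h1) h2 (le_refl (T + h))).1

theorem total (B : ℝ) (hB : 1 ≤ B) : ∃ C V0 : ℝ, 0 < C ∧ 10 ≤ V0 ∧ ∀ T : ℝ, V0 ≤ T →
    ∃ A : ℝ, V0 ≤ A ∧ A ≤ 2 * V0 ∧ A ≤ T ∧ ∀ b : ℝ, 0 < b →
    (b + 1) * Real.log (b + 1) ≤ B * Real.log T →
    b + 1 ≤ B * Real.log T → 2 * Real.pi * (b + 1) / Real.log T ≤ 4 →
    |Q A T (2 * Real.pi * (b + 1) / Real.log T) - Q A T (2 * Real.pi * b / Real.log T) -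
      (2 * b + 1) * T| ≤ C * T := by
  obtain ⟨C1, V0, hC1, hV0, hbl⟩ := block B hB
  have hB0 : 0 < B := by linarith
  refine ⟨2 * (C1 + 4 * B) + 4 * B * V0, V0, by positivity, hV0, fun T hT => ?_⟩
  have hT0 : 0 < T := by linarith
  have hL0 : 0 < Real.log T := Real.log_pos (by linarith)
  obtain ⟨K, hK1, hK2⟩ := exists_nat_pow_near (x := T / V0) (y := 2)
    (by rw [one_le_div (by linarith)]; exact hT) (by norm_num)
  have h2K : (0 : ℝ) < 2 ^ K := by positivity
  have hAV : V0 ≤ T / 2 ^ K := by
    rw [le_div_iff₀ h2K]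
    rw [le_div_iff₀ (by linarith)] at hK1
    linarith
  refine ⟨T / 2 ^ K, hAV, ?_, div_le_self hT0.le (one_le_pow₀ (by norm_num)), fun b hb h1 h2 h3 => ?_⟩
  · rw [div_le_iff₀ h2K]
    rw [div_lt_iff₀ (by linarith), pow_succ] at hK2
    linarith
  have hlog2 : Real.log 2 ≤ 1 := by
    have := Real.log_le_sub_one_of_pos (show (0 : ℝ) < 2 by norm_num)
    linarith
  have hlog20 : 0 < Real.log 2 := Real.log_pos (by norm_num)
  set h' := 2 * Real.pi * (b + 1) / Real.log T with hh'
  set h := 2 * Real.pi * b / Real.log T with hh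
  have ind : ∀ k : ℕ, k ≤ K → |Q (T / 2 ^ k) T h' - Q (T / 2 ^ k) T h -
      (2 * b + 1) * (T - T / 2 ^ k)| ≤ (C1 + 4 * B) * T * (2 - (k + 2) / 2 ^ k) := by
    intro k
    induction k with
    | zero =>
      intro _
      simp [Q]
    | succ k ih =>
      intro hk
      have ihk := ih (by omega)
      have h2k : (0 : ℝ) < 2 ^ k := by positivity
      set V := T / 2 ^ (k + 1) with hV
      have e2V : T / 2 ^ k = 2 * V := by
        rw [hV, pow_succ]
        field_simp
      have hVK : T / 2 ^ K ≤ V := by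
        rw [hV]
        apply div_le_div_of_nonneg_left hT0.le (by positivity)
        exact pow_le_pow_right₀ (by norm_num) hk
      have hVV : V0 ≤ V := hAV.trans hVK
      have hV0' : 0 < V := by linarith
      have hVT : 2 * V ≤ T := by
        rw [← e2V]
        exact div_le_self hT0.le (one_le_pow₀ (by norm_num))
      have hb1 := hbl V hVV T (by linarith) b hb h1 h2 h3
      rw [← hh', ← hh] at hb1
      rw [Q_split (A := V) (C := 2 * V) (T := T) (h := h') (by linarith) (by linarith) hVT,
        Q_split (A := V) (C := 2 * V) (T := T) (h := h) (by linarith) (by linarith) hVT]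
      rw [e2V] at ihk
      have hlV : Real.log V = Real.log T - (k + 1) * Real.log 2 := by
        rw [hV, Real.log_div (by linarith) (by positivity), Real.log_pow]
        push_cast
        ring
      have hlV0 : 0 < Real.log V := Real.log_pos (by linarith)
      set r := Real.log V / Real.log T with hr
      have hr0 : 0 ≤ r := by positivity
      have hr1 : 1 - r = (k + 1) * Real.log 2 / Real.log T := by
        rw [hr, hlV]
        field_simp
        ring
      have hr2 : 0 ≤ 1 - r := by rw [hr1]; positivity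
      have h4 : 0 ≤ (2 * b + 1) * (1 - r ^ 2) * V := by
        have : 0 ≤ 1 - r ^ 2 := by nlinarith
        positivity
      have h5 : (2 * b + 1) * (1 - r ^ 2) * V ≤ 4 * B * (k + 1) * V := by
        apply mul_le_mul_of_nonneg_right _ hV0'.le
        have h6 : 1 - r ^ 2 ≤ 2 * (1 - r) := by nlinarith
        calc (2 * b + 1) * (1 - r ^ 2) ≤ (2 * (B * Real.log T)) * (2 * (1 - r)) := by
              apply mul_le_mul (by linarith) h6 (by nlinarith) (by positivity)
          _ = 4 * B * (k + 1) * Real.log 2 := by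
              rw [hr1]; field_simp; ring
          _ ≤ 4 * B * (k + 1) * 1 := mul_le_mul_of_nonneg_left hlog2 (by positivity)
          _ = _ := by ring
      have e4 : (C1 + 4 * B) * T * (2 - ((k : ℝ) + 1 + 2) / 2 ^ (k + 1)) =
          (C1 + 4 * B) * T * (2 - (k + 2) / 2 ^ k) + (C1 + 4 * B) * (k + 1) * V := by
        rw [hV, pow_succ]
        field_simp
        ring
      have h7 : C1 * V ≤ C1 * (k + 1) * V := by
        have : 0 ≤ C1 * k * V := by positivity
        nlinarith
      have a1 := abs_le.1 hb1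
      have a2 := abs_le.1 ihk
      unfold Q at a2 ⊢
      push_cast
      rw [e4, abs_le]
      constructor
      · linarith [a1.1, a2.1]
      · linarith [a1.2, a2.2]
  have hK := ind K le_rfl
  have h8 : (C1 + 4 * B) * T * (2 - (K + 2) / 2 ^ K) ≤ 2 * (C1 + 4 * B) * T := by
    have : 0 ≤ (C1 + 4 * B) * T * ((K + 2) / 2 ^ K) := by positivity
    nlinarith
  have h9 : (2 * b + 1) * (T / 2 ^ K) ≤ 4 * B * V0 * T := by
    have h10 : T / 2 ^ K ≤ 2 * V0 := by
      rw [div_le_iff₀ h2K]
      rw [div_lt_iff₀ (by linarith), pow_succ] at hK2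
      linarith
    have h11 : Real.log T ≤ T := by
      have := Real.log_le_sub_one_of_pos hT0
      linarith
    calc (2 * b + 1) * (T / 2 ^ K) ≤ (2 * (B * Real.log T)) * (2 * V0) := by
          apply mul_le_mul (by linarith) h10 (by positivity) (by positivity)
      _ ≤ (2 * (B * T)) * (2 * V0) := by gcongr
      _ = _ := by ring
  have h12 : 0 ≤ (2 * b + 1) * (T / 2 ^ K) := by positivity
  have a1 := abs_le.1 hK
  rw [abs_le]
  constructor
  · linarith [a1.1]
  · linarith [a1.2]

/-- the range of the parameters -/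
lemma range_ok (B : ℝ) (hB : 1 ≤ B) : ∃ T0 : ℝ, 10 ≤ T0 ∧ ∀ T : ℝ, T0 ≤ T → ∀ β : ℝ, 0 < β →
    β * Real.log β ≤ B * Real.log T →
    (β + 1) * Real.log (β + 1) ≤ (2 * B + 2) * Real.log T ∧
    β + 1 ≤ (2 * B + 2) * Real.log T ∧ 2 * Real.pi * (β + 1) / Real.log T ≤ 4 := by
  have hpi := Real.pi_pos
  obtain ⟨T0, hT0⟩ := ((Real.tendsto_log_atTop.eventually_ge_atTop
    (2 * Real.pi * Real.exp (2 * Real.pi * B) + 2 * Real.pi + 2))).exists_forall_of_atTop
  refine ⟨max T0 10, le_max_right _ _, fun T hT β hβ hbl => ?_⟩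
  have h1 := hT0 T ((le_max_left _ _).trans hT)
  have he : 0 < Real.exp (2 * Real.pi * B) := Real.exp_pos _
  have hL : 0 < Real.log T := by
    have : 0 < 2 * Real.pi * Real.exp (2 * Real.pi * B) + 2 * Real.pi + 2 := by positivity
    linarith
  have hβL : 2 * Real.pi * β ≤ Real.log T := by
    rcases le_total β (Real.exp (2 * Real.pi * B)) with h2 | h2
    · have : 2 * Real.pi * β ≤ 2 * Real.pi * Real.exp (2 * Real.pi * B) := by gcongr
      linarith
    · have h3 : 2 * Real.pi * B ≤ Real.log β := by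
        rw [Real.le_log_iff_exp_le hβ]; exact h2
      have h4 : β * (2 * Real.pi * B) ≤ β * Real.log β := mul_le_mul_of_nonneg_left h3 hβ.le
      have h5 : (2 * Real.pi * β) * B ≤ Real.log T * B := by linarith
      exact le_of_mul_le_mul_right h5 (by linarith)
  have hβ1 : β + 1 ≤ Real.log T := by
    have : β ≤ 2 * Real.pi * β / 2 := by nlinarith [Real.pi_gt_three]
    have h2 : 2 ≤ Real.log T := by
      have : 0 < 2 * Real.pi * Real.exp (2 * Real.pi * B) + 2 * Real.pi := by positivity
      linarith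
    linarith
  refine ⟨?_, ?_, ?_⟩
  · rcases le_total β 1 with h2 | h2
    · have h3 : Real.log (β + 1) ≤ 1 := by
        have := Real.log_le_sub_one_of_pos (show 0 < β + 1 by linarith)
        linarith
      have h4 : 0 ≤ Real.log (β + 1) := Real.log_nonneg (by linarith)
      have h5 : 1 ≤ Real.log T := by linarith
      nlinarith
    · have h3 : Real.log (β + 1) ≤ Real.log β + 1 := by
        have h4 : Real.log (β + 1) ≤ Real.log (β * 2) := Real.log_le_log (by linarith) (by linarith)
        rw [Real.log_mul (by linarith) (by norm_num)] at h4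
        have h5 := Real.log_le_sub_one_of_pos (show (0 : ℝ) < 2 by norm_num)
        linarith
      have h4 : 0 ≤ Real.log β := Real.log_nonneg h2
      calc (β + 1) * Real.log (β + 1) ≤ (2 * β) * (Real.log β + 1) := by
            apply mul_le_mul (by linarith) h3 (Real.log_nonneg (by linarith)) (by linarith)
        _ = 2 * (β * Real.log β) + 2 * β := by ring
        _ ≤ 2 * (B * Real.log T) + 2 * Real.log T := by linarith
        _ = _ := by ring
  · nlinarith
  · rw [div_le_iff₀ hL]
    nlinarith

end Pool.Agent.R319.WB
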