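import Pool.Agent.R319.WB4
import Pool.Agent.H370R2.Dyadic

set_option autoImplicit false

/-! # Pair counts in all windows -/

namespace Pool.Agent.R319.WB

open MeasureTheory Set Filter Topology
open H370 (Zf mult mem_Zf good_zeta NN NN_eq)
open Pool.Agent.TH850.UV (cnt cnt_eq NS mS mS_nonneg cnt_crude nv2)

/-- the zeros with ordinate in `(0, T]` -/
noncomputable def ZT (T : ℝ) : Finset ℂ := (H370.zeta_zeros_finite T).toFinset

lemma mem_ZT {T : ℝ} {s : ℂ} : s ∈ ZT T ↔
    0 < s.re ∧ s.re < 1 ∧ 0 < s.im ∧ s.im ≤ T ∧ riemannZeta s = 0 := by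
  unfold ZT
  rw [Set.Finite.mem_toFinset]
  rfl

/-- weighted sum over the pairs -/
noncomputable def W (T : ℝ) (f : ℝ → ℝ) : ℝ :=
  ∑ s ∈ ZT T, ∑ s' ∈ ZT T, mS s * mS s' * f (s.im - s'.im)

lemma ZT_mono {T T' : ℝ} (h : T ≤ T') : ZT T ⊆ ZT T' := by
  intro s hs
  rw [mem_ZT] at hs ⊢
  exact ⟨hs.1, hs.2.1, hs.2.2.1, hs.2.2.2.1.trans h, hs.2.2.2.2⟩

/-- restriction to the ordinates above `A` changes little -/
lemma W_cut {A T h : ℝ} (hA : 1 ≤ A) (hh : 0 ≤ h) (f : ℝ → ℝ) (hf0 : ∀ x, 0 ≤ f x)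
    (hf1 : ∀ x, f x ≤ 1) (hfs : ∀ x, h < |x| → f x = 0) :
    (∑ s ∈ Zz A T, ∑ s' ∈ Zz A T, mS s * mS s' * f (s.im - s'.im)) ≤ W T f ∧
    W T f ≤ (∑ s ∈ Zz A T, ∑ s' ∈ Zz A T, mS s * mS s' * f (s.im - s'.im)) +
      (∑ s ∈ ZT (A + h), mS s) ^ 2 := by
  classical
  have hsub : Zz A T ⊆ ZT T := by
    intro s hs
    rw [mem_Zz hA] at hs
    rw [mem_ZT]
    exact ⟨hs.1, hs.2.1, by linarith [hs.2.2.1], hs.2.2.2.1, hs.2.2.2.2⟩
  constructor
  · unfold W
    exact dsum_subset hsub _ fun s _ s' _ =>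
      mul_nonneg (mul_nonneg (mS_nonneg s) (mS_nonneg s')) (hf0 _)
  · have h1 : W T f ≤ (∑ s ∈ ZT T, ∑ s' ∈ ZT T, mS s * mS s' *
        (if A < s.im ∧ A < s'.im then f (s.im - s'.im) else 0)) +
        ∑ s ∈ ZT T, ∑ s' ∈ ZT T, mS s * mS s' * ((if s.im ≤ A + h then (1 : ℝ) else 0) *
          (if s'.im ≤ A + h then (1 : ℝ) else 0)) := by
      unfold W
      rw [← Finset.sum_add_distrib]
      refine Finset.sum_le_sum fun s _ => ?_
      rw [← Finset.sum_add_distrib]
      refine Finset.sum_le_sum fun s' _ => ?_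
      rw [← mul_add]
      apply mul_le_mul_of_nonneg_left _ (mul_nonneg (mS_nonneg s) (mS_nonneg s'))
      have h0 := hf0 (s.im - s'.im)
      have h1 := hf1 (s.im - s'.im)
      by_cases h2 : A < s.im ∧ A < s'.im
      · rw [if_pos h2]
        have : 0 ≤ (if s.im ≤ A + h then (1 : ℝ) else 0) * (if s'.im ≤ A + h then (1 : ℝ) else 0) := by
          split_ifs <;> norm_num
        linarith
      · rw [if_neg h2, zero_add]
        by_cases h3 : h < |s.im - s'.im|
        · rw [hfs _ h3]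
          split_ifs <;> norm_num
        · push Not at h3
          rw [abs_le] at h3
          have h4 : s.im ≤ A + h ∧ s'.im ≤ A + h := by
            by_cases h5 : A < s.im
            · have h6 : s'.im ≤ A := by
                by_contra h7
                push Not at h7
                exact h2 ⟨h5, h7⟩
              exact ⟨by linarith, by linarith⟩
            · push Not at h5
              exact ⟨by linarith, by linarith⟩
          rw [if_pos h4.1, if_pos h4.2]
          linarith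
    have h2 : ∑ s ∈ ZT T, ∑ s' ∈ ZT T, mS s * mS s' *
        (if A < s.im ∧ A < s'.im then f (s.im - s'.im) else 0) =
        ∑ s ∈ Zz A T, ∑ s' ∈ Zz A T, mS s * mS s' * f (s.im - s'.im) := by
      rw [dsum_eq hsub]
      · refine Finset.sum_congr rfl fun s hs => Finset.sum_congr rfl fun s' hs' => ?_
        rw [mem_Zz hA] at hs hs'
        rw [if_pos ⟨hs.2.2.1, hs'.2.2.1⟩]
      · intro s hs s' hs' hne
        rw [mem_ZT] at hs hs'
        have h7 : A < s.im ∧ A < s'.im := by
          by_contra h8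
          rw [if_neg h8, mul_zero] at hne
          exact hne rfl
        rw [mem_Zz hA, mem_Zz hA]
        exact ⟨⟨hs.1, hs.2.1, h7.1, hs.2.2.2.1, hs.2.2.2.2⟩,
          hs'.1, hs'.2.1, h7.2, hs'.2.2.2.1, hs'.2.2.2.2⟩
    have h3 : ∑ s ∈ ZT T, ∑ s' ∈ ZT T, mS s * mS s' * ((if s.im ≤ A + h then (1 : ℝ) else 0) *
          (if s'.im ≤ A + h then (1 : ℝ) else 0)) ≤ (∑ s ∈ ZT (A + h), mS s) ^ 2 := by
      rw [dsum_mul (ZT T) (fun s => if s.im ≤ A + h then (1 : ℝ) else 0)]
      apply pow_le_pow_left₀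
      · refine Finset.sum_nonneg fun s _ => mul_nonneg (mS_nonneg s) ?_
        split_ifs <;> norm_num
      · have h4 : ∑ s ∈ ZT T, mS s * (if s.im ≤ A + h then (1 : ℝ) else 0) =
            ∑ s ∈ (ZT T).filter (fun s => s.im ≤ A + h), mS s := by
          rw [Finset.sum_filter]
          refine Finset.sum_congr rfl fun s _ => ?_
          split_ifs <;> simp
        rw [h4]
        refine Finset.sum_le_sum_of_subset_of_nonneg ?_ fun s _ _ => mS_nonneg s
        intro s hs
        rw [Finset.mem_filter, mem_ZT] at hs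
        rw [mem_ZT]
        exact ⟨hs.1.1, hs.1.2.1, hs.1.2.2.1, hs.2, hs.1.2.2.2.2⟩
    rw [h2] at h1
    linarith

/-- pairs with difference in `[a, b]`, `a > 0`, against absolute differences -/
lemma W_sym {T a b : ℝ} (ha : 0 < a) :
    2 * W T (fun x => if a ≤ x ∧ x ≤ b then 1 else 0) =
      W T (fun x => if a ≤ |x| ∧ |x| ≤ b then 1 else 0) := by
  have h1 : W T (fun x => if a ≤ x ∧ x ≤ b then 1 else 0) =
      W T (fun x => if a ≤ -x ∧ -x ≤ b then 1 else 0) := by
    unfold W
    rw [Finset.sum_comm]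
    refine Finset.sum_congr rfl fun s _ => Finset.sum_congr rfl fun s' _ => ?_
    have e : -(s.im - s'.im) = s'.im - s.im := by ring
    simp only [e]
    ring
  have h2 : 2 * W T (fun x => if a ≤ x ∧ x ≤ b then 1 else 0) =
      W T (fun x => if a ≤ x ∧ x ≤ b then 1 else 0) +
      W T (fun x => if a ≤ -x ∧ -x ≤ b then 1 else 0) := by
    rw [← h1]; ring
  rw [h2]
  unfold W
  rw [← Finset.sum_add_distrib]
  refine Finset.sum_congr rfl fun s _ => ?_
  rw [← Finset.sum_add_distrib]
  refine Finset.sum_congr rfl fun s' _ => ?_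
  rw [← mul_add]
  congr 1
  set x := s.im - s'.im
  show (if a ≤ x ∧ x ≤ b then (1 : ℝ) else 0) + (if a ≤ -x ∧ -x ≤ b then (1 : ℝ) else 0) =
    (if a ≤ |x| ∧ |x| ≤ b then (1 : ℝ) else 0)
  rcases le_total 0 x with hx | hx
  · rw [abs_of_nonneg hx, if_neg (show ¬ (a ≤ -x ∧ -x ≤ b) by
      rintro ⟨h3, -⟩; linarith), add_zero]
  · rw [abs_of_nonpos hx, if_neg (show ¬ (a ≤ x ∧ x ≤ b) by
      rintro ⟨h3, -⟩; linarith), zero_add]

/-- the pair counts over the block -/
lemma P_sub {A T a b : ℝ} (hab : a ≤ b) : P A T b - P' A T a =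
    ∑ s ∈ Zz A T, ∑ s' ∈ Zz A T, mS s * mS s' *
      (if a ≤ |s.im - s'.im| ∧ |s.im - s'.im| ≤ b then 1 else 0) := by
  unfold P P'
  rw [← Finset.sum_sub_distrib]
  refine Finset.sum_congr rfl fun s _ => ?_
  rw [← Finset.sum_sub_distrib]
  refine Finset.sum_congr rfl fun s' _ => ?_
  rw [← mul_sub]
  congr 1
  set x := |s.im - s'.im|
  by_cases h1 : x ≤ b
  · rw [if_pos h1]
    by_cases h2 : x < a
    · rw [if_pos h2, if_neg (fun h => absurd h.1 (not_le.2 h2)), sub_self]
    · rw [if_neg h2, if_pos ⟨not_lt.1 h2, h1⟩, sub_zero]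
  · rw [if_neg h1, if_neg (fun h => h1 (h.trans_le hab).le), if_neg (fun h => h1 h.2), sub_zero]

/-- **bounded error in every window**, in terms of `W` -/
theorem main (B : ℝ) (hB : 1 ≤ B) : ∃ C T0 : ℝ, 0 < C ∧ 10 ≤ T0 ∧ ∀ T : ℝ, T0 ≤ T →
    ∀ α β : ℝ, 0 < α → α < β → β * Real.log β ≤ B * Real.log T →
    |W T (fun x => if 2 * Real.pi * α / Real.log T ≤ x ∧ x ≤ 2 * Real.pi * β / Real.log T
      then 1 else 0) - (β - α) * (T * Real.log T / (2 * Real.pi))| ≤ C * (T * Real.log T) := by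
  obtain ⟨C, V0, hC, hV0, htot⟩ := total (2 * B + 2) (by linarith)
  obtain ⟨T1, hT1, hrange⟩ := range_ok B hB
  obtain ⟨C2, hC2, hloc⟩ := nn_loc
  have hpi := Real.pi_pos
  have hpi3 := Real.pi_gt_three
  set N0 := ∑ s ∈ ZT (2 * V0 + 8), mS s with hN0
  have hN00 : 0 ≤ N0 := Finset.sum_nonneg fun s _ => mS_nonneg s
  -- `log² T` is less than `T log T`
  refine ⟨C + 1 + N0 ^ 2 * 3 + C2 ^ 2, max V0 T1, by positivity, hV0.trans (le_max_left _ _),
    fun T hT α β hα hαβ hβl => ?_⟩
  have hTV : V0 ≤ T := (le_max_left _ _).trans hT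
  have hTT : T1 ≤ T := (le_max_right _ _).trans hT
  have hT10 : 10 ≤ T := hV0.trans hTV
  have hT0 : 0 < T := by linarith
  have hL0 : 0 < Real.log T := Real.log_pos (by linarith)
  have hL1 : 1 ≤ Real.log T := by
    rw [Real.le_log_iff_exp_le hT0]
    linarith [Real.exp_one_lt_d9]
  have hLT : Real.log T ≤ T := by
    have := Real.log_le_sub_one_of_pos hT0
    linarith
  obtain ⟨A, hA1, hA2, hAT, htA⟩ := htot T hTV
  have hβ : 0 < β := hα.trans hαβ
  have hA : 1 ≤ A := by linarith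
  set L := Real.log T with hL
  set u := 2 * Real.pi / L with hu
  have hu0 : 0 < u := by positivity
  have hmu : ∀ c : ℝ, 2 * Real.pi * c / L = c * u := fun c => by rw [hu]; ring
  -- upper bound for `P`
  have hup : ∀ c : ℝ, 0 < c → c * Real.log c ≤ B * L →
      P A T (c * u) ≤ (L / (2 * Real.pi)) * ((2 * c + 1) * T + C * T) + N0 ^ 2 := by
    intro c hc hcl
    obtain ⟨r1, r2, r3⟩ := hrange T hTT c hc hcl
    have h1 := htA c hc r1 r2 r3
    rw [hmu, hmu, add_mul, one_mul] at h1
    rw [hmu, add_mul, one_mul] at r3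
    have h2 := P_upper (A := A) (B := T) (h := c * u) (u := u) hA hAT (by positivity) hu0.le
    have h3 : nn A (A + (c * u + u)) ≤ N0 := by
      refine Finset.sum_le_sum_of_subset_of_nonneg ?_ fun s _ _ => mS_nonneg s
      intro s hs
      rw [mem_Zz hA] at hs
      rw [mem_ZT]
      exact ⟨hs.1, hs.2.1, by linarith [hs.2.2.1], by linarith [hs.2.2.2.1], hs.2.2.2.2⟩
    have h4 : nn A (A + (c * u + u)) ^ 2 ≤ N0 ^ 2 := pow_le_pow_left₀ (nn_nonneg _ _) h3 2
    have h5 : u * P A T (c * u) ≤ (2 * c + 1) * T + C * T + u * N0 ^ 2 := by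
      have h6 := (abs_le.1 h1).2
      have h7 := mul_le_mul_of_nonneg_left h4 hu0.le
      unfold Q at h6
      linarith
    have h6 : (L / (2 * Real.pi)) * (u * P A T (c * u)) ≤
        (L / (2 * Real.pi)) * ((2 * c + 1) * T + C * T + u * N0 ^ 2) :=
      mul_le_mul_of_nonneg_left h5 (by positivity)
    have e1 : (L / (2 * Real.pi)) * (u * P A T (c * u)) = P A T (c * u) := by
      rw [hu]; field_simp
    have e2 : (L / (2 * Real.pi)) * ((2 * c + 1) * T + C * T + u * N0 ^ 2) =
        (L / (2 * Real.pi)) * ((2 * c + 1) * T + C * T) + N0 ^ 2 := by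
      rw [hu]; field_simp
    rw [e1, e2] at h6
    exact h6
  -- lower bound for `P'`
  have hlow : ∀ c : ℝ, 0 < c → c * Real.log c ≤ B * L →
      (L / (2 * Real.pi)) * ((2 * c - 1) * T - C * T - 2 * T) - C2 ^ 2 * L ^ 2 ≤ P' A T (c * u) := by
    intro c hc hcl
    have hP0 : 0 ≤ P' A T (c * u) := by
      unfold P'
      refine Finset.sum_nonneg fun s _ => Finset.sum_nonneg fun s' _ => ?_
      apply mul_nonneg (mul_nonneg (mS_nonneg s) (mS_nonneg s'))
      split_ifs <;> norm_num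
    rcases le_or_gt c (3 / 2) with hc1 | hc1
    · have h1 : (L / (2 * Real.pi)) * ((2 * c - 1) * T - C * T - 2 * T) ≤ 0 := by
        apply mul_nonpos_of_nonneg_of_nonpos (by positivity)
        have : 0 ≤ C * T := by positivity
        nlinarith
      have h2 : 0 ≤ C2 ^ 2 * L ^ 2 := by positivity
      linarith
    · have hc0 : 0 < c - 1 := by linarith
      obtain ⟨r1, r2, r3⟩ := hrange T hTT c hc hcl
      have h1 := htA (c - 1) hc0 ?_ ?_ ?_
      · rw [hmu, hmu, sub_add_cancel] at h1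
        have h2 := P_lower (A := A) (B := T) (h := (c - 1) * u) (u := u) hA hAT (by positivity)
          hu0.le
        have e3 : (c - 1) * u + u = c * u := by ring
        rw [hmu, add_mul, one_mul] at r3
        rw [e3] at h2
        have h2' := h2 (by linarith)
        have h4 : nn (T - c * u) (T + c * u) ≤ C2 * L := hloc T hT10 _ _ (by linarith) (by nlinarith)
          (by linarith) (by linarith)
        have h5 : nn (T - c * u) (T + c * u) ^ 2 ≤ (C2 * L) ^ 2 :=
          pow_le_pow_left₀ (nn_nonneg _ _) h4 2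
        have h6 : (2 * (c - 1) + 1) * T - C * T ≤ u * P' A T (c * u) + u * (C2 * L) ^ 2 := by
          have h7 := (abs_le.1 h1).1
          have h8 := mul_le_mul_of_nonneg_left h5 hu0.le
          unfold Q at h7
          linarith
        have h7 : (L / (2 * Real.pi)) * ((2 * (c - 1) + 1) * T - C * T) ≤
            (L / (2 * Real.pi)) * (u * P' A T (c * u) + u * (C2 * L) ^ 2) :=
          mul_le_mul_of_nonneg_left h6 (by positivity)
        have e2 : (L / (2 * Real.pi)) * (u * P' A T (c * u) + u * (C2 * L) ^ 2) =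
            P' A T (c * u) + C2 ^ 2 * L ^ 2 := by
          rw [hu]; field_simp
        rw [e2] at h7
        have h8 : (L / (2 * Real.pi)) * ((2 * c - 1) * T - C * T - 2 * T) ≤
            (L / (2 * Real.pi)) * ((2 * (c - 1) + 1) * T - C * T) := by
          apply mul_le_mul_of_nonneg_left _ (by positivity)
          linarith
        linarith
      · rw [sub_add_cancel]
        have : 0 ≤ L := hL0.le
        nlinarith
      · rw [sub_add_cancel]
        linarith
      · rw [sub_add_cancel]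
        refine le_trans ?_ r3
        gcongr
        linarith
  have hαl : α * Real.log α ≤ B * L := by
    rcases le_total α 1 with h1 | h1
    · have h5 : Real.log α ≤ 0 := Real.log_nonpos hα.le h1
      have h6 : α * Real.log α ≤ 0 := mul_nonpos_of_nonneg_of_nonpos hα.le h5
      have h7 : 0 ≤ B * L := by positivity
      linarith
    · have h5 : Real.log α ≤ Real.log β := Real.log_le_log hα hαβ.le
      have h6 : 0 ≤ Real.log α := Real.log_nonneg h1
      calc α * Real.log α ≤ β * Real.log β := mul_le_mul hαβ.le h5 h6 hβ.le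
        _ ≤ _ := hβl
  have hh : α * u ≤ β * u := mul_le_mul_of_nonneg_right hαβ.le hu0.le
  have hmain := P_sub (A := A) (T := T) hh
  have hcut := W_cut (A := A) (T := T) (h := β * u) hA (by positivity)
    (fun x => if α * u ≤ |x| ∧ |x| ≤ β * u then 1 else 0)
    (fun x => by positivity) (fun x => by split_ifs <;> norm_num)
    (fun x hx => by rw [if_neg (fun h => absurd h.2 (not_le.2 hx))])
  rw [← hmain, ← W_sym (by positivity)] at hcut
  rw [hmu, hmu]
  set X := W T (fun x => if α * u ≤ x ∧ x ≤ β * u then 1 else 0) with hX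
  have hβu : β * u ≤ 4 := by
    obtain ⟨r1, r2, r3⟩ := hrange T hTT β hβ hβl
    rw [hmu, add_mul, one_mul] at r3
    linarith
  have h3 : (∑ s ∈ ZT (A + β * u), mS s) ^ 2 ≤ N0 ^ 2 := by
    apply pow_le_pow_left₀ (Finset.sum_nonneg fun s _ => mS_nonneg s)
    exact Finset.sum_le_sum_of_subset_of_nonneg (ZT_mono (by linarith)) fun s _ _ => mS_nonneg s
  have u1 := hup β hβ hβl
  have u2 := hup α hα hαl
  have l1 := hlow β hβ hβl
  have l2 := hlow α hα hαl
  have hPP : ∀ c, P' A T c ≤ P A T c := by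
    intro c
    unfold P P'
    refine Finset.sum_le_sum fun s _ => Finset.sum_le_sum fun s' _ => ?_
    apply mul_le_mul_of_nonneg_left _ (mul_nonneg (mS_nonneg s) (mS_nonneg s'))
    by_cases h1 : |s.im - s'.im| < c
    · rw [if_pos h1, if_pos h1.le]
    · rw [if_neg h1]
      split_ifs <;> norm_num
  have p1 := hPP (β * u)
  have p2 := hPP (α * u)
  set M := T * L / (2 * Real.pi) with hM
  have e1 : ∀ x : ℝ, L / (2 * Real.pi) * (x * T) = x * M := fun x => by rw [hM]; ring
  have e2 : ∀ c : ℝ, L / (2 * Real.pi) * ((2 * c + 1) * T + C * T) = (2 * c + 1 + C) * M :=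
    fun c => by rw [hM]; ring
  have e3 : ∀ c : ℝ, L / (2 * Real.pi) * ((2 * c - 1) * T - C * T - 2 * T) =
      (2 * c - 3 - C) * M := fun c => by rw [hM]; ring
  rw [e2] at u1 u2
  rw [e3] at l1 l2
  have hML : M ≤ T * L / 6 := by
    rw [hM]
    apply div_le_div_of_nonneg_left (by positivity) (by norm_num)
    linarith
  have hM0 : 0 ≤ M := by positivity
  have hTL : 1 ≤ T * L := by nlinarith
  have hL2 : L ^ 2 ≤ T * L := by nlinarith
  have h4 : C2 ^ 2 * L ^ 2 ≤ C2 ^ 2 * (T * L) := mul_le_mul_of_nonneg_left hL2 (by positivity)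
  have h5 : N0 ^ 2 ≤ N0 ^ 2 * (T * L) := by
    have : 0 ≤ N0 ^ 2 := by positivity
    nlinarith
  have h6 : C * M ≤ C * (T * L / 6) := mul_le_mul_of_nonneg_left hML hC.le
  have hCTL : 0 ≤ C * (T * L) := by positivity
  rw [abs_le]
  constructor
  · nlinarith [hcut.1]
  · nlinarith [hcut.2]

end Pool.Agent.R319.WB
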