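import Pool.Agent.R319.WB5

set_option autoImplicit false

/-! # The integrated pair count -/

namespace Pool.Agent.R319.WB

open MeasureTheory Set Filter Topology
open H370 (Zf mult mem_Zf good_zeta NN NN_eq)
open Pool.Agent.TH850.UV (cnt cnt_eq NS mS mS_nonneg cnt_crude nv2)

/-- the second moment over the whole range -/
theorem totalI : ∃ C V0 : ℝ, 0 < C ∧ 10 ≤ V0 ∧ ∀ T : ℝ, V0 ≤ T →
    ∃ A : ℝ, V0 ≤ A ∧ A ≤ 2 * V0 ∧ A ≤ T ∧ ∀ b : ℝ, 0 < b → b ^ 2 ≤ Real.log T →
    |Q A T (2 * Real.pi * b / Real.log T) - (b ^ 2 + 1 / Real.pi ^ 2 * Real.log (1 + b)) * T| ≤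
      C * T := by
  obtain ⟨C1, T1, hC1, hT1, h1⟩ := one_point 1 le_rfl
  obtain ⟨C2, T2, hC2, hT2, h2⟩ := nn_block
  obtain ⟨T3, hT3⟩ := (Real.tendsto_log_atTop.eventually_ge_atTop (4 * Real.pi ^ 2)).exists_forall_of_atTop
  have hpi := Real.pi_pos
  have hpi3 := Real.pi_gt_three
  set V0 := max (max T1 T2) (max T3 10) with hV0d
  have hV0 : 10 ≤ V0 := (le_max_right _ _).trans (le_max_right _ _)
  set C3 := C1 + 4 * Real.pi * C2 + 3 with hC3
  refine ⟨2 * C3 + 4 * V0, V0, by positivity, hV0, fun T hT => ?_⟩
  have hT0 : 0 < T := by linarith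
  have hL0 : 0 < Real.log T := Real.log_pos (by linarith)
  have hL1 : 1 ≤ Real.log T := by
    rw [Real.le_log_iff_exp_le hT0]
    linarith [Real.exp_one_lt_d9]
  have hL3 : 4 * Real.pi ^ 2 ≤ Real.log T :=
    hT3 T (((le_max_left _ _).trans (le_max_right _ _)).trans hT)
  obtain ⟨K, hK1, hK2⟩ := exists_nat_pow_near (x := T / V0) (y := 2)
    (by rw [one_le_div (by linarith)]; exact hT) (by norm_num)
  have h2K : (0 : ℝ) < 2 ^ K := by positivity
  have hAV : V0 ≤ T / 2 ^ K := by
    rw [le_div_iff₀ h2K]
    rw [le_div_iff₀ (by linarith)] at hK1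
    linarith
  have hA2 : T / 2 ^ K ≤ 2 * V0 := by
    rw [div_le_iff₀ h2K]
    rw [div_lt_iff₀ (by linarith), pow_succ] at hK2
    linarith
  refine ⟨T / 2 ^ K, hAV, hA2, div_le_self hT0.le (one_le_pow₀ (by norm_num)), fun b hb hbT => ?_⟩
  have hlog2 : Real.log 2 ≤ 1 := by
    have := Real.log_le_sub_one_of_pos (show (0 : ℝ) < 2 by norm_num)
    linarith
  have hlog20 : 0 < Real.log 2 := Real.log_pos (by norm_num)
  set L := Real.log T with hL
  have hbL : b ≤ L := by
    rcases le_total b 1 with h | h
    · linarith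
    · nlinarith
  have hh4 : 2 * Real.pi * b / L ≤ 4 := by
    rw [div_le_iff₀ hL0]
    have h3 : (2 * Real.pi * b) ^ 2 ≤ L ^ 2 := by
      calc (2 * Real.pi * b) ^ 2 = 4 * Real.pi ^ 2 * b ^ 2 := by ring
        _ ≤ L * L := mul_le_mul hL3 hbT (sq_nonneg _) hL0.le
        _ = L ^ 2 := by ring
    have h4 := abs_le_of_sq_le_sq' h3 hL0.le
    linarith [h4.2]
  set h := 2 * Real.pi * b / L with hh
  set M := b ^ 2 + 1 / Real.pi ^ 2 * Real.log (1 + b) with hM
  have hlb : 0 ≤ Real.log (1 + b) := Real.log_nonneg (by linarith)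
  have hM0 : 0 ≤ M := by positivity
  have ind : ∀ k : ℕ, k ≤ K → |Q (T / 2 ^ k) T h - M * (T - T / 2 ^ k)| ≤
      C3 * T * (2 - (k + 2) / 2 ^ k) := by
    intro k
    induction k with
    | zero =>
      intro _
      simp [Q]
    | succ k ih =>
      intro hk
      have ihk := ih (by omega)
      have h2k : (0 : ℝ) < 2 ^ k := by positivity
      set V := T / 2 ^ (k + 1) with hV
      have e2V : T / 2 ^ k = 2 * V := by
        rw [hV, pow_succ]
        field_simp
      have hVK : T / 2 ^ K ≤ V := by
        rw [hV]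
        apply div_le_div_of_nonneg_left hT0.le (by positivity)
        exact pow_le_pow_right₀ (by norm_num) hk
      have hVV : V0 ≤ V := hAV.trans hVK
      have hV1 : T1 ≤ V := ((le_max_left _ _).trans (le_max_left _ _)).trans hVV
      have hV2 : T2 ≤ V := ((le_max_right _ _).trans (le_max_left _ _)).trans hVV
      have hV0' : 0 < V := by linarith
      have hVT : 2 * V ≤ T := by
        rw [← e2V]
        exact div_le_self hT0.le (one_le_pow₀ (by norm_num))
      rw [Q_split (A := V) (C := 2 * V) (T := T) (h := h) (by linarith) (by linarith) hVT]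
      rw [e2V] at ihk
      have hlV : Real.log V = L - (k + 1) * Real.log 2 := by
        rw [hV, Real.log_div (by linarith) (by positivity), Real.log_pow]
        push_cast
        ring
      have hlV1 : 1 ≤ Real.log V := by
        rw [Real.le_log_iff_exp_le hV0']
        linarith [Real.exp_one_lt_d9]
      have hlV0 : 0 < Real.log V := by linarith
      set r := Real.log V / L with hr
      have hr0 : 0 < r := by positivity
      have hr1 : 1 - r = (k + 1) * Real.log 2 / L := by
        rw [hr, hlV]
        field_simp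
        ring
      have hr2 : 0 ≤ 1 - r := by rw [hr1]; positivity
      have hrT : r * L = Real.log V := by rw [hr]; field_simp
      have hbr0 : 0 < b * r := by positivity
      have ecr : 2 * Real.pi * (b * r) / Real.log V = h := by
        rw [hr, hh]; field_simp
      have k1 := h1 V hV1 (b * r) hbr0 ?_ ?_ (by rw [ecr]; exact hh4)
      rotate_left
      · rw [one_mul]
        have h5 : Real.log (b * r) ≤ b * r := (Real.log_le_sub_one_of_pos hbr0).trans (by linarith)
        calc b * r * Real.log (b * r) ≤ (b * r) * (b * r) := mul_le_mul_of_nonneg_left h5 hbr0.le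
          _ = b ^ 2 * r * r := by ring
          _ ≤ L * r * 1 := by
              apply mul_le_mul (by gcongr) (by linarith) hr0.le (by positivity)
          _ = Real.log V := by rw [← hrT]; ring
      · rw [one_mul, ← hrT, mul_comm r]
        gcongr
      rw [ecr] at k1
      have k2 := h2 V hV2
      set n := nn V (2 * V) with hnd
      have e3 : 4 * Real.pi * (b * r) ^ 2 / Real.log V * n - (b * r) ^ 2 * V =
          (b * r) ^ 2 * V + 4 * Real.pi * (b * r) ^ 2 / Real.log V *
            (n - V * Real.log V / (2 * Real.pi)) := by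
        field_simp
        ring
      have h5 : |4 * Real.pi * (b * r) ^ 2 / Real.log V * (n - V * Real.log V / (2 * Real.pi))| ≤
          4 * Real.pi * C2 * V := by
        rw [abs_mul, abs_of_pos (by positivity)]
        have h6 : 4 * Real.pi * (b * r) ^ 2 / Real.log V ≤ 4 * Real.pi := by
          rw [div_le_iff₀ hlV0]
          have h7 : (b * r) ^ 2 ≤ Real.log V := by
            calc (b * r) ^ 2 = b ^ 2 * r * r := by ring
              _ ≤ L * r * 1 := by
                  apply mul_le_mul (by gcongr) (by linarith) hr0.le (by positivity)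
              _ = Real.log V := by rw [← hrT]; ring
          have h77 := mul_le_mul_of_nonneg_left h7 (show 0 ≤ 4 * Real.pi by positivity)
          linarith only [h77]
        calc _ ≤ 4 * Real.pi * (C2 * V) := mul_le_mul h6 k2 (abs_nonneg _) (by positivity)
          _ = _ := by ring
      -- replacing `b r` by `b`
      have h7 : 0 ≤ b ^ 2 * V - (b * r) ^ 2 * V := by
        have h77 : (b * r) ^ 2 ≤ b ^ 2 := by
          apply pow_le_pow_left₀ hbr0.le
          exact mul_le_of_le_one_right hb.le (by linarith only [hr2])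
        exact sub_nonneg.2 (mul_le_mul_of_nonneg_right h77 hV0'.le)
      have h8 : b ^ 2 * V - (b * r) ^ 2 * V ≤ 2 * (k + 1) * V := by
        have h9 : b ^ 2 * (1 - r ^ 2) ≤ 2 * (k + 1) := by
          calc b ^ 2 * (1 - r ^ 2) ≤ L * (2 * (1 - r)) := by
                have g1 : 1 - r ^ 2 ≤ 2 * (1 - r) := by nlinarith only [sq_nonneg (1 - r)]
                have g2 : 0 ≤ 1 - r ^ 2 := by
                  have g3 := mul_nonneg hr2 (show 0 ≤ 1 + r by linarith only [hr0])
                  nlinarith only [g3]
                exact mul_le_mul hbT g1 g2 hL0.le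
            _ = 2 * (k + 1) * Real.log 2 := by rw [hr1]; field_simp
            _ ≤ 2 * (k + 1) * 1 := by gcongr
            _ = _ := by ring
        have e4 : b ^ 2 * V - (b * r) ^ 2 * V = b ^ 2 * (1 - r ^ 2) * V := by ring
        rw [e4]
        exact mul_le_mul_of_nonneg_right h9 hV0'.le
      have h10 : 0 ≤ V / Real.pi ^ 2 * (Real.log (1 + b) - Real.log (1 + b * r)) := by
        apply mul_nonneg (by positivity)
        have := Real.log_le_log (show 0 < 1 + b * r by positivity)
          (show 1 + b * r ≤ 1 + b by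
            have g1 := mul_le_of_le_one_right hb.le (show r ≤ 1 by linarith only [hr2])
            linarith only [g1])
        linarith only [this]
      have h11 : V / Real.pi ^ 2 * (Real.log (1 + b) - Real.log (1 + b * r)) ≤ (k + 1) * V := by
        have h12 : Real.log (1 + b) - Real.log (1 + b * r) ≤ k + 1 := by
          rw [← Real.log_div (by positivity) (by positivity)]
          have h13 := Real.log_le_sub_one_of_pos (show 0 < (1 + b) / (1 + b * r) by positivity)
          have h14 : (1 + b) / (1 + b * r) - 1 ≤ (k + 1) := by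
            rw [sub_le_iff_le_add, div_le_iff₀ (by positivity)]
            have hk0 : (0 : ℝ) ≤ (k : ℝ) + 1 := by positivity
            have e7 : ((k : ℝ) + 1) * r = (k + 1) * Real.log V / L := by rw [hr, mul_div_assoc]
            have h15 : 1 - r ≤ (k + 1) * r := by
              rw [hr1, e7]
              exact div_le_div_of_nonneg_right
                (mul_le_mul_of_nonneg_left (hlog2.trans hlV1) hk0) hL0.le
            have h17 := mul_le_mul_of_nonneg_left h15 hb.le
            linarith only [h17, hk0, hbr0]
          linarith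
        have h13 : V / Real.pi ^ 2 ≤ V := div_le_self hV0'.le (by nlinarith only [hpi3])
        have hk0 : (0 : ℝ) ≤ (k : ℝ) + 1 := by positivity
        calc _ ≤ V / Real.pi ^ 2 * (k + 1) := mul_le_mul_of_nonneg_left h12 (by positivity)
          _ ≤ V * (k + 1) := mul_le_mul_of_nonneg_right h13 hk0
          _ = _ := by ring
      have e5 : C3 * T * (2 - (((k : ℕ) + 1 : ℕ) + 2) / 2 ^ (k + 1)) =
          C3 * T * (2 - (k + 2) / 2 ^ k) + C3 * (k + 1) * V := by
        rw [hV, pow_succ]
        push_cast
        field_simp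
        ring
      have h16 : C1 * V + 4 * Real.pi * C2 * V + 3 * (k + 1) * V ≤ C3 * (k + 1) * V := by
        rw [hC3]
        have h17 : 0 ≤ (C1 + 4 * Real.pi * C2) * k * V := by positivity
        linarith only [h17]
      have e6 : M * (T - V) = M * (T - 2 * V) + (b ^ 2 * V + V / Real.pi ^ 2 * Real.log (1 + b)) := by
        rw [hM]; field_simp; ring
      have a1 := abs_le.1 k1
      have a2 := abs_le.1 ihk
      have a3 := abs_le.1 h5
      rw [mul_sub] at h10 h11
      have eQ : Q V (2 * V) h = ∫ t in V..(2 * V), (cnt t h : ℝ) ^ 2 := rfl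
      rw [e5, e6, eQ, abs_le]
      constructor
      · linarith only [a1.1, a2.1, a3.1, e3, h7, h8, h10, h11, h16, hV0']
      · linarith only [a1.2, a2.2, a3.2, e3, h7, h8, h10, h11, h16, hV0']
  have hK := ind K le_rfl
  have h8 : C3 * T * (2 - (K + 2) / 2 ^ K) ≤ 2 * C3 * T := by
    have : 0 ≤ C3 * T * ((K + 2) / 2 ^ K) := by positivity
    linarith only [this]
  have h9 : M * (T / 2 ^ K) ≤ 4 * V0 * T := by
    have h11 : L ≤ T := by
      have := Real.log_le_sub_one_of_pos hT0
      linarith
    have h12 : M ≤ 2 * T := by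
      have h13 : Real.log (1 + b) ≤ L := by
        have := Real.log_le_sub_one_of_pos (show 0 < 1 + b by linarith)
        linarith
      have h14 : 1 / Real.pi ^ 2 ≤ 1 := by
        rw [div_le_one (by positivity)]
        nlinarith only [hpi3]
      have h15 : 1 / Real.pi ^ 2 * Real.log (1 + b) ≤ 1 * L :=
        mul_le_mul h14 h13 hlb zero_le_one
      rw [hM]
      linarith
    calc M * (T / 2 ^ K) ≤ (2 * T) * (2 * V0) := mul_le_mul h12 hA2 (by positivity) (by positivity)
      _ = _ := by ring
  have h12 : 0 ≤ M * (T / 2 ^ K) := by positivity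
  have a1 := abs_le.1 hK
  rw [abs_le]
  constructor
  · linarith [a1.1]
  · linarith [a1.2]

end Pool.Agent.R319.WB
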